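import Pool.Agent.Lib.MP_3b60c8_lc.Zip

/-! ROW lst-AL. The alphabets `Al b m n`: functions `s` on `n \\ m` with `s j ∈ b j`. -/

set_option synthInstance.maxSize 2000

namespace Pool.Agent.Lib.MP_3b60c8_lc

open Pool.Agent.Lib.MP_f5c99b_lc

universe u

variable {M : Type u} [Membership M M] [hZF : Fact (IsModelOfZF M)]

theorem mem_Al {b m n s : M} : s ∈ Al b m n ↔ IsFun s (diff n m) (om1 M) ∧
    ∀ j, j ∈ diff n m → ap s j ∈ ap b j := by
  unfold Al
  rw [mem_sep, mem_funs]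

theorem Bs_restr {n m b : M} (hn : n ∈ omega M) (h : Bs n b) (hm : Sub m n) (hm' : m ∈ omega M) :
    Bs m (restr b m) := by
  refine ⟨h.1.restr hm, fun j hj => ?_, fun i j hj hi => ?_⟩
  · rw [h.1.ap_restr hm hj]
    exact h.2.1 j (hm j hj)
  · rw [h.1.ap_restr hm hj, h.1.ap_restr hm (omega_mem_trans hm' hi hj)]
    exact h.2.2 i j (hm j hj) hi

/-- `b` followed by a larger countable ordinal -/
theorem Bs_snoc {n b β : M} (hn : n ∈ omega M) (h : Bs n b) (hβ : β ∈ om1 M) (h0 : emp ∈ β)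
    (h1 : ∀ j, j ∈ n → ap b j ∈ β) : Bs (suc n) (snoc b β) ∧ restr (snoc b β) n = b ∧
      ap (snoc b β) n = β := by
  have hf := isFun_snoc hn h.1 hβ
  have hl := ap_snoc_last hn h.1 hβ
  have hs : ∀ i, i ∈ n → ap (snoc b β) i = ap b i := fun i hi => ap_snoc hn h.1 hβ hi
  refine ⟨⟨hf, fun j hj => ?_, fun i j hj hi => ?_⟩, ?_, hl⟩
  · rcases mem_suc.mp hj with hj | rfl
    · rw [hs j hj]; exact h.2.1 j hj
    · rw [hl]; exact h0
  · rcases mem_suc.mp hj with hj | rfl
    · rw [hs j hj, hs i (omega_mem_trans hn hi hj)]; exact h.2.2 i j hj hi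
    · rw [hl, hs i hi]; exact h1 i hi
  · refine (hf.restr (C2_sub_suc n)).ext h.1 fun x hx => ?_
    rw [hf.ap_restr (C2_sub_suc n) hx, hs x hx]

theorem Al_ctbl {n m b : M} (hDC : DC M) (hn : n ∈ omega M) (h : Bs n b) : Ctbl (Al b m n) := by
  have hc : Ctbl (img n (fun j => ap b j)) :=
    (ctbl_omega.sub (S_omega_sub hn)).img (fun j => ap b j)
  have hsub : Sub (img n (fun j => ap b j)) (om1 M) := by
    intro x hx
    obtain ⟨j, hj, rfl⟩ := mem_img.mp hx
    exact h.1.ap_mem hj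
  obtain ⟨α, hα, hb⟩ := om1_bdd hDC hsub hc
  have hαc : Ctbl (suc α) := (mem_om1.mp (suc_mem_om1 hα)).2
  have hαo : Ord α := (mem_om1.mp hα).1
  refine ((hαc.fseq).img (fun q => restr q (diff n m))).sub fun s hs => ?_
  obtain ⟨hs1, hs2⟩ := mem_Al.mp hs
  have hd : dom s = diff n m := hs1.dom
  have hval : ∀ j, j ∈ n → ap (S_ext s emp) j ∈ suc α := by
    intro j hj
    by_cases hjm : j ∈ diff n m
    · rw [S_ext_in (S_omega_sub hn j hj) (by rwa [hd])]
      exact mem_suc.mpr (Or.inl (hαo.trans (hb _ (mem_img.mpr ⟨j, hj, rfl⟩)) (hs2 j hjm)))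
    · rw [S_ext_out (S_omega_sub hn j hj) (by rwa [hd])]
      by_cases h0 : α = emp
      · rw [h0]; exact mem_suc_self _
      · have := hαo.suc
        rcases (ord_emp : Ord (emp : M)).tri hαo with h1 | h1 | h1
        · exact mem_suc.mpr (Or.inl h1)
        · exact absurd h1.symm h0
        · exact absurd h1 (not_mem_emp _)
  have hq : IsFun (lam n (fun j => ap (S_ext s emp) j)) n (suc α) := isFun_lam' hval
  refine mem_img.mpr ⟨lam n (fun j => ap (S_ext s emp) j), mem_fseq.mpr ⟨n, hn, hq⟩, ?_⟩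
  refine hs1.ext (hq.restr diff_sub) fun x hx => ?_
  rw [hq.ap_restr diff_sub hx, ap_lam' (diff_sub x hx),
    S_ext_in (S_omega_sub hn x (diff_sub x hx)) (by rwa [hd])]

theorem Al_ne {n m b : M} (hn : n ∈ omega M) (h : Bs n b) : ∃ s, s ∈ Al b m n := by
  have h0 : IsFun (lam (diff n m) (fun _ => (emp : M))) (diff n m) (om1 M) :=
    isFun_lam' fun j hj => om1_trans (h.1.ap_mem (diff_sub j hj)) (h.2.1 j (diff_sub j hj))
  refine ⟨_, mem_Al.mpr ⟨h0, fun j hj => ?_⟩⟩
  rw [ap_lam' hj]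
  exact h.2.1 j (diff_sub j hj)

/-- only the values of `b` on `n` matter -/
theorem Al_restr {n m k b : M} (h : Bs n b) (hk : Sub k n) : Al (restr b k) m k = Al b m k := by
  refine ext fun s => ?_
  rw [mem_Al, mem_Al]
  refine and_congr_right fun _ => forall_congr' fun j => ?_
  refine imp_congr_right fun hj => ?_
  rw [h.1.ap_restr hk (diff_sub j hj)]

/-- union of two functions with disjoint domains -/
theorem AL_un_fun {A A' s s' S : M} (hs : IsFun s A S) (hs' : IsFun s' A' S)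
    (hd : ∀ x, x ∈ A → x ∉ A') : IsFun (un s s') (un A A') S ∧
      (∀ x, x ∈ A → ap (un s s') x = ap s x) ∧ ∀ x, x ∈ A' → ap (un s s') x = ap s' x := by
  have hF : IsFun (un s s') (un A A') S := by
    refine ⟨fun p hp => ?_, fun x hx => ?_⟩
    · rcases mem_un.mp hp with hp | hp
      · obtain ⟨x, y, hx, hy, e⟩ := hs.1 p hp
        exact ⟨x, y, mem_un.mpr (Or.inl hx), hy, e⟩
      · obtain ⟨x, y, hx, hy, e⟩ := hs'.1 p hp
        exact ⟨x, y, mem_un.mpr (Or.inr hx), hy, e⟩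
    · rcases mem_un.mp hx with hx | hx
      · refine ⟨ap s x, app_iff.mpr (mem_un.mpr (Or.inl (hs.pr_mem.mpr ⟨hx, rfl⟩))), ?_⟩
        intro y hy
        rcases mem_un.mp (app_iff.mp hy) with h | h
        · exact (hs.pr_mem.mp h).2
        · exact absurd (hs'.pr_mem.mp h).1 (hd x hx)
      · refine ⟨ap s' x, app_iff.mpr (mem_un.mpr (Or.inr (hs'.pr_mem.mpr ⟨hx, rfl⟩))), ?_⟩
        intro y hy
        rcases mem_un.mp (app_iff.mp hy) with h | h
        · exact absurd hx (hd x (hs.pr_mem.mp h).1)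
        · exact (hs'.pr_mem.mp h).2
  refine ⟨hF, fun x hx => ?_, fun x hx => ?_⟩
  · exact ((hF.pr_mem.mp (mem_un.mpr (Or.inl (hs.pr_mem.mpr ⟨hx, rfl⟩)))).2).symm
  · exact ((hF.pr_mem.mp (mem_un.mpr (Or.inr (hs'.pr_mem.mpr ⟨hx, rfl⟩)))).2).symm

theorem AL_un_mem {b m k n s s' : M} (hmk : Sub m k) (hkn : Sub k n) (hs : s ∈ Al b m k)
    (hs' : s' ∈ Al b k n) : un s s' ∈ Al b m n ∧
      (∀ x, x ∈ diff k m → ap (un s s') x = ap s x) ∧
      ∀ x, x ∈ diff n k → ap (un s s') x = ap s' x := by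
  obtain ⟨h1, h2⟩ := mem_Al.mp hs
  obtain ⟨h1', h2'⟩ := mem_Al.mp hs'
  have hd : ∀ x, x ∈ diff k m → x ∉ diff n k := fun x hx hx' =>
    (mem_diff.mp hx').2 (mem_diff.mp hx).1
  obtain ⟨hF, ha, ha'⟩ := AL_un_fun h1 h1' hd
  have hU : un (diff k m) (diff n k) = diff n m := by
    refine ext fun x => ?_
    rw [mem_un, mem_diff, mem_diff, mem_diff]
    constructor
    · rintro (⟨h, h'⟩ | ⟨h, h'⟩)
      · exact ⟨hkn x h, h'⟩
      · exact ⟨h, fun hm => h' (hmk x hm)⟩
    · rintro ⟨h, h'⟩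
      by_cases hk : x ∈ k
      · exact Or.inl ⟨hk, h'⟩
      · exact Or.inr ⟨h, hk⟩
  rw [hU] at hF
  refine ⟨mem_Al.mpr ⟨hF, fun j hj => ?_⟩, ha, ha'⟩
  rw [← hU] at hj
  rcases mem_un.mp hj with hj | hj
  · rw [ha j hj]; exact h2 j hj
  · rw [ha' j hj]; exact h2' j hj

theorem jn_mem {b m n h g k : M} (hn : n ∈ omega M) (hm : m ∈ omega M) (hmn : Sub m n)
    (hb : Bs n b) (hh : IsFun h (omega M) (Al b emp m)) (hg : IsFun g (omega M) (Al b m n)) :
    IsFun (jn h g) (omega M) (Al b emp n) := by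
  unfold jn
  exact isFun_lam' fun k hk =>
    (AL_un_mem (emp_sub m) hmn (hh.ap_mem hk) (hg.ap_mem hk)).1

theorem AL_rest {b m k n k' m' s : M} (hd : Sub (diff k' m') (diff n m)) (hs : s ∈ Al b m n) :
    restr s (diff k' m') ∈ Al b m' k' := by
  obtain ⟨h1, h2⟩ := mem_Al.mp hs
  refine mem_Al.mpr ⟨h1.restr hd, fun j hj => ?_⟩
  rw [h1.ap_restr hd hj]
  exact h2 j (hd j hj)

theorem AL_congr {A : M} (P Q : M → Prop) [D (fun v => P (v 0))] [D (fun v => Q (v 0))]
    (h : ∀ x, IsFun x (omega M) A → (P x ↔ Q x)) : Am A P ↔ Am A Q :=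
  ⟨fun h' => Am.mono P Q h' fun x hx hp => (h x hx).mp hp,
    fun h' => Am.mono Q P h' fun x hx hp => (h x hx).mpr hp⟩

/-- splitting a sequence of functions on `n \ m` into functions on `k \ m` and `n \ k` -/
theorem Am_Al (hDC : DC M) (hAD : ADN M) {m k n b : M} (hn : n ∈ omega M) (hm : m ∈ omega M)
    (hk : k ∈ omega M) (hmk : Sub m k) (hkn : Sub k n) (hb : Bs n b) (Q : M → Prop)
    [D (fun v => Q (v 0))] :
    (Am (Al b m n) Q ↔ Am (Al b m k) (fun f => Am (Al b k n) (fun g => Q (jn f g)))) ∧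
    (Am (Al b m n) Q ↔ Am (Al b k n) (fun g => Am (Al b m k) (fun f => Q (jn f g)))) := by
  have d1 : Sub (diff k m) (diff n m) := fun x hx =>
    mem_diff.mpr ⟨hkn x (mem_diff.mp hx).1, (mem_diff.mp hx).2⟩
  have d2 : Sub (diff n k) (diff n m) := fun x hx =>
    mem_diff.mpr ⟨(mem_diff.mp hx).1, fun h => (mem_diff.mp hx).2 (hmk x h)⟩
  have hbk : Bs k (restr b k) := Bs_restr hn hb hkn hk
  have eA : Al (restr b k) m k = Al b m k := Al_restr hb hkn
  have hA : Ctbl (Al b m k) := by rw [← eA]; exact Al_ctbl hDC hk hbk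
  have hA' : ∃ x, x ∈ Al b m k := by rw [← eA]; exact Al_ne hk hbk
  have hB : Ctbl (Al b k n) := Al_ctbl hDC hn hb
  have hB' : ∃ x, x ∈ Al b k n := Al_ne hn hb
  have hC : Ctbl (Al b m n) := Al_ctbl hDC hn hb
  have hfa : IsFun (lam (Al b m n) (fun s => restr s (diff k m))) (Al b m n) (Al b m k) :=
    isFun_lam' fun s hs => AL_rest (k := k) d1 hs
  have hfb : IsFun (lam (Al b m n) (fun s => restr s (diff n k))) (Al b m n) (Al b k n) :=
    isFun_lam' fun s hs => AL_rest (k := k) d2 hs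
  have hbij : ∀ x y, x ∈ Al b m k → y ∈ Al b k n → ∃ c, c ∈ Al b m n ∧
      ap (lam (Al b m n) (fun s => restr s (diff k m))) c = x ∧
      ap (lam (Al b m n) (fun s => restr s (diff n k))) c = y := by
    intro x y hx hy
    obtain ⟨hc, h1, h2⟩ := AL_un_mem hmk hkn hx hy
    refine ⟨un x y, hc, ?_, ?_⟩
    · rw [ap_lam' hc]
      have hF := (mem_Al.mp hc).1
      refine (hF.restr d1).ext (mem_Al.mp hx).1 fun z hz => ?_
      rw [hF.ap_restr d1 hz, h1 z hz]
    · rw [ap_lam' hc]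
      have hF := (mem_Al.mp hc).1
      refine (hF.restr d2).ext (mem_Al.mp hy).1 fun z hz => ?_
      rw [hF.ap_restr d2 hz, h2 z hz]
  have hinj : ∀ c c', c ∈ Al b m n → c' ∈ Al b m n →
      ap (lam (Al b m n) (fun s => restr s (diff k m))) c =
        ap (lam (Al b m n) (fun s => restr s (diff k m))) c' →
      ap (lam (Al b m n) (fun s => restr s (diff n k))) c =
        ap (lam (Al b m n) (fun s => restr s (diff n k))) c' → c = c' := by
    intro c c' hc hc' e1 e2
    rw [ap_lam' hc, ap_lam' hc'] at e1 e2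
    have hF := (mem_Al.mp hc).1
    have hF' := (mem_Al.mp hc').1
    refine hF.ext hF' fun z hz => ?_
    by_cases hzk : z ∈ k
    · have hz1 : z ∈ diff k m := mem_diff.mpr ⟨hzk, (mem_diff.mp hz).2⟩
      rw [← hF.ap_restr d1 hz1, ← hF'.ap_restr d1 hz1, e1]
    · have hz1 : z ∈ diff n k := mem_diff.mpr ⟨(mem_diff.mp hz).1, hzk⟩
      rw [← hF.ap_restr d2 hz1, ← hF'.ap_restr d2 hz1, e2]
  have hjn : ∀ h, IsFun h (omega M) (Al b m n) →
      jn (cmp (omega M) h (lam (Al b m n) (fun s => restr s (diff k m))))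
        (cmp (omega M) h (lam (Al b m n) (fun s => restr s (diff n k)))) = h := by
    intro h hh
    have e : ∀ i, i ∈ omega M →
        un (ap (cmp (omega M) h (lam (Al b m n) (fun s => restr s (diff k m)))) i)
          (ap (cmp (omega M) h (lam (Al b m n) (fun s => restr s (diff n k)))) i) = ap h i := by
      intro i hi
      have hc := hh.ap_mem hi
      have hF := (mem_Al.mp hc).1
      unfold Pool.Agent.Lib.MP_f5c99b_lc.cmp
      rw [ap_lam' hi, ap_lam' hi, ap_lam' hc, ap_lam' hc]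
      obtain ⟨hu, h1, h2⟩ := AL_un_mem hmk hkn (AL_rest (k := k) d1 hc) (AL_rest (k := k) d2 hc)
      refine (mem_Al.mp hu).1.ext hF fun z hz => ?_
      by_cases hzk : z ∈ k
      · have hz1 : z ∈ diff k m := mem_diff.mpr ⟨hzk, (mem_diff.mp hz).2⟩
        rw [h1 z hz1, hF.ap_restr d1 hz1]
      · have hz1 : z ∈ diff n k := mem_diff.mpr ⟨(mem_diff.mp hz).1, hzk⟩
        rw [h2 z hz1, hF.ap_restr d2 hz1]
    unfold jn
    refine (isFun_lam' (b := Al b m n) fun i hi => ?_).ext hh fun i hi => ?_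
    · rw [e i hi]; exact hh.ap_mem hi
    · rw [ap_lam' hi, e i hi]
  have hQ : D (fun v : ℕ → M => Q (v 0)) := inferInstance
  have i1 : D (fun v : ℕ → M => Q (jn (v 0) (v 1))) := D1 hQ _
  have i2 : D (fun v : ℕ → M => Q (jn (v 1) (v 0))) := D1 hQ _
  have i3 : D (fun v : ℕ → M =>
      Q (jn (cmp (omega M) (v 0) (lam (Al b m n) (fun s => restr s (diff k m))))
        (cmp (omega M) (v 0) (lam (Al b m n) (fun s => restr s (diff n k)))))) := D1 hQ _
  have z1 := Am_zip hDC hAD hA hA' hB hB' hC hfa hfb hbij hinj (fun f g => Q (jn f g))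
  have z2 := Am_zip hDC hAD hB hB' hA hA' hC hfb hfa
    (fun x y hx hy => by
      obtain ⟨c, hc, h1, h2⟩ := hbij y x hy hx
      exact ⟨c, hc, h2, h1⟩)
    (fun c c' hc hc' e1 e2 => hinj c c' hc hc' e2 e1) (fun g f => Q (jn f g))
  have z3 := AL_congr (A := Al b m n) (fun h =>
      Q (jn (cmp (omega M) h (lam (Al b m n) (fun s => restr s (diff k m))))
        (cmp (omega M) h (lam (Al b m n) (fun s => restr s (diff n k)))))) Q
    (fun h hh => by rw [hjn h hh])
  exact ⟨z3.symm.trans z1, z3.symm.trans z2⟩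

/-- functions on `{n} = suc n \ n` and ordinals `< b n` -/
theorem Am_single (hDC : DC M) (hAD : ADN M) {n b : M} (hn : n ∈ omega M) (hb : Bs (suc n) b)
    (Q : M → Prop) [D (fun v => Q (v 0))] :
    Am (Al b n (suc n)) Q ↔ Am (ap b n) (fun f => Q (lam (omega M)
      (fun k => upair (pr n (ap f k)) (pr n (ap f k))))) := by
  have hsn := suc_mem_omega hn
  have hnn : n ∉ n := not_mem_self n
  have hdn : n ∈ diff (suc n) n := mem_diff.mpr ⟨mem_suc_self n, hnn⟩
  have hd : ∀ x, x ∈ diff (suc n) n → x = n := fun x hx => by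
    rcases mem_suc.mp (mem_diff.mp hx).1 with h | h
    · exact absurd h (mem_diff.mp hx).2
    · exact h
  have hbn : ap b n ∈ om1 M := hb.1.ap_mem (mem_suc_self n)
  have hA : Ctbl (ap b n) := (mem_om1.mp hbn).2
  have hA' : ∃ x, x ∈ ap b n := ⟨emp, hb.2.1 n (mem_suc_self n)⟩
  have hB : Ctbl (suc (emp : M)) :=
    ctbl_omega.sub (S_omega_sub (suc_mem_omega emp_mem_omega))
  have hB' : ∃ x, x ∈ suc (emp : M) := ⟨emp, mem_suc_self _⟩
  have hC : Ctbl (Al b n (suc n)) := Al_ctbl hDC hsn hb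
  have hfa : IsFun (lam (Al b n (suc n)) (fun s => ap s n)) (Al b n (suc n)) (ap b n) :=
    isFun_lam' fun s hs => (mem_Al.mp hs).2 n hdn
  have hfb : IsFun (lam (Al b n (suc n)) (fun _ => (emp : M))) (Al b n (suc n)) (suc emp) :=
    isFun_lam' fun s hs => mem_suc_self _
  -- the single function
  have hsg : ∀ x, x ∈ ap b n → upair (pr n x) (pr n x) ∈ Al b n (suc n) ∧
      ap (upair (pr n x) (pr n x)) n = x := by
    intro x hx
    have hxo : x ∈ om1 M := om1_trans hbn hx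
    have hF : IsFun (upair (pr n x) (pr n x)) (diff (suc n) n) (om1 M) := by
      refine ⟨fun p hp => ?_, fun y hy => ?_⟩
      · have e : p = pr n x := by
          rcases mem_upair.mp hp with h | h <;> exact h
        exact ⟨n, x, hdn, hxo, isPair_iff.mpr e⟩
      · rw [hd y hy]
        refine ⟨x, app_iff.mpr (mem_upair.mpr (Or.inl rfl)), fun z hz => ?_⟩
        rcases mem_upair.mp (app_iff.mp hz) with h | h <;> exact (pr_inj h).2
    have hv : ap (upair (pr n x) (pr n x)) n = x :=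
      ((hF.pr_mem.mp (mem_upair.mpr (Or.inl rfl))).2).symm
    refine ⟨mem_Al.mpr ⟨hF, fun j hj => ?_⟩, hv⟩
    rw [hd j hj, hv]
    exact hx
  have hsgl : ∀ s, s ∈ Al b n (suc n) → upair (pr n (ap s n)) (pr n (ap s n)) = s := by
    intro s hs
    obtain ⟨h1, h2⟩ := mem_Al.mp hs
    obtain ⟨h3, h4⟩ := hsg (ap s n) (h2 n hdn)
    refine (mem_Al.mp h3).1.ext h1 fun x hx => ?_
    rw [hd x hx, h4]
  have hbij : ∀ x y, x ∈ ap b n → y ∈ suc (emp : M) → ∃ c, c ∈ Al b n (suc n) ∧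
      ap (lam (Al b n (suc n)) (fun s => ap s n)) c = x ∧
      ap (lam (Al b n (suc n)) (fun _ => (emp : M))) c = y := by
    intro x y hx hy
    obtain ⟨h1, h2⟩ := hsg x hx
    refine ⟨_, h1, ?_, ?_⟩
    · rw [ap_lam' h1, h2]
    · rw [ap_lam' h1]
      rcases mem_suc.mp hy with h | h
      · exact absurd h (not_mem_emp _)
      · exact h.symm
  have hinj : ∀ c c', c ∈ Al b n (suc n) → c' ∈ Al b n (suc n) →
      ap (lam (Al b n (suc n)) (fun s => ap s n)) c =
        ap (lam (Al b n (suc n)) (fun s => ap s n)) c' →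
      ap (lam (Al b n (suc n)) (fun _ => (emp : M))) c =
        ap (lam (Al b n (suc n)) (fun _ => (emp : M))) c' → c = c' := by
    intro c c' hc hc' e1 _
    rw [ap_lam' hc, ap_lam' hc'] at e1
    rw [← hsgl c hc, ← hsgl c' hc', e1]
  have hQ : D (fun v : ℕ → M => Q (v 0)) := inferInstance
  have i1 : D (fun v : ℕ → M => Q (lam (omega M)
      (fun k => upair (pr n (ap (v 0) k)) (pr n (ap (v 0) k))))) := D1 hQ _
  have i3 : D (fun v : ℕ → M => Q (lam (omega M)
      (fun k => upair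
        (pr n (ap (cmp (omega M) (v 0) (lam (Al b n (suc n)) (fun s => ap s n))) k))
        (pr n (ap (cmp (omega M) (v 0) (lam (Al b n (suc n)) (fun s => ap s n))) k))))) :=
    D1 hQ _
  have i4 : D (fun v : ℕ → M => (fun f _ : M => Q (lam (omega M)
      (fun k => upair (pr n (ap f k)) (pr n (ap f k))))) (v 0) (v 1)) := D1 hQ _
  have i5 : D (fun v : ℕ → M => Q (lam (omega M)
      (fun k => upair (pr n (ap (v 1) k)) (pr n (ap (v 1) k))))) := D1 hQ _
  have i6 : D (fun v : ℕ → M => Am (suc (emp : M)) (fun _ => Q (lam (omega M)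
      (fun k => upair (pr n (ap (v 0) k)) (pr n (ap (v 0) k)))))) :=
    D_Am (A := fun _ => suc (emp : M)) (P := fun v _ => Q (lam (omega M)
      (fun k => upair (pr n (ap (v 0) k)) (pr n (ap (v 0) k))))) (h := i5)
  have z1 := Am_zip hDC hAD hA hA' hB hB' hC hfa hfb hbij hinj
    (fun f _ => Q (lam (omega M) (fun k => upair (pr n (ap f k)) (pr n (ap f k)))))
  have z3 := AL_congr (A := Al b n (suc n)) (fun h => Q (lam (omega M)
      (fun k => upair
        (pr n (ap (cmp (omega M) h (lam (Al b n (suc n)) (fun s => ap s n))) k))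
        (pr n (ap (cmp (omega M) h (lam (Al b n (suc n)) (fun s => ap s n))) k))))) Q
    (fun h hh => by
      have e : lam (omega M) (fun k => upair
          (pr n (ap (cmp (omega M) h (lam (Al b n (suc n)) (fun s => ap s n))) k))
          (pr n (ap (cmp (omega M) h (lam (Al b n (suc n)) (fun s => ap s n))) k))) = h := by
        have e' : ∀ k, k ∈ omega M → upair
            (pr n (ap (cmp (omega M) h (lam (Al b n (suc n)) (fun s => ap s n))) k))
            (pr n (ap (cmp (omega M) h (lam (Al b n (suc n)) (fun s => ap s n))) k)) =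
              ap h k := by
          intro k hk
          unfold Pool.Agent.Lib.MP_f5c99b_lc.cmp
          rw [ap_lam' hk, ap_lam' (hh.ap_mem hk), hsgl _ (hh.ap_mem hk)]
        refine (isFun_lam' (b := Al b n (suc n)) fun i hi => ?_).ext hh fun i hi => ?_
        · rw [e' i hi]; exact hh.ap_mem hi
        · rw [ap_lam' hi, e' i hi]
      rw [e])
  refine z3.symm.trans (z1.trans (AL_congr (A := ap b n) _ _ fun f hf => ⟨fun h => ?_, fun h => ?_⟩))
  · obtain ⟨x, _, hx⟩ := Am.exists hDC hB hB' (fun _ => Q (lam (omega M)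
      (fun k => upair (pr n (ap f k)) (pr n (ap f k))))) h
    exact hx
  · exact Am.of_all hB hB' (fun _ => Q (lam (omega M)
      (fun k => upair (pr n (ap f k)) (pr n (ap f k))))) fun _ _ => h

end Pool.Agent.Lib.MP_3b60c8_lc
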