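import Pool.Agent.Lib.MP_3b60c8_lc.Cat

/-! ROW lst-AM. The quantifier `Am A P` (almost all `h ∈ A ^ ω` satisfy `P`), from the
facts on meager sets of `MP_7b07e0_lc/Space.lean`, `csp_seq`, `mgr_not_onto` of `Seq.lean` and
`union_om1`. -/

set_option synthInstance.maxSize 2000

namespace Pool.Agent.Lib.MP_3b60c8_lc

open Pool.Agent.Lib.MP_f5c99b_lc

universe u

variable {M : Type u} [Membership M M] [hZF : Fact (IsModelOfZF M)]

theorem Am.mono {A : M} (P Q : M → Prop) [D (fun v => P (v 0))] [D (fun v => Q (v 0))]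
    (h : Am A P) (hPQ : ∀ x, IsFun x (omega M) A → P x → Q x) : Am A Q := by
  refine Mgr.sub h fun x hx => ?_
  obtain ⟨h1, h2⟩ := mem_sep.mp hx
  exact mem_sep.mpr ⟨h1, fun h3 => h2 (hPQ x (mem_funs.mp h1) h3)⟩

theorem Am.and {A : M} (hA : Ctbl A) (hne : ∃ x, x ∈ A) (P Q : M → Prop)
    [D (fun v => P (v 0))] [D (fun v => Q (v 0))] (h : Am A P) (h' : Am A Q) :
    Am A (fun x => P x ∧ Q x) := by
  refine Mgr.sub (Mgr.un (S_base hA hne) h h') fun x hx => ?_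
  obtain ⟨h1, h2⟩ := mem_sep.mp hx
  by_cases h3 : P x
  · exact mem_un.mpr (Or.inr (mem_sep.mpr ⟨h1, fun h4 => h2 ⟨h3, h4⟩⟩))
  · exact mem_un.mpr (Or.inl (mem_sep.mpr ⟨h1, h3⟩))

theorem Am.of_all {A : M} (hA : Ctbl A) (hne : ∃ x, x ∈ A) (P : M → Prop)
    [D (fun v => P (v 0))] (h : ∀ x, IsFun x (omega M) A → P x) : Am A P := by
  refine Mgr.sub (mgr_emp (S_base hA hne)) fun x hx => ?_
  obtain ⟨h1, h2⟩ := mem_sep.mp hx
  exact absurd (h x (mem_funs.mp h1)) h2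

/-- a property of almost all sequences holds for some sequence -/
theorem Am.exists (hDC : DC M) {A : M} (hA : Ctbl A) (hne : ∃ x, x ∈ A) (P : M → Prop)
    [D (fun v => P (v 0))] (h : Am A P) : ∃ x, IsFun x (omega M) A ∧ P x := by
  have hu : cone A emp ∈ coneB A := mem_coneB.mpr ⟨emp, emp_mem_fseq A, rfl⟩
  have hm : Mgr (coneB A) (funs (omega M) A) (sep (cone A emp) (fun x => ¬ P x)) := by
    refine Mgr.sub h fun x hx => ?_
    obtain ⟨h1, h2⟩ := mem_sep.mp hx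
    exact mem_sep.mpr ⟨mem_funs.mpr (mem_cone.mp h1).1, h2⟩
  obtain ⟨x, hx, hP⟩ := (csp_seq hA hne).exists_of_mgr hDC hu P hm
  exact ⟨x, (mem_cone.mp hx).1, hP⟩

/-- almost all sequences are onto -/
theorem Am_surj (hDC : DC M) {A : M} (hA : Ctbl A) (hne : ∃ x, x ∈ A) :
    Am A (fun x => Surj x (omega M) A) :=
  mgr_not_onto hDC hA hne

/-- `ω₁` many properties -/
theorem Am.forall_om1 (hDC : DC M) (hAD : ADN M) {A I : M} (hA : Ctbl A) (hne : ∃ x, x ∈ A)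
    (hI : Emb I (om1 M)) (Q : M → M → Prop) [D (fun v => Q (v 0) (v 1))]
    (h : ∀ i, i ∈ I → Am A (Q i)) : Am A (fun x => ∀ i, i ∈ I → Q i x) := by
  rename_i hQ
  have h2 : D (fun v : ℕ → M => ¬ Q (v 1) (v 0)) := by
    have := D2 hQ (fun v : ℕ → M => v 1) (fun v : ℕ → M => v 0)
    infer_instance
  have hD : DT (fun v : ℕ → M => sep (funs (omega M) A) (fun x => ¬ Q (v 0) x)) := by
    infer_instance
  refine Mgr.sub (union_om1 hDC hAD (csp_seq hA hne) hI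
    (fun i => sep (funs (omega M) A) (fun x => ¬ Q i x)) (fun i hi => h i hi)) fun x hx => ?_
  have h3 : D (fun v : ℕ → M => ∀ i, i ∈ I → Q i (v 0)) := by
    have := D2 hQ (fun v : ℕ → M => v 0) (fun v : ℕ → M => v 1)
    infer_instance
  obtain ⟨h4, h5⟩ := mem_sep.mp hx
  push Not at h5
  obtain ⟨i, hi, h6⟩ := h5
  have h7 : D (fun v : ℕ → M => ¬ Q i (v 0)) := by
    have := D2 hQ (fun _ : ℕ → M => i) (fun v : ℕ → M => v 0)
    infer_instance
  exact mem_sU.mpr ⟨_, mem_img.mpr ⟨i, hi, rfl⟩, mem_sep.mpr ⟨h4, h6⟩⟩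

end Pool.Agent.Lib.MP_3b60c8_lc
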