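import Pool.Agent.Lib.MP_3b60c8_lc.Rnk

/-! ROW lst-BDD. Boundedness. `W` = set of all pairs `(t, u)` of finite sequences in `ω` such
that for all `suc j ∈ dom u`, with `k = e (0, (u (j + 1), u j))`: `k ≤ dom t` and
`σ (restr t k) = 0` (so `(u (j + 1), u j) ∈ dO e (repI σ y)` for every `y ⊇ t`). `(t', u')` is
below `(t, u)` if `t ⊂ t'` and `u ⊂ u'` properly. This is wellfounded: an infinite
descending sequence (`dc_rel`) gives `y` and a sequence `u : ω → ω` with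
`f (u (j + 1)) ∈ f (u j)`. Let `ρ` be the rank (`exists_rank`). Fix `y, f, β`. For `(t, u) ∈ W`,
`t ⊂ y`, `a` the last term of `u`: `f a ≤ ρ (t, u)` (induction on `f a`: for `γ ∈ f a` choose
`a'` with `f a' = γ`, extend `u` by `a'` and `t` to a long restriction of `y`). So
`f a ≤ ρ (emp, (a))`; take `δ` above all `ρ (emp, (a))`, then `β ⊆ δ`. -/

set_option synthInstance.maxSize 2000

namespace Pool.Agent.Lib.MP_3b60c8_lc

open Pool.Agent.Lib.MP_f5c99b_lc

universe u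

variable {M : Type u} [Membership M M] [hZF : Fact (IsModelOfZF M)]

/-- the index of the pair `(u (j + 1), u j)`, where `u` is the second component of `s` -/
noncomputable def BDD_k (e s j : M) : M :=
  ap e (pr emp (pr (snd (ap s (suc j))) (snd (ap s j))))

instance DT_BDD_k (t1 t2 t3 : (ℕ → M) → M) [DT t1] [DT t2] [DT t3] :
    DT (fun v => BDD_k (t1 v) (t2 v) (t3 v)) := by
  refine DT3 (f := BDD_k) ?_ t1 t2 t3
  unfold BDD_k
  infer_instance

/-- the first component of `s`, restricted to `k` -/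
noncomputable def BDD_l (s k : M) : M := lam k (fun i => fst (ap s i))

instance DT_BDD_l (t1 t2 : (ℕ → M) → M) [DT t1] [DT t2] :
    DT (fun v => BDD_l (t1 v) (t2 v)) := by
  refine DT2 (f := BDD_l) ?_ t1 t2
  unfold BDD_l
  infer_instance

/-- `s` is an attempt at a descending sequence -/
def BDD_ok (e σ s : M) : Prop := ∀ j, suc j ∈ dom s → Sub (BDD_k e s j) (dom s) →
  ap σ (BDD_l s (BDD_k e s j)) = emp

instance D_BDD_ok (t1 t2 t3 : (ℕ → M) → M) [DT t1] [DT t2] [DT t3] :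
    D (fun v => BDD_ok (t1 v) (t2 v) (t3 v)) := by
  refine D3 (P := BDD_ok) ?_ t1 t2 t3
  unfold BDD_ok
  infer_instance

/-- the tree of attempts -/
noncomputable def BDD_T (e σ : M) : M :=
  sep (fseq (prod (omega M) (omega M))) (fun s => BDD_ok e σ s)

/-- one step extension -/
noncomputable def BDD_R (e σ : M) : M := sep (prod (BDD_T e σ) (BDD_T e σ))
  (fun z => ∃ x, x ∈ prod (omega M) (omega M) ∧ fst z = snoc (snd z) x)

theorem BDD_mem_T {e σ s : M} : s ∈ BDD_T e σ ↔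
    s ∈ fseq (prod (omega M) (omega M)) ∧ BDD_ok e σ s := mem_sep

theorem BDD_app_R {e σ s s' : M} : App (BDD_R e σ) s' s ↔ s' ∈ BDD_T e σ ∧ s ∈ BDD_T e σ ∧
    ∃ x, x ∈ prod (omega M) (omega M) ∧ s' = snoc s x := by
  rw [app_iff, BDD_R, mem_sep, pr_mem_prod, fst_pr, snd_pr, and_assoc]

theorem BDD_ctbl {e σ : M} : Ctbl (BDD_T e σ) :=
  (Ctbl.fseq (ctbl_omega.prod ctbl_omega)).sub sep_sub

theorem BDD_k_mem {e s j n : M} (he : Inj e (KK M) (omega M))
    (hs : IsFun s n (prod (omega M) (omega M))) (h1 : suc j ∈ n) (h2 : j ∈ n) :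
    BDD_k e s j ∈ omega M := by
  refine he.1.ap_mem ?_
  rw [KK, pr_mem_prod, mem_un, pr_mem_prod]
  exact ⟨emp_mem_omega, Or.inl ⟨snd_mem (hs.ap_mem h1), snd_mem (hs.ap_mem h2)⟩⟩

theorem BDD_mem_dO {e σ y m n : M} (he : Inj e (KK M) (omega M)) (hy : IsFun y (omega M) (omega M))
    (hm : m ∈ omega M) (hn : n ∈ omega M) :
    pr m n ∈ dO e (repI σ y) ↔
      ap σ (lam (ap e (pr emp (pr m n))) (fun i => ap y i)) = emp := by
  have hk : ap e (pr emp (pr m n)) ∈ omega M := by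
    refine he.1.ap_mem ?_
    rw [KK, pr_mem_prod, mem_un, pr_mem_prod]
    exact ⟨emp_mem_omega, Or.inl ⟨hm, hn⟩⟩
  rw [dO, mem_sep, pr_mem_prod, repI, ap_lam' hk, hy.restr_eq (S_omega_sub hk)]
  exact ⟨fun h => h.2, fun h => ⟨⟨hm, hn⟩, h⟩⟩

theorem BDD_lam_congr {k : M} {s t : M → M} [DT (fun v => s (v 0))] [DT (fun v => t (v 0))]
    (h : ∀ x, x ∈ k → s x = t x) : lam k s = lam k t := by
  refine Pool.Agent.Lib.MP_f5c99b_lc.ext fun p => ?_
  rw [mem_lam', mem_lam']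
  constructor
  · rintro ⟨x, hx, rfl⟩
    exact ⟨x, hx, by rw [h x hx]⟩
  · rintro ⟨x, hx, rfl⟩
    exact ⟨x, hx, by rw [h x hx]⟩

theorem mem_oc_BDD {f m n : M} (hm : m ∈ omega M) (hn : n ∈ omega M) :
    pr m n ∈ oc f ↔ ap f m ∈ ap f n := by
  rw [oc, mem_sep, fst_pr, snd_pr, pr_mem_prod]
  exact ⟨fun h => h.2, fun h => ⟨⟨hm, hn⟩, h⟩⟩

/-- there is no infinite descending sequence of attempts -/
theorem BDD_wf (hDC : DC M) {e σ : M} (he : Inj e (KK M) (omega M))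
    (h : ∀ y, IsFun y (omega M) (omega M) → ∃ β f, β ∈ om1 M ∧ Surj f (omega M) β ∧
      dO e (repI σ y) = oc f) :
    ∀ X, Sub X (BDD_T e σ) → (∃ x, x ∈ X) →
      ∃ x, x ∈ X ∧ ∀ y, y ∈ X → ¬ App (BDD_R e σ) y x := by
  intro X hX hne
  by_contra hcon
  push Not at hcon
  obtain ⟨x0, hx0⟩ := hne
  obtain ⟨g, hg, -, hg1⟩ := dc_rel hDC hx0 (fun x y => App (BDD_R e σ) y x) hcon
  have hgT : ∀ m, m ∈ omega M → ap g m ∈ BDD_T e σ := fun m hm => hX _ (hg.ap_mem hm)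
  have hstep : ∀ m, m ∈ omega M → Sub (ap g m) (ap g (suc m)) ∧
      suc (dom (ap g m)) = dom (ap g (suc m)) := by
    intro m hm
    obtain ⟨-, h2, x, hx, h3⟩ := BDD_app_R.mp (hg1 m hm)
    obtain ⟨n, hn, hs⟩ := mem_fseq.mp (BDD_mem_T.mp h2).1
    rw [h3]
    refine ⟨fun q hq => mem_un.mpr (Or.inl hq), ?_⟩
    rw [(isFun_snoc hn hs hx).dom, hs.dom]
  have hdom : ∀ m, m ∈ omega M → ∃ n, n ∈ omega M ∧ IsFun (ap g m) n (prod (omega M) (omega M)) := by
    intro m hm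
    exact mem_fseq.mp (BDD_mem_T.mp (hgT m hm)).1
  have hmono : ∀ m, m ∈ omega M → ∀ n, n ∈ m → Sub (ap g n) (ap g m) := by
    refine omega_induction (fun m => ∀ n, n ∈ m → Sub (ap g n) (ap g m)) ?_ ?_
    · intro n hn
      exact absurd hn (not_mem_emp n)
    · intro m hm ih n hn
      rcases mem_suc.mp hn with h1 | rfl
      · exact (ih n h1).trans (hstep m hm).1
      · exact (hstep _ hm).1
  have hlen : ∀ m, m ∈ omega M → Sub m (dom (ap g m)) := by
    refine omega_induction (fun m => Sub m (dom (ap g m))) (emp_sub _) ?_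
    intro m hm ih i hi
    obtain ⟨n, hn, hs⟩ := hdom m hm
    rw [← (hstep m hm).2]
    rw [hs.dom] at ih ⊢
    rcases mem_suc.mp hi with h1 | rfl
    · exact mem_suc.mpr (Or.inl (ih i h1))
    · exact mem_suc.mpr ((omega_sub_iff hm hn).mp ih)
  have hagree : ∀ m, m ∈ omega M → ∀ m', m' ∈ omega M → ∀ i, i ∈ dom (ap g m) →
      i ∈ dom (ap g m') → ap (ap g m) i = ap (ap g m') i := by
    intro m hm m' hm' i hi hi'
    obtain ⟨n, hn, hs⟩ := hdom m hm
    obtain ⟨n', hn', hs'⟩ := hdom m' hm'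
    rw [hs.dom] at hi
    rw [hs'.dom] at hi'
    rcases omega_tri hm hm' with h1 | rfl | h1
    · exact (S_ap_eq hs hs' (hmono m' hm' m h1) hi).symm
    · rfl
    · exact S_ap_eq hs' hs (hmono m hm m' h1) hi'
  -- the limit
  have hmem : ∀ i, i ∈ omega M → ap (ap g (suc i)) i ∈ prod (omega M) (omega M) := by
    intro i hi
    have hsi := suc_mem_omega hi
    obtain ⟨n, hn, hs⟩ := hdom (suc i) hsi
    have h1 := hlen (suc i) hsi i (mem_suc_self i)
    rw [hs.dom] at h1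
    exact hs.ap_mem h1
  have hSv : ∀ m, m ∈ omega M → ∀ i, i ∈ dom (ap g m) → i ∈ omega M ∧
      ap (ap g m) i = ap (ap g (suc i)) i := by
    intro m hm i hi
    obtain ⟨n, hn, hs⟩ := hdom m hm
    have hi' : i ∈ omega M := by
      rw [hs.dom] at hi
      exact omega_trans hn hi
    exact ⟨hi', hagree m hm (suc i) (suc_mem_omega hi') i hi
      (hlen (suc i) (suc_mem_omega hi') i (mem_suc_self i))⟩
  have hyf : IsFun (lam (omega M) (fun i => fst (ap (ap g (suc i)) i))) (omega M) (omega M) :=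
    isFun_lam' fun i hi => fst_mem (hmem i hi)
  obtain ⟨β, f, hβ, hf, hO⟩ := h _ hyf
  have hdesc : ∀ j, j ∈ omega M → ap f (snd (ap (ap g (suc (suc j))) (suc j))) ∈
      ap f (snd (ap (ap g (suc j)) j)) := by
    intro j hj
    have hsj := suc_mem_omega hj
    have ha := snd_mem (hmem j hj)
    have hb := snd_mem (hmem (suc j) hsj)
    rw [← mem_oc_BDD hb ha, ← hO, BDD_mem_dO he hyf hb ha]
    -- a late stage
    have hk : ap e (pr emp (pr (snd (ap (ap g (suc (suc j))) (suc j)))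
        (snd (ap (ap g (suc j)) j)))) ∈ omega M := by
      refine he.1.ap_mem ?_
      rw [KK, pr_mem_prod, mem_un, pr_mem_prod]
      exact ⟨emp_mem_omega, Or.inl ⟨hb, ha⟩⟩
    obtain ⟨m, hm, h1, h2⟩ : ∃ m, m ∈ omega M ∧ suc (suc j) ∈ suc m ∧
        Sub (ap e (pr emp (pr (snd (ap (ap g (suc (suc j))) (suc j)))
          (snd (ap (ap g (suc j)) j))))) m := by
      have hssj := suc_mem_omega hsj
      rcases omega_tri hk hssj with h1 | h1 | h1
      · exact ⟨suc (suc j), hssj, mem_suc_self _, (omega_sub_iff hk hssj).mpr (Or.inl h1)⟩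
      · exact ⟨suc (suc j), hssj, mem_suc_self _, (omega_sub_iff hk hssj).mpr (Or.inr h1)⟩
      · exact ⟨_, hk, mem_suc.mpr (Or.inl h1), Sub.refl _⟩
    have hssj : suc j ∈ m := by
      rcases mem_suc.mp h1 with h3 | h3
      · exact omega_mem_trans hm (mem_suc_self _) h3
      · rw [← h3]
        exact mem_suc_self _
    have hd1 : suc j ∈ dom (ap g m) := hlen m hm _ hssj
    have hd0 : j ∈ dom (ap g m) := hlen m hm _ (omega_mem_trans hm (mem_suc_self _) hssj)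
    have e1 := (hSv m hm (suc j) hd1).2
    have e0 := (hSv m hm j hd0).2
    have h3 := (BDD_mem_T.mp (hgT m hm)).2 j hd1
    have hkk : BDD_k e (ap g m) j = ap e (pr emp (pr (snd (ap (ap g (suc (suc j))) (suc j)))
          (snd (ap (ap g (suc j)) j)))) := by
      rw [BDD_k, e1, e0]
    rw [hkk] at h3
    have h4 := h3 (h2.trans (hlen m hm))
    refine Eq.trans ?_ h4
    refine congrArg (ap σ) (BDD_lam_congr fun i hi => ?_)
    have hi1 := hlen m hm i (h2 i hi)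
    rw [ap_lam' (omega_trans hk hi), (hSv m hm i hi1).2]
  -- contradiction
  obtain ⟨z, hz, -, hmin⟩ := exists_min (a := img (omega M) (fun j => ap f (snd (ap (ap g (suc j)) j))))
    (fun _ => True) ⟨_, mem_img.mpr ⟨emp, emp_mem_omega, rfl⟩, trivial⟩
  obtain ⟨j, hj, rfl⟩ := mem_img.mp hz
  exact hmin _ (hdesc j hj) (mem_img.mpr ⟨suc j, suc_mem_omega hj, rfl⟩) trivial

/-- `s` is an attempt of length `n + 1` along `y` with last value `α` -/
def BDD_C (y f n s α : M) : Prop := IsFun s (suc n) (prod (omega M) (omega M)) ∧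
  (∀ i, i ∈ suc n → fst (ap s i) = ap y i) ∧
  (∀ j, suc j ∈ suc n → ap f (snd (ap s (suc j))) ∈ ap f (snd (ap s j))) ∧
  ap f (snd (ap s n)) = α

instance D_BDD_C (t1 t2 t3 t4 t5 : (ℕ → M) → M) [DT t1] [DT t2] [DT t3] [DT t4] [DT t5] :
    D (fun v => BDD_C (t1 v) (t2 v) (t3 v) (t4 v) (t5 v)) := by
  refine D5 (P := BDD_C) ?_ t1 t2 t3 t4 t5
  unfold BDD_C
  infer_instance

theorem BDD_C_mem {e σ y f n s α : M} (he : Inj e (KK M) (omega M))
    (hy : IsFun y (omega M) (omega M)) (hO : dO e (repI σ y) = oc f) (hn : n ∈ omega M)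
    (h : BDD_C y f n s α) : s ∈ BDD_T e σ := by
  obtain ⟨hs, h1, h2, -⟩ := h
  refine BDD_mem_T.mpr ⟨mem_fseq.mpr ⟨_, suc_mem_omega hn, hs⟩, ?_⟩
  intro j hj hk
  rw [hs.dom] at hj hk
  have hj' : j ∈ suc n := omega_mem_trans (suc_mem_omega hn) (mem_suc_self j) hj
  have hb := snd_mem (hs.ap_mem hj)
  have ha := snd_mem (hs.ap_mem hj')
  have h3 := h2 j hj
  rw [← mem_oc_BDD hb ha, ← hO, BDD_mem_dO he hy hb ha] at h3
  refine Eq.trans ?_ h3
  exact congrArg (ap σ) (BDD_lam_congr fun i hi => h1 i (hk i hi))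

theorem BDD_le {e σ y f β ρ : M} (he : Inj e (KK M) (omega M))
    (hy : IsFun y (omega M) (omega M)) (hO : dO e (repI σ y) = oc f) (hβ : β ∈ om1 M)
    (hf : Surj f (omega M) β) (hρ : IsFun ρ (BDD_T e σ) (om1 M))
    (hρ2 : ∀ x y, x ∈ BDD_T e σ → y ∈ BDD_T e σ → App (BDD_R e σ) y x → ap ρ y ∈ ap ρ x) :
    ∀ α : M, Ord α → ∀ n s : M, n ∈ omega M → BDD_C y f n s α → Sub α (ap ρ s) := by
  refine ord_induct (fun α => ∀ n s, n ∈ omega M → BDD_C y f n s α → Sub α (ap ρ s)) ?_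
  intro α hα ih n s hn hs γ hγ
  have hsT := BDD_C_mem he hy hO hn hs
  obtain ⟨hs1, hs2, hs3, hs4⟩ := hs
  have hsn := suc_mem_omega hn
  have hv := snd_mem (hs1.ap_mem (mem_suc_self n))
  have hαβ : α ∈ β := by
    rw [← hs4]
    exact hf.1.ap_mem hv
  have hγβ : γ ∈ β := (mem_om1.mp hβ).1.trans hαβ hγ
  obtain ⟨a', ha', hfa'⟩ := hf.2 γ hγβ
  have hx : pr (ap y (suc n)) a' ∈ prod (omega M) (omega M) :=
    pr_mem_prod.mpr ⟨hy.ap_mem hsn, ha'⟩
  have hC : BDD_C y f (suc n) (snoc s (pr (ap y (suc n)) a')) γ := by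
    refine ⟨isFun_snoc hsn hs1 hx, ?_, ?_, ?_⟩
    · intro i hi
      rcases mem_suc.mp hi with h1 | rfl
      · rw [ap_snoc hsn hs1 hx h1]
        exact hs2 i h1
      · rw [ap_snoc_last hsn hs1 hx, fst_pr]
    · intro j hj
      rcases mem_suc.mp hj with h1 | h1
      · have h2 : j ∈ suc n := omega_mem_trans hsn (mem_suc_self j) h1
        rw [ap_snoc hsn hs1 hx h1, ap_snoc hsn hs1 hx h2]
        exact hs3 j h1
      · have h2 : j = n := suc_inj h1
        subst h2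
        rw [ap_snoc_last hsn hs1 hx, ap_snoc hsn hs1 hx (mem_suc_self j), snd_pr, hfa', hs4]
        exact hγ
    · rw [ap_snoc_last hsn hs1 hx, snd_pr, hfa']
  have hT' := BDD_C_mem he hy hO hsn hC
  have h5 := hρ2 _ _ hsT hT' (BDD_app_R.mpr ⟨hT', hsT, _, hx, rfl⟩)
  have h6 := ih γ hγ (suc n) _ hsn hC
  have hoγ : Ord γ := hα.mem hγ
  have ho' : Ord (ap ρ (snoc s (pr (ap y (suc n)) a'))) := (mem_om1.mp (hρ.ap_mem hT')).1
  have ho : Ord (ap ρ s) := (mem_om1.mp (hρ.ap_mem hsT)).1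
  rcases (hoγ.sub_iff ho').mp h6 with h7 | h7
  · exact ho.trans h5 h7
  · rw [h7]
    exact h5

theorem bdd (hDC : DC M) {e σ : M} (he : Inj e (KK M) (omega M))
    (hσ : IsFun σ (fseq (omega M)) (omega M))
    (h : ∀ y, IsFun y (omega M) (omega M) → ∃ β f, β ∈ om1 M ∧ Surj f (omega M) β ∧
      dO e (repI σ y) = oc f) :
    ∃ δ, δ ∈ om1 M ∧ ∀ y β f, IsFun y (omega M) (omega M) → β ∈ om1 M →
      Surj f (omega M) β → dO e (repI σ y) = oc f → β ∈ δ := by
  have _ := hσ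
  obtain ⟨ρ, hρ, hρ2⟩ := exists_rank hDC (BDD_ctbl (e := e) (σ := σ)) (BDD_wf hDC he h)
  obtain ⟨δ, hδ, hδ2⟩ := om1_bdd hDC (a := img (BDD_T e σ) (fun s => ap ρ s)) (by
    intro x hx
    obtain ⟨s, hs, rfl⟩ := mem_img.mp hx
    exact hρ.ap_mem hs) (BDD_ctbl.img _)
  refine ⟨suc δ, suc_mem_om1 hδ, ?_⟩
  intro y β f hy hβ hf hO
  have hoβ : Ord β := (mem_om1.mp hβ).1
  have hoδ : Ord δ := (mem_om1.mp hδ).1
  refine mem_suc.mpr ((hoβ.sub_iff hoδ).mp ?_)
  intro α hα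
  obtain ⟨a, ha, hfa⟩ := hf.2 α hα
  have h0 : (emp : M) ∈ omega M := emp_mem_omega
  have hx : pr (ap y emp) a ∈ prod (omega M) (omega M) := pr_mem_prod.mpr ⟨hy.ap_mem h0, ha⟩
  have hemp := isFun_emp (prod (omega M) (omega M))
  have hC : BDD_C y f emp (snoc emp (pr (ap y emp) a)) α := by
    refine ⟨isFun_snoc h0 hemp hx, ?_, ?_, ?_⟩
    · intro i hi
      rcases mem_suc.mp hi with h1 | rfl
      · exact absurd h1 (not_mem_emp i)
      · rw [ap_snoc_last h0 hemp hx, fst_pr]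
    · intro j hj
      rcases mem_suc.mp hj with h1 | h1
      · exact absurd h1 (not_mem_emp _)
      · exact absurd h1 (suc_ne_emp j)
    · rw [ap_snoc_last h0 hemp hx, snd_pr, hfa]
  have h1 := BDD_le he hy hO hβ hf hρ hρ2 α (hoβ.mem hα) emp _ h0 hC
  have hT := BDD_C_mem he hy hO h0 hC
  have h2 := hδ2 _ (mem_img.mpr ⟨_, hT, rfl⟩)
  have ho' : Ord (ap ρ (snoc emp (pr (ap y emp) a))) := (mem_om1.mp (hρ.ap_mem hT)).1
  rcases ((hoβ.mem hα).sub_iff ho').mp h1 with h7 | h7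
  · exact hoδ.trans h2 h7
  · rw [h7]
    exact h2

end Pool.Agent.Lib.MP_3b60c8_lc
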