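import Pool.Agent.Lib.MP_3b60c8_lc.Det

/-! ROW lst-CAT. The strong half of the theorem of Kuratowski and Ulam (a set with the Baire
property all of whose sections are meager is meager: otherwise it is comeager in a box by `bp`, use
`Mgr.sections` and `CSp.baire`) and: the union of `ω₁` many meager sets is meager. Proof of the
latter: W.l.o.g. `I = ω₁`; let `θ` be the least ordinal such that `C = ⋃_{i < θ} t i` is not
meager and `η x` the least `i` with `x ∈ t i`. For `y ∈ C` the set `{x ∈ C : η x ≤ η y}` is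
meager, so `{(y, x) : η x ≤ η y}` is meager by `of_sections`; for `x ∈ C` the set
`{y ∈ C : η y < η x}` is meager, so `{(x, y) : η y < η x}` is meager, and so is its image under
the swap; the union of the two is `C × C`, hence `C` is meager by `Mgr.sections`. -/

set_option synthInstance.maxSize 2000

namespace Pool.Agent.Lib.MP_3b60c8_lc

open Pool.Agent.Lib.MP_f5c99b_lc

universe u

variable {M : Type u} [Membership M M] [hZF : Fact (IsModelOfZF M)]

theorem mgr_swap {P B P' B' A : M} (h : Base P B) (h' : Base P' B')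
    (hA : Mgr (prodB B B') (prod P P') A) :
    Mgr (prodB B' B) (prod P' P) (img A (fun p => pr (snd p) (fst p))) := by
  obtain ⟨hs, O, hO, hOD, hx⟩ := hA
  have key : ∀ S : M, Sub S (prod P P') → Sub (img S (fun p => pr (snd p) (fst p))) (prod P' P) := by
    intro S hS z hz
    obtain ⟨p, hp, rfl⟩ := mem_img.mp hz
    have h1 := hS p hp
    exact pr_mem_prod.mpr ⟨snd_mem h1, fst_mem h1⟩
  have hOs : ∀ n, n ∈ omega M → Sub (ap O n) (prod P P') := fun n hn => mem_pow.mp (hO.ap_mem hn)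
  refine ⟨key A hs, lam (omega M) (fun n => img (ap O n) (fun p => pr (snd p) (fst p))),
    isFun_lam' fun n hn => mem_pow.mpr (key _ (hOs n hn)), ?_, ?_⟩
  · intro n hn w hw
    rw [ap_lam' hn]
    obtain ⟨v, u, hv, hu, rfl⟩ := mem_prodB.mp hw
    obtain ⟨w', hw', h1, h2⟩ := hOD n hn (prod u v) (B2_prod_mem hu hv)
    obtain ⟨u1, v1, hu1, hv1, rfl⟩ := mem_prodB.mp hw'
    refine ⟨prod v1 u1, B2_prod_mem hv1 hu1, ?_, ?_⟩
    · intro p hp
      obtain ⟨y, hy, x, hx, rfl⟩ := mem_prod.mp hp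
      obtain ⟨h3, h4⟩ := pr_mem_prod.mp (h1 (pr x y) (pr_mem_prod.mpr ⟨hx, hy⟩))
      exact pr_mem_prod.mpr ⟨h4, h3⟩
    · intro p hp
      obtain ⟨y, hy, x, hx, rfl⟩ := mem_prod.mp hp
      refine mem_img.mpr ⟨pr x y, h2 _ (pr_mem_prod.mpr ⟨hx, hy⟩), ?_⟩
      rw [fst_pr, snd_pr]
  · intro z hz
    obtain ⟨p, hp, rfl⟩ := mem_img.mp hz
    obtain ⟨n, hn, hpn⟩ := hx p hp
    refine ⟨n, hn, fun hc => hpn ?_⟩
    rw [ap_lam' hn] at hc
    obtain ⟨q, hq, he⟩ := mem_img.mp hc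
    obtain ⟨h1, h2⟩ := pr_inj he
    rw [← pr_fst_snd (hs p hp), h1, h2, pr_fst_snd (hOs n hn q hq)]
    exact hq

theorem of_sections (hDC : DC M) (hAD : ADN M) {P B P' B' A : M} (h : CSp P B) (h' : CSp P' B')
    (hA : Sub A (prod P P'))
    (hs : Mgr B P (sep P (fun x => ¬ Mgr B' P' (sep P' (fun y => pr x y ∈ A))))) :
    Mgr (prodB B B') (prod P P') A := by
  by_contra hn
  obtain ⟨w, hw, hm⟩ := bp hDC hAD (h.sp.prod h'.sp) hA hn
  obtain ⟨a, b, ha, hb, rfl⟩ := mem_prodB.mp hw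
  have h1 := Mgr.sections hDC h.toBase h'.toBase hm
  refine h.baire hDC ha ((Mgr.un h.toBase hs h1).sub ?_)
  intro x hx
  have hxP := h.sub a ha x hx
  rw [mem_un, mem_sep, mem_sep]
  by_contra hc
  push Not at hc
  have h2 := hc.1 hxP
  have h3 := hc.2 hxP
  refine h'.baire hDC hb ((Mgr.un h'.toBase h2 h3).sub ?_)
  intro y hy
  have hyP := h'.sub b hb y hy
  rw [mem_un, mem_sep, mem_sep, mem_diff]
  by_cases hA' : pr x y ∈ A
  · exact Or.inl ⟨hyP, hA'⟩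
  · exact Or.inr ⟨hyP, pr_mem_prod.mpr ⟨hx, hy⟩, hA'⟩

/-- the union of the sets `F i` with `e i ∈ θ` -/
noncomputable def CatC (P F e I θ : M) : M :=
  sep P (fun x => ∃ i, i ∈ I ∧ ap e i ∈ θ ∧ x ∈ ap F i)

theorem mem_CatC {P F e I θ x : M} :
    x ∈ CatC P F e I θ ↔ x ∈ P ∧ ∃ i, i ∈ I ∧ ap e i ∈ θ ∧ x ∈ ap F i := mem_sep

instance DT_CatC (t1 t2 t3 t4 t5 : (ℕ → M) → M) [DT t1] [DT t2] [DT t3] [DT t4] [DT t5] :
    DT (fun v => CatC (t1 v) (t2 v) (t3 v) (t4 v) (t5 v)) := by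
  refine DT5 (f := CatC) ?_ t1 t2 t3 t4 t5
  unfold CatC
  infer_instance

/-- the index of `x` is at most the index of `y` -/
def CatR (F e I y x : M) : Prop := ∀ i, i ∈ I → y ∈ ap F i →
  ∃ j, j ∈ I ∧ x ∈ ap F j ∧ ap e j ∈ suc (ap e i)

instance D_CatR (t1 t2 t3 t4 t5 : (ℕ → M) → M) [DT t1] [DT t2] [DT t3] [DT t4] [DT t5] :
    D (fun v => CatR (t1 v) (t2 v) (t3 v) (t4 v) (t5 v)) := by
  refine D5 (P := CatR) ?_ t1 t2 t3 t4 t5
  unfold CatR
  infer_instance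

theorem cat_aux (hDC : DC M) (hAD : ADN M) {P B I e F : M} (h : CSp P B)
    (he : Inj e I (om1 M)) (hF : ∀ i, i ∈ I → Mgr B P (ap F i)) :
    ∀ θ : M, Ord θ → Mgr B P (CatC P F e I θ) := by
  intro θ0 hθ0
  by_contra hn0
  obtain ⟨θ, hθ, hn, hmin⟩ := Ord.least (fun θ => ¬ Mgr B P (CatC P F e I θ)) ⟨θ0, hθ0, hn0⟩
  have hmin' : ∀ α, α ∈ θ → Mgr B P (CatC P F e I α) := fun α hα => not_not.mp (hmin α hα)
  have s1 : ∀ y, y ∈ CatC P F e I θ →
      Mgr B P (sep P (fun x => x ∈ CatC P F e I θ ∧ CatR F e I y x)) := by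
    intro y hy
    obtain ⟨_, i, hi, hiθ, hyi⟩ := mem_CatC.mp hy
    refine (Mgr.un h.toBase (hmin' _ hiθ) (hF i hi)).sub ?_
    intro x hx
    obtain ⟨hxP, _, hR⟩ := mem_sep.mp hx
    obtain ⟨j, hj, hxj, hji⟩ := hR i hi hyi
    rw [mem_un]
    rcases mem_suc.mp hji with h1 | h1
    · exact Or.inl (mem_CatC.mpr ⟨hxP, j, hj, h1, hxj⟩)
    · right
      rw [← he.2 j hj i hi h1]
      exact hxj
  have s2 : ∀ x, x ∈ CatC P F e I θ →
      Mgr B P (sep P (fun y => y ∈ CatC P F e I θ ∧ ¬ CatR F e I y x)) := by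
    intro x hx
    obtain ⟨_, j, hj, hjθ, hxj⟩ := mem_CatC.mp hx
    refine (hmin' _ hjθ).sub ?_
    intro y hy
    obtain ⟨hyP, _, hR⟩ := mem_sep.mp hy
    unfold CatR at hR
    push Not at hR
    obtain ⟨i, hi, hyi, h1⟩ := hR
    have h2 := h1 j hj hxj
    refine mem_CatC.mpr ⟨hyP, i, hi, ?_, hyi⟩
    have oi := (mem_om1.mp (he.1.ap_mem hi)).1
    have oj := (mem_om1.mp (he.1.ap_mem hj)).1
    rcases oi.tri oj with h3 | h3 | h3
    · exact h3
    · exact absurd (mem_suc.mpr (Or.inr h3.symm)) h2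
    · exact absurd (mem_suc.mpr (Or.inl h3)) h2
  have z1 : Mgr (prodB B B) (prod P P) (sep (prod P P) (fun p => fst p ∈ CatC P F e I θ ∧
      snd p ∈ CatC P F e I θ ∧ CatR F e I (fst p) (snd p))) := by
    refine of_sections hDC hAD h h sep_sub ((mgr_emp h.toBase).sub ?_)
    intro y hy
    exfalso
    obtain ⟨_, hyn⟩ := mem_sep.mp hy
    apply hyn
    by_cases hyC : y ∈ CatC P F e I θ
    · refine (s1 y hyC).sub ?_
      intro x hx
      obtain ⟨hxP, hx2⟩ := mem_sep.mp hx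
      obtain ⟨_, _, h2, h3⟩ := mem_sep.mp hx2
      rw [snd_pr] at h2 h3
      rw [fst_pr] at h3
      exact mem_sep.mpr ⟨hxP, h2, h3⟩
    · refine (mgr_emp h.toBase).sub ?_
      intro x hx
      exfalso
      obtain ⟨_, hx2⟩ := mem_sep.mp hx
      obtain ⟨_, h1, _⟩ := mem_sep.mp hx2
      rw [fst_pr] at h1
      exact hyC h1
  have z2 : Mgr (prodB B B) (prod P P) (sep (prod P P) (fun p => fst p ∈ CatC P F e I θ ∧
      snd p ∈ CatC P F e I θ ∧ ¬ CatR F e I (snd p) (fst p))) := by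
    refine of_sections hDC hAD h h sep_sub ((mgr_emp h.toBase).sub ?_)
    intro x hx
    exfalso
    obtain ⟨_, hxn⟩ := mem_sep.mp hx
    apply hxn
    by_cases hxC : x ∈ CatC P F e I θ
    · refine (s2 x hxC).sub ?_
      intro y hy
      obtain ⟨hyP, hy2⟩ := mem_sep.mp hy
      obtain ⟨_, _, h2, h3⟩ := mem_sep.mp hy2
      rw [snd_pr] at h2 h3
      rw [fst_pr] at h3
      exact mem_sep.mpr ⟨hyP, h2, h3⟩
    · refine (mgr_emp h.toBase).sub ?_
      intro y hy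
      exfalso
      obtain ⟨_, hy2⟩ := mem_sep.mp hy
      obtain ⟨_, h1, _⟩ := mem_sep.mp hy2
      rw [fst_pr] at h1
      exact hxC h1
  have hz := Mgr.un (h.toBase.prod h.toBase) z1 (mgr_swap h.toBase h.toBase z2)
  have hCC : Mgr (prodB B B) (prod P P) (prod (CatC P F e I θ) (CatC P F e I θ)) := by
    refine hz.sub ?_
    intro p hp
    obtain ⟨y, hy, x, hx, rfl⟩ := mem_prod.mp hp
    have hyP := (mem_CatC.mp hy).1
    have hxP := (mem_CatC.mp hx).1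
    rw [mem_un]
    by_cases hR : CatR F e I y x
    · left
      rw [mem_sep, fst_pr, snd_pr]
      exact ⟨pr_mem_prod.mpr ⟨hyP, hxP⟩, hy, hx, hR⟩
    · right
      refine mem_img.mpr ⟨pr x y, ?_, ?_⟩
      · rw [mem_sep, fst_pr, snd_pr]
        exact ⟨pr_mem_prod.mpr ⟨hxP, hyP⟩, hx, hy, hR⟩
      · rw [fst_pr, snd_pr]
  refine hn ((Mgr.sections hDC h.toBase h.toBase hCC).sub ?_)
  intro x hx
  refine mem_sep.mpr ⟨(mem_CatC.mp hx).1, fun hm => hn (hm.sub ?_)⟩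
  intro y hy
  exact mem_sep.mpr ⟨(mem_CatC.mp hy).1, pr_mem_prod.mpr ⟨hx, hy⟩⟩

theorem union_om1 (hDC : DC M) (hAD : ADN M) {P B I : M} (h : CSp P B) (hI : Emb I (om1 M))
    (t : M → M) [DT (fun v => t (v 0))] (hm : ∀ i, i ∈ I → Mgr B P (t i)) :
    Mgr B P (sU (img I t)) := by
  obtain ⟨e, he⟩ := hI
  have hF : ∀ i, i ∈ I → Mgr B P (ap (lam I t) i) := by
    intro i hi
    rw [ap_lam' hi]
    exact hm i hi
  refine (cat_aux hDC hAD h he hF (om1 M) ord_om1).sub ?_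
  intro x hx
  obtain ⟨y, hy, hxy⟩ := mem_sU.mp hx
  obtain ⟨i, hi, rfl⟩ := mem_img.mp hy
  refine mem_CatC.mpr ⟨(hm i hi).1 x hxy, i, hi, he.1.ap_mem hi, ?_⟩
  rw [ap_lam' hi]
  exact hxy

end Pool.Agent.Lib.MP_3b60c8_lc
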