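import Pool.Agent.Lib.MP_3b60c8_lc.Tau

/-! Good histories. `Gd_step`: for every `b'` of length `n' ≥ suc n` with
`restr b' n = b` and `ap b' n = β`: almost all `g : ω → Al b' n n'` satisfy
`Dm e τ n' b' (jn h g)`, so by `Am_Al` almost all `f : ω → Al b' n (suc n)` satisfy
`Am (Al b' (suc n) n') (fun g => Dm e τ n' b' (jn (jn h f) g))`. The set of all pairs `(n', b')`
embeds into `ω₁` (`emb_om1_fseq`), so by `Am.forall_om1` (all these alphabets
`Al b' n (suc n)` are equal to `Al (snoc b β) n (suc n)`) there is one `f` which works for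
all of them. `h' = jn h f`. The relation between the states is given by `level` and
`Hyp.mono`. -/

set_option synthInstance.maxSize 2000

namespace Pool.Agent.Lib.MP_3b60c8_lc

open Pool.Agent.Lib.MP_f5c99b_lc

universe u

variable {M : Type u} [Membership M M] [hZF : Fact (IsModelOfZF M)]

theorem Clo_restr_self {f a b : M} (h : IsFun f a b) : restr f a = f :=
  IsFun.ext (h.restr (Sub.refl a)) h fun _ hx => h.ap_restr (Sub.refl a) hx

theorem Clo_restr_restr {y n k : M} (hkn : Sub k n) : restr (restr y n) k = restr y k := by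
  unfold restr
  refine ext fun p => ?_
  rw [mem_sep, mem_sep, mem_sep]
  constructor
  · rintro ⟨⟨h1, _⟩, h3⟩
    exact ⟨h1, h3⟩
  · rintro ⟨h1, h3⟩
    exact ⟨⟨h1, hkn _ h3⟩, h3⟩

theorem Clo_sub_suc (n : M) : Sub n (suc n) := fun _ h => mem_suc.mpr (Or.inl h)

theorem Clo_jn_self {b n h g : M} (hn : n ∈ omega M) (hb : Bs n b)
    (hh : IsFun h (omega M) (Al b emp n)) (hg : IsFun g (omega M) (Al b n n)) :
    jn h g = h := by
  have h1 : rh (jn h g) n = h := rh_jn hn hn (Sub.refl n) hh hg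
  have h0 : IsFun (jn h g) (omega M) (Al b emp n) := by
    apply jn_mem hn hn (Sub.refl n) hb hh hg
    all_goals exact n
  have h2 : rh (jn h g) n = jn h g := rh_self h0
  rw [← h2, h1]

/-- the empty history can be continued -/
theorem Gd_zero (hDC : DC M) (hAD : ADN M) {e τ s0 W E : M} (hH : Hyp e s0 W E)
    (hw : ∀ n, n ∈ omega M → WinII (omega M) (Pay e τ s0 W E n) (ap τ n)) :
    ∃ h, Gd e τ emp emp h := by
  have hd : diff (emp : M) emp = emp := eq_emp fun x hx => not_mem_emp x (mem_diff.mp hx).1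
  have h0 : (emp : M) ∈ Al (emp : M) emp emp := by
    refine mem_Al.mpr ⟨?_, ?_⟩
    · rw [hd]
      exact isFun_emp _
    · intro j hj
      rw [hd] at hj
      exact (not_mem_emp _ hj).elim
  have hB : Bs (emp : M) emp := ⟨isFun_emp _, fun j hj => (not_mem_emp _ hj).elim,
    fun i j hj _ => (not_mem_emp _ hj).elim⟩
  refine ⟨lam (omega M) (fun _ => emp), emp_mem_omega, hB, isFun_lam' fun _ _ => h0, ?_⟩
  intro n' b' hn' _ hb' _
  refine Am.mono (fun g => Dm e τ n' b' g) (fun g => Dm e τ n' b' (jn (lam (omega M) (fun _ => emp)) g))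
    (lemma_L hDC hAD hH hn' (fun j hj => hw j (omega_trans hn' hj)) hb') ?_
  intro x hx hD
  have : jn (lam (omega M) (fun _ => emp)) x = x := by
    have h1 : IsFun (jn (lam (omega M) (fun _ => emp)) x) (omega M) (Al b' emp n') := by
      unfold jn
      refine isFun_lam' fun k hk => ?_
      rw [ap_lam' hk]
      have : un (emp : M) (ap x k) = ap x k := ext fun z => by
        rw [mem_un]
        exact ⟨fun h => h.resolve_left (not_mem_emp z), Or.inr⟩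
      rw [this]
      exact hx.ap_mem hk
    refine IsFun.ext h1 hx fun k hk => ?_
    unfold jn
    rw [ap_lam' hk, ap_lam' hk]
    exact ext fun z => by
      rw [mem_un]
      exact ⟨fun h => h.resolve_left (not_mem_emp z), Or.inr⟩
  rw [this]
  exact hD

theorem Gd.dm (hDC : DC M) {e τ n b h : M} (hg : Gd e τ n b h) : Dm e τ n b h := by
  obtain ⟨hn, hb, hh, hc⟩ := hg
  have h1 := hc n b hn (Sub.refl n) hb (Clo_restr_self hb.1)
  obtain ⟨g, hg, hD⟩ := Am.exists hDC (Al_ctbl hDC hn hb) (Al_ne hn hb)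
    (fun g => Dm e τ n b (jn h g)) h1
  rwa [Clo_jn_self hn hb hh hg] at hD

theorem Clo_bdd (hDC : DC M) {n b δ : M} (hn : n ∈ omega M) (hb : Bs n b) (hδ : δ ∈ om1 M) :
    ∃ β, β ∈ om1 M ∧ δ ∈ β ∧ emp ∈ β ∧ ∀ j, j ∈ n → ap b j ∈ β := by
  have hsub : Sub (un (upair δ δ) (img n (fun j => ap b j))) (om1 M) := by
    intro x hx
    rcases mem_un.mp hx with hx | hx
    · rcases mem_upair.mp hx with rfl | rfl <;> exact hδ
    · obtain ⟨j, hj, rfl⟩ := mem_img.mp hx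
      exact hb.1.ap_mem hj
  have hct : Ctbl (un (upair δ δ) (img n (fun j => ap b j))) :=
    (ctbl_upair δ δ).un ((ctbl_omega.sub (C2_sub_omega hn)).img _)
  obtain ⟨β, hβ, hall⟩ := om1_bdd hDC hsub hct
  have hδβ : δ ∈ β := hall δ (mem_un.mpr (Or.inl (mem_upair.mpr (Or.inl rfl))))
  refine ⟨β, hβ, hδβ, ?_, fun j hj => hall _ (mem_un.mpr (Or.inr (mem_img.mpr ⟨j, hj, rfl⟩)))⟩
  rcases Ord.tri ord_emp (mem_om1.mp hβ).1 with h | h | h
  · exact h
  · rw [← h] at hδβ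
    exact (not_mem_emp _ hδβ).elim
  · exact (not_mem_emp _ h).elim

/-- the set of the possible continuations of `c` -/
noncomputable def Clo_I (n c : M) : M :=
  sep (prod (omega M) (fseq (om1 M))) (fun i => Sub n (fst i) ∧ Bs (fst i) (snd i) ∧
    restr (snd i) n = c)

theorem Clo_mem_I {n c n' b' : M} : pr n' b' ∈ Clo_I n c ↔
    n' ∈ omega M ∧ Sub n n' ∧ Bs n' b' ∧ restr b' n = c := by
  unfold Clo_I
  rw [mem_sep, fst_pr, snd_pr, pr_mem_prod]
  constructor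
  · rintro ⟨⟨h1, _⟩, h2, h3, h4⟩
    exact ⟨h1, h2, h3, h4⟩
  · rintro ⟨h1, h2, h3, h4⟩
    exact ⟨⟨h1, mem_fseq.mpr ⟨n', h1, h3.1⟩⟩, h2, h3, h4⟩

theorem Clo_emb (n c : M) : Emb (Clo_I n c) (om1 M) := by
  have h1 : Sub (Clo_I n c) (prod (omega M) (fseq (om1 M))) := sep_sub
  exact (Emb.of_sub h1).trans
    ((Emb.prod (Emb.of_sub omega_sub_om1) emb_om1_fseq).trans emb_om1_prod)

theorem Clo_Sta {e τ s0 n b b' h : M} (hn : n ∈ omega M) (hr : restr b' n = b) :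
    Sta e τ s0 n b' h = Sta e τ s0 n b h := by
  rcases omega_cases hn with rfl | ⟨m, hm, rfl⟩
  · rw [Sta_emp, Sta_emp]
  · rw [Sta_suc hm, Sta_suc hm]
    have : restr b' m = restr b m := by
      rw [← hr, Clo_restr_restr (Clo_sub_suc m)]
    unfold NN
    rw [this]

theorem Gd_step (hDC : DC M) (hAD : ADN M) {e τ s0 W E n b h δ : M} (hH : Hyp e s0 W E)
    (hw : ∀ n, n ∈ omega M → WinII (omega M) (Pay e τ s0 W E n) (ap τ n))
    (hg : Gd e τ n b h) (hδ : δ ∈ om1 M) :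
    ∃ b' h', Gd e τ (suc n) b' h' ∧
      pr δ (pr (Sta e τ s0 n b h) (Sta e τ s0 (suc n) b' h')) ∈ E := by
  obtain ⟨hn, hb, hh, hc⟩ := hg
  obtain ⟨β, hβ, hδβ, h0, hall⟩ := Clo_bdd hDC hn hb hδ
  obtain ⟨hb1, hr1, ha1⟩ := Bs_snoc hn hb hβ h0 hall
  obtain ⟨b1, hb1def⟩ : ∃ b1, b1 = snoc b β := ⟨_, rfl⟩
  rw [← hb1def] at hb1 hr1 ha1
  have hsn : suc n ∈ omega M := suc_mem_omega hn
  have hsub : Sub n (suc n) := Clo_sub_suc n
  have hcA : Ctbl (Al b1 n (suc n)) := Al_ctbl hDC hsn hb1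
  have hneA : ∃ x, x ∈ Al b1 n (suc n) := Al_ne hsn hb1
  -- every continuation
  have hQ : ∀ i, i ∈ Clo_I (suc n) b1 → Am (Al b1 n (suc n))
      (fun f => Am (Al (snd i) (suc n) (fst i))
        (fun g => Dm e τ (fst i) (snd i) (jn (jn h f) g))) := by
    intro i hi
    have hi' : i = pr (fst i) (snd i) := (pr_fst_snd (sep_sub _ hi)).symm
    rw [hi'] at hi
    obtain ⟨hn', hs', hB', hr'⟩ := Clo_mem_I.mp hi
    have hs2 : Sub n (fst i) := hsub.trans hs'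
    have hr2 : restr (snd i) n = b := by
      rw [← Clo_restr_restr hsub, hr', hr1]
    have h1 := hc (fst i) (snd i) hn' hs2 hB' hr2
    have h2 := ((Am_Al hDC hAD hn' hn hsn hsub hs' hB'
      (fun g => Dm e τ (fst i) (snd i) (jn h g))).1).mp h1
    have h3 : Al (snd i) n (suc n) = Al b1 n (suc n) := by
      rw [← hr', Al_restr hB' hs']
    rw [h3] at h2
    simpa only [jn_assoc] using h2
  have hAll := Am.forall_om1 hDC hAD hcA hneA (Clo_emb (suc n) b1)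
    (fun i f => Am (Al (snd i) (suc n) (fst i))
        (fun g => Dm e τ (fst i) (snd i) (jn (jn h f) g))) hQ
  obtain ⟨f, hf, hfall⟩ := Am.exists hDC hcA hneA (fun f => ∀ i, i ∈ Clo_I (suc n) b1 →
    Am (Al (snd i) (suc n) (fst i)) (fun g => Dm e τ (fst i) (snd i) (jn (jn h f) g))) hAll
  have hh1 : IsFun h (omega M) (Al b1 emp n) := by
    rw [← Al_restr hb1 hsub, hr1]
    exact hh
  have hh' : IsFun (jn h f) (omega M) (Al b1 emp (suc n)) := by
    apply jn_mem hsn hn hsub hb1 hh1 hf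
    all_goals exact n
  have hG : Gd e τ (suc n) b1 (jn h f) := by
    refine ⟨hsn, hb1, hh', ?_⟩
    intro n' b' hn' hs' hb' hr'
    have := hfall (pr n' b') (Clo_mem_I.mpr ⟨hn', hs', hb', hr'⟩)
    rwa [fst_pr, snd_pr] at this
  refine ⟨b1, jn h f, hG, ?_⟩
  have hD := hG.dm hDC
  obtain ⟨_, hSurj, hMeets⟩ := Dm_suc.mp hD
  have hrh : rh (jn h f) n = h := rh_jn hn hsn hsub hh1 hf
  rw [hrh] at hMeets
  obtain ⟨_, _, δ', hδ', hβδ', hE⟩ := (level hH (hw n hn) hn hb1 hSurj).2 h hh1 hMeets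
  rw [Sta_suc hn, hrh]
  rw [Clo_Sta hn hr1] at hE
  refine hH.mono δ δ' _ _ hδ' ?_ hE
  rw [ha1] at hβδ'
  rcases mem_suc.mp hβδ' with h | h
  · exact (mem_om1.mp hδ').1.trans h hδβ
  · rwa [← h]

/-- the set of the states of all good histories -/
noncomputable def Cc (e τ s0 : M) : M :=
  sep (pow (omega M)) (fun s => ∃ n b h, Gd e τ n b h ∧ s = Sta e τ s0 n b h)

instance DT_Cc (t1 t2 t3 : (ℕ → M) → M) [DT t1] [DT t2] [DT t3] :
    DT (fun v => Cc (t1 v) (t2 v) (t3 v)) := by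
  refine DT3 (f := Cc) ?_ t1 t2 t3
  unfold Cc
  infer_instance

theorem Clo_mem_Cc {e τ s0 s : M} : s ∈ Cc e τ s0 ↔ s ∈ pow (omega M) ∧
    ∃ n b h, Gd e τ n b h ∧ s = Sta e τ s0 n b h := by
  unfold Cc
  exact mem_sep

theorem Clo_Sta_mem (hDC : DC M) {e τ s0 W E n b h : M} (hH : Hyp e s0 W E)
    (hw : ∀ n, n ∈ omega M → WinII (omega M) (Pay e τ s0 W E n) (ap τ n))
    (hg : Gd e τ n b h) : Sta e τ s0 n b h ∈ W :=
  Sta_mem hH hg.1 (fun j hj => hw j (omega_trans hg.1 hj)) hg.2.1 hg.2.2.1 (hg.dm hDC)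

theorem main_P (hDC : DC M) (hAD : ADN M) {e τ s0 W E : M} (hH : Hyp e s0 W E)
    (hw : ∀ n, n ∈ omega M → WinII (omega M) (Pay e τ s0 W E n) (ap τ n)) :
    Sub (Cc e τ s0) W ∧ (∃ s, s ∈ Cc e τ s0) ∧
      ∀ s δ, s ∈ Cc e τ s0 → δ ∈ om1 M → ∃ s', s' ∈ Cc e τ s0 ∧ pr δ (pr s s') ∈ E := by
  refine ⟨?_, ?_, ?_⟩
  · intro s hs
    obtain ⟨_, n, b, h, hg, rfl⟩ := Clo_mem_Cc.mp hs
    exact Clo_Sta_mem hDC hH hw hg
  · obtain ⟨h, hg⟩ := Gd_zero hDC hAD hH hw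
    exact ⟨Sta e τ s0 emp emp h, Clo_mem_Cc.mpr
      ⟨hH.sub _ (Clo_Sta_mem hDC hH hw hg), emp, emp, h, hg, rfl⟩⟩
  · intro s δ hs hδ
    obtain ⟨_, n, b, h, hg, rfl⟩ := Clo_mem_Cc.mp hs
    obtain ⟨b', h', hg', hE⟩ := Gd_step hDC hAD hH hw hg hδ
    exact ⟨Sta e τ s0 (suc n) b' h', Clo_mem_Cc.mpr
      ⟨hH.sub _ (Clo_Sta_mem hDC hH hw hg'), suc n, b', h', hg', rfl⟩, hE⟩

end Pool.Agent.Lib.MP_3b60c8_lc
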