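import Pool.Agent.Lib.MP_3b60c8_lc.Defs

/-! ROW lst-COD. Coding. `exists_code`: a system of names for all increasing `b` with values
in `δ` is given by some `A ⊆ Xi`: `A` = the set of all `(b', (s, (p', d))) ∈ Xi` such that
`rb r b'` is such a `b` and `(s, (rp r p', d)) ∈ G b`; every finite sequence in `δ` is
`rb r b'` for some `b'` (take least preimages, `mu`). -/

set_option synthInstance.maxSize 2000

namespace Pool.Agent.Lib.MP_3b60c8_lc

open Pool.Agent.Lib.MP_f5c99b_lc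

universe u

variable {M : Type u} [Membership M M] [hZF : Fact (IsModelOfZF M)]

theorem KK_ctbl : Ctbl (KK M) := by
  unfold KK Xi
  exact ctbl_omega.prod ((ctbl_omega.prod ctbl_omega).un
    (ctbl_omega.fseq.prod (ctbl_omega.fseq.prod (ctbl_omega.fseq.fseq.prod ctbl_omega))))

theorem exists_e : ∃ e : M, Inj e (KK M) (omega M) := KK_ctbl

theorem oc_sub (f : M) : Sub (oc f) (prod (omega M) (omega M)) := sep_sub

theorem mem_oc {f m n : M} (hm : m ∈ omega M) (hn : n ∈ omega M) :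
    pr m n ∈ oc f ↔ ap f m ∈ ap f n := by
  rw [oc, mem_sep, fst_pr, snd_pr, pr_mem_prod]
  exact ⟨fun h => h.2, fun h => ⟨⟨hm, hn⟩, h⟩⟩

theorem oc_inj {δ δ' r r' : M} (hδ : δ ∈ om1 M) (hδ' : δ' ∈ om1 M) (hr : Surj r (omega M) δ)
    (hr' : Surj r' (omega M) δ') (h : oc r = oc r') : r = r' ∧ δ = δ' := by
  refine ord_rigid (mem_om1.mp hδ).1 (mem_om1.mp hδ').1 hr hr' fun m hm n hn => ?_
  rw [← mem_oc hm hn, ← mem_oc hm hn, h]

theorem dr_oc {δ r : M} (hδ : δ ∈ om1 M) (hr : Surj r (omega M) δ) : dr (oc r) = r := by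
  refine iota_eq ⟨δ, hδ, hr, rfl⟩ ?_
  rintro r' ⟨δ', hδ', hr', h⟩
  exact (oc_inj hδ' hδ hr' hr h).1

theorem cd_fun {e O A : M} : IsFun (cd e O A) (omega M) (omega M) := by
  unfold cd
  exact isFun_lam fun _ _ => chiV_mem

/-- the value of the code at a used or unused index -/
theorem COD_val {e O A i : M} (hi : i ∈ omega M) :
    ap (cd e O A) i = emp ↔ i ∈ cdI e O A := by
  rw [cd, ap_lam' hi]
  constructor
  · intro h
    by_contra hc
    rw [chiV_in (mem_diff.mpr ⟨hi, hc⟩)] at h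
    exact suc_ne_emp _ h
  · intro h
    exact chiV_out fun hc => (mem_diff.mp hc).2 h

theorem COD_memO {u : M} (hu : u ∈ prod (omega M) (omega M)) : pr emp u ∈ KK M := by
  rw [KK, pr_mem_prod, mem_un]
  exact ⟨emp_mem_omega, Or.inl hu⟩

theorem COD_memA {t : M} (ht : t ∈ Xi M) : pr (suc emp) t ∈ KK M := by
  rw [KK, pr_mem_prod, mem_un]
  exact ⟨suc_mem_omega emp_mem_omega, Or.inr ht⟩

theorem dO_cd {e O A : M} (he : Inj e (KK M) (omega M)) (hO : Sub O (prod (omega M) (omega M)))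
    (hA : Sub A (Xi M)) : dO e (cd e O A) = O := by
  refine Pool.Agent.Lib.MP_f5c99b_lc.ext fun u => ?_
  rw [dO, mem_sep]
  constructor
  · rintro ⟨hu, h⟩
    have hk := COD_memO hu
    rw [COD_val (he.1.ap_mem hk), cdI, mem_sep] at h
    obtain ⟨-, ⟨u', hu', h1⟩ | ⟨t, ht, h1⟩⟩ := h
    · have h2 := he.2 _ (COD_memO (hO u' hu')) _ hk h1
      rw [pr_inj_iff] at h2
      rw [← h2.2]
      exact hu'
    · have h2 := he.2 _ (COD_memA (hA t ht)) _ hk h1
      rw [pr_inj_iff] at h2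
      exact absurd h2.1 (suc_ne_emp _)
  · intro hu
    have hk := COD_memO (hO u hu)
    refine ⟨hO u hu, ?_⟩
    rw [COD_val (he.1.ap_mem hk), cdI, mem_sep]
    exact ⟨he.1.ap_mem hk, Or.inl ⟨u, hu, rfl⟩⟩

theorem dA_cd {e O A : M} (he : Inj e (KK M) (omega M)) (hO : Sub O (prod (omega M) (omega M)))
    (hA : Sub A (Xi M)) : dA e (cd e O A) = A := by
  refine Pool.Agent.Lib.MP_f5c99b_lc.ext fun u => ?_
  rw [dA, mem_sep]
  constructor
  · rintro ⟨hu, h⟩
    have hk := COD_memA hu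
    rw [COD_val (he.1.ap_mem hk), cdI, mem_sep] at h
    obtain ⟨-, ⟨u', hu', h1⟩ | ⟨t, ht, h1⟩⟩ := h
    · have h2 := he.2 _ (COD_memO (hO u' hu')) _ hk h1
      rw [pr_inj_iff] at h2
      exact absurd h2.1.symm (suc_ne_emp _)
    · have h2 := he.2 _ (COD_memA (hA t ht)) _ hk h1
      rw [pr_inj_iff] at h2
      rw [← h2.2]
      exact ht
  · intro hu
    have hk := COD_memA (hA u hu)
    refine ⟨hA u hu, ?_⟩
    rw [COD_val (he.1.ap_mem hk), cdI, mem_sep]
    exact ⟨he.1.ap_mem hk, Or.inr ⟨u, hu, rfl⟩⟩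

theorem rep_fun {τ x : M} (hτ : IsFun τ (fseq (omega M)) (omega M))
    (hx : IsFun x (omega M) (omega M)) : IsFun (rep τ x) (omega M) (omega M) := by
  unfold rep
  exact isFun_lam fun n hn => hτ.ap_mem (restr_mem_fseq hx (suc_mem_omega hn))

theorem repI_fun {σ y : M} (hσ : IsFun σ (fseq (omega M)) (omega M))
    (hy : IsFun y (omega M) (omega M)) : IsFun (repI σ y) (omega M) (omega M) := by
  unfold repI
  exact isFun_lam fun n hn => hσ.ap_mem (restr_mem_fseq hy hn)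

/-- the sequence of least preimages of the terms of `c` -/
noncomputable def COD_lft (r c : M) : M := lam (dom c) (fun j => mu (fun k => ap r k = ap c j))

instance DT_COD_lft (t1 t2 : (ℕ → M) → M) [DT t1] [DT t2] :
    DT (fun v => COD_lft (t1 v) (t2 v)) := by
  refine DT2 (f := COD_lft) ?_ t1 t2
  unfold COD_lft
  infer_instance

theorem COD_lft_fun {r δ c m : M} (hr : Surj r (omega M) δ) (hc : IsFun c m δ) :
    IsFun (COD_lft r c) m (omega M) := by
  rw [COD_lft, hc.dom]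
  refine isFun_lam fun j hj => ?_
  obtain ⟨k, hk, h⟩ := hr.2 _ (hc.ap_mem hj)
  exact (mu_spec (P := fun k => ap r k = ap c j) ⟨k, hk, h⟩).1

theorem COD_ap_lft {r δ c m j : M} (hr : Surj r (omega M) δ) (hc : IsFun c m δ) (hj : j ∈ m) :
    ap r (ap (COD_lft r c) j) = ap c j := by
  rw [COD_lft, hc.dom, ap_lam' hj]
  obtain ⟨k, hk, h⟩ := hr.2 _ (hc.ap_mem hj)
  exact (mu_spec (P := fun k => ap r k = ap c j) ⟨k, hk, h⟩).2.1

theorem COD_rb_lft {r δ c m : M} (hr : Surj r (omega M) δ) (hc : IsFun c m δ) :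
    rb r (COD_lft r c) = c := by
  have h1 := COD_lft_fun hr hc
  rw [rb, h1.dom, Pool.Agent.Lib.MP_f5c99b_lc.cmp]
  refine IsFun.ext (a := m) (b := δ) (b' := δ)
    (isFun_lam fun j hj => hr.1.ap_mem (h1.ap_mem hj)) hc fun j hj => ?_
  rw [ap_lam' hj, COD_ap_lft hr hc hj]

theorem exists_code {n r δ G : M} (hn : n ∈ omega M) (hδ : δ ∈ om1 M)
    (hr : Surj r (omega M) δ)
    (hG : ∀ b, Bs n b → (∀ j, j ∈ n → ap b j ∈ δ) →
      Sub (ap G b) (prod (fseq (omega M)) (prod (fseq (Al b emp n)) (omega M)))) :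
    ∃ A, Sub A (Xi M) ∧ ∀ b, Bs n b → (∀ j, j ∈ n → ap b j ∈ δ) → Nm r A b = ap G b := by
  refine ⟨sep (Xi M) (fun t => Bs n (rb r (fst t)) ∧ (∀ j, j ∈ n → ap (rb r (fst t)) j ∈ δ) ∧
    pr (fst (snd t)) (pr (rp r (fst (snd (snd t)))) (snd (snd (snd t)))) ∈
      ap G (rb r (fst t))), sep_sub, ?_⟩
  intro b hb hbδ
  refine Pool.Agent.Lib.MP_f5c99b_lc.ext fun y => ?_
  rw [Nm, mem_img]
  constructor
  · rintro ⟨t, ht, rfl⟩
    obtain ⟨ht, h1⟩ := mem_sep.mp ht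
    obtain ⟨-, -, -, h2⟩ := mem_sep.mp ht
    rw [h1] at h2
    exact h2
  · intro hy
    obtain ⟨s, hs, q, hq, rfl⟩ := mem_prod.mp (hG b hb hbδ y hy)
    obtain ⟨p, hp, d, hd, rfl⟩ := mem_prod.mp hq
    have hbf : IsFun b n δ := hb.1.mono hbδ
    obtain ⟨l, hl, hpl⟩ := mem_fseq.mp hp
    have hdn : diff n (emp : M) = n := Pool.Agent.Lib.MP_f5c99b_lc.ext fun z => by
      rw [mem_diff]
      exact ⟨fun h => h.1, fun h => ⟨h, not_mem_emp z⟩⟩
    have hpi : ∀ i, i ∈ l → IsFun (ap p i) n δ := by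
      intro i hi
      have h1 := hpl.ap_mem hi
      rw [Al, mem_sep, mem_funs, hdn] at h1
      exact h1.1.mono fun j hj => (mem_om1.mp hδ).1.trans (hbδ j hj) (h1.2 j hj)
    have hb' := COD_lft_fun hr hbf
    have hpf : IsFun (lam l (fun i => COD_lft r (ap p i))) l (fseq (omega M)) :=
      isFun_lam fun i hi => mem_fseq.mpr ⟨n, hn, COD_lft_fun hr (hpi i hi)⟩
    have hrp : rp r (lam l (fun i => COD_lft r (ap p i))) = p := by
      rw [rp, hpf.dom]
      refine IsFun.ext (a := l) (b := Al b emp n) (b' := Al b emp n) (isFun_lam fun i hi => ?_)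
        hpl fun i hi => ?_
      · rw [ap_lam' hi, COD_rb_lft hr (hpi i hi)]
        exact hpl.ap_mem hi
      · rw [ap_lam' hi, ap_lam' hi, COD_rb_lft hr (hpi i hi)]
    refine ⟨pr (COD_lft r b) (pr s (pr (lam l (fun i => COD_lft r (ap p i))) d)), ?_, ?_⟩
    · rw [mem_sep, mem_sep]
      simp only [fst_pr, snd_pr]
      rw [COD_rb_lft hr hbf, hrp]
      refine ⟨⟨?_, hb, hbδ, hy⟩, rfl⟩
      rw [Xi, pr_mem_prod, pr_mem_prod, pr_mem_prod]
      exact ⟨mem_fseq.mpr ⟨n, hn, hb'⟩, hs, mem_fseq.mpr ⟨l, hl, hpf⟩, hd⟩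
    · simp only [fst_pr, snd_pr]
      rw [hrp]

end Pool.Agent.Lib.MP_3b60c8_lc
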