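import Pool.Agent.Lib.MP_7b07e0_lc.Seq
import Pool.Agent.Lib.MP_7b07e0_lc.Rank

/-! Definitions for the coding theorem for `λ`-splitting trees, `λ < ω₂`, in a model of
`ZF + DC + AD`. The calculus of `MP_7b07e0_lc` is used throughout. -/

set_option synthInstance.maxSize 2000

namespace Pool.Agent.Lib.MP_3b60c8_lc

open Pool.Agent.Lib.MP_f5c99b_lc

universe u

variable {M : Type u} [Membership M M] [hZF : Fact (IsModelOfZF M)]

variable (M) in
/-- `AD`: all games of length `ω` with moves in `ω` are determined. -/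
def ADN : Prop := ∀ A : M, (∃ σ, WinI (omega M) A σ) ∨ ∃ τ, WinII (omega M) A τ

/-! ### almost all sequences -/

/-- almost all `h ∈ A ^ ω` satisfy `P` -/
def Am (A : M) (P : M → Prop) : Prop :=
  Mgr (coneB A) (funs (omega M) A) (sep (funs (omega M) A) (fun h => ¬ P h))

instance D_Am {A : (ℕ → M) → M} {P : (ℕ → M) → M → Prop} [hA : DT A]
    [h : D (fun v => P (fun i => v (i + 1)) (v 0))] : D (fun v => Am (A v) (P v)) := by
  unfold Am
  infer_instance

/-! ### names -/

/-- positions of the name `N` which are compatible with `x` -/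
noncomputable def Nt (N x : M) : M :=
  sep (fseq (omega M)) (fun s => ∃ p d, pr s (pr p d) ∈ N ∧ Sub p x)

instance DT_Nt (t1 t2 : (ℕ → M) → M) [DT t1] [DT t2] : DT (fun v => Nt (t1 v) (t2 v)) := by
  refine DT2 (f := Nt) ?_ t1 t2
  unfold Nt
  infer_instance

/-- `y` is the greedy path through the positions of `N` compatible with `x` -/
def Gr (N x y : M) : Prop := IsFun y (omega M) (omega M) ∧ ∀ n, n ∈ omega M →
  restr y (suc n) ∈ Nt N x ∧ ∀ m, m ∈ ap y n → snoc (restr y n) m ∉ Nt N x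

instance D_Gr (t1 t2 t3 : (ℕ → M) → M) [DT t1] [DT t2] [DT t3] :
    D (fun v => Gr (t1 v) (t2 v) (t3 v)) := by
  refine D3 (P := Gr) ?_ t1 t2 t3
  unfold Gr
  infer_instance

/-- the greedy path exists -/
def Meets (N x : M) : Prop := ∃ y, Gr N x y

instance D_Meets (t1 t2 : (ℕ → M) → M) [DT t1] [DT t2] :
    D (fun v => Meets (t1 v) (t2 v)) := by
  refine D2 (P := Meets) ?_ t1 t2
  unfold Meets
  infer_instance

/-- the value of the name `N` at `x` : a subset of `ω` -/
noncomputable def Fv (N x : M) : M :=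
  sep (omega M) (fun k => ∃ y p, Gr N x y ∧ pr (restr y (suc k)) (pr p emp) ∈ N ∧ Sub p x)

instance DT_Fv (t1 t2 : (ℕ → M) → M) [DT t1] [DT t2] : DT (fun v => Fv (t1 v) (t2 v)) := by
  refine DT2 (f := Fv) ?_ t1 t2
  unfold Fv
  infer_instance

/-! ### histories -/

/-- `b` is a strictly increasing sequence of nonzero countable ordinals of length `n` -/
def Bs (n b : M) : Prop := IsFun b n (om1 M) ∧ (∀ j, j ∈ n → emp ∈ ap b j) ∧
  ∀ i j, j ∈ n → i ∈ j → ap b i ∈ ap b j

instance D_Bs (t1 t2 : (ℕ → M) → M) [DT t1] [DT t2] : D (fun v => Bs (t1 v) (t2 v)) := by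
  refine D2 (P := Bs) ?_ t1 t2
  unfold Bs
  infer_instance

/-- the functions `s` on `n \ m` with `s j ∈ b j` -/
noncomputable def Al (b m n : M) : M :=
  sep (funs (diff n m) (om1 M)) (fun s => ∀ j, j ∈ diff n m → ap s j ∈ ap b j)

instance DT_Al (t1 t2 t3 : (ℕ → M) → M) [DT t1] [DT t2] [DT t3] :
    DT (fun v => Al (t1 v) (t2 v) (t3 v)) := by
  refine DT3 (f := Al) ?_ t1 t2 t3
  unfold Al
  infer_instance

/-- the `j`-th component of a sequence `h` of finite sequences -/
noncomputable def cpt (h j : M) : M := lam (omega M) (fun k => ap (ap h k) j)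

instance DT_cpt (t1 t2 : (ℕ → M) → M) [DT t1] [DT t2] : DT (fun v => cpt (t1 v) (t2 v)) := by
  refine DT2 (f := cpt) ?_ t1 t2
  unfold cpt
  infer_instance

/-- the restriction to the components in `j` -/
noncomputable def rh (h j : M) : M := lam (omega M) (fun k => restr (ap h k) j)

instance DT_rh (t1 t2 : (ℕ → M) → M) [DT t1] [DT t2] : DT (fun v => rh (t1 v) (t2 v)) := by
  refine DT2 (f := rh) ?_ t1 t2
  unfold rh
  infer_instance

/-- `h` together with further components `g` -/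
noncomputable def jn (h g : M) : M := lam (omega M) (fun k => un (ap h k) (ap g k))

instance DT_jn (t1 t2 : (ℕ → M) → M) [DT t1] [DT t2] : DT (fun v => jn (t1 v) (t2 v)) := by
  refine DT2 (f := jn) ?_ t1 t2
  unfold jn
  infer_instance

/-! ### codes -/

/-- the order on `ω` induced by `f` -/
noncomputable def oc (f : M) : M :=
  sep (prod (omega M) (omega M)) (fun p => ap f (fst p) ∈ ap f (snd p))

instance DT_oc (t1 : (ℕ → M) → M) [DT t1] : DT (fun v => oc (t1 v)) := by
  refine DT1 (f := oc) ?_ t1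
  unfold oc
  infer_instance

variable (M) in
/-- the set of all `(b, (s, (p, d)))` where `b`, `s` are finite sequences in `ω`, `p` is a finite
sequence of finite sequences in `ω` and `d ∈ ω` -/
noncomputable def Xi : M :=
  prod (fseq (omega M)) (prod (fseq (omega M)) (prod (fseq (fseq (omega M))) (omega M)))

instance DT_Xi : DT (fun _ : ℕ → M => Xi M) := DT_const _

variable (M) in
/-- the domain of the coding function `e` -/
noncomputable def KK : M := prod (omega M) (un (prod (omega M) (omega M)) (Xi M))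

instance DT_KK : DT (fun _ : ℕ → M => KK M) := DT_const _

/-- the relation coded by `x : ω → ω` -/
noncomputable def dO (e x : M) : M :=
  sep (prod (omega M) (omega M)) (fun u => ap x (ap e (pr emp u)) = emp)

instance DT_dO (t1 t2 : (ℕ → M) → M) [DT t1] [DT t2] : DT (fun v => dO (t1 v) (t2 v)) := by
  refine DT2 (f := dO) ?_ t1 t2
  unfold dO
  infer_instance

/-- the subset of `Xi` coded by `x : ω → ω` -/
noncomputable def dA (e x : M) : M :=
  sep (Xi M) (fun t => ap x (ap e (pr (suc emp) t)) = emp)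

instance DT_dA (t1 t2 : (ℕ → M) → M) [DT t1] [DT t2] : DT (fun v => dA (t1 v) (t2 v)) := by
  refine DT2 (f := dA) ?_ t1 t2
  unfold dA
  infer_instance

/-- the indices which are used by `O` and `A` -/
noncomputable def cdI (e O A : M) : M :=
  sep (omega M) (fun i => (∃ u, u ∈ O ∧ ap e (pr emp u) = i) ∨
    ∃ t, t ∈ A ∧ ap e (pr (suc emp) t) = i)

instance DT_cdI (t1 t2 t3 : (ℕ → M) → M) [DT t1] [DT t2] [DT t3] :
    DT (fun v => cdI (t1 v) (t2 v) (t3 v)) := by
  refine DT3 (f := cdI) ?_ t1 t2 t3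
  unfold cdI
  infer_instance

/-- the sequence `ω → 2` which codes the relation `O` and the subset `A` of `Xi` -/
noncomputable def cd (e O A : M) : M :=
  lam (omega M) (fun i => chiV (diff (omega M) (cdI e O A)) i)

instance DT_cd (t1 t2 t3 : (ℕ → M) → M) [DT t1] [DT t2] [DT t3] :
    DT (fun v => cd (t1 v) (t2 v) (t3 v)) := by
  refine DT3 (f := cd) ?_ t1 t2 t3
  unfold cd
  infer_instance

/-- the reply of the strategy `τ` of player II to `x` -/
noncomputable def rep (τ x : M) : M := lam (omega M) (fun n => ap τ (restr x (suc n)))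

instance DT_rep (t1 t2 : (ℕ → M) → M) [DT t1] [DT t2] : DT (fun v => rep (t1 v) (t2 v)) := by
  refine DT2 (f := rep) ?_ t1 t2
  unfold rep
  infer_instance

/-- the play of the strategy `σ` of player I against `y` -/
noncomputable def repI (σ y : M) : M := lam (omega M) (fun n => ap σ (restr y n))

instance DT_repI (t1 t2 : (ℕ → M) → M) [DT t1] [DT t2] :
    DT (fun v => repI (t1 v) (t2 v)) := by
  refine DT2 (f := repI) ?_ t1 t2
  unfold repI
  infer_instance

/-- `b` followed by `r` -/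
noncomputable def rb (r b : M) : M := cmp (dom b) b r

instance DT_rb (t1 t2 : (ℕ → M) → M) [DT t1] [DT t2] : DT (fun v => rb (t1 v) (t2 v)) := by
  refine DT2 (f := rb) ?_ t1 t2
  unfold rb
  infer_instance

/-- every term of `p` is followed by `r` -/
noncomputable def rp (r p : M) : M := lam (dom p) (fun l => rb r (ap p l))

instance DT_rp (t1 t2 : (ℕ → M) → M) [DT t1] [DT t2] : DT (fun v => rp (t1 v) (t2 v)) := by
  refine DT2 (f := rp) ?_ t1 t2
  unfold rp
  infer_instance

/-- the name for `b` given by `A` and the enumeration `r` -/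
noncomputable def Nm (r A b : M) : M :=
  img (sep A (fun t => rb r (fst t) = b))
    (fun t => pr (fst (snd t)) (pr (rp r (fst (snd (snd t)))) (snd (snd (snd t)))))

instance DT_Nm (t1 t2 t3 : (ℕ → M) → M) [DT t1] [DT t2] [DT t3] :
    DT (fun v => Nm (t1 v) (t2 v) (t3 v)) := by
  refine DT3 (f := Nm) ?_ t1 t2 t3
  unfold Nm
  infer_instance

/-- the surjection onto a countable ordinal coded by `O` -/
noncomputable def dr (O : M) : M :=
  iota (fun r => ∃ δ, δ ∈ om1 M ∧ Surj r (omega M) δ ∧ oc r = O)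

instance DT_dr (t1 : (ℕ → M) → M) [DT t1] : DT (fun v => dr (t1 v)) := by
  refine DT1 (f := dr) ?_ t1
  unfold dr
  infer_instance

/-! ### the levels -/

/-- the reply to the `j`-th component of `h` -/
noncomputable def yy (e τ j h : M) : M := rep (ap τ j) (cd e (oc (cpt h j)) emp)

instance DT_yy (t1 t2 t3 t4 : (ℕ → M) → M) [DT t1] [DT t2] [DT t3] [DT t4] :
    DT (fun v => yy (t1 v) (t2 v) (t3 v) (t4 v)) := by
  refine DT4 (f := yy) ?_ t1 t2 t3 t4
  unfold yy
  infer_instance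

/-- the name for the first `j` components given by the reply to the `j`-th one -/
noncomputable def NN (e τ j b h : M) : M :=
  Nm (dr (dO e (yy e τ j h))) (dA e (yy e τ j h)) (restr b j)

instance DT_NN (t1 t2 t3 t4 t5 : (ℕ → M) → M) [DT t1] [DT t2] [DT t3] [DT t4] [DT t5] :
    DT (fun v => NN (t1 v) (t2 v) (t3 v) (t4 v) (t5 v)) := by
  refine DT5 (f := NN) ?_ t1 t2 t3 t4 t5
  unfold NN
  infer_instance

/-- the history `(b, h)` of length `n` is in the domain -/
def Dm (e τ n b h : M) : Prop := ∀ j, j ∈ n →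
  Surj (cpt h j) (omega M) (ap b j) ∧ Meets (NN e τ j b h) (rh h j)

instance D_Dm (t1 t2 t3 t4 t5 : (ℕ → M) → M) [DT t1] [DT t2] [DT t3] [DT t4] [DT t5] :
    D (fun v => Dm (t1 v) (t2 v) (t3 v) (t4 v) (t5 v)) := by
  refine D5 (P := Dm) ?_ t1 t2 t3 t4 t5
  unfold Dm
  infer_instance

/-- the state of the history `(b, h)` of length `n` -/
noncomputable def Sta (e τ s0 n b h : M) : M :=
  iota (fun s => (n = emp ∧ s = s0) ∨ (n ≠ emp ∧ s = Fv (NN e τ (sU n) b h) (rh h (sU n))))

instance DT_Sta (t1 t2 t3 t4 t5 t6 : (ℕ → M) → M) [DT t1] [DT t2] [DT t3] [DT t4] [DT t5]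
    [DT t6] : DT (fun v => Sta (t1 v) (t2 v) (t3 v) (t4 v) (t5 v) (t6 v)) := by
  refine DT6 (f := Sta) ?_ t1 t2 t3 t4 t5 t6
  unfold Sta
  infer_instance

/-- the names given by `(δ, r, A)` are good at level `n` -/
def Vd (e τ s0 W E n δ r A : M) : Prop := ∀ b, Bs n b → (∀ j, j ∈ n → ap b j ∈ δ) →
  Am (Al b emp n) (fun h => Meets (Nm r A b) h) ∧
  ∀ h, IsFun h (omega M) (Al b emp n) → Meets (Nm r A b) h →
    Dm e τ n b h ∧ Fv (Nm r A b) h ∈ W ∧ pr δ (pr (Sta e τ s0 n b h) (Fv (Nm r A b) h)) ∈ E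

instance D_Vd (t1 t2 t3 t4 t5 t6 t7 t8 t9 : (ℕ → M) → M) [DT t1] [DT t2] [DT t3] [DT t4]
    [DT t5] [DT t6] [DT t7] [DT t8] [DT t9] :
    D (fun v => Vd (t1 v) (t2 v) (t3 v) (t4 v) (t5 v) (t6 v) (t7 v) (t8 v) (t9 v)) := by
  refine D9 (P := Vd) ?_ t1 t2 t3 t4 t5 t6 t7 t8 t9
  unfold Vd
  infer_instance

/-- player I wins the play `x, y` of the game of level `n` -/
def IWin (e τ s0 W E n x y : M) : Prop := ∃ β f, β ∈ om1 M ∧ emp ∈ β ∧ Surj f (omega M) β ∧
  dO e x = oc f ∧ ¬ ∃ δ r, δ ∈ om1 M ∧ β ∈ suc δ ∧ Surj r (omega M) δ ∧ dO e y = oc r ∧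
    Vd e τ s0 W E n δ r (dA e y)

instance D_IWin (t1 t2 t3 t4 t5 t6 t7 t8 : (ℕ → M) → M) [DT t1] [DT t2] [DT t3] [DT t4]
    [DT t5] [DT t6] [DT t7] [DT t8] :
    D (fun v => IWin (t1 v) (t2 v) (t3 v) (t4 v) (t5 v) (t6 v) (t7 v) (t8 v)) := by
  refine D8 (P := IWin) ?_ t1 t2 t3 t4 t5 t6 t7 t8
  unfold IWin
  infer_instance

/-- the payoff set of the game of level `n` -/
noncomputable def Pay (e τ s0 W E n : M) : M :=
  sep (prod (funs (omega M) (omega M)) (funs (omega M) (omega M)))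
    (fun p => IWin e τ s0 W E n (fst p) (snd p))

instance DT_Pay (t1 t2 t3 t4 t5 t6 : (ℕ → M) → M) [DT t1] [DT t2] [DT t3] [DT t4] [DT t5]
    [DT t6] : DT (fun v => Pay (t1 v) (t2 v) (t3 v) (t4 v) (t5 v) (t6 v)) := by
  refine DT6 (f := Pay) ?_ t1 t2 t3 t4 t5 t6
  unfold Pay
  infer_instance

/-- the history `(b, h)` of length `n` can be continued -/
def Gd (e τ n b h : M) : Prop := n ∈ omega M ∧ Bs n b ∧ IsFun h (omega M) (Al b emp n) ∧
  ∀ n' b', n' ∈ omega M → Sub n n' → Bs n' b' → restr b' n = b →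
    Am (Al b' n n') (fun g => Dm e τ n' b' (jn h g))

instance D_Gd (t1 t2 t3 t4 t5 : (ℕ → M) → M) [DT t1] [DT t2] [DT t3] [DT t4] [DT t5] :
    D (fun v => Gd (t1 v) (t2 v) (t3 v) (t4 v) (t5 v)) := by
  refine D5 (P := Gd) ?_ t1 t2 t3 t4 t5
  unfold Gd
  infer_instance

/-- the data of the construction: `e` is an injection into `ω` and `E` is a relation on `ω₁ × W × W`
which is decreasing in the first argument and total; `s0 ∈ W`. -/
structure Hyp (e s0 W E : M) : Prop where
  inj : Inj e (KK M) (omega M)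
  mem : s0 ∈ W
  sub : Sub W (pow (omega M))
  mono : ∀ δ δ' s s', δ' ∈ om1 M → δ ∈ δ' → pr δ' (pr s s') ∈ E → pr δ (pr s s') ∈ E
  tot : ∀ δ s, δ ∈ om1 M → s ∈ W → ∃ s', s' ∈ W ∧ pr δ (pr s s') ∈ E

end Pool.Agent.Lib.MP_3b60c8_lc
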