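import Pool.Agent.Lib.MP_3b60c8_lc.Defs

/-! Determinacy of games with countably many moves and the Baire property, from `AD` (moves
in `ω`); compare `det_emb` in `MP_7b07e0_lc/AD.lean` and the end of `MP_7b07e0_lc/Space.lean`. -/

set_option synthInstance.maxSize 2000

namespace Pool.Agent.Lib.MP_3b60c8_lc

open Pool.Agent.Lib.MP_f5c99b_lc

universe u

variable {M : Type u} [Membership M M] [hZF : Fact (IsModelOfZF M)]

theorem det_ctbl (hAD : ADN M) {S : M} (hS : Ctbl S) (hne : ∃ x, x ∈ S) (A : M) :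
    (∃ σ, WinI S A σ) ∨ ∃ τ, WinII S A τ := by
  obtain ⟨f, hf⟩ := hS
  obtain ⟨g, hg, hgf⟩ := AU_retract hf hne
  have hfF : IsFun f S (omega M) := hf.1
  let A' : M := sep (prod (funs (omega M) (omega M)) (funs (omega M) (omega M)))
    (fun p => pr (cmp (omega M) (fst p) g) (cmp (omega M) (snd p) g) ∈ A)
  have hA' : ∀ x y, IsFun x (omega M) (omega M) → IsFun y (omega M) (omega M) →
      (pr x y ∈ A' ↔ pr (cmp (omega M) x g) (cmp (omega M) y g) ∈ A) := by
    intro x y hx hy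
    change pr x y ∈ sep _ _ ↔ _
    rw [mem_sep, pr_mem_prod, fst_pr, snd_pr, mem_funs, mem_funs]
    exact ⟨fun h => h.2, fun h => ⟨⟨hx, hy⟩, h⟩⟩
  -- `g ∘ f ∘ y = y`
  have hback : ∀ y, IsFun y (omega M) S →
      cmp (omega M) (cmp (omega M) y f) g = y := by
    intro y hy
    refine (AU_isFun_cmp (AU_isFun_cmp hy hfF) hg).ext hy fun n hn => ?_
    rw [AU_ap_cmp hn, AU_ap_cmp hn, hgf _ (hy.ap_mem hn)]
  -- the transferred strategy
  have hstr : ∀ σ', IsFun σ' (fseq (omega M)) (omega M) →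
      IsFun (lam (fseq S) (fun s => ap g (ap σ' (cmp (dom s) s f)))) (fseq S) S := by
    intro σ' hσ'
    exact isFun_lam fun s hs => hg.ap_mem (hσ'.ap_mem (AU_cmp_mem_fseq hfF hs))
  have hval : ∀ σ' y n, IsFun y (omega M) S → n ∈ omega M →
      ap (lam (fseq S) (fun s => ap g (ap σ' (cmp (dom s) s f)))) (restr y n) =
        ap g (ap σ' (restr (cmp (omega M) y f) n)) := by
    intro σ' y n hy hn
    rw [ap_lam' (restr_mem_fseq hy hn), (isFun_restr_omega hy hn).dom,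
      AU_cmp_restr hy hfF (AU_sub_omega hn)]
  rcases hAD A' with ⟨σ', hσ', hw⟩ | ⟨τ', hτ', hw⟩
  · left
    refine ⟨_, hstr σ' hσ', fun x y hx hy hxy => ?_⟩
    have hy' : IsFun (cmp (omega M) y f) (omega M) (omega M) := AU_isFun_cmp hy hfF
    let x' : M := lam (omega M) (fun n => ap σ' (restr (cmp (omega M) y f) n))
    have hx' : IsFun x' (omega M) (omega M) :=
      isFun_lam fun n hn => hσ'.ap_mem (restr_mem_fseq hy' hn)
    have hapx' : ∀ n, n ∈ omega M → ap x' n = ap σ' (restr (cmp (omega M) y f) n) :=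
      fun n hn => ap_lam' hn
    have h1 := (hA' x' _ hx' hy').mp (hw x' _ hx' hy' hapx')
    rw [hback y hy] at h1
    have h2 : cmp (omega M) x' g = x := by
      refine (AU_isFun_cmp hx' hg).ext hx fun n hn => ?_
      rw [AU_ap_cmp hn, hapx' n hn, hxy n hn, hval σ' y n hy hn]
    rwa [h2] at h1
  · right
    refine ⟨_, hstr τ' hτ', fun x y hx hy hxy => ?_⟩
    have hx' : IsFun (cmp (omega M) x f) (omega M) (omega M) := AU_isFun_cmp hx hfF
    let y' : M := lam (omega M) (fun n => ap τ' (restr (cmp (omega M) x f) (suc n)))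
    have hy' : IsFun y' (omega M) (omega M) :=
      isFun_lam fun n hn => hτ'.ap_mem (restr_mem_fseq hx' (suc_mem_omega hn))
    have hapy' : ∀ n, n ∈ omega M → ap y' n = ap τ' (restr (cmp (omega M) x f) (suc n)) :=
      fun n hn => ap_lam' hn
    have h1 := fun h => hw _ y' hx' hy' hapy' ((hA' _ y' hx' hy').mpr h)
    rw [hback x hx] at h1
    have h2 : cmp (omega M) y' g = y := by
      refine (AU_isFun_cmp hy' hg).ext hy fun n hn => ?_
      rw [AU_ap_cmp hn, hapy' n hn, hxy n hn, hval τ' x (suc n) hx (suc_mem_omega hn)]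
    rwa [h2] at h1


/-- the Baire property, localised -/
theorem bp_loc (hDC : DC M) (hAD : ADN M) {P B A u : M} (h : Sp P B) (hu : u ∈ B)
    (hn : ¬ Mgr B P (inter A u)) : ∃ w, w ∈ B ∧ Sub w u ∧ Mgr B P (diff w A) := by
  obtain ⟨S, hS⟩ := h.shrink
  rcases det_ctbl hAD h.ctbl ⟨u, hu⟩ (B3pay B S u A) with ⟨σ, hσ⟩ | ⟨τ, hτ⟩
  · exact B3_caseI hDC h.toBase hS ⟨u, hu⟩ hσ
  · exact absurd (B3_caseII hDC h.toBase hS hu hτ) hn

/-- the Baire property -/
theorem bp (hDC : DC M) (hAD : ADN M) {P B A : M} (h : Sp P B) (hA : Sub A P)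
    (hn : ¬ Mgr B P A) : ∃ u, u ∈ B ∧ Mgr B P (diff u A) := by
  by_contra hcon
  push Not at hcon
  apply hn
  refine (Mgr.iUnion' hDC h.toBase h.ctbl (fun u => inter A u) ?_).sub ?_
  · intro u hu
    by_contra h1
    obtain ⟨w, hw, _, h2⟩ := bp_loc hDC hAD h hu h1
    exact hcon w hw h2
  · intro x hx
    obtain ⟨u, hu, hxu⟩ := h.cover x (hA x hx)
    exact mem_sU.mpr ⟨_, mem_img.mpr ⟨u, hu, rfl⟩, mem_inter.mpr ⟨hx, hxu⟩⟩


end Pool.Agent.Lib.MP_3b60c8_lc
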