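import Pool.Agent.Lib.MP_3b60c8_lc.FDefs
import Pool.Agent.Lib.MP_3b60c8_lc.Cod

/-! ROW fcl-CMP. Numerals and components of codes; existence of codes with given components
(`AU_retract` for the injection `e`). -/

set_option synthInstance.maxSize 2000

namespace Pool.Agent.Lib.MP_3b60c8_lc

open Pool.Agent.Lib.MP_f5c99b_lc

universe u

variable {M : Type u} [Membership M M] [hZF : Fact (IsModelOfZF M)]

theorem mem_BB {x : M} : x ∈ BB M ↔ IsFun x (omega M) (omega M) := mem_funs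

theorem mem_SS {x : M} : x ∈ SS M ↔ IsFun x (fseq (omega M)) (omega M) := mem_funs

theorem nn_mem (k : ℕ) : (nn k : M) ∈ omega M := by
  induction k with
  | zero => exact emp_mem_omega
  | succ k ih => exact suc_mem_omega ih

theorem nn_inj {i j : ℕ} : (nn i : M) = nn j ↔ i = j := by
  constructor
  · intro h
    induction i generalizing j with
    | zero =>
      cases j with
      | zero => rfl
      | succ j => exact absurd h.symm (suc_ne_emp _)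
    | succ i ih =>
      cases j with
      | zero => exact absurd h (suc_ne_emp _)
      | succ j => rw [ih (C2_suc_inj h)]
  · rintro rfl
    rfl

theorem exists_eJ : ∃ e : M, Inj e (JJ M) (omega M) := by
  unfold JJ
  exact ctbl_omega.prod (ctbl_omega.un ctbl_omega.fseq)

theorem CMP_memL {i n : M} (hi : i ∈ omega M) (hn : n ∈ omega M) : pr i n ∈ JJ M := by
  rw [JJ, pr_mem_prod, mem_un]
  exact ⟨hi, Or.inl hn⟩

theorem CMP_memR {i s : M} (hi : i ∈ omega M) (hs : s ∈ fseq (omega M)) : pr i s ∈ JJ M := by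
  rw [JJ, pr_mem_prod, mem_un]
  exact ⟨hi, Or.inr hs⟩

theorem tg_mem {e c : M} (he : Inj e (JJ M) (omega M)) (hc : c ∈ BB M) : tg e c ∈ omega M := by
  unfold tg
  exact (mem_BB.mp hc).ap_mem (he.1.ap_mem (CMP_memL (nn_mem 0) (nn_mem 0)))

theorem rc_mem {e i c : M} (he : Inj e (JJ M) (omega M)) (hi : i ∈ omega M) (hc : c ∈ BB M) :
    rc e i c ∈ BB M := by
  unfold rc
  exact mem_BB.mpr (isFun_lam fun n hn => (mem_BB.mp hc).ap_mem (he.1.ap_mem (CMP_memL hi hn)))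

theorem sc_mem {e c : M} (he : Inj e (JJ M) (omega M)) (hc : c ∈ BB M) : sc e c ∈ SS M := by
  unfold sc
  exact mem_SS.mpr (isFun_lam fun s hs =>
    (mem_BB.mp hc).ap_mem (he.1.ap_mem (CMP_memR (nn_mem 4) hs)))

theorem rep_mem {τ x : M} (hτ : τ ∈ SS M) (hx : x ∈ BB M) : rep τ x ∈ BB M :=
  mem_BB.mpr (rep_fun (mem_SS.mp hτ) (mem_BB.mp hx))

theorem repI_mem {σ y : M} (hσ : σ ∈ SS M) (hy : y ∈ BB M) : repI σ y ∈ BB M :=
  mem_BB.mpr (repI_fun (mem_SS.mp hσ) (mem_BB.mp hy))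

/-- the graph of the code with the given components (composed with the coding of the digits) -/
def CMP_F (t r1 r2 r3 s p y : M) : Prop :=
  (fst p = nn 0 ∧ y = t) ∨ (fst p = nn 1 ∧ y = ap r1 (snd p)) ∨
  (fst p = nn 2 ∧ y = ap r2 (snd p)) ∨ (fst p = nn 3 ∧ y = ap r3 (snd p)) ∨
  (fst p = nn 4 ∧ y = ap s (snd p))

instance D_CMP_F (t1 t2 t3 t4 t5 t6 t7 : (ℕ → M) → M) [DT t1] [DT t2] [DT t3] [DT t4] [DT t5]
    [DT t6] [DT t7] : D (fun v => CMP_F (t1 v) (t2 v) (t3 v) (t4 v) (t5 v) (t6 v) (t7 v)) := by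
  refine D7 (P := CMP_F) ?_ t1 t2 t3 t4 t5 t6 t7
  unfold CMP_F
  infer_instance

theorem CMP_F_uniq {t r1 r2 r3 s p y z : M} (hy : CMP_F t r1 r2 r3 s p y)
    (hz : CMP_F t r1 r2 r3 s p z) : y = z := by
  have key : ∀ {i j : ℕ}, fst p = nn i → fst p = nn j → i = j :=
    fun h1 h2 => nn_inj.mp (h1.symm.trans h2)
  rcases hy with ⟨a, ha⟩ | ⟨a, ha⟩ | ⟨a, ha⟩ | ⟨a, ha⟩ | ⟨a, ha⟩ <;>
    rcases hz with ⟨b, hb⟩ | ⟨b, hb⟩ | ⟨b, hb⟩ | ⟨b, hb⟩ | ⟨b, hb⟩ <;>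
    first
    | exact ha.trans hb.symm
    | exact absurd (key a b) (by decide)

/-- the values of the code with the given components -/
noncomputable def CMP_v (t r1 r2 r3 s p : M) : M :=
  iota (fun y => (y ∈ omega M ∧ CMP_F t r1 r2 r3 s p y) ∨
    ((¬ ∃ z, z ∈ omega M ∧ CMP_F t r1 r2 r3 s p z) ∧ y = emp))

instance DT_CMP_v (t1 t2 t3 t4 t5 t6 : (ℕ → M) → M) [DT t1] [DT t2] [DT t3] [DT t4] [DT t5]
    [DT t6] : DT (fun v => CMP_v (t1 v) (t2 v) (t3 v) (t4 v) (t5 v) (t6 v)) := by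
  refine DT6 (f := CMP_v) ?_ t1 t2 t3 t4 t5 t6
  unfold CMP_v
  infer_instance

theorem CMP_v_eq {t r1 r2 r3 s p y : M} (hy : y ∈ omega M) (h : CMP_F t r1 r2 r3 s p y) :
    CMP_v t r1 r2 r3 s p = y := by
  unfold CMP_v
  refine iota_eq (Or.inl ⟨hy, h⟩) ?_
  rintro z (⟨_, h'⟩ | ⟨h', _⟩)
  · exact CMP_F_uniq h' h
  · exact absurd ⟨y, hy, h⟩ h'

theorem CMP_v_mem {t r1 r2 r3 s p : M} : CMP_v t r1 r2 r3 s p ∈ omega M := by
  by_cases h : ∃ z, z ∈ omega M ∧ CMP_F t r1 r2 r3 s p z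
  · obtain ⟨z, hz, h⟩ := h
    rw [CMP_v_eq hz h]
    exact hz
  · have h1 : CMP_v t r1 r2 r3 s p = emp := by
      unfold CMP_v
      refine iota_eq (Or.inr ⟨h, rfl⟩) ?_
      rintro z (⟨h1, h2⟩ | ⟨_, h2⟩)
      · exact absurd ⟨z, h1, h2⟩ h
      · exact h2
    rw [h1]
    exact emp_mem_omega

/-- there are codes with given components -/
theorem mkex {e t r1 r2 r3 s : M} (he : Inj e (JJ M) (omega M)) (ht : t ∈ omega M)
    (h1 : r1 ∈ BB M) (h2 : r2 ∈ BB M) (h3 : r3 ∈ BB M) (hs : s ∈ SS M) :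
    ∃ c, c ∈ BB M ∧ tg e c = t ∧ rc e (nn 1) c = r1 ∧ rc e (nn 2) c = r2 ∧
      rc e (nn 3) c = r3 ∧ sc e c = s := by
  obtain ⟨g, hg, hgf⟩ := AU_retract he ⟨_, CMP_memL (nn_mem 0) (nn_mem 0)⟩
  have key : ∀ x, x ∈ JJ M → ap (lam (omega M) (fun k => CMP_v t r1 r2 r3 s (ap g k))) (ap e x) =
      CMP_v t r1 r2 r3 s x := by
    intro x hx
    rw [ap_lam' (he.1.ap_mem hx), hgf x hx]
  have hc : lam (omega M) (fun k => CMP_v t r1 r2 r3 s (ap g k)) ∈ BB M :=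
    mem_BB.mpr (isFun_lam fun k _ => CMP_v_mem)
  have hs' := mem_SS.mp hs
  have k1 : ∀ n, n ∈ omega M → CMP_v t r1 r2 r3 s (pr (nn 1) n) = ap r1 n := fun n hn =>
    CMP_v_eq ((mem_BB.mp h1).ap_mem hn) (Or.inr (Or.inl ⟨fst_pr _ _, by rw [snd_pr]⟩))
  have k2 : ∀ n, n ∈ omega M → CMP_v t r1 r2 r3 s (pr (nn 2) n) = ap r2 n := fun n hn =>
    CMP_v_eq ((mem_BB.mp h2).ap_mem hn) (Or.inr (Or.inr (Or.inl ⟨fst_pr _ _, by rw [snd_pr]⟩)))
  have k3 : ∀ n, n ∈ omega M → CMP_v t r1 r2 r3 s (pr (nn 3) n) = ap r3 n := fun n hn =>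
    CMP_v_eq ((mem_BB.mp h3).ap_mem hn)
      (Or.inr (Or.inr (Or.inr (Or.inl ⟨fst_pr _ _, by rw [snd_pr]⟩))))
  have k4 : ∀ n, n ∈ fseq (omega M) → CMP_v t r1 r2 r3 s (pr (nn 4) n) = ap s n := fun n hn =>
    CMP_v_eq (hs'.ap_mem hn)
      (Or.inr (Or.inr (Or.inr (Or.inr ⟨fst_pr _ _, by rw [snd_pr]⟩))))
  have k : ∀ {r i : M}, r ∈ BB M → i ∈ omega M →
      (∀ n, n ∈ omega M → CMP_v t r1 r2 r3 s (pr i n) = ap r n) →
      rc e i (lam (omega M) (fun k => CMP_v t r1 r2 r3 s (ap g k))) = r := by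
    intro r i hr hi hk
    refine (mem_BB.mp (rc_mem he hi hc)).ext (mem_BB.mp hr) fun n hn => ?_
    rw [rc, ap_lam' hn, key _ (CMP_memL hi hn), hk n hn]
  refine ⟨_, hc, ?_, k h1 (nn_mem 1) k1, k h2 (nn_mem 2) k2, k h3 (nn_mem 3) k3, ?_⟩
  · rw [tg, key _ (CMP_memL (nn_mem 0) (nn_mem 0))]
    exact CMP_v_eq ht (Or.inl ⟨fst_pr _ _, rfl⟩)
  · refine (mem_SS.mp (sc_mem he hc)).ext hs' fun n hn => ?_
    rw [sc, ap_lam' hn, key _ (CMP_memR (nn_mem 4) hn), k4 n hn]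

theorem exists_BB : ∃ x : M, x ∈ BB M :=
  ⟨lam (omega M) (fun _ => emp), mem_BB.mpr (isFun_lam fun _ _ => emp_mem_omega)⟩

theorem exists_SS : ∃ x : M, x ∈ SS M :=
  ⟨lam (fseq (omega M)) (fun _ => emp), mem_SS.mpr (isFun_lam fun _ _ => emp_mem_omega)⟩

end Pool.Agent.Lib.MP_3b60c8_lc
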