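import Pool.Agent.Lib.MP_3b60c8_lc.FU

/-! ROW fcl-COD. The coding lemma for the relations `U_c`. -/

set_option synthInstance.maxSize 2000

namespace Pool.Agent.Lib.MP_3b60c8_lc

open Pool.Agent.Lib.MP_f5c99b_lc

universe u

variable {M : Type u} [Membership M M] [hZF : Fact (IsModelOfZF M)]

/-- the code `c` is valid -/
def Vld (e g : M) (Z : M → M → Prop) (c : M) : Prop := ∀ x y, UU e g c x y → Z x y

instance D_Vld {e g : M} {Z : M → M → Prop} [hz : D (fun v => Z (v 0) (v 1))]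
    (t : (ℕ → M) → M) [DT t] : D (fun v => Vld e g Z (t v)) := by
  refine D1 (P := Vld e g Z) ?_ t
  have : D (fun v : ℕ → M => Z (v 1) (v 0)) := D2 (P := Z) hz (fun v => v 1) (fun v => v 0)
  unfold Vld
  infer_instance

/-- `c` with tag 3, strategy `τ` and argument `v` -/
def Gt (e τ v c : M) : Prop := c ∈ BB M ∧ tg e c = nn 3 ∧ sc e c = τ ∧ rc e (nn 1) c = v

instance D_Gt (t1 t2 t3 t4 : (ℕ → M) → M) [DT t1] [DT t2] [DT t3] [DT t4] :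
    D (fun v => Gt (t1 v) (t2 v) (t3 v) (t4 v)) := by
  refine D4 (P := Gt) ?_ t1 t2 t3 t4
  unfold Gt
  infer_instance

theorem exists_Gt {e τ v : M} (he : Inj e (JJ M) (omega M)) (hτ : τ ∈ SS M) (hv : v ∈ BB M) :
    ∃ c, Gt e τ v c := by
  obtain ⟨c, hc, h1, h2, h3, h4, h5⟩ := mkex he (nn_mem 3) hv hv hv hτ
  exact ⟨c, hc, h1, h5, h2⟩

/-- player I wins the play `(a, b)` -/
def PI (e g l : M) (Z : M → M → Prop) (a b : M) : Prop := Vld e g Z a ∧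
  (Vld e g Z b → ∃ α, α ∈ l ∧ ¬ Cov e g b α ∧ ∀ β, β ∈ α → Cov e g a β)

/-- player II has a winning strategy -/
theorem coding_II {e g l τ : M} (h : Hy e g l) (Z : M → M → Prop) [hz : D (fun v => Z (v 0) (v 1))]
    (hτ : τ ∈ SS M) (hw : ∀ x, x ∈ BB M → ¬ PI e g l Z x (rep τ x)) :
    ∃ a, a ∈ BB M ∧ Vld e g Z a ∧ Tot e g l a := by
  -- the codes of tag 3 are valid and cover the ordinals below their argument
  have hw' : ∀ x, x ∈ BB M → Vld e g Z x → Vld e g Z (rep τ x) ∧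
      ∀ α, α ∈ l → (∀ β, β ∈ α → Cov e g x β) → Cov e g (rep τ x) α := by
    intro x hx hv
    have h1 := hw x hx
    unfold PI at h1
    push Not at h1
    obtain ⟨h2, h3⟩ := h1 hv
    refine ⟨h2, fun α hα hc => ?_⟩
    by_contra hn
    obtain ⟨β, hβ, h4⟩ := h3 α hα hn
    exact h4 (hc β hβ)
  have key : ∀ α : M, Ord α → α ∈ l → ∀ w, w ∈ BB M → ap g w = α → ∀ z, Gt e τ w z →
      Vld e g Z z ∧ ∀ β, β ∈ α → Cov e g z β := by
    refine ord_induct _ fun α hα ih hαl w hw1 hw2 z hz => ?_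
    obtain ⟨hz0, hz1, hz2, hz3⟩ := hz
    constructor
    · intro x y hxy
      obtain ⟨z', hz', h1, h2, h3, h4⟩ := (UU3 h.inj hz0 hz1).mp hxy
      rw [hz3, hw2] at h3
      rw [hz2] at h2 h4
      have h5 := ih _ h3 (h.ord.trans hαl h3) _ (rc_mem h.inj (nn_mem 1) hz') rfl z'
        ⟨hz', h1, h2, rfl⟩
      exact (hw' z' hz' h5.1).1 x y h4
    · intro β hβ
      have hβl := h.ord.trans hαl hβ
      obtain ⟨v, hv, hvβ⟩ := h.sur.2 β hβl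
      obtain ⟨z', hz'⟩ := exists_Gt h.inj hτ hv
      have h5 := ih β hβ hβl v hv hvβ z' hz'
      obtain ⟨x, y, hx, hxy⟩ := (hw' z' hz'.1 h5.1).2 β hβl h5.2
      obtain ⟨h6, h7, h8, h9⟩ := hz'
      refine ⟨x, y, hx, (UU3 h.inj hz0 hz1).mpr ⟨z', h6, h7, ?_, ?_, ?_⟩⟩
      · rw [h8, hz2]
      · rw [h9, hz3, hvβ, hw2]
        exact hβ
      · rw [hz2]
        exact hxy
  have key' : ∀ z, z ∈ BB M → tg e z = nn 3 → sc e z = τ → Vld e g Z z ∧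
      ∀ β, β ∈ ap g (rc e (nn 1) z) → Cov e g z β := by
    intro z h1 h2 h3
    have h4 := rc_mem h.inj (nn_mem 1) h1
    have h5 := h.sur.1.ap_mem h4
    exact key _ (h.ord.mem h5) h5 _ h4 rfl z ⟨h1, h2, h3, rfl⟩
  obtain ⟨b0, hb0⟩ := exists_BB (M := M)
  obtain ⟨a, ha, h1, -, -, -, h5⟩ := mkex h.inj (nn_mem 4) hb0 hb0 hb0 hτ
  refine ⟨a, ha, ?_, ?_⟩
  · intro x y hxy
    obtain ⟨z, hz, h6, h7, h8⟩ := (UU4 h.inj ha h1).mp hxy
    rw [h5] at h7 h8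
    exact (hw' z hz (key' z hz h6 h7).1).1 x y h8
  · intro α hα
    obtain ⟨v, hv, hvα⟩ := h.sur.2 α hα
    obtain ⟨z, hz⟩ := exists_Gt h.inj hτ hv
    obtain ⟨h6, h7, h8, h9⟩ := hz
    obtain ⟨h10, h11⟩ := key' z h6 h7 h8
    rw [h9, hvα] at h11
    obtain ⟨x, y, hx, hxy⟩ := (hw' z h6 h10).2 α hα h11
    refine ⟨x, y, hx, (UU4 h.inj ha h1).mpr ⟨z, h6, h7, ?_, ?_⟩⟩
    · rw [h8, h5]
    · rw [h5]
      exact hxy

/-- player I has a winning strategy -/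
theorem coding_I {e g l σ : M} (h : Hy e g l) (Z : M → M → Prop)
    (hZ : ∀ α, α ∈ l → ∃ x y, x ∈ BB M ∧ y ∈ BB M ∧ ap g x = α ∧ Z x y)
    (hσ : σ ∈ SS M) (hw : ∀ y, y ∈ BB M → PI e g l Z (repI σ y) y) :
    ∃ a, a ∈ BB M ∧ Vld e g Z a ∧ Tot e g l a := by
  by_contra hno
  push Not at hno
  obtain ⟨b0, hb0⟩ := exists_BB (M := M)
  obtain ⟨C, hC, h1, -, -, -, h5⟩ := mkex h.inj (nn_mem 2) hb0 hb0 hb0 hσ
  have hCv : Vld e g Z C := by
    intro x y hxy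
    obtain ⟨z, hz, h6⟩ := (UU2 h.inj hC h1).mp hxy
    rw [h5] at h6
    exact (hw z hz).1 x y h6
  have hCn : ¬ Tot e g l C := hno C hC hCv
  have hC1 : ∃ α, Ord α ∧ (α ∈ l ∧ ¬ Cov e g C α) := by
    unfold Tot at hCn
    push Not at hCn
    obtain ⟨α, hα, h6⟩ := hCn
    exact ⟨α, h.ord.mem hα, hα, h6⟩
  obtain ⟨α, hα, ⟨hαl, hαC⟩, hmin⟩ := Ord.least _ hC1
  have hlt : ∀ β, β ∈ α → Cov e g C β := by
    intro β hβ
    by_contra h6
    exact hmin β hβ ⟨h.ord.trans hαl hβ, h6⟩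
  obtain ⟨x0, y0, hx0, hy0, hgx, hZ0⟩ := hZ α hαl
  obtain ⟨b1, hb1⟩ := exists_SS (M := M)
  obtain ⟨C', hC', k1, k2, k3, k4, -⟩ := mkex h.inj (nn_mem 1) hC hx0 hy0 hb1
  have hU : ∀ x y, UU e g C' x y ↔ (x = x0 ∧ y = y0) ∨ UU e g C x y := by
    intro x y
    have h6 := UU1 (g := g) (x := x) (y := y) h.inj hC' k1
    rw [k2, k3, k4] at h6
    exact h6
  have hV' : Vld e g Z C' := by
    intro x y hxy
    rcases (hU x y).mp hxy with ⟨rfl, rfl⟩ | h6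
    · exact hZ0
    · exact hCv x y h6
  obtain ⟨α', hα'l, hn, hcov⟩ := (hw C' hC').2 hV'
  have hne : α' ≠ α := by
    rintro rfl
    exact hn ⟨x0, y0, hgx, (hU x0 y0).mpr (Or.inl ⟨rfl, rfl⟩)⟩
  have hnl : α' ∉ α := by
    intro h6
    obtain ⟨x, y, h7, h8⟩ := hlt α' h6
    exact hn ⟨x, y, h7, (hU x y).mpr (Or.inr h8)⟩
  have hgt : α ∈ α' := by
    rcases hα.tri (h.ord.mem hα'l) with h6 | h6 | h6
    · exact h6
    · exact absurd h6.symm hne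
    · exact absurd h6 hnl
  obtain ⟨x, y, h7, h8⟩ := hcov α hgt
  refine hαC ⟨x, y, h7, (UU2 h.inj hC h1).mpr ⟨C', hC', ?_⟩⟩
  rw [h5]
  exact h8

theorem coding (hAD : ADN M) {e g l : M} (h : Hy e g l) (Z : M → M → Prop)
    [hz : D (fun v => Z (v 0) (v 1))]
    (hZ : ∀ α, α ∈ l → ∃ x y, x ∈ BB M ∧ y ∈ BB M ∧ ap g x = α ∧ Z x y) :
    ∃ a, a ∈ BB M ∧ (∀ x y, UU e g a x y → Z x y) ∧ Tot e g l a := by
  have hD : D (fun v : ℕ → M => PI e g l Z (fst (v 0)) (snd (v 0))) := by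
    unfold PI
    infer_instance
  rcases hAD (sep (prod (BB M) (BB M)) (fun p => PI e g l Z (fst p) (snd p))) with
    ⟨σ, hσ, hw⟩ | ⟨τ, hτ, hw⟩
  · refine coding_I h Z hZ (mem_SS.mpr hσ) fun y hy => ?_
    have h1 := hw (repI σ y) y (mem_BB.mp (repI_mem (mem_SS.mpr hσ) hy)) (mem_BB.mp hy)
      (fun n hn => by rw [repI, ap_lam' hn])
    have h2 := (mem_sep.mp h1).2
    rwa [fst_pr, snd_pr] at h2
  · refine coding_II h Z (mem_SS.mpr hτ) fun x hx hP => ?_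
    have h0 := rep_mem (mem_SS.mpr hτ) hx
    have h1 := hw x (rep τ x) (mem_BB.mp hx) (mem_BB.mp h0) (fun n hn => by rw [rep, ap_lam' hn])
    refine h1 (mem_sep.mpr ⟨pr_mem_prod.mpr ⟨hx, h0⟩, ?_⟩)
    rw [fst_pr, snd_pr]
    exact hP

end Pool.Agent.Lib.MP_3b60c8_lc
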