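import Pool.Agent.Lib.MP_3b60c8_lc.Defs

/-! Definitions for the coding theorem for `λ`-splitting trees, arbitrary `λ`, in a model of
`ZF + DC + AD`: codes for relations between reals, good codes. -/

set_option synthInstance.maxSize 2000

namespace Pool.Agent.Lib.MP_3b60c8_lc

open Pool.Agent.Lib.MP_f5c99b_lc

universe u

variable {M : Type u} [Membership M M] [hZF : Fact (IsModelOfZF M)]

/-- the numerals -/
noncomputable def nn : ℕ → M
  | 0 => emp
  | k + 1 => suc (nn k)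

variable (M) in
/-- the set of the reals `ω → ω` -/
noncomputable def BB : M := funs (omega M) (omega M)

variable (M) in
/-- the set of the strategies -/
noncomputable def SS : M := funs (fseq (omega M)) (omega M)

variable (M) in
/-- the indices of the digits of a code -/
noncomputable def JJ : M := prod (omega M) (un (omega M) (fseq (omega M)))

/-- the tag of a code -/
noncomputable def tg (e c : M) : M := ap c (ap e (pr (nn 0) (nn 0)))

instance DT_tg (t1 t2 : (ℕ → M) → M) [DT t1] [DT t2] : DT (fun v => tg (t1 v) (t2 v)) := by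
  refine DT2 (f := tg) ?_ t1 t2
  unfold tg
  infer_instance

/-- the real components of a code -/
noncomputable def rc (e i c : M) : M := lam (omega M) (fun n => ap c (ap e (pr i n)))

instance DT_rc (t1 t2 t3 : (ℕ → M) → M) [DT t1] [DT t2] [DT t3] :
    DT (fun v => rc (t1 v) (t2 v) (t3 v)) := by
  refine DT3 (f := rc) ?_ t1 t2 t3
  unfold rc
  infer_instance

/-- the strategy of a code -/
noncomputable def sc (e c : M) : M := lam (fseq (omega M)) (fun s => ap c (ap e (pr (nn 4) s)))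

instance DT_sc (t1 t2 : (ℕ → M) → M) [DT t1] [DT t2] : DT (fun v => sc (t1 v) (t2 v)) := by
  refine DT2 (f := sc) ?_ t1 t2
  unfold sc
  infer_instance

/-- `(x, y)` is in the relation coded by `c` because it is in the one coded by `c'` and
`y = rep (sc y') c` for tag 5, `y' = y` otherwise -/
def Stp (e g c y c' y' : M) : Prop :=
  (tg e c = nn 1 ∧ c' = rc e (nn 1) c ∧ y' = y) ∨
  (tg e c = nn 2 ∧ y' = y ∧ ∃ z, z ∈ BB M ∧ c' = repI (sc e c) z) ∨
  (tg e c = nn 3 ∧ y' = y ∧ ∃ z, z ∈ BB M ∧ tg e z = nn 3 ∧ sc e z = sc e c ∧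
    ap g (rc e (nn 1) z) ∈ ap g (rc e (nn 1) c) ∧ c' = rep (sc e c) z) ∨
  (tg e c = nn 4 ∧ y' = y ∧ ∃ z, z ∈ BB M ∧ tg e z = nn 3 ∧ sc e z = sc e c ∧
    c' = rep (sc e c) z) ∨
  (tg e c = nn 5 ∧ c' = rc e (nn 1) c ∧ y = rep (sc e y') c)

instance D_Stp (t1 t2 t3 t4 t5 t6 : (ℕ → M) → M) [DT t1] [DT t2] [DT t3] [DT t4] [DT t5]
    [DT t6] : D (fun v => Stp (t1 v) (t2 v) (t3 v) (t4 v) (t5 v) (t6 v)) := by
  refine D6 (P := Stp) ?_ t1 t2 t3 t4 t5 t6
  unfold Stp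
  infer_instance

/-- a finite chain of steps -/
def Chn (e g x n C Y : M) : Prop := n ∈ omega M ∧ IsFun C (suc n) (BB M) ∧
  IsFun Y (suc n) (BB M) ∧ tg e (ap C emp) = nn 1 ∧ x = rc e (nn 2) (ap C emp) ∧
  ap Y emp = rc e (nn 3) (ap C emp) ∧
  ∀ i, i ∈ n → Stp e g (ap C (suc i)) (ap Y (suc i)) (ap C i) (ap Y i)

instance D_Chn (t1 t2 t3 t4 t5 t6 : (ℕ → M) → M) [DT t1] [DT t2] [DT t3] [DT t4] [DT t5]
    [DT t6] : D (fun v => Chn (t1 v) (t2 v) (t3 v) (t4 v) (t5 v) (t6 v)) := by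
  refine D6 (P := Chn) ?_ t1 t2 t3 t4 t5 t6
  unfold Chn
  infer_instance

/-- the relation coded by `c` -/
def UU (e g c x y : M) : Prop := ∃ n C Y, Chn e g x n C Y ∧ ap C n = c ∧ ap Y n = y

instance D_UU (t1 t2 t3 t4 t5 : (ℕ → M) → M) [DT t1] [DT t2] [DT t3] [DT t4] [DT t5] :
    D (fun v => UU (t1 v) (t2 v) (t3 v) (t4 v) (t5 v)) := by
  refine D5 (P := UU) ?_ t1 t2 t3 t4 t5
  unfold UU
  infer_instance

/-- `α` is the value of `g` at a point of the domain of `U_c` -/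
def Cov (e g c α : M) : Prop := ∃ x y, ap g x = α ∧ UU e g c x y

instance D_Cov (t1 t2 t3 t4 : (ℕ → M) → M) [DT t1] [DT t2] [DT t3] [DT t4] :
    D (fun v => Cov (t1 v) (t2 v) (t3 v) (t4 v)) := by
  refine D4 (P := Cov) ?_ t1 t2 t3 t4
  unfold Cov
  infer_instance

/-- every `α ∈ l` is the value of `g` at a point of the domain of `U_c` -/
def Tot (e g l c : M) : Prop := ∀ α, α ∈ l → Cov e g c α

instance D_Tot (t1 t2 t3 t4 : (ℕ → M) → M) [DT t1] [DT t2] [DT t3] [DT t4] :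
    D (fun v => Tot (t1 v) (t2 v) (t3 v) (t4 v)) := by
  refine D4 (P := Tot) ?_ t1 t2 t3 t4
  unfold Tot
  infer_instance

/-- `S` contains with `(q, c, n + 1)` all the `(q ⌢ x, y, n)`, `(x, y) ∈ U_c` -/
def NGc (e g l T S : M) : Prop := ∀ q c n, pr q (pr c (suc n)) ∈ S →
  Tot e g l c ∧ ∀ x y, UU e g c x y → snoc q x ∈ T ∧ pr (snoc q x) (pr y n) ∈ S

instance D_NGc (t1 t2 t3 t4 t5 : (ℕ → M) → M) [DT t1] [DT t2] [DT t3] [DT t4] [DT t5] :
    D (fun v => NGc (t1 v) (t2 v) (t3 v) (t4 v) (t5 v)) := by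
  refine D5 (P := NGc) ?_ t1 t2 t3 t4 t5
  unfold NGc
  infer_instance

/-- the code `c` is `n`-good at `q` -/
def NG (e g l T q c n : M) : Prop := ∃ S, NGc e g l T S ∧ pr q (pr c n) ∈ S

instance D_NG (t1 t2 t3 t4 t5 t6 t7 : (ℕ → M) → M) [DT t1] [DT t2] [DT t3] [DT t4] [DT t5]
    [DT t6] [DT t7] : D (fun v => NG (t1 v) (t2 v) (t3 v) (t4 v) (t5 v) (t6 v) (t7 v)) := by
  refine D7 (P := NG) ?_ t1 t2 t3 t4 t5 t6 t7
  unfold NG
  infer_instance

/-- the code `c` is `n`-good at `q` for all `n` -/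
def Inf (e g l T q c : M) : Prop := ∀ n, n ∈ omega M → NG e g l T q c n

instance D_Inf (t1 t2 t3 t4 t5 t6 : (ℕ → M) → M) [DT t1] [DT t2] [DT t3] [DT t4] [DT t5]
    [DT t6] : D (fun v => Inf (t1 v) (t2 v) (t3 v) (t4 v) (t5 v) (t6 v)) := by
  refine D6 (P := Inf) ?_ t1 t2 t3 t4 t5 t6
  unfold Inf
  infer_instance

/-- a sequence of codes along `q` -/
def Br (e g c q C : M) : Prop := IsFun C (suc (dom q)) (BB M) ∧ ap C emp = c ∧
  ∀ i, i ∈ dom q → UU e g (ap C i) (ap q i) (ap C (suc i))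

instance D_Br (t1 t2 t3 t4 t5 : (ℕ → M) → M) [DT t1] [DT t2] [DT t3] [DT t4] [DT t5] :
    D (fun v => Br (t1 v) (t2 v) (t3 v) (t4 v) (t5 v)) := by
  refine D5 (P := Br) ?_ t1 t2 t3 t4 t5
  unfold Br
  infer_instance

/-- the tree coded by `c` -/
noncomputable def TT (e g c : M) : M := sep (fseq (BB M)) (fun q => ∃ C, Br e g c q C)

instance DT_TT (t1 t2 t3 : (ℕ → M) → M) [DT t1] [DT t2] [DT t3] :
    DT (fun v => TT (t1 v) (t2 v) (t3 v)) := by
  refine DT3 (f := TT) ?_ t1 t2 t3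
  unfold TT
  infer_instance

/-- the data: `e` is an injection into `ω`, `g` is a function from the reals onto the ordinal `l` -/
structure Hy (e g l : M) : Prop where
  inj : Inj e (JJ M) (omega M)
  ord : Ord l
  sur : Surj g (BB M) l

/-- `T` is closed under initial segments -/
def ClT (T : M) : Prop := ∀ q, q ∈ T → ∀ p, p ∈ fseq (BB M) → Sub p q → p ∈ T

/-- `T` is `l`-splitting -/
def SpT (g l T : M) : Prop := ∀ q, q ∈ T → ∀ α, α ∈ l →
  ∃ x, x ∈ BB M ∧ ap g x = α ∧ snoc q x ∈ T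

end Pool.Agent.Lib.MP_3b60c8_lc
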