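import Pool.Agent.Lib.MP_3b60c8_lc.FCmp

/-! ROW fcl-U. Unfolding of the coded relation: a chain is extended by `snoc` and shortened by
`restr`. -/

set_option synthInstance.maxSize 2000

namespace Pool.Agent.Lib.MP_3b60c8_lc

open Pool.Agent.Lib.MP_f5c99b_lc

universe u

variable {M : Type u} [Membership M M] [hZF : Fact (IsModelOfZF M)]

variable {e g c x y : M}

theorem UU_mem (he : Inj e (JJ M) (omega M)) (h : UU e g c x y) : c ∈ BB M ∧ x ∈ BB M ∧ y ∈ BB M := by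
  obtain ⟨n, C, Y, ⟨hn, hC, hY, ht, hx, hy, hs⟩, rfl, rfl⟩ := h
  refine ⟨hC.ap_mem (mem_suc_self n), ?_, hY.ap_mem (mem_suc_self n)⟩
  rw [hx]
  have h0 : (emp : M) ∈ suc n := by
    rcases omega_zero_or hn with rfl | h1
    · exact mem_suc_self _
    · exact mem_suc.mpr (Or.inl h1)
  exact rc_mem he (nn_mem 2) (hC.ap_mem h0)

private theorem U_emp_mem_suc {n : M} (hn : n ∈ omega M) : (emp : M) ∈ suc n := by
  rcases omega_zero_or hn with rfl | h1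
  · exact mem_suc_self _
  · exact mem_suc.mpr (Or.inl h1)

private theorem U_start (he : Inj e (JJ M) (omega M)) (hc : c ∈ BB M) (ht : tg e c = nn 1)
    (hx : x = rc e (nn 2) c) (hy : y = rc e (nn 3) c) : UU e g c x y := by
  have hyB : y ∈ BB M := by
    rw [hy]
    exact rc_mem he (nn_mem 3) hc
  have h1 : ap (snoc (emp : M) c) emp = c := ap_snoc_last emp_mem_omega (isFun_emp (BB M)) hc
  have h2 : ap (snoc (emp : M) y) emp = y := ap_snoc_last emp_mem_omega (isFun_emp (BB M)) hyB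
  refine ⟨emp, snoc emp c, snoc emp y, ⟨emp_mem_omega, isFun_snoc emp_mem_omega (isFun_emp (BB M)) hc,
    isFun_snoc emp_mem_omega (isFun_emp (BB M)) hyB, ?_, ?_, ?_, ?_⟩, h1, h2⟩
  · rw [h1, ht]
  · rw [h1, hx]
  · rw [h1, h2, hy]
  · intro i hi
    exact absurd hi (not_mem_emp i)

private theorem U_step {c' y' : M} (hc : c ∈ BB M) (hy : y ∈ BB M) (hs : Stp e g c y c' y')
    (h : UU e g c' x y') : UU e g c x y := by
  obtain ⟨n, C, Y, ⟨hn, hC, hY, ht, hx, hy0, hst⟩, hcn, hyn⟩ := h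
  have hsn := suc_mem_omega hn
  have h0 := U_emp_mem_suc hn
  have hC1 : ∀ i, i ∈ suc n → ap (snoc C c) i = ap C i := fun i hi => ap_snoc hsn hC hc hi
  have hY1 : ∀ i, i ∈ suc n → ap (snoc Y y) i = ap Y i := fun i hi => ap_snoc hsn hY hy hi
  have hC2 : ap (snoc C c) (suc n) = c := ap_snoc_last hsn hC hc
  have hY2 : ap (snoc Y y) (suc n) = y := ap_snoc_last hsn hY hy
  refine ⟨suc n, snoc C c, snoc Y y, ⟨hsn, isFun_snoc hsn hC hc, isFun_snoc hsn hY hy, ?_, ?_, ?_, ?_⟩,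
    hC2, hY2⟩
  · rw [hC1 _ h0, ht]
  · rw [hC1 _ h0, hx]
  · rw [hC1 _ h0, hY1 _ h0, hy0]
  · intro i hi
    rcases mem_suc.mp hi with h1 | rfl
    · have h2 : suc i ∈ suc n := (suc_mem_suc (omega_trans hn h1) hn).mpr h1
      rw [hC1 _ h2, hY1 _ h2, hC1 _ hi, hY1 _ hi]
      exact hst i h1
    · rw [hC2, hY2, hC1 _ hi, hY1 _ hi, hcn, hyn]
      exact hs

private theorem U_cases (h : UU e g c x y) :
    (tg e c = nn 1 ∧ x = rc e (nn 2) c ∧ y = rc e (nn 3) c) ∨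
      ∃ c' y', Stp e g c y c' y' ∧ UU e g c' x y' := by
  obtain ⟨n, C, Y, ⟨hn, hC, hY, ht, hx, hy0, hst⟩, rfl, rfl⟩ := h
  rcases omega_cases hn with rfl | ⟨m, hm, rfl⟩
  · exact Or.inl ⟨ht, hx, hy0⟩
  · refine Or.inr ⟨ap C m, ap Y m, hst m (mem_suc_self m), m, restr C (suc m), restr Y (suc m), ?_, ?_, ?_⟩
    · have hsub : Sub (suc m) (suc (suc m)) := C2_sub_suc (suc m)
      have h0 := U_emp_mem_suc hm
      have hC1 : ∀ i, i ∈ suc m → ap (restr C (suc m)) i = ap C i := fun i hi => hC.ap_restr hsub hi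
      have hY1 : ∀ i, i ∈ suc m → ap (restr Y (suc m)) i = ap Y i := fun i hi => hY.ap_restr hsub hi
      refine ⟨hm, hC.restr hsub, hY.restr hsub, ?_, ?_, ?_, ?_⟩
      · rw [hC1 _ h0, ht]
      · rw [hC1 _ h0, hx]
      · rw [hC1 _ h0, hY1 _ h0, hy0]
      · intro i hi
        have h1 : i ∈ suc m := mem_suc.mpr (Or.inl hi)
        have h2 : suc i ∈ suc m := (suc_mem_suc (omega_trans hm hi) hm).mpr hi
        rw [hC1 _ h2, hY1 _ h2, hC1 _ h1, hY1 _ h1]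
        exact hst i h1
    · exact hC.ap_restr (C2_sub_suc (suc m)) (mem_suc_self m)
    · exact hY.ap_restr (C2_sub_suc (suc m)) (mem_suc_self m)

/-- the relation coded by `c` is a fixed point -/
theorem UU_iff (he : Inj e (JJ M) (omega M)) (hc : c ∈ BB M) :
    UU e g c x y ↔ y ∈ BB M ∧ ((tg e c = nn 1 ∧ x = rc e (nn 2) c ∧ y = rc e (nn 3) c) ∨
      ∃ c' y', Stp e g c y c' y' ∧ UU e g c' x y') := by
  constructor
  · intro h
    exact ⟨(UU_mem he h).2.2, U_cases h⟩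
  · rintro ⟨hy, ⟨h1, h2, h3⟩ | ⟨c', y', h1, h2⟩⟩
    · exact U_start he hc h1 h2 h3
    · exact U_step hc hy h1 h2

private theorem U_ne {i j : ℕ} (h : i ≠ j) {z : M} (h1 : z = nn i) (h2 : z = nn j) : False :=
  h (nn_inj.mp (h1.symm.trans h2))

theorem UU1 (he : Inj e (JJ M) (omega M)) (hc : c ∈ BB M) (ht : tg e c = nn 1) :
    UU e g c x y ↔ (x = rc e (nn 2) c ∧ y = rc e (nn 3) c) ∨ UU e g (rc e (nn 1) c) x y := by
  rw [UU_iff he hc]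
  constructor
  · rintro ⟨hy, ⟨-, h2, h3⟩ | ⟨c', y', h1, h2⟩⟩
    · exact Or.inl ⟨h2, h3⟩
    · rcases h1 with ⟨-, rfl, rfl⟩ | ⟨h, -⟩ | ⟨h, -⟩ | ⟨h, -⟩ | ⟨h, -⟩
      · exact Or.inr h2
      · exact (U_ne (by norm_num) ht h).elim
      · exact (U_ne (by norm_num) ht h).elim
      · exact (U_ne (by norm_num) ht h).elim
      · exact (U_ne (by norm_num) ht h).elim
  · rintro (⟨h2, h3⟩ | h)
    · exact ⟨by rw [h3]; exact rc_mem he (nn_mem 3) hc, Or.inl ⟨ht, h2, h3⟩⟩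
    · exact ⟨(UU_mem he h).2.2, Or.inr ⟨rc e (nn 1) c, y, Or.inl ⟨ht, rfl, rfl⟩, h⟩⟩

theorem UU2 (he : Inj e (JJ M) (omega M)) (hc : c ∈ BB M) (ht : tg e c = nn 2) :
    UU e g c x y ↔ ∃ z, z ∈ BB M ∧ UU e g (repI (sc e c) z) x y := by
  rw [UU_iff he hc]
  constructor
  · rintro ⟨hy, ⟨h, -⟩ | ⟨c', y', h1, h2⟩⟩
    · exact (U_ne (by norm_num) ht h).elim
    · rcases h1 with ⟨h, -⟩ | ⟨-, rfl, z, hz, rfl⟩ | ⟨h, -⟩ | ⟨h, -⟩ | ⟨h, -⟩
      · exact (U_ne (by norm_num) ht h).elim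
      · exact ⟨z, hz, h2⟩
      · exact (U_ne (by norm_num) ht h).elim
      · exact (U_ne (by norm_num) ht h).elim
      · exact (U_ne (by norm_num) ht h).elim
  · rintro ⟨z, hz, h⟩
    exact ⟨(UU_mem he h).2.2, Or.inr ⟨repI (sc e c) z, y, Or.inr (Or.inl ⟨ht, rfl, z, hz, rfl⟩), h⟩⟩

theorem UU3 (he : Inj e (JJ M) (omega M)) (hc : c ∈ BB M) (ht : tg e c = nn 3) :
    UU e g c x y ↔ ∃ z, z ∈ BB M ∧ tg e z = nn 3 ∧ sc e z = sc e c ∧
      ap g (rc e (nn 1) z) ∈ ap g (rc e (nn 1) c) ∧ UU e g (rep (sc e c) z) x y := by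
  rw [UU_iff he hc]
  constructor
  · rintro ⟨hy, ⟨h, -⟩ | ⟨c', y', h1, h2⟩⟩
    · exact (U_ne (by norm_num) ht h).elim
    · rcases h1 with ⟨h, -⟩ | ⟨h, -⟩ | ⟨-, rfl, z, hz, h3, h4, h5, rfl⟩ | ⟨h, -⟩ | ⟨h, -⟩
      · exact (U_ne (by norm_num) ht h).elim
      · exact (U_ne (by norm_num) ht h).elim
      · exact ⟨z, hz, h3, h4, h5, h2⟩
      · exact (U_ne (by norm_num) ht h).elim
      · exact (U_ne (by norm_num) ht h).elim
  · rintro ⟨z, hz, h3, h4, h5, h⟩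
    exact ⟨(UU_mem he h).2.2, Or.inr ⟨rep (sc e c) z, y,
      Or.inr (Or.inr (Or.inl ⟨ht, rfl, z, hz, h3, h4, h5, rfl⟩)), h⟩⟩

theorem UU4 (he : Inj e (JJ M) (omega M)) (hc : c ∈ BB M) (ht : tg e c = nn 4) :
    UU e g c x y ↔ ∃ z, z ∈ BB M ∧ tg e z = nn 3 ∧ sc e z = sc e c ∧
      UU e g (rep (sc e c) z) x y := by
  rw [UU_iff he hc]
  constructor
  · rintro ⟨hy, ⟨h, -⟩ | ⟨c', y', h1, h2⟩⟩
    · exact (U_ne (by norm_num) ht h).elim
    · rcases h1 with ⟨h, -⟩ | ⟨h, -⟩ | ⟨h, -⟩ | ⟨-, rfl, z, hz, h3, h4, rfl⟩ | ⟨h, -⟩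
      · exact (U_ne (by norm_num) ht h).elim
      · exact (U_ne (by norm_num) ht h).elim
      · exact (U_ne (by norm_num) ht h).elim
      · exact ⟨z, hz, h3, h4, h2⟩
      · exact (U_ne (by norm_num) ht h).elim
  · rintro ⟨z, hz, h3, h4, h⟩
    exact ⟨(UU_mem he h).2.2, Or.inr ⟨rep (sc e c) z, y,
      Or.inr (Or.inr (Or.inr (Or.inl ⟨ht, rfl, z, hz, h3, h4, rfl⟩))), h⟩⟩

theorem UU5 (he : Inj e (JJ M) (omega M)) (hc : c ∈ BB M) (ht : tg e c = nn 5) :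
    UU e g c x y ↔ ∃ y', UU e g (rc e (nn 1) c) x y' ∧ y = rep (sc e y') c := by
  rw [UU_iff he hc]
  constructor
  · rintro ⟨hy, ⟨h, -⟩ | ⟨c', y', h1, h2⟩⟩
    · exact (U_ne (by norm_num) ht h).elim
    · rcases h1 with ⟨h, -⟩ | ⟨h, -⟩ | ⟨h, -⟩ | ⟨h, -⟩ | ⟨-, rfl, h3⟩
      · exact (U_ne (by norm_num) ht h).elim
      · exact (U_ne (by norm_num) ht h).elim
      · exact (U_ne (by norm_num) ht h).elim
      · exact (U_ne (by norm_num) ht h).elim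
      · exact ⟨y', h2, h3⟩
  · rintro ⟨y', h, h3⟩
    refine ⟨?_, Or.inr ⟨rc e (nn 1) c, y', Or.inr (Or.inr (Or.inr (Or.inr ⟨ht, rfl, h3⟩))), h⟩⟩
    rw [h3]
    exact rep_mem (sc_mem he (UU_mem he h).2.2) hc

end Pool.Agent.Lib.MP_3b60c8_lc
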