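import Pool.Agent.Lib.MP_3b60c8_lc.HEqA
import Pool.Agent.Lib.MP_3b60c8_lc.Cod

/-! ROW lst-HQ2. The copies of the definitions agree with the definitions, part 2: histories
and codes. -/

set_option synthInstance.maxSize 2000

namespace Pool.Agent.Lib.MP_3b60c8_lc

open Pool.Agent.Lib.MP_f5c99b_lc

universe u

variable {M : Type u} [Membership M M] [hZF : Fact (IsModelOfZF M)] [hDC : Fact (DC M)]

omit hDC in
theorem Q2_sep_congr {a : M} {P Q : M → Prop} [D (fun v => P (v 0))] [D (fun v => Q (v 0))]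
    (h : ∀ x, x ∈ a → (P x ↔ Q x)) : sep a P = sep a Q := by
  refine Pool.Agent.Lib.MP_f5c99b_lc.ext fun x => ?_
  rw [mem_sep, mem_sep]
  exact and_congr_right (h x)

omit hDC in
theorem Q2_lam_congr {a : M} {s t : M → M} [DT (fun v => s (v 0))] [DT (fun v => t (v 0))]
    (h : ∀ x, x ∈ a → s x = t x) : lam a s = lam a t := by
  refine Pool.Agent.Lib.MP_f5c99b_lc.ext fun x => ?_
  rw [mem_lam', mem_lam']
  constructor
  · rintro ⟨y, hy, rfl⟩
    exact ⟨y, hy, by rw [h y hy]⟩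
  · rintro ⟨y, hy, rfl⟩
    exact ⟨y, hy, by rw [h y hy]⟩

omit hDC in
theorem Q2_val {n m b h k : M} (hh : IsFun h (omega M) (Al b m n)) (hk : k ∈ omega M) :
    IsFun (ap h k) (diff n m) (om1 M) :=
  (mem_Al.mp (hh.ap_mem hk)).1

theorem Q2_hcval {n m b h k : M} (hn : n ∈ omega M) (hb : Bs n b)
    (hh : IsFun h (omega M) (Al b m n)) (hk : k ∈ omega M) : HC (ap h k) :=
  hc_ap (hc_his hn hb hh) hh hk

theorem Q2_apH {n m b h k : M} (hn : n ∈ omega M) (hb : Bs n b)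
    (hh : IsFun h (omega M) (Al b m n)) (hk : k ∈ omega M) : apH h k = ap h k :=
  apH_eq hh (hc_his hn hb hh) hk

theorem cptH_eq {n m b h j : M} (hn : n ∈ omega M) (hb : Bs n b)
    (hh : IsFun h (omega M) (Al b m n)) (hj : j ∈ diff n m) : cptH h j = cpt h j := by
  unfold cptH cpt
  refine Q2_lam_congr fun k hk => ?_
  rw [Q2_apH hn hb hh hk]
  exact apH_eq (Q2_val hh hk) (Q2_hcval hn hb hh hk) hj

theorem rhH_eq {n m b h k : M} (hn : n ∈ omega M) (hb : Bs n b)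
    (hh : IsFun h (omega M) (Al b m n)) : rhH h k = rh h k := by
  unfold rhH rh
  refine Q2_lam_congr fun i hi => ?_
  rw [Q2_apH hn hb hh hi]
  exact restrH_eq (Q2_val hh hi) (Q2_hcval hn hb hh hi)

theorem jnH_eq {n m b h g : M} (hn : n ∈ omega M) (hm : m ∈ omega M) (hmn : Sub m n)
    (hb : Bs n b) (hh : IsFun h (omega M) (Al b emp m)) (hg : IsFun g (omega M) (Al b m n)) :
    jnH h g = jn h g := by
  unfold jnH jn
  have hb' := Bs_restr hn hb hmn hm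
  have hh' : IsFun h (omega M) (Al (restr b m) emp m) := by
    rwa [Al_restr hb hmn]
  refine Q2_lam_congr fun i hi => ?_
  rw [Q2_apH hm hb' hh' hi, Q2_apH hn hb hg hi]

theorem Q2_fstH {p a b : M} (ha : HC a) (hb : HC b) (hp : p ∈ prod a b) : fstH p = fst p := by
  obtain ⟨x, hx, y, hy, rfl⟩ := mem_prod.mp hp
  rw [fstH_pr (ha.of_mem hx) (hb.of_mem hy), fst_pr]

theorem Q2_sndH {p a b : M} (ha : HC a) (hb : HC b) (hp : p ∈ prod a b) : sndH p = snd p := by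
  obtain ⟨x, hx, y, hy, rfl⟩ := mem_prod.mp hp
  rw [sndH_pr (ha.of_mem hx) (hb.of_mem hy), snd_pr]

theorem ocH_eq {f δ : M} (hf : IsFun f (omega M) δ) (hc : HC f) : ocH f = oc f := by
  unfold ocH oc
  refine Q2_sep_congr fun p hp => ?_
  rw [Q2_fstH hc_omega hc_omega hp, Q2_sndH hc_omega hc_omega hp,
    apH_eq hf hc (fst_mem hp), apH_eq hf hc (snd_mem hp)]

theorem Q2_hc_KK : HC (KK M) := by
  unfold KK
  exact hc_prod hDC.out hc_omega (hc_un (hc_prod hDC.out hc_omega hc_omega) hc_Xi)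

theorem hc_e {e : M} (he : Inj e (KK M) (omega M)) : HC e :=
  hc_of_fun hDC.out Q2_hc_KK he.1 fun _ hy => hc_omega.of_mem (he.1.ap_mem hy)

/-- functions from `ω` to `ω` and strategies are hereditarily countable -/
theorem hc_fun {x : M} (hx : IsFun x (omega M) (omega M)) : HC x :=
  hc_of_fun hDC.out hc_omega hx fun _ hy => hc_omega.of_mem (hx.ap_mem hy)

theorem hc_str {τ : M} (hτ : IsFun τ (fseq (omega M)) (omega M)) : HC τ :=
  hc_of_fun hDC.out (hc_fseq hDC.out hc_omega) hτ fun _ hy => hc_omega.of_mem (hτ.ap_mem hy)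

omit hDC in
theorem Q2_mem_KK0 {u : M} (hu : u ∈ prod (omega M) (omega M)) : pr emp u ∈ KK M := by
  unfold KK
  exact pr_mem_prod.mpr ⟨emp_mem_omega, mem_un.mpr (Or.inl hu)⟩

omit hDC in
theorem Q2_mem_KK1 {t : M} (ht : t ∈ Xi M) : pr (suc emp) t ∈ KK M := by
  unfold KK
  exact pr_mem_prod.mpr ⟨suc_mem_omega emp_mem_omega, mem_un.mpr (Or.inr ht)⟩

theorem dOH_eq {e x : M} (he : Inj e (KK M) (omega M)) (hx : IsFun x (omega M) (omega M)) :
    dOH e x = dO e x := by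
  unfold dOH dO
  refine Q2_sep_congr fun p hp => ?_
  rw [apH_eq he.1 (hc_e he) (Q2_mem_KK0 hp),
    apH_eq hx (hc_fun hx) (he.1.ap_mem (Q2_mem_KK0 hp))]

theorem dAH_eq {e x : M} (he : Inj e (KK M) (omega M)) (hx : IsFun x (omega M) (omega M)) :
    dAH e x = dA e x := by
  unfold dAH dA
  refine Q2_sep_congr fun p hp => ?_
  rw [apH_eq he.1 (hc_e he) (Q2_mem_KK1 hp),
    apH_eq hx (hc_fun hx) (he.1.ap_mem (Q2_mem_KK1 hp))]

theorem cdH_eq {e O A : M} (he : Inj e (KK M) (omega M))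
    (hO : Sub O (prod (omega M) (omega M))) (hA : Sub A (Xi M)) : cdH e O A = cd e O A := by
  have h1 : cdIH e O A = cdI e O A := by
    unfold cdIH cdI
    refine Q2_sep_congr fun i _ => or_congr ?_ ?_
    · refine exists_congr fun u => and_congr_right fun hu => ?_
      rw [apH_eq he.1 (hc_e he) (Q2_mem_KK0 (hO u hu))]
    · refine exists_congr fun t => and_congr_right fun ht => ?_
      rw [apH_eq he.1 (hc_e he) (Q2_mem_KK1 (hA t ht))]
  unfold cdH cd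
  rw [h1]

theorem repH_eq {τ x : M} (hτ : IsFun τ (fseq (omega M)) (omega M))
    (hx : IsFun x (omega M) (omega M)) : repH τ x = rep τ x := by
  unfold repH rep
  refine Q2_lam_congr fun n hn => ?_
  rw [restrH_eq hx (hc_fun hx)]
  exact apH_eq hτ (hc_str hτ) (restr_mem_fseq hx (suc_mem_omega hn))

theorem Q2_hc_surj {r δ : M} (hδ : δ ∈ om1 M) (hr : IsFun r (omega M) δ) : HC r :=
  hc_of_fun hDC.out hc_omega hr fun _ hy => (hc_om1 hδ).of_mem (hr.ap_mem hy)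

theorem rbH_eq {r δ b : M} (hδ : δ ∈ om1 M) (hr : IsFun r (omega M) δ)
    (hb : b ∈ fseq (omega M)) : rbH r b = rb r b := by
  obtain ⟨n, hn, hb'⟩ := mem_fseq.mp hb
  have h1 : HC b := (hc_fseq hDC.out hc_omega).of_mem hb
  unfold rbH rb
  rw [domH_eq hb' h1, hb'.dom]
  exact cmpH_eq hb' hr h1 (Q2_hc_surj hδ hr)

theorem rpH_eq {r δ p : M} (hδ : δ ∈ om1 M) (hr : IsFun r (omega M) δ)
    (hp : p ∈ fseq (fseq (omega M))) : rpH r p = rp r p := by
  obtain ⟨n, hn, hp'⟩ := mem_fseq.mp hp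
  have h1 : HC p := (hc_fseq hDC.out (hc_fseq hDC.out hc_omega)).of_mem hp
  unfold rpH rp
  rw [domH_eq hp' h1, hp'.dom]
  refine Q2_lam_congr fun l hl => ?_
  rw [apH_eq hp' h1 hl]
  exact rbH_eq hδ hr (hp'.ap_mem hl)

/-- components of the elements of `Xi` -/
theorem Q2_Xi {t : M} (ht : t ∈ Xi M) : (fstH t = fst t ∧ fst t ∈ fseq (omega M)) ∧
    (fstH (sndH t) = fst (snd t) ∧ fst (snd t) ∈ fseq (omega M)) ∧
    (fstH (sndH (sndH t)) = fst (snd (snd t)) ∧ fst (snd (snd t)) ∈ fseq (fseq (omega M))) ∧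
    (sndH (sndH (sndH t)) = snd (snd (snd t)) ∧ snd (snd (snd t)) ∈ omega M) := by
  have a1 : HC (fseq (omega M)) := hc_fseq hDC.out hc_omega
  have a2 : HC (fseq (fseq (omega M))) := hc_fseq hDC.out a1
  have a3 : HC (prod (fseq (fseq (omega M))) (omega M)) := hc_prod hDC.out a2 hc_omega
  have a4 : HC (prod (fseq (omega M)) (prod (fseq (fseq (omega M))) (omega M))) :=
    hc_prod hDC.out a1 a3
  unfold Xi at ht
  have h1 := snd_mem ht
  have h2 := snd_mem h1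
  have e1 := Q2_sndH a1 a4 ht
  have e2 : sndH (sndH t) = snd (snd t) := by rw [e1, Q2_sndH a1 a3 h1]
  refine ⟨⟨Q2_fstH a1 a4 ht, fst_mem ht⟩, ⟨?_, fst_mem h1⟩, ⟨?_, fst_mem h2⟩, ?_, snd_mem h2⟩
  · rw [e1, Q2_fstH a1 a3 h1]
  · rw [e2, Q2_fstH a2 hc_omega h2]
  · rw [e2, Q2_sndH a2 hc_omega h2]

theorem NmH_eq {r δ A b : M} (hδ : δ ∈ om1 M) (hr : IsFun r (omega M) δ) (hA : Sub A (Xi M)) :
    NmH r A b = Nm r A b := by
  have h1 : sep A (fun t => rbH r (fstH t) = b) = sep A (fun t => rb r (fst t) = b) := by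
    refine Q2_sep_congr fun t ht => ?_
    have h2 := (Q2_Xi (hA t ht)).1
    rw [h2.1, rbH_eq hδ hr h2.2]
  unfold NmH Nm
  rw [h1]
  refine R1_img_congr fun t ht => ?_
  obtain ⟨_, h3, h4, h5⟩ := Q2_Xi (hA t (mem_sep.mp ht).1)
  rw [h3.1, h4.1, h5.1, rpH_eq hδ hr h4.2]

theorem hc_Nm {r δ A b : M} (hδ : δ ∈ om1 M) (hr : IsFun r (omega M) δ) (hA : Sub A (Xi M)) :
    HC (Nm r A b) := by
  rw [← NmH_eq hδ hr hA]
  have hA' : HC A := hc_Xi.sub hA
  have hr' : HC r := Q2_hc_surj hδ hr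
  unfold NmH
  refine hc_img hDC.out (hA'.sub sep_sub) _ fun t ht => ?_
  obtain ⟨_, h3, h4, h5⟩ := Q2_Xi (hA t (mem_sep.mp ht).1)
  have a1 : HC (fseq (omega M)) := hc_fseq hDC.out hc_omega
  have a2 : HC (fseq (fseq (omega M))) := hc_fseq hDC.out a1
  rw [h3.1, h4.1, h5.1]
  refine hc_pr (a1.of_mem h3.2) (hc_pr ?_ (hc_omega.of_mem h5.2))
  rw [rpH_eq hδ hr h4.2]
  obtain ⟨n, hn, hp'⟩ := mem_fseq.mp h4.2
  unfold rp
  rw [hp'.dom]
  refine hc_lam hDC.out (hc_omega.of_mem hn) _ fun l hl => ?_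
  obtain ⟨k, hk, hb'⟩ := mem_fseq.mp (hp'.ap_mem hl)
  unfold rb
  rw [hb'.dom]
  unfold Pool.Agent.Lib.MP_f5c99b_lc.cmp
  refine hc_lam hDC.out (hc_omega.of_mem hk) _ fun i hi => ?_
  exact (hc_om1 hδ).of_mem (hr.ap_mem (hb'.ap_mem hi))

theorem drH_eq {δ r : M} (hδ : δ ∈ om1 M) (hr : Surj r (omega M) δ) : drH (oc r) = dr (oc r) := by
  rw [dr_oc hδ hr]
  have hc : HC r := Q2_hc_surj hδ hr.1
  unfold drH
  refine iotaH_eq hc ⟨δ, hc_om1 hδ, (mem_om1.mp hδ).1, (SurjH_iff hc).mpr hr, ocH_eq hr.1 hc⟩ ?_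
  rintro r' hr' ⟨δ', hδ', hord, hs, hoc⟩
  have hs' := (SurjH_iff hr').mp hs
  rw [ocH_eq hs'.1 hr'] at hoc
  exact (oc_inj ((hc_ord_iff hord).mp hδ') hδ hs' hr hoc).1

end Pool.Agent.Lib.MP_3b60c8_lc
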