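import Pool.Agent.Lib.MP_3b60c8_lc.FHDef
import Pool.Agent.Lib.MP_3b60c8_lc.FU
import Pool.Agent.Lib.MP_3b60c8_lc.HEqB

/-! ROW fcl-HEQ. The notions of `FHDef.lean` agree with the ones of `FDefs.lean`. (See `HEqA.lean`,
`HEqB.lean` for `apH_eq`, `domH_eq`, `restrH_eq`, `FnH_iff`, `repH_eq`, `hc_fun`, `hc_str`,
`Q2_lam_congr`.) -/

set_option synthInstance.maxSize 2000

namespace Pool.Agent.Lib.MP_3b60c8_lc

open Pool.Agent.Lib.MP_f5c99b_lc

universe u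

variable {M : Type u} [Membership M M] [hZF : Fact (IsModelOfZF M)] [hDC : Fact (DC M)]

variable {e g l L c x y c' y' : M}

theorem hc_BB (hx : x ∈ BB M) : HC x := hc_fun (mem_BB.mp hx)

theorem hc_SS (hx : x ∈ SS M) : HC x := hc_str (mem_SS.mp hx)

theorem HEQ1_hc_JJ : HC (JJ M) := by
  unfold JJ
  exact hc_prod hDC.out hc_omega (hc_un hc_omega (hc_fseq hDC.out hc_omega))

omit hDC in
theorem HEQ1_JJ_omega {i n : M} (hi : i ∈ omega M) (hn : n ∈ omega M) : pr i n ∈ JJ M := by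
  unfold JJ
  exact pr_mem_prod.mpr ⟨hi, mem_un.mpr (Or.inl hn)⟩

omit hDC in
theorem HEQ1_JJ_fseq {i s : M} (hi : i ∈ omega M) (hs : s ∈ fseq (omega M)) : pr i s ∈ JJ M := by
  unfold JJ
  exact pr_mem_prod.mpr ⟨hi, mem_un.mpr (Or.inr hs)⟩

theorem hc_eJ (he : Inj e (JJ M) (omega M)) : HC e :=
  hc_of_fun hDC.out HEQ1_hc_JJ he.1 fun _ hy => hc_omega.of_mem (he.1.ap_mem hy)

theorem HEQ1_digit {j : M} (he : Inj e (JJ M) (omega M)) (hc : c ∈ BB M) (hj : j ∈ JJ M) :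
    apH c (apH e j) = ap c (ap e j) := by
  rw [apH_eq he.1 (hc_eJ he) hj, apH_eq (mem_BB.mp hc) (hc_BB hc) (he.1.ap_mem hj)]

theorem tgH_eq (he : Inj e (JJ M) (omega M)) (hc : c ∈ BB M) : tgH e c = tg e c := by
  unfold tgH tg
  exact HEQ1_digit he hc (HEQ1_JJ_omega (nn_mem 0) (nn_mem 0))

theorem rcH_eq {k : ℕ} (he : Inj e (JJ M) (omega M)) (hc : c ∈ BB M) :
    rcH e (nn k) c = rc e (nn k) c := by
  unfold rcH rc
  exact Q2_lam_congr fun n hn => HEQ1_digit he hc (HEQ1_JJ_omega (nn_mem k) hn)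

theorem scH_eq (he : Inj e (JJ M) (omega M)) (hc : c ∈ BB M) : scH e c = sc e c := by
  unfold scH sc
  exact Q2_lam_congr fun s hs => HEQ1_digit he hc (HEQ1_JJ_fseq (nn_mem 4) hs)

theorem repIH_eq {σ : M} (hσ : σ ∈ SS M) (hy : y ∈ BB M) : repIH σ y = repI σ y := by
  unfold repIH repI
  refine Q2_lam_congr fun n hn => ?_
  rw [restrH_eq (mem_BB.mp hy) (hc_BB hy)]
  exact apH_eq (mem_SS.mp hσ) (hc_SS hσ) (restr_mem_fseq (mem_BB.mp hy) hn)

/-- `L` is the prewellordering with rank map `g` -/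
def LOk (L g : M) : Prop := ∀ x y, x ∈ BB M → y ∈ BB M → (App L x y ↔ Sub (ap g x) (ap g y))

theorem LOk.lt (h : Hy e g l) (hL : LOk L g) (hx : x ∈ BB M) (hy : y ∈ BB M) :
    ¬ App L y x ↔ ap g x ∈ ap g y := by
  have hox : Ord (ap g x) := h.ord.mem (h.sur.1.ap_mem hx)
  have hoy : Ord (ap g y) := h.ord.mem (h.sur.1.ap_mem hy)
  rw [hL y x hy hx, hoy.sub_iff hox]
  constructor
  · intro h1
    rcases hox.tri hoy with h2 | h2 | h2
    · exact h2
    · exact (h1 (Or.inr h2.symm)).elim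
    · exact (h1 (Or.inl h2)).elim
  · rintro h1 (h2 | h2)
    · exact not_mem_mem h1 h2
    · rw [h2] at h1
      exact not_mem_self _ h1

theorem StpH_iff (h : Hy e g l) (hL : LOk L g) (hc : c ∈ BB M) (hy : y ∈ BB M) (hc' : c' ∈ BB M)
    (hy' : y' ∈ BB M) : StpH L e c y c' y' ↔ Stp e g c y c' y' := by
  have he := h.inj
  unfold StpH Stp
  rw [tgH_eq he hc, rcH_eq he hc, scH_eq he hc, scH_eq he hy',
    repH_eq (mem_SS.mp (sc_mem he hy')) (mem_BB.mp hc)]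
  refine or_congr Iff.rfl (or_congr ?_ (or_congr ?_ (or_congr ?_ Iff.rfl)))
  · refine and_congr_right fun _ => and_congr_right fun _ => exists_congr fun z => ?_
    constructor
    · rintro ⟨_, hz, h1⟩
      rw [repIH_eq (sc_mem he hc) (mem_BB.mpr hz)] at h1
      exact ⟨mem_BB.mpr hz, h1⟩
    · rintro ⟨hz, h1⟩
      refine ⟨hc_BB hz, mem_BB.mp hz, ?_⟩
      rw [repIH_eq (sc_mem he hc) hz]
      exact h1
  · refine and_congr_right fun _ => and_congr_right fun _ => exists_congr fun z => ?_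
    constructor
    · rintro ⟨_, hz, h1, h2, h3, h4⟩
      have hz' : z ∈ BB M := mem_BB.mpr hz
      rw [tgH_eq he hz'] at h1
      rw [scH_eq he hz'] at h2
      rw [rcH_eq he hz', LOk.lt h hL (rc_mem he (nn_mem 1) hz') (rc_mem he (nn_mem 1) hc)] at h3
      rw [repH_eq (mem_SS.mp (sc_mem he hc)) hz] at h4
      exact ⟨hz', h1, h2, h3, h4⟩
    · rintro ⟨hz, h1, h2, h3, h4⟩
      refine ⟨hc_BB hz, mem_BB.mp hz, ?_, ?_, ?_, ?_⟩
      · rw [tgH_eq he hz]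
        exact h1
      · rw [scH_eq he hz]
        exact h2
      · rw [rcH_eq he hz, LOk.lt h hL (rc_mem he (nn_mem 1) hz) (rc_mem he (nn_mem 1) hc)]
        exact h3
      · rw [repH_eq (mem_SS.mp (sc_mem he hc)) (mem_BB.mp hz)]
        exact h4
  · refine and_congr_right fun _ => and_congr_right fun _ => exists_congr fun z => ?_
    constructor
    · rintro ⟨_, hz, h1, h2, h4⟩
      have hz' : z ∈ BB M := mem_BB.mpr hz
      rw [tgH_eq he hz'] at h1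
      rw [scH_eq he hz'] at h2
      rw [repH_eq (mem_SS.mp (sc_mem he hc)) hz] at h4
      exact ⟨hz', h1, h2, h4⟩
    · rintro ⟨hz, h1, h2, h4⟩
      refine ⟨hc_BB hz, mem_BB.mp hz, ?_, ?_, ?_⟩
      · rw [tgH_eq he hz]
        exact h1
      · rw [scH_eq he hz]
        exact h2
      · rw [repH_eq (mem_SS.mp (sc_mem he hc)) (mem_BB.mp hz)]
        exact h4

theorem FrH_iff {C a : M} (hC : HC C) : FrH C a ↔ IsFun C a (BB M) := by
  constructor
  · rintro ⟨h1, h2⟩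
    obtain ⟨b, h⟩ := (FnH_iff hC).mp h1
    refine h.mono fun i hi => mem_BB.mpr ?_
    have h3 := h2 i hi
    rwa [apH_eq h hC hi] at h3
  · intro h
    refine ⟨(FnH_iff hC).mpr ⟨_, h⟩, fun i hi => ?_⟩
    rw [apH_eq h hC hi]
    exact mem_BB.mp (h.ap_mem hi)

omit hDC in
theorem FHE2_emp {n : M} (hn : n ∈ omega M) : (emp : M) ∈ suc n := by
  rcases omega_zero_or hn with h | h
  · rw [h]
    exact mem_suc_self _
  · exact mem_suc.mpr (Or.inl h)

theorem FHE2_apH {C a i : M} (hC : HC C) (hC' : IsFun C a (BB M)) (hi : i ∈ a) :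
    apH C i = ap C i ∧ ap C i ∈ BB M :=
  ⟨apH_eq hC' hC hi, hC'.ap_mem hi⟩

theorem FHE2_hc {C a : M} (ha : a ∈ omega M) (hC : IsFun C a (BB M)) : HC C :=
  hc_of_fun hDC.out (hc_omega.of_mem ha) hC fun _ hi => hc_BB (hC.ap_mem hi)

theorem ChnH_iff {n C Y : M} (h : Hy e g l) (hL : LOk L g) (hC : HC C) (hY : HC Y) :
    ChnH L e x n C Y ↔ Chn e g x n C Y := by
  unfold ChnH Chn
  rw [FrH_iff hC, FrH_iff hY]
  refine and_congr_right fun hn => and_congr_right fun hC' => and_congr_right fun hY' => ?_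
  have he := FHE2_emp hn
  obtain ⟨c1, c2⟩ := FHE2_apH hC hC' he
  obtain ⟨y1, y2⟩ := FHE2_apH hY hY' he
  have r2 : rcH e (nn 2) (ap C emp) = rc e (nn 2) (ap C emp) := rcH_eq h.inj c2
  have r3 : rcH e (nn 3) (ap C emp) = rc e (nn 3) (ap C emp) := rcH_eq h.inj c2
  rw [c1, y1, tgH_eq h.inj c2, r2, r3]
  refine and_congr_right fun _ => and_congr_right fun _ => and_congr_right fun _ => ?_
  refine forall_congr' fun i => forall_congr' fun hi => ?_
  have hi0 : i ∈ suc n := mem_suc.mpr (Or.inl hi)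
  have hi1 : suc i ∈ suc n := (suc_mem_suc (omega_trans hn hi) hn).mpr hi
  obtain ⟨a1, a2⟩ := FHE2_apH hC hC' hi0
  obtain ⟨b1, b2⟩ := FHE2_apH hC hC' hi1
  obtain ⟨p1, p2⟩ := FHE2_apH hY hY' hi0
  obtain ⟨q1, q2⟩ := FHE2_apH hY hY' hi1
  rw [a1, b1, p1, q1]
  exact StpH_iff h hL b2 q2 a2 p2

theorem UUH_iff (h : Hy e g l) (hL : LOk L g) : UUH L e c x y ↔ UU e g c x y := by
  unfold UUH UU
  constructor
  · rintro ⟨n, -, C, hC, Y, hY, hch, rfl, rfl⟩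
    have hch' := (ChnH_iff h hL hC hY).mp hch
    obtain ⟨c1, -⟩ := FHE2_apH hC hch'.2.1 (mem_suc_self n)
    obtain ⟨y1, -⟩ := FHE2_apH hY hch'.2.2.1 (mem_suc_self n)
    exact ⟨n, C, Y, hch', c1.symm, y1.symm⟩
  · rintro ⟨n, C, Y, hch, rfl, rfl⟩
    have hn := hch.1
    have hC := FHE2_hc (suc_mem_omega hn) hch.2.1
    have hY := FHE2_hc (suc_mem_omega hn) hch.2.2.1
    obtain ⟨c1, -⟩ := FHE2_apH hC hch.2.1 (mem_suc_self n)
    obtain ⟨y1, -⟩ := FHE2_apH hY hch.2.2.1 (mem_suc_self n)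
    exact ⟨n, hc_omega.of_mem hn, C, hC, Y, hY, (ChnH_iff h hL hC hY).mpr hch, c1, y1⟩

theorem BrH_iff {q n C : M} (h : Hy e g l) (hL : LOk L g) (hn : n ∈ omega M)
    (hq : IsFun q n (BB M)) (hC : HC C) : BrH L e c q C ↔ Br e g c q C := by
  have hcq := FHE2_hc hn hq
  unfold BrH Br
  rw [domH_eq hq hcq, hq.dom, FrH_iff hC]
  refine and_congr_right fun hC' => ?_
  obtain ⟨c1, -⟩ := FHE2_apH hC hC' (FHE2_emp hn)
  rw [c1]
  refine and_congr_right fun _ => ?_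
  refine forall_congr' fun i => forall_congr' fun hi => ?_
  have hi0 : i ∈ suc n := mem_suc.mpr (Or.inl hi)
  have hi1 : suc i ∈ suc n := (suc_mem_suc (omega_trans hn hi) hn).mpr hi
  obtain ⟨a1, -⟩ := FHE2_apH hC hC' hi0
  obtain ⟨b1, -⟩ := FHE2_apH hC hC' hi1
  obtain ⟨q1, -⟩ := FHE2_apH hcq hq hi
  rw [a1, b1, q1]
  exact UUH_iff h hL

theorem TTH_iff {q : M} (h : Hy e g l) (hL : LOk L g) : q ∈ TT e g c ↔ HC q ∧ TTH L e c q := by
  unfold TT TTH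
  rw [mem_sep, mem_fseq]
  constructor
  · rintro ⟨⟨n, hn, hq⟩, C, hC⟩
    have hcq := FHE2_hc hn hq
    refine ⟨hcq, ⟨n, hn, (FrH_iff hcq).mpr hq⟩, C, ?_⟩
    have hC' := hC.1
    rw [hq.dom] at hC'
    have hcC := FHE2_hc (suc_mem_omega hn) hC'
    exact ⟨hcC, (BrH_iff h hL hn hq hcC).mpr hC⟩
  · rintro ⟨hcq, ⟨n, hn, hq⟩, C, hcC, hC⟩
    have hq' := (FrH_iff hcq).mp hq
    exact ⟨⟨n, hn, hq'⟩, C, (BrH_iff h hL hn hq' hcC).mp hC⟩

end Pool.Agent.Lib.MP_3b60c8_lc
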