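import Pool.Agent.Lib.MP_3b60c8_lc.FNG

/-! ROW fcl-TR. The tree of an infinitely good code. -/

set_option synthInstance.maxSize 2000

namespace Pool.Agent.Lib.MP_3b60c8_lc

open Pool.Agent.Lib.MP_f5c99b_lc

universe u

variable {M : Type u} [Membership M M] [hZF : Fact (IsModelOfZF M)]

variable {e g l T c : M}

theorem tr_mem_TT {q : M} : q ∈ TT e g c ↔ q ∈ fseq (BB M) ∧ ∃ C, Br e g c q C := by
  unfold TT
  exact mem_sep

theorem tr_emp_mem_suc {n : M} (hn : n ∈ omega M) : (emp : M) ∈ suc n := by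
  rcases omega_zero_or hn with rfl | h
  · exact mem_suc_self _
  · exact mem_suc.mpr (Or.inl h)

theorem TT_emp (hc : c ∈ BB M) : emp ∈ TT e g c := by
  refine tr_mem_TT.mpr ⟨emp_mem_fseq _, snoc emp c, ?_⟩
  have h1 := isFun_snoc emp_mem_omega (isFun_emp (BB M)) hc
  have h2 : dom (emp : M) = emp := (isFun_emp (BB M)).dom
  refine ⟨?_, ap_snoc_last emp_mem_omega (isFun_emp (BB M)) hc, ?_⟩
  · rw [h2]
    exact h1
  · intro i hi
    rw [h2] at hi
    exact (not_mem_emp i hi).elim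

theorem TT_cl : ClT (TT e g c) := by
  intro q hq p hp hpq
  obtain ⟨hq1, C, hC1, hC2, hC3⟩ := tr_mem_TT.mp hq
  obtain ⟨n, hn, hqn⟩ := mem_fseq.mp hq1
  obtain ⟨m, hm, hpm⟩ := mem_fseq.mp hp
  rw [hqn.dom] at hC1 hC3
  have key : ∀ i, i ∈ m → i ∈ n ∧ ap p i = ap q i := fun i hi =>
    hqn.pr_mem.mp (hpq _ (hpm.pr_mem.mpr ⟨hi, rfl⟩))
  have hsub : Sub (suc m) (suc n) := by
    intro z hz
    rcases mem_suc.mp hz with hz | rfl
    · exact mem_suc.mpr (Or.inl (key z hz).1)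
    · exact mem_suc.mpr ((omega_sub_iff hm hn).mp fun i hi => (key i hi).1)
  refine tr_mem_TT.mpr ⟨hp, restr C (suc m), ?_, ?_, ?_⟩
  · rw [hpm.dom]
    exact hC1.restr hsub
  · rw [hC1.ap_restr hsub (tr_emp_mem_suc hm)]
    exact hC2
  · intro i hi
    rw [hpm.dom] at hi
    rw [hC1.ap_restr hsub (mem_suc.mpr (Or.inl hi)),
      hC1.ap_restr hsub ((suc_mem_suc (omega_trans hm hi) hm).mpr hi), (key i hi).2]
    exact hC3 i (key i hi).1

theorem tr_inf (h : Hy e g l) (hne : emp ∈ T) (hi : Inf e g l T emp c) :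
    ∀ q, q ∈ fseq (BB M) → ∀ C, Br e g c q C → q ∈ T ∧ Inf e g l T q (ap C (dom q)) := by
  refine fseq_induct (fun q => ∀ C, Br e g c q C → q ∈ T ∧ Inf e g l T q (ap C (dom q))) ?_ ?_
  · intro C hC
    rw [(isFun_emp (BB M)).dom, hC.2.1]
    exact ⟨hne, hi⟩
  · intro s hs x hx ih C hC
    obtain ⟨n, hn, hsn⟩ := mem_fseq.mp hs
    have hsx := isFun_snoc hn hsn hx
    obtain ⟨hC1, hC2, hC3⟩ := hC
    rw [hsx.dom] at hC1 hC3 ⊢
    have hsub : Sub (suc n) (suc (suc n)) := C2_sub_suc _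
    obtain ⟨ih1, ih2⟩ := ih (restr C (suc n)) (by
      refine ⟨?_, ?_, ?_⟩
      · rw [hsn.dom]
        exact hC1.restr hsub
      · rw [hC1.ap_restr hsub (tr_emp_mem_suc hn)]
        exact hC2
      · intro i hi
        rw [hsn.dom] at hi
        rw [hC1.ap_restr hsub (mem_suc.mpr (Or.inl hi)),
          hC1.ap_restr hsub ((suc_mem_suc (omega_trans hn hi) hn).mpr hi),
          ← ap_snoc hn hsn hx hi]
        exact hC3 i (mem_suc.mpr (Or.inl hi)))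
    rw [hsn.dom, hC1.ap_restr hsub (mem_suc_self n)] at ih2
    have h1 := ((Inf_iff h.inj hs (hC1.ap_mem (mem_suc.mpr (Or.inl (mem_suc_self n))))).mp ih2).2
    have h2 := hC3 n (mem_suc_self n)
    rw [ap_snoc_last hn hsn hx] at h2
    exact h1 _ _ h2

/-- (induction on the length of `q`) -/
theorem TT_inf (h : Hy e g l) (hne : emp ∈ T) (hc : c ∈ BB M) (hi : Inf e g l T emp c) {q C : M}
    (hq : q ∈ fseq (BB M)) (hC : Br e g c q C) : q ∈ T ∧ Inf e g l T q (ap C (dom q)) := by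
  have _ := hc
  exact tr_inf h hne hi q hq C hC

theorem TT_spl (h : Hy e g l) (hne : emp ∈ T) (hc : c ∈ BB M) (hi : Inf e g l T emp c) :
    SpT g l (TT e g c) := by
  intro q hq α hα
  obtain ⟨hq1, C, hC⟩ := tr_mem_TT.mp hq
  have h1 := (TT_inf h hne hc hi hq1 hC).2
  obtain ⟨n, hn, hqn⟩ := mem_fseq.mp hq1
  obtain ⟨hC1, hC2, hC3⟩ := hC
  rw [hqn.dom] at hC1 hC3 h1
  obtain ⟨x, y, hx, hu⟩ := ((Inf_iff h.inj hq1 (hC1.ap_mem (mem_suc_self n))).mp h1).1 α hα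
  obtain ⟨_, hxB, hyB⟩ := UU_mem h.inj hu
  have hn' := suc_mem_omega hn
  refine ⟨x, hxB, hx, tr_mem_TT.mpr ⟨snoc_mem hq1 hxB, snoc C y, ?_, ?_, ?_⟩⟩
  · rw [(isFun_snoc hn hqn hxB).dom]
    exact isFun_snoc hn' hC1 hyB
  · rw [ap_snoc hn' hC1 hyB (tr_emp_mem_suc hn)]
    exact hC2
  · intro i hi'
    rw [(isFun_snoc hn hqn hxB).dom] at hi'
    rw [ap_snoc hn' hC1 hyB hi']
    rcases mem_suc.mp hi' with hi' | rfl
    · rw [ap_snoc hn hqn hxB hi', ap_snoc hn' hC1 hyB ((suc_mem_suc (omega_trans hn hi') hn).mpr hi')]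
      exact hC3 i hi'
    · rw [ap_snoc_last hn hqn hxB, ap_snoc_last hn' hC1 hyB]
      exact hu

end Pool.Agent.Lib.MP_3b60c8_lc
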