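import Pool.Agent.Lib.MP_7b07e0_lc.Stmt

/-! The notions of the final statement, inside a structure `(M, ∈)`. All quantifiers over sets range
over `M`. The real line is `P(ω)`. -/

namespace Pool.Agent.Lib.MP_3b60c8_lc

open Pool.Agent.Lib.MP_f5c99b_lc Pool.Agent.Lib.MP_7b07e0_lc

universe u

variable {M : Type u} [Membership M M]

variable (M) in
/-- `AD`: every game of length `ω` in which two players play natural numbers is determined. The
players alternately play `x 0, y 0, x 1, y 1, …` in `w = ω`, player I wins iff `(x, y) ∈ A`. A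
strategy is a function of the finite sequence of the previous moves of the opponent. -/
def AD : Prop := ∀ w Q A : M, IsOmega w → IsFinSeqs w Q w →
  (∃ σ : M, IsFun σ Q w ∧ ∀ x y p : M, IsFun x w w → IsFun y w w → IsPair p x y →
    (∀ n s a : M, n ∈ w → IsRestr s y n → App x n a → App σ s a) → p ∈ A) ∨
  ∃ τ : M, IsFun τ Q w ∧ ∀ x y p : M, IsFun x w w → IsFun y w w → IsPair p x y →
    (∀ n m s a : M, n ∈ w → IsSuc m n → IsRestr s x m → App y n a → App τ s a) → p ∉ A

/-- `f` is a function from `a` onto `b` -/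
def IsOnto (f a b : M) : Prop := IsFun f a b ∧ ∀ y : M, y ∈ b → ∃ x : M, App f x y

/-- `q'` is the finite sequence `q` of elements of `R` extended by `x ∈ R` -/
def IsExt (w R q' q x : M) : Prop := x ∈ R ∧ ∃ n m : M, n ∈ w ∧ IsSuc m n ∧ IsFun q n R ∧
  IsFun q' m R ∧ Incl q q' ∧ App q' n x

/-- `T` is a `l`-splitting tree with respect to `g : R → l`: a set of finite sequences in `R`
(the set of all finite sequences is `Q`), closed under initial segments, such that for all `q ∈ T`
and `α ∈ l` there is `x` with `g x = α` and `q ⌢ x ∈ T` -/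
structure IsSplittingTree (w R Q g l T : M) : Prop where
  sub : Incl T Q
  closed : ∀ q p : M, q ∈ T → p ∈ Q → Incl p q → p ∈ T
  split : ∀ q α : M, q ∈ T → α ∈ l → ∃ x q' : M, App g x α ∧ IsExt w R q' q x ∧ q' ∈ T

/-- `x` is hereditarily countable: an element of a countable transitive set (`w = ω`) -/
def IsHC (w x : M) : Prop := ∃ t : M, x ∈ t ∧ (∀ y : M, y ∈ t → Incl y t) ∧ CardLE t w

/-- Truth of a formula in the structure `(HC, ∈)` of the hereditarily countable sets. -/
def SatHC (w : M) : Fml → (ℕ → M) → Prop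
  | .mem i j, v => v i ∈ v j
  | .eq i j, v => v i = v j
  | .neg φ, v => ¬ SatHC w φ v
  | .conj φ ψ, v => SatHC w φ v ∧ SatHC w ψ v
  | .all φ, v => ∀ x : M, IsHC w x → SatHC w φ (push x v)

/-- The set `T` is definable over `(HC, ∈)` with parameters. For sets `T` of (finite sequences of)
reals this means that `T` is projective (boldface). -/
def IsProjective (w T : M) : Prop := ∃ (φ : Fml) (v : ℕ → M), (∀ i, IsHC w (v i)) ∧
  ∀ x : M, x ∈ T ↔ IsHC w x ∧ SatHC w φ (push x v)

end Pool.Agent.Lib.MP_3b60c8_lc
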