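import Pool.Agent.Lib.MP_3b60c8_lc.Tree
import Pool.Agent.Lib.MP_3b60c8_lc.Stmt
import Pool.Agent.Lib.MP_7b07e0_lc.Final

/-! ROW lst-FIN1. Translation of the notions of `Stmt.lean` (see `MP_7b07e0_lc/Final.lean`: `dc_of`,
`omega1_eq`, … for the translation of the notions of `Stmt.lean`). -/

set_option synthInstance.maxSize 2000

namespace Pool.Agent.Lib.MP_3b60c8_lc

open Pool.Agent.Lib.MP_f5c99b_lc Pool.Agent.Lib.MP_7b07e0_lc

universe u

variable {M : Type u} [Membership M M] [hZF : Fact (IsModelOfZF M)]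

theorem adn_of (h : AD M) : ADN M := by
  intro A
  rcases h (omega M) (fseq (omega M)) A isOmega_omega (isFinSeqs_iff.mpr rfl) with
    ⟨σ, hσ, h1⟩ | ⟨τ, hτ, h1⟩
  · refine Or.inl ⟨σ, hσ, fun x y hx hy hxy => h1 x y _ hx hy (isPair_iff.mpr rfl) ?_⟩
    intro n s a hn hs ha
    rw [isRestr_iff hy] at hs
    subst hs
    obtain ⟨_, rfl⟩ := hx.app.mp ha
    exact hσ.app.mpr ⟨restr_mem_fseq hy hn, hxy n hn⟩
  · refine Or.inr ⟨τ, hτ, fun x y hx hy hxy => h1 x y _ hx hy (isPair_iff.mpr rfl) ?_⟩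
    intro n m s a hn hm hs ha
    rw [isRestr_iff hx] at hs
    rw [isSuc_iff] at hm
    subst hm
    subst hs
    obtain ⟨_, rfl⟩ := hy.app.mp ha
    exact hτ.app.mpr ⟨restr_mem_fseq hx (suc_mem_omega hn), hxy n hn⟩

theorem isHC_iff {x : M} : IsHC (omega M) x ↔ HC x := by
  constructor
  · rintro ⟨t, h1, h2, h3⟩
    exact ⟨t, h2, cardLE_iff.mp h3, h1⟩
  · rintro ⟨t, h1, h2, h3⟩
    exact ⟨t, h3, h1, cardLE_iff.mpr h2⟩

theorem satHC_iff (φ : Fml) (v : ℕ → M) : SatHC (omega M) φ v ↔ SatH φ v := by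
  induction φ generalizing v with
  | mem i j => exact Iff.rfl
  | eq i j => exact Iff.rfl
  | neg φ ih => exact not_congr (ih v)
  | conj φ ψ ih ih' => exact and_congr (ih v) (ih' v)
  | all φ ih => exact forall_congr' fun x => imp_congr isHC_iff (ih (push x v))

/-- rename the variables: the valuation `x, x, x, …` and the parameters -/
theorem proj_of {P : (ℕ → M) → Prop} (h : DH P) : ∃ (φ : Fml) (v : ℕ → M), (∀ i, HC (v i)) ∧
    ∀ x, HC x → (P (fun _ => x) ↔ SatH φ (push x v)) := by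
  obtain ⟨φ, k, h⟩ := h.out
  refine ⟨ren (fun i => Sum.elim (fun _ => 0) (fun _ => i + 1) (k i)) φ,
    fun i => Sum.elim (fun _ => (emp : M)) Subtype.val (k i), ?_, ?_⟩
  · intro i
    change HC (Sum.elim (fun _ => (emp : M)) Subtype.val (k i))
    rcases k i with j | c
    · exact hc_emp
    · exact c.2
  · intro x hx
    rw [h (fun _ => x) (fun _ => hx), satH_ren]
    refine iff_of_eq (congrArg (SatH φ) (funext fun i => ?_))
    rcases hk : k i with j | c
    · simp [vpH, push]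
    · simp [vpH, push, hk]

theorem isExt_iff {q' q x : M} (hq : q ∈ fseq (pow (omega M))) :
    IsExt (omega M) (pow (omega M)) q' q x ↔ x ∈ pow (omega M) ∧ q' = snoc q x := by
  constructor
  · rintro ⟨hx, n, m, hn, hm, hqf, hqf', hi, ha⟩
    rw [isSuc_iff] at hm
    subst hm
    refine ⟨hx, hqf'.ext (isFun_snoc hn hqf hx) fun i hin => ?_⟩
    rcases mem_suc.mp hin with h1 | h1
    · rw [ap_snoc hn hqf hx h1]
      have h2 : pr i (ap q i) ∈ q := hqf.mem_iff.mpr ⟨i, h1, rfl⟩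
      exact ((hqf'.pr_mem).mp (hi _ h2)).2.symm
    · subst h1
      rw [ap_snoc_last hn hqf hx]
      exact (hqf'.app.mp ha).2.symm
  · rintro ⟨hx, rfl⟩
    obtain ⟨n, hn, hqf⟩ := mem_fseq.mp hq
    refine ⟨hx, n, suc n, hn, isSuc_iff.mpr rfl, hqf, isFun_snoc hn hqf hx, ?_, ?_⟩
    · intro p hp
      exact mem_un.mpr (Or.inl hp)
    · exact (isFun_snoc hn hqf hx).app.mpr ⟨mem_suc_self n, (ap_snoc_last hn hqf hx).symm⟩

end Pool.Agent.Lib.MP_3b60c8_lc
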