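import Pool.Agent.Lib.MP_3b60c8_lc.FMain
import Pool.Agent.Lib.MP_3b60c8_lc.FTr
import Pool.Agent.Lib.MP_3b60c8_lc.FHEq
import Pool.Agent.Lib.MP_3b60c8_lc.FinA

/-! The final theorem, arbitrary `λ` (see `Final.lean`, `FinA.lean` for the case `λ < ω₂`). -/

set_option synthInstance.maxSize 2000

namespace Pool.Agent.Lib.MP_3b60c8_lc

open Pool.Agent.Lib.MP_f5c99b_lc Pool.Agent.Lib.MP_7b07e0_lc

universe u

section

variable {M : Type u} [Membership M M] [hZF : Fact (IsModelOfZF M)]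

theorem isBaire_iff {R : M} : IsBaire (omega M) R ↔ R = BB M :=
  ⟨fun h => ext fun x => (h x).trans mem_BB.symm, fun h x => by rw [h]; exact mem_BB⟩

theorem satHCR_iff (L : M) (φ : FmlR) (v : ℕ → M) : SatHCR (omega M) L φ v ↔ SatR L φ v := by
  induction φ generalizing v with
  | mem i j => exact Iff.rfl
  | eq i j => exact Iff.rfl
  | rel i j => exact Iff.rfl
  | neg φ ih => exact not_congr (ih v)
  | conj φ ψ ih ih' => exact and_congr (ih v) (ih' v)
  | all φ ih => exact forall_congr' fun x => imp_congr isHC_iff (ih (push x v))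

/-- see `proj_of` -/
theorem projR_of {L : M} {P : (ℕ → M) → Prop} (h : DL L P) :
    ∃ (φ : FmlR) (v : ℕ → M), (∀ i, HC (v i)) ∧
      ∀ x, HC x → (P (fun _ => x) ↔ SatR L φ (push x v)) := by
  obtain ⟨φ, k, h⟩ := h.out
  refine ⟨renR (fun i => Sum.elim (fun _ => 0) (fun _ => i + 1) (k i)) φ,
    fun i => Sum.elim (fun _ => (emp : M)) Subtype.val (k i), ?_, ?_⟩
  · intro i
    change HC (Sum.elim (fun _ => (emp : M)) Subtype.val (k i))
    rcases k i with j | c
    · exact hc_emp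
    · exact c.2
  · intro x hx
    rw [h (fun _ => x) (fun _ => hx), satR_ren]
    refine iff_of_eq (congrArg (SatR L φ) (funext fun i => ?_))
    rcases hk : k i with j | c
    · simp [vpH, push]
    · simp [vpH, push, hk]

/-- see `isExt_iff` -/
theorem isExtB_iff {q' q x : M} (hq : q ∈ fseq (BB M)) :
    IsExt (omega M) (BB M) q' q x ↔ x ∈ BB M ∧ q' = snoc q x := by
  constructor
  · rintro ⟨hx, n, m, hn, hm, hqf, hqf', hi, ha⟩
    rw [isSuc_iff] at hm
    subst hm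
    refine ⟨hx, hqf'.ext (isFun_snoc hn hqf hx) fun i hin => ?_⟩
    rcases mem_suc.mp hin with h1 | h1
    · rw [ap_snoc hn hqf hx h1]
      have h2 : pr i (ap q i) ∈ q := hqf.mem_iff.mpr ⟨i, h1, rfl⟩
      exact ((hqf'.pr_mem).mp (hi _ h2)).2.symm
    · subst h1
      rw [ap_snoc_last hn hqf hx]
      exact (hqf'.app.mp ha).2.symm
  · rintro ⟨hx, rfl⟩
    obtain ⟨n, hn, hqf⟩ := mem_fseq.mp hq
    refine ⟨hx, n, suc n, hn, isSuc_iff.mpr rfl, hqf, isFun_snoc hn hqf hx, ?_, ?_⟩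
    · intro p hp
      exact mem_un.mpr (Or.inl hp)
    · exact (isFun_snoc hn hqf hx).app.mpr ⟨mem_suc_self n, (ap_snoc_last hn hqf hx).symm⟩

/-- the definition of the new tree is a definition over `(HC, ∈, L)` -/
theorem TTH_DL [hDC : Fact (DC M)] {L e c : M} (he : HC e) (hc : HC c) :
    DL L (fun v : ℕ → M => TTH L e c (v 0)) := by
  have : DHT (fun _ : ℕ → M => e) := DHT_const he
  have : DHT (fun _ : ℕ → M => c) := DHT_const hc
  infer_instance

theorem full_aux [hDC : Fact (DC M)] (hAD : ADN M) {l g L T : M}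
    (hL : IsPrewellordering (BB M) L g l)
    (hT : IsSplittingTree (omega M) (BB M) (fseq (BB M)) g l T) (hne : ∃ q : M, q ∈ T) :
    ∃ T' : M, Incl T' T ∧ (∃ q : M, q ∈ T') ∧
      IsSplittingTree (omega M) (BB M) (fseq (BB M)) g l T' ∧ IsProjectiveIn (omega M) L T' := by
  obtain ⟨e, he⟩ := exists_eJ (M := M)
  have hg := hL.onto
  have h : Hy e g l := by
    refine ⟨he, hL.ord, hg.1, fun y hy => ?_⟩
    obtain ⟨x, hx⟩ := hg.2 y hy
    exact ⟨x, (hg.1.app.mp hx).1, (hg.1.app.mp hx).2.symm⟩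
  have hLO : LOk L g := by
    intro x y hx hy
    rw [hL.rel]
    constructor
    · rintro ⟨a, b, ha, hb, hab⟩
      rw [← (hg.1.app.mp ha).2, ← (hg.1.app.mp hb).2]
      exact hab
    · intro hab
      exact ⟨_, _, hg.1.mem hx, hg.1.mem hy, hab⟩
  have hcl : ClT T := fun q hq p hp hpq => hT.closed q p hq hp hpq
  have hspl : SpT g l T := by
    intro q hq α hα
    obtain ⟨x, q', hx, hext, hq'⟩ := hT.split q α hq hα
    obtain ⟨hxR, rfl⟩ := (isExtB_iff (hT.sub q hq)).mp hext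
    exact ⟨x, hxR, (hg.1.app.mp hx).2.symm, hq'⟩
  obtain ⟨c, hc, hi⟩ := exists_inf hDC.out hAD h hT.sub hcl hspl hne
  obtain ⟨q0, hq0⟩ := hne
  have hem : (emp : M) ∈ T := hcl q0 hq0 emp (emp_mem_fseq _) (emp_sub _)
  have hsub : Sub (TT e g c) T := by
    intro q hq
    obtain ⟨hq1, C, hC⟩ := mem_sep.mp hq
    exact (TT_inf h hem hc hi hq1 hC).1
  refine ⟨TT e g c, hsub, ⟨emp, TT_emp hc⟩, ⟨fun q hq => hT.sub q (hsub q hq),
    fun q p hq hp hpq => TT_cl q hq p hp hpq, ?_⟩, ?_⟩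
  · intro q α hq hα
    obtain ⟨x, hx, hgx, hq'⟩ := TT_spl h hem hc hi q hq α hα
    exact ⟨x, snoc q x, hg.1.app.mpr ⟨hx, hgx.symm⟩,
      (isExtB_iff (hT.sub q (hsub q hq))).mpr ⟨hx, rfl⟩, hq'⟩
  · obtain ⟨φ, v, hv, hφ⟩ := projR_of (TTH_DL (L := L) (hc_eJ he) (hc_BB hc))
    refine ⟨φ, v, fun i => isHC_iff.mpr (hv i), fun x => ?_⟩
    rw [TTH_iff h hLO, isHC_iff, satHCR_iff]
    exact and_congr_right fun hx => hφ x hx

end

/-- the coding theorem for `l`-splitting trees -/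
theorem full_main (M : Type u) [Membership M M] (hZF : IsModelOfZF M) (hDC : DependentChoice M)
    (hAD : AD M) (w R Q L g l T : M) (hw : IsOmega w) (hR : IsBaire w R) (hQ : IsFinSeqs w Q R)
    (hL : IsPrewellordering R L g l) (hT : IsSplittingTree w R Q g l T) (hne : ∃ q : M, q ∈ T) :
    ∃ T' : M, Incl T' T ∧ (∃ q : M, q ∈ T') ∧ IsSplittingTree w R Q g l T' ∧
      IsProjectiveIn w L T' := by
  have : Fact (IsModelOfZF M) := ⟨hZF⟩
  have : Fact (DC M) := ⟨dc_of hDC⟩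
  obtain rfl := isOmega_iff.mp hw
  obtain rfl := isBaire_iff.mp hR
  obtain rfl := isFinSeqs_iff.mp hQ
  exact full_aux (adn_of hAD) hL hT hne

end Pool.Agent.Lib.MP_3b60c8_lc
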