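import Pool.Agent.Lib.MP_3b60c8_lc.Stmt

/-! The notions of the final statement (arbitrary `λ`), inside a structure `(M, ∈)`. All
quantifiers over sets range over `M`. The real line is the Baire space `ω ^ ω`. -/

namespace Pool.Agent.Lib.MP_3b60c8_lc

open Pool.Agent.Lib.MP_f5c99b_lc Pool.Agent.Lib.MP_7b07e0_lc

universe u

/-- First-order formulas in the language of set theory with an additional binary relation symbol.
Variables are de Bruijn indices; `all` binds variable `0`. -/
inductive FmlR where
  | mem (i j : ℕ) : FmlR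
  | eq (i j : ℕ) : FmlR
  | rel (i j : ℕ) : FmlR
  | neg (φ : FmlR) : FmlR
  | conj (φ ψ : FmlR) : FmlR
  | all (φ : FmlR) : FmlR

variable {M : Type u} [Membership M M]

/-- `R` is the set of the functions from `w = ω` to `w` -/
def IsBaire (w R : M) : Prop := ∀ x : M, x ∈ R ↔ IsFun x w w

/-- `L` is the prewellordering of `R` of length `l` with rank map `g`: `l` is an ordinal, `g` is a
function from `R` onto `l`, and `(x, y) ∈ L` iff `x, y ∈ R` and `g x ≤ g y` -/
structure IsPrewellordering (R L g l : M) : Prop where
  ord : IsOrdinal l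
  onto : IsOnto g R l
  rel : ∀ x y : M, App L x y ↔ ∃ a b : M, App g x a ∧ App g y b ∧ Incl a b

/-- Truth of a formula in the structure `(HC, ∈, L)`, `HC` the set of the hereditarily countable
sets. -/
def SatHCR (w L : M) : FmlR → (ℕ → M) → Prop
  | .mem i j, v => v i ∈ v j
  | .eq i j, v => v i = v j
  | .rel i j, v => App L (v i) (v j)
  | .neg φ, v => ¬ SatHCR w L φ v
  | .conj φ ψ, v => SatHCR w L φ v ∧ SatHCR w L ψ v
  | .all φ, v => ∀ x : M, IsHC w x → SatHCR w L φ (push x v)

/-- The set `T` is definable over `(HC, ∈, L)` with parameters. For sets `T` of finite sequences of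
reals and relations `L` between reals this means that `T` is projective in `L` (boldface). -/
def IsProjectiveIn (w L T : M) : Prop := ∃ (φ : FmlR) (v : ℕ → M), (∀ i, IsHC w (v i)) ∧
  ∀ x : M, x ∈ T ↔ IsHC w x ∧ SatHCR w L φ (push x v)

end Pool.Agent.Lib.MP_3b60c8_lc
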