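import Pool.Agent.Lib.MP_3b60c8_lc.HCc
import Pool.Agent.Lib.MP_3b60c8_lc.FStmt

/-! ROW fcl-LANG. Definability over the structure `(HC, ∈, L)` with parameters; the calculus is the
same as that of `DH` in `HCb.lean` (copy the proofs). -/

set_option synthInstance.maxSize 2000

namespace Pool.Agent.Lib.MP_3b60c8_lc

open Pool.Agent.Lib.MP_f5c99b_lc

universe u

variable {M : Type u} [Membership M M] [hZF : Fact (IsModelOfZF M)]

/-- truth in the structure `(HC, ∈, L)` -/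
def SatR (L : M) : FmlR → (ℕ → M) → Prop
  | .mem i j, v => v i ∈ v j
  | .eq i j, v => v i = v j
  | .rel i j, v => App L (v i) (v j)
  | .neg φ, v => ¬ SatR L φ v
  | .conj φ ψ, v => SatR L φ v ∧ SatR L ψ v
  | .all φ, v => ∀ x : M, HC x → SatR L φ (push x v)

def renR : (ℕ → ℕ) → FmlR → FmlR
  | ρ, .mem i j => .mem (ρ i) (ρ j)
  | ρ, .eq i j => .eq (ρ i) (ρ j)
  | ρ, .rel i j => .rel (ρ i) (ρ j)
  | ρ, .neg φ => .neg (renR ρ φ)
  | ρ, .conj φ ψ => .conj (renR ρ φ) (renR ρ ψ)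
  | ρ, .all φ => .all (renR (up ρ) φ)

theorem satR_ren (L : M) (φ : FmlR) : ∀ (ρ : ℕ → ℕ) (v : ℕ → M),
    SatR L (renR ρ φ) v ↔ SatR L φ (fun i => v (ρ i)) := by
  induction φ with
  | mem i j => intro ρ v; rfl
  | eq i j => intro ρ v; rfl
  | rel i j => intro ρ v; rfl
  | neg φ ih => intro ρ v; exact not_congr (ih ρ v)
  | conj φ ψ ih ih' => intro ρ v; exact and_congr (ih ρ v) (ih' ρ v)
  | all φ ih =>
    intro ρ v
    refine forall_congr' fun x => imp_congr Iff.rfl ?_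
    have h := ih (up ρ) (push x v)
    rwa [push_up] at h

/-- formulas without the additional symbol -/
def emR : Fml → FmlR
  | .mem i j => .mem i j
  | .eq i j => .eq i j
  | .neg φ => .neg (emR φ)
  | .conj φ ψ => .conj (emR φ) (emR ψ)
  | .all φ => .all (emR φ)

theorem satR_emR (L : M) (φ : Fml) : ∀ (v : ℕ → M), SatR L (emR φ) v ↔ SatH φ v := by
  induction φ with
  | mem i j => intro v; rfl
  | eq i j => intro v; rfl
  | neg φ ih => intro v; exact not_congr (ih v)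
  | conj φ ψ ih ih' => intro v; exact and_congr (ih v) (ih' v)
  | all φ ih => intro v; exact forall_congr' fun x => imp_congr Iff.rfl (ih (push x v))

/-- `P` is first-order definable over `(HC, ∈, L)` with parameters -/
class DL (L : M) (P : (ℕ → M) → Prop) : Prop where
  out : ∃ (φ : FmlR) (k : ℕ → ℕ ⊕ {c : M // HC c}), ∀ v, (∀ i, HC (v i)) →
    (P v ↔ SatR L φ (fun i => vpH v (k i)))

variable {L : M}

theorem DL.congr {P Q : (ℕ → M) → Prop} (h : DL L P)
    (e : ∀ v, (∀ i, HC (v i)) → (Q v ↔ P v)) : DL L Q := by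
  obtain ⟨φ, k, h⟩ := h.out
  exact ⟨φ, k, fun v hv => (e v hv).trans (h v hv)⟩

theorem DL.subs {P : (ℕ → M) → Prop} (h : DL L P) (s : ℕ → ℕ ⊕ {c : M // HC c}) :
    DL L (fun v => P (fun i => vpH v (s i))) := by
  obtain ⟨φ, k, h⟩ := h.out
  refine ⟨φ, fun i => Sum.elim s Sum.inr (k i), fun v hv => (h _ (fun i => hcb_vpH hv (s i))).trans ?_⟩
  have : (fun i => vpH (fun i => vpH v (s i)) (k i)) = fun i => vpH v (Sum.elim s Sum.inr (k i)) := by
    funext i
    rcases k i with j | c <;> rfl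
  rw [this]

theorem DL.perm {P : (ℕ → M) → Prop} (h : DL L P) (ρ : ℕ → ℕ) :
    DL L (fun v => P (fun i => v (ρ i))) :=
  h.subs (fun i => Sum.inl (ρ i))

instance (priority := low) DL_of_DH {P : (ℕ → M) → Prop} [h : DH P] : DL L P := by
  obtain ⟨φ, k, h⟩ := h.out
  exact ⟨emR φ, k, fun v hv => (h v hv).trans (satR_emR L φ _).symm⟩

theorem DL_rel_var (i j : ℕ) : DL L (fun v : ℕ → M => App L (v i) (v j)) :=
  ⟨.rel i j, Sum.inl, fun _ _ => Iff.rfl⟩

instance DL_not {P : (ℕ → M) → Prop} [h : DL L P] : DL L (fun v => ¬ P v) := by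
  obtain ⟨φ, k, h⟩ := h.out
  exact ⟨.neg φ, k, fun v hv => not_congr (h v hv)⟩

instance DL_and {P Q : (ℕ → M) → Prop} [h : DL L P] [h' : DL L Q] :
    DL L (fun v => P v ∧ Q v) := by
  obtain ⟨φ, k, h⟩ := h.out
  obtain ⟨ψ, l, h'⟩ := h'.out
  refine ⟨.conj (renR (fun i => 2 * i) φ) (renR (fun i => 2 * i + 1) ψ),
    fun i => if i % 2 = 0 then k (i / 2) else l (i / 2), fun v hv => and_congr ?_ ?_⟩
  · rw [h v hv, satR_ren]
    have : ∀ i, (2 * i) % 2 = 0 := by intro i; omega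
    have h2 : ∀ i, (2 * i) / 2 = i := by intro i; omega
    simp only [this, h2, if_true]
  · rw [h' v hv, satR_ren]
    have : ∀ i, (2 * i + 1) % 2 = 1 := by intro i; omega
    have h2 : ∀ i, (2 * i + 1) / 2 = i := by intro i; omega
    simp only [this, h2, one_ne_zero, if_false]

instance DL_all {P : (ℕ → M) → M → Prop} [h : DL L (fun v => P (fun i => v (i + 1)) (v 0))] :
    DL L (fun v => ∀ x, HC x → P v x) := by
  obtain ⟨φ, k, h⟩ := h.out
  refine ⟨.all (renR (fun i => Sum.elim (fun j => if j = 0 then 0 else i + 1) (fun _ => i + 1) (k i)) φ),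
    fun i => Sum.elim (fun j => Sum.inl (j - 1)) Sum.inr (k i), fun v hv => ?_⟩
  refine forall_congr' fun x => forall_congr' fun hx => ?_
  have h1 : P v x ↔ _ := h (push x v) (hcb_push hx hv)
  rw [h1, satR_ren]
  have : (fun i => vpH (push x v) (k i)) = fun i => push x (fun i => vpH v (Sum.elim (fun j => Sum.inl (j - 1)) Sum.inr (k i)))
      (Sum.elim (fun j => if j = 0 then 0 else i + 1) (fun _ => i + 1) (k i)) := by
    funext i
    rcases hk : k i with j | c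
    · rcases j with _ | j
      · rfl
      · simp [vpH, push, hk]
    · simp [vpH, push, hk]
  rw [this]

instance DL_or {P Q : (ℕ → M) → Prop} [h : DL L P] [h' : DL L Q] : DL L (fun v => P v ∨ Q v) := by
  exact (inferInstance : DL L (fun v => ¬ (¬ P v ∧ ¬ Q v))).congr fun v _ => by tauto

instance DL_ex {P : (ℕ → M) → M → Prop} [h : DL L (fun v => P (fun i => v (i + 1)) (v 0))] :
    DL L (fun v => ∃ x, HC x ∧ P v x) := by
  have : DL L (fun v : ℕ → M => ∀ x, HC x → ¬ P v x) := inferInstance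
  exact (inferInstance : DL L (fun v => ¬ ∀ x, HC x → ¬ P v x)).congr fun v _ => by
    push Not
    rfl

theorem DL.subst {Q : (ℕ → M) → M → Prop} (h : DL L (fun v => Q (fun i => v (i + 1)) (v 0)))
    {t : (ℕ → M) → M} (ht : DHT t) : DL L (fun v => Q v (t v)) := by
  have h1 := ht.hcb_var2 0 1
  have : DL L (fun v : ℕ → M => ∃ x, HC x ∧ (x = t v ∧ Q v x)) := inferInstance
  exact this.congr fun v hv =>
    ⟨fun hQ => ⟨t v, ht.hc v hv, rfl, hQ⟩, fun ⟨_, _, hx, hQ⟩ => hx ▸ hQ⟩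

instance DL_bex {t : (ℕ → M) → M} {P : (ℕ → M) → M → Prop} [ht : DHT t]
    [h : DL L (fun v => P (fun i => v (i + 1)) (v 0))] :
    DL L (fun v => ∃ x, x ∈ t v ∧ P v x) := by
  have h1 : DHT (fun v => t (fun i => v (i + 1))) := ht.shift 1
  have h2 : DL L (fun v : ℕ → M => ∃ x, HC x ∧ (x ∈ t v ∧ P v x)) := inferInstance
  exact h2.congr fun v hv =>
    ⟨fun ⟨x, hx, hp⟩ => ⟨x, (ht.hc v hv).of_mem hx, hx, hp⟩, fun ⟨x, _, hx, hp⟩ => ⟨x, hx, hp⟩⟩

instance DL_ball {t : (ℕ → M) → M} {P : (ℕ → M) → M → Prop} [ht : DHT t]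
    [h : DL L (fun v => P (fun i => v (i + 1)) (v 0))] :
    DL L (fun v => ∀ x, x ∈ t v → P v x) := by
  have h1 : DHT (fun v => t (fun i => v (i + 1))) := ht.shift 1
  have h2 : DL L (fun v : ℕ → M => ¬ ∃ x, HC x ∧ (x ∈ t v ∧ ¬ P v x)) := inferInstance
  refine h2.congr fun v hv => ⟨?_, ?_⟩
  · rintro H ⟨x, _, hx, hp⟩
    exact hp (H x hx)
  · intro H x hx
    by_contra hp
    exact H ⟨x, (ht.hc v hv).of_mem hx, hx, hp⟩

theorem fcl_DL2 {P : M → M → Prop}
    (h : DL L (fun v => P (v 0) (v 1)))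
    (t1 t2 : (ℕ → M) → M) [h1 : DHT t1] [h2 : DHT t2] :
    DL L (fun v => P (t1 v) (t2 v)) := by
  have k0 : DL L (fun v => P (v 1) (v 0)) := h.perm (fun i => 1 - i)
  have k1 : DL L (fun v => P (v 0) (t2 (fun i => v (i + 1)))) :=
    DL.subst (Q := fun v x => P (v 0) x ) k0 (h2.shift 1)
  exact DL.subst (Q := fun v x => P x (t2 v)) k1 h1

instance DL_rel (s t : (ℕ → M) → M) [DHT s] [DHT t] : DL L (fun v => App L (s v) (t v)) := by
  exact fcl_DL2 (P := fun x y => App L x y) (DL_rel_var 0 1) s t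

theorem DL3 {P : M → M → M → Prop} (h : DL L (fun v => P (v 0) (v 1) (v 2)))
    (t1 t2 t3 : (ℕ → M) → M) [h1 : DHT t1] [h2 : DHT t2] [h3 : DHT t3] :
    DL L (fun v => P (t1 v) (t2 v) (t3 v)) := by
  have k0 : DL L (fun v => P (v 2) (v 1) (v 0)) := h.perm (fun i => 2 - i)
  have k1 : DL L (fun v => P (v 1) (v 0) (t3 (fun i => v (i + 2)))) :=
    DL.subst (Q := fun v x => P (v 1) (v 0) x ) k0 (h3.shift 2)
  have k2 : DL L (fun v => P (v 0) (t2 (fun i => v (i + 1))) (t3 (fun i => v (i + 1)))) :=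
    DL.subst (Q := fun v x => P (v 0) x (t3 (fun i => v (i + 1)))) k1 (h2.shift 1)
  exact DL.subst (Q := fun v x => P x (t2 v) (t3 v)) k2 h1

theorem DL4 {P : M → M → M → M → Prop} (h : DL L (fun v => P (v 0) (v 1) (v 2) (v 3)))
    (t1 t2 t3 t4 : (ℕ → M) → M) [h1 : DHT t1] [h2 : DHT t2] [h3 : DHT t3] [h4 : DHT t4] :
    DL L (fun v => P (t1 v) (t2 v) (t3 v) (t4 v)) := by
  have k0 : DL L (fun v => P (v 3) (v 2) (v 1) (v 0)) := h.perm (fun i => 3 - i)
  have k1 : DL L (fun v => P (v 2) (v 1) (v 0) (t4 (fun i => v (i + 3)))) :=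
    DL.subst (Q := fun v x => P (v 2) (v 1) (v 0) x ) k0 (h4.shift 3)
  have k2 : DL L (fun v => P (v 1) (v 0) (t3 (fun i => v (i + 2))) (t4 (fun i => v (i + 2)))) :=
    DL.subst (Q := fun v x => P (v 1) (v 0) x (t4 (fun i => v (i + 2)))) k1 (h3.shift 2)
  have k3 : DL L (fun v => P (v 0) (t2 (fun i => v (i + 1))) (t3 (fun i => v (i + 1))) (t4 (fun i => v (i + 1)))) :=
    DL.subst (Q := fun v x => P (v 0) x (t3 (fun i => v (i + 1))) (t4 (fun i => v (i + 1)))) k2 (h2.shift 1)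
  exact DL.subst (Q := fun v x => P x (t2 v) (t3 v) (t4 v)) k3 h1

theorem DL5 {P : M → M → M → M → M → Prop}
    (h : DL L (fun v => P (v 0) (v 1) (v 2) (v 3) (v 4)))
    (t1 t2 t3 t4 t5 : (ℕ → M) → M) [h1 : DHT t1] [h2 : DHT t2] [h3 : DHT t3] [h4 : DHT t4]
    [h5 : DHT t5] : DL L (fun v => P (t1 v) (t2 v) (t3 v) (t4 v) (t5 v)) := by
  have k0 : DL L (fun v => P (v 4) (v 3) (v 2) (v 1) (v 0)) := h.perm (fun i => 4 - i)
  have k1 : DL L (fun v => P (v 3) (v 2) (v 1) (v 0) (t5 (fun i => v (i + 4)))) :=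
    DL.subst (Q := fun v x => P (v 3) (v 2) (v 1) (v 0) x ) k0 (h5.shift 4)
  have k2 : DL L (fun v => P (v 2) (v 1) (v 0) (t4 (fun i => v (i + 3))) (t5 (fun i => v (i + 3)))) :=
    DL.subst (Q := fun v x => P (v 2) (v 1) (v 0) x (t5 (fun i => v (i + 3)))) k1 (h4.shift 3)
  have k3 : DL L (fun v => P (v 1) (v 0) (t3 (fun i => v (i + 2))) (t4 (fun i => v (i + 2))) (t5 (fun i => v (i + 2)))) :=
    DL.subst (Q := fun v x => P (v 1) (v 0) x (t4 (fun i => v (i + 2))) (t5 (fun i => v (i + 2)))) k2 (h3.shift 2)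
  have k4 : DL L (fun v => P (v 0) (t2 (fun i => v (i + 1))) (t3 (fun i => v (i + 1))) (t4 (fun i => v (i + 1))) (t5 (fun i => v (i + 1)))) :=
    DL.subst (Q := fun v x => P (v 0) x (t3 (fun i => v (i + 1))) (t4 (fun i => v (i + 1))) (t5 (fun i => v (i + 1)))) k3 (h2.shift 1)
  exact DL.subst (Q := fun v x => P x (t2 v) (t3 v) (t4 v) (t5 v)) k4 h1

end Pool.Agent.Lib.MP_3b60c8_lc
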