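import Pool.Agent.Lib.MP_3b60c8_lc.HDef
import Pool.Agent.Lib.MP_3b60c8_lc.FDefs
import Pool.Agent.Lib.MP_3b60c8_lc.FLang

/-! ROW fcl-HDEF. The notions of `FDefs.lean` over `(HC, ∈, L)`. -/

set_option synthInstance.maxSize 2000

namespace Pool.Agent.Lib.MP_3b60c8_lc

open Pool.Agent.Lib.MP_f5c99b_lc

universe u

variable {M : Type u} [Membership M M] [hZF : Fact (IsModelOfZF M)] [hDC : Fact (DC M)]

omit hDC in
theorem hc_nn (k : ℕ) : HC (nn k : M) := by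
  induction k with
  | zero => exact hc_emp
  | succ k ih => exact hc_suc ih

omit hDC in
instance DHT_nn (k : ℕ) : DHT (fun _ : ℕ → M => (nn k : M)) := DHT_const (hc_nn k)

/-- see `tg` -/
noncomputable def tgH (e c : M) : M := apH c (apH e (pr (nn 0) (nn 0)))

omit hDC in
instance DT_tgH (t1 t2 : (ℕ → M) → M) [DT t1] [DT t2] : DT (fun v => tgH (t1 v) (t2 v)) := by
  refine DT2 (f := tgH) ?_ t1 t2
  unfold tgH
  infer_instance

instance DHT_tgH (t1 t2 : (ℕ → M) → M) [DHT t1] [DHT t2] :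
    DHT (fun v => tgH (t1 v) (t2 v)) := by
  refine DHT2 (f := tgH) ?_ t1 t2
  unfold tgH
  infer_instance

/-- see `rc` -/
noncomputable def rcH (e i c : M) : M := lam (omega M) (fun n => apH c (apH e (pr i n)))

omit hDC in
instance DT_rcH (t1 t2 t3 : (ℕ → M) → M) [DT t1] [DT t2] [DT t3] :
    DT (fun v => rcH (t1 v) (t2 v) (t3 v)) := by
  refine DT3 (f := rcH) ?_ t1 t2 t3
  unfold rcH
  infer_instance

instance DHT_rcH (t1 t2 t3 : (ℕ → M) → M) [DHT t1] [DHT t2] [DHT t3] :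
    DHT (fun v => rcH (t1 v) (t2 v) (t3 v)) := by
  refine DHT3 (f := rcH) ?_ t1 t2 t3
  unfold rcH
  infer_instance

/-- see `sc` -/
noncomputable def scH (e c : M) : M := lam (fseq (omega M)) (fun s => apH c (apH e (pr (nn 4) s)))

omit hDC in
instance DT_scH (t1 t2 : (ℕ → M) → M) [DT t1] [DT t2] : DT (fun v => scH (t1 v) (t2 v)) := by
  refine DT2 (f := scH) ?_ t1 t2
  unfold scH
  infer_instance

instance DHT_scH (t1 t2 : (ℕ → M) → M) [DHT t1] [DHT t2] :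
    DHT (fun v => scH (t1 v) (t2 v)) := by
  refine DHT2 (f := scH) ?_ t1 t2
  unfold scH
  infer_instance

/-- see `repI` -/
noncomputable def repIH (σ y : M) : M := lam (omega M) (fun n => apH σ (restrH y n))

omit hDC in
instance DT_repIH (t1 t2 : (ℕ → M) → M) [DT t1] [DT t2] :
    DT (fun v => repIH (t1 v) (t2 v)) := by
  refine DT2 (f := repIH) ?_ t1 t2
  unfold repIH
  infer_instance

instance DHT_repIH (t1 t2 : (ℕ → M) → M) [DHT t1] [DHT t2] :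
    DHT (fun v => repIH (t1 v) (t2 v)) := by
  refine DHT2 (f := repIH) ?_ t1 t2
  unfold repIH
  infer_instance

/-- see `Stp` -/
def StpH (L e c y c' y' : M) : Prop :=
  (tgH e c = nn 1 ∧ c' = rcH e (nn 1) c ∧ y' = y) ∨
  (tgH e c = nn 2 ∧ y' = y ∧ ∃ z, HC z ∧ IsFun z (omega M) (omega M) ∧
    c' = repIH (scH e c) z) ∨
  (tgH e c = nn 3 ∧ y' = y ∧ ∃ z, HC z ∧ IsFun z (omega M) (omega M) ∧ tgH e z = nn 3 ∧
    scH e z = scH e c ∧ ¬ App L (rcH e (nn 1) c) (rcH e (nn 1) z) ∧ c' = repH (scH e c) z) ∨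
  (tgH e c = nn 4 ∧ y' = y ∧ ∃ z, HC z ∧ IsFun z (omega M) (omega M) ∧ tgH e z = nn 3 ∧
    scH e z = scH e c ∧ c' = repH (scH e c) z) ∨
  (tgH e c = nn 5 ∧ c' = rcH e (nn 1) c ∧ y = repH (scH e y') c)

instance DL_StpH {L : M} (t1 t2 t3 t4 t5 : (ℕ → M) → M) [DHT t1] [DHT t2] [DHT t3] [DHT t4]
    [DHT t5] : DL L (fun v => StpH L (t1 v) (t2 v) (t3 v) (t4 v) (t5 v)) := by
  refine DL5 (P := StpH L) ?_ t1 t2 t3 t4 t5
  unfold StpH
  infer_instance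

/-- `C` is a function from `a` to the reals -/
def FrH (C a : M) : Prop := FnH C a ∧ ∀ i, i ∈ a → IsFun (apH C i) (omega M) (omega M)

instance DH_FrH (t1 t2 : (ℕ → M) → M) [DHT t1] [DHT t2] : DH (fun v => FrH (t1 v) (t2 v)) := by
  refine DH2 (P := FrH) ?_ t1 t2
  unfold FrH
  infer_instance

/-- see `Chn` -/
def ChnH (L e x n C Y : M) : Prop := n ∈ omega M ∧ FrH C (suc n) ∧ FrH Y (suc n) ∧
  tgH e (apH C emp) = nn 1 ∧ x = rcH e (nn 2) (apH C emp) ∧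
  apH Y emp = rcH e (nn 3) (apH C emp) ∧
  ∀ i, i ∈ n → StpH L e (apH C (suc i)) (apH Y (suc i)) (apH C i) (apH Y i)

instance DL_ChnH {L : M} (t1 t2 t3 t4 t5 : (ℕ → M) → M) [DHT t1] [DHT t2] [DHT t3] [DHT t4]
    [DHT t5] : DL L (fun v => ChnH L (t1 v) (t2 v) (t3 v) (t4 v) (t5 v)) := by
  refine DL5 (P := ChnH L) ?_ t1 t2 t3 t4 t5
  unfold ChnH
  infer_instance

/-- see `UU` -/
def UUH (L e c x y : M) : Prop := ∃ n, HC n ∧ ∃ C, HC C ∧ ∃ Y, HC Y ∧ ChnH L e x n C Y ∧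
  apH C n = c ∧ apH Y n = y

instance DL_UUH {L : M} (t1 t2 t3 t4 : (ℕ → M) → M) [DHT t1] [DHT t2] [DHT t3] [DHT t4] :
    DL L (fun v => UUH L (t1 v) (t2 v) (t3 v) (t4 v)) := by
  refine DL4 (P := UUH L) ?_ t1 t2 t3 t4
  unfold UUH
  infer_instance

/-- see `Br` -/
def BrH (L e c q C : M) : Prop := FrH C (suc (domH q)) ∧ apH C emp = c ∧
  ∀ i, i ∈ domH q → UUH L e (apH C i) (apH q i) (apH C (suc i))

instance DL_BrH {L : M} (t1 t2 t3 t4 : (ℕ → M) → M) [DHT t1] [DHT t2] [DHT t3] [DHT t4] :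
    DL L (fun v => BrH L (t1 v) (t2 v) (t3 v) (t4 v)) := by
  refine DL4 (P := BrH L) ?_ t1 t2 t3 t4
  unfold BrH
  infer_instance

/-- see `TT` -/
def TTH (L e c q : M) : Prop := (∃ n, n ∈ omega M ∧ FrH q n) ∧ ∃ C, HC C ∧ BrH L e c q C

instance DL_TTH {L : M} (t1 t2 t3 : (ℕ → M) → M) [DHT t1] [DHT t2] [DHT t3] :
    DL L (fun v => TTH L (t1 v) (t2 v) (t3 v)) := by
  refine DL3 (P := TTH L) ?_ t1 t2 t3
  unfold TTH
  infer_instance

end Pool.Agent.Lib.MP_3b60c8_lc
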