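import Pool.Agent.Lib.MP_3b60c8_lc.FU

/-! ROW fcl-NG. Good codes. -/

set_option synthInstance.maxSize 2000

namespace Pool.Agent.Lib.MP_3b60c8_lc

open Pool.Agent.Lib.MP_f5c99b_lc

universe u

variable {M : Type u} [Membership M M] [hZF : Fact (IsModelOfZF M)]

variable {e g l T q c n : M}

theorem NG_zero : NG e g l T q c emp := by
  refine ⟨upair (pr q (pr c emp)) (pr q (pr c emp)), ?_, ?_⟩
  · intro q' c' n' h
    exfalso
    rw [mem_upair, or_self] at h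
    have h1 := (pr_inj (pr_inj h).2).2
    exact not_mem_emp n' (h1 ▸ mem_suc_self n')
  · rw [mem_upair]; exact Or.inl rfl

/-- the set of all good triples -/
private noncomputable def NG_set (e g l T : M) : M :=
  sep (prod (fseq (BB M)) (prod (BB M) (omega M)))
    (fun p => NG e g l T (fst p) (fst (snd p)) (snd (snd p)))

private theorem NG_mem_set {e g l T q c n : M} : pr q (pr c n) ∈ NG_set e g l T ↔
    (q ∈ fseq (BB M) ∧ c ∈ BB M ∧ n ∈ omega M) ∧ NG e g l T q c n := by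
  unfold NG_set
  rw [mem_sep, pr_mem_prod, pr_mem_prod, fst_pr, snd_pr, fst_pr, snd_pr]

private theorem NG_suc_fwd (h : NG e g l T q c (suc n)) : Tot e g l c ∧
      ∀ x y, UU e g c x y → snoc q x ∈ T ∧ NG e g l T (snoc q x) y n := by
  obtain ⟨S, hS, hm⟩ := h
  obtain ⟨h1, h2⟩ := hS q c n hm
  exact ⟨h1, fun x y hxy => ⟨(h2 x y hxy).1, S, hS, (h2 x y hxy).2⟩⟩

theorem NG_suc (he : Inj e (JJ M) (omega M)) (hq : q ∈ fseq (BB M)) (hc : c ∈ BB M)
    (hn : n ∈ omega M) : NG e g l T q c (suc n) ↔ Tot e g l c ∧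
      ∀ x y, UU e g c x y → snoc q x ∈ T ∧ NG e g l T (snoc q x) y n := by
  refine ⟨NG_suc_fwd, ?_⟩
  rintro ⟨h1, h2⟩
  refine ⟨un (NG_set e g l T) (upair (pr q (pr c (suc n))) (pr q (pr c (suc n)))), ?_, ?_⟩
  · intro q' c' n' h
    rw [mem_un, mem_upair, or_self] at h
    rcases h with h | h
    · obtain ⟨⟨hq', hc', hn'⟩, h⟩ := NG_mem_set.1 h
      obtain ⟨h3, h4⟩ := NG_suc_fwd h
      refine ⟨h3, fun x y hxy => ⟨(h4 x y hxy).1, ?_⟩⟩
      rw [mem_un]
      left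
      rw [NG_mem_set]
      obtain ⟨-, hx, hy⟩ := UU_mem he hxy
      exact ⟨⟨snoc_mem hq' hx, hy, omega_trans hn' (mem_suc_self n')⟩, (h4 x y hxy).2⟩
    · have e1 := (pr_inj h).1
      have e2 := (pr_inj (pr_inj h).2).1
      have e3 := suc_inj (pr_inj (pr_inj h).2).2
      rw [e1, e2, e3]
      refine ⟨h1, fun x y hxy => ⟨(h2 x y hxy).1, ?_⟩⟩
      rw [mem_un]
      left
      rw [NG_mem_set]
      obtain ⟨-, hx, hy⟩ := UU_mem he hxy
      exact ⟨⟨snoc_mem hq hx, hy, hn⟩, (h2 x y hxy).2⟩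
  · rw [mem_un, mem_upair]; exact Or.inr (Or.inl rfl)

private theorem NG_dec (he : Inj e (JJ M) (omega M)) : ∀ n, n ∈ omega M → ∀ q, q ∈ fseq (BB M) →
    ∀ c, c ∈ BB M → NG e g l T q c (suc n) → NG e g l T q c n := by
  refine omega_induction (fun n => ∀ q, q ∈ fseq (BB M) →
    ∀ c, c ∈ BB M → NG e g l T q c (suc n) → NG e g l T q c n) ?_ ?_
  · intro q _ c _ _
    exact NG_zero
  · intro n hn ih q hq c hc h
    obtain ⟨h1, h2⟩ := NG_suc_fwd h
    rw [NG_suc he hq hc hn]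
    refine ⟨h1, fun x y hxy => ⟨(h2 x y hxy).1, ?_⟩⟩
    obtain ⟨-, hx, hy⟩ := UU_mem he hxy
    exact ih _ (snoc_mem hq hx) _ hy (h2 x y hxy).2

private theorem NG_mono_aux (he : Inj e (JJ M) (omega M)) (hq : q ∈ fseq (BB M)) (hc : c ∈ BB M) :
    ∀ n, n ∈ omega M → NG e g l T q c n → ∀ m, m ∈ n → NG e g l T q c m := by
  refine omega_induction (fun n => NG e g l T q c n → ∀ m, m ∈ n → NG e g l T q c m) ?_ ?_
  · intro _ m hm
    exact absurd hm (not_mem_emp m)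
  · intro n hn ih h m hm
    have h1 := NG_dec he n hn q hq c hc h
    rcases mem_suc.1 hm with hm | rfl
    · exact ih h1 m hm
    · exact h1

theorem NG_mono (he : Inj e (JJ M) (omega M)) (hq : q ∈ fseq (BB M)) (hc : c ∈ BB M)
    (hn : n ∈ omega M) (h : NG e g l T q c n) {m : M} (hm : m ∈ n) : NG e g l T q c m :=
  NG_mono_aux he hq hc n hn h m hm

theorem Inf_iff (he : Inj e (JJ M) (omega M)) (hq : q ∈ fseq (BB M)) (hc : c ∈ BB M) :
    Inf e g l T q c ↔ Tot e g l c ∧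
      ∀ x y, UU e g c x y → snoc q x ∈ T ∧ Inf e g l T (snoc q x) y := by
  constructor
  · intro h
    have h0 := NG_suc_fwd (h _ (suc_mem_omega emp_mem_omega))
    refine ⟨h0.1, fun x y hxy => ⟨(h0.2 x y hxy).1, fun n hn => ?_⟩⟩
    exact ((NG_suc_fwd (h _ (suc_mem_omega hn))).2 x y hxy).2
  · rintro ⟨h1, h2⟩ n hn
    rcases omega_cases hn with rfl | ⟨m, hm, rfl⟩
    · exact NG_zero
    · rw [NG_suc he hq hc hm]
      exact ⟨h1, fun x y hxy => ⟨(h2 x y hxy).1, (h2 x y hxy).2 m hm⟩⟩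

end Pool.Agent.Lib.MP_3b60c8_lc
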