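import Pool.Agent.Lib.MP_3b60c8_lc.FCod
import Pool.Agent.Lib.MP_3b60c8_lc.FNG

/-! ROW fcl-LEM. The code of tag 5 made from the coding lemma. -/

set_option synthInstance.maxSize 2000

namespace Pool.Agent.Lib.MP_3b60c8_lc

open Pool.Agent.Lib.MP_f5c99b_lc

universe u

variable {M : Type u} [Membership M M] [hZF : Fact (IsModelOfZF M)]

theorem lem2 (hAD : ADN M) {e g l T q : M} (h : Hy e g l) (hq : q ∈ fseq (BB M))
    (hs : ∀ α, α ∈ l → ∃ x τ, x ∈ BB M ∧ ap g x = α ∧ snoc q x ∈ T ∧ τ ∈ SS M ∧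
      ∀ c n, c ∈ BB M → n ∈ omega M → NG e g l T q c n → NG e g l T (snoc q x) (rep τ c) n) :
    ∃ c, c ∈ BB M ∧ Inf e g l T q c := by
  obtain ⟨a, ha, haZ, hat⟩ := coding hAD h (fun x y => snoc q x ∈ T ∧
      ∀ c n, c ∈ BB M → n ∈ omega M → NG e g l T q c n →
        NG e g l T (snoc q x) (rep (sc e y) c) n) (by
    intro α hα
    obtain ⟨x, τ, hx, hgx, hT, hτ, hn⟩ := hs α hα
    obtain ⟨y, hy, -, -, -, -, hsy⟩ := mkex (r1 := x) (r2 := x) (r3 := x) h.inj (nn_mem 0) hx hx hx hτ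
    refine ⟨x, y, hx, hy, hgx, hT, ?_⟩
    rw [hsy]
    exact hn)
  obtain ⟨s, hs'⟩ := exists_SS (M := M)
  obtain ⟨c, hc, htc, hrc, -, -, -⟩ := mkex (r1 := a) (r2 := a) (r3 := a) h.inj (nn_mem 5) ha ha ha hs'
  refine ⟨c, hc, ?_⟩
  have hU : ∀ x y, UU e g c x y ↔ ∃ y', UU e g a x y' ∧ y = rep (sc e y') c := by
    intro x y
    rw [UU5 h.inj hc htc, hrc]
  refine omega_induction (fun n => NG e g l T q c n) NG_zero ?_
  intro n hn ih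
  refine (NG_suc h.inj hq hc hn).mpr ⟨?_, ?_⟩
  · intro α hα
    obtain ⟨x, y, hgx, hxy⟩ := hat α hα
    exact ⟨x, rep (sc e y) c, hgx, (hU _ _).mpr ⟨y, hxy, rfl⟩⟩
  · intro x y hxy
    obtain ⟨y', hxy', rfl⟩ := (hU _ _).mp hxy
    obtain ⟨h1, h2⟩ := haZ x y' hxy'
    exact ⟨h1, h2 c n hc hn ih⟩

end Pool.Agent.Lib.MP_3b60c8_lc
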