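import Pool.Agent.Lib.MP_3b60c8_lc.FCmp

/-! ROW fcl-REC. Infinitely many strategies of player I played against each other. -/

set_option synthInstance.maxSize 2000

namespace Pool.Agent.Lib.MP_3b60c8_lc

open Pool.Agent.Lib.MP_f5c99b_lc

universe u

variable {M : Type u} [Membership M M] [hZF : Fact (IsModelOfZF M)]

theorem chain_play {s : M} (hs : IsFun s (omega M) (SS M)) : ∃ Y, IsFun Y (omega M) (BB M) ∧
    ∀ k, k ∈ omega M → ap Y k = repI (ap s k) (ap Y (suc k)) := by
  have hsk : ∀ k, k ∈ omega M → IsFun (ap s k) (fseq (omega M)) (omega M) :=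
    fun k hk => mem_SS.mp (hs.ap_mem hk)
  have ha : lam (omega M) (fun _ => (emp : M)) ∈ funs (omega M) (fseq (omega M)) :=
    mem_funs.mpr (isFun_lam fun _ _ => emp_mem_fseq _)
  have ht : ∀ n, n ∈ omega M → ∀ F, F ∈ funs (omega M) (fseq (omega M)) →
      lam (omega M) (fun k => snoc (ap F k) (ap (ap s k) (ap F (suc k)))) ∈
        funs (omega M) (fseq (omega M)) := by
    intro n _ F hF
    rw [mem_funs] at hF ⊢
    exact isFun_lam fun k hk => snoc_mem (hF.ap_mem hk)
      ((hsk k hk).ap_mem (hF.ap_mem (suc_mem_omega hk)))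
  obtain ⟨F, hF, hF0, hFs⟩ := omega_rec (fun _ F => lam (omega M) (fun k => snoc (ap F k)
    (ap (ap s k) (ap F (suc k))))) ha ht
  have hFn : ∀ n, n ∈ omega M → IsFun (ap F n) (omega M) (fseq (omega M)) :=
    fun n hn => mem_funs.mp (hF.ap_mem hn)
  have hval : ∀ n, n ∈ omega M → ∀ k, k ∈ omega M → ap (ap F (suc n)) k =
      snoc (ap (ap F n) k) (ap (ap s k) (ap (ap F n) (suc k))) := by
    intro n hn k hk
    rw [hFs n hn, ap_lam' hk]
  set Y : M := lam (omega M) (fun k => lam (omega M) (fun n =>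
    ap (ap s k) (ap (ap F n) (suc k)))) with hY
  have hYk : ∀ k, k ∈ omega M → ap Y k = lam (omega M) (fun n =>
      ap (ap s k) (ap (ap F n) (suc k))) := fun k hk => ap_lam' hk
  have hYf : ∀ k, k ∈ omega M → IsFun (ap Y k) (omega M) (omega M) := by
    intro k hk
    rw [hYk k hk]
    exact isFun_lam fun n hn => (hsk k hk).ap_mem ((hFn n hn).ap_mem (suc_mem_omega hk))
  have hYn : ∀ k, k ∈ omega M → ∀ n, n ∈ omega M → ap (ap Y k) n =
      ap (ap s k) (ap (ap F n) (suc k)) := by
    intro k hk n hn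
    rw [hYk k hk, ap_lam' hn]
  have hres : ∀ n, n ∈ omega M → ∀ k, k ∈ omega M → restr (ap Y k) n = ap (ap F n) k := by
    refine omega_induction (fun n => ∀ k, k ∈ omega M → restr (ap Y k) n = ap (ap F n) k) ?_ ?_
    · intro k hk
      have e0 : ap (ap F emp) k = emp := by
        rw [hF0]
        exact ap_lam' hk
      rw [e0]
      exact AU_restr_emp (hYf k hk)
    · intro n hn ih k hk
      rw [restr_suc (hYf k hk) hn, ih k hk, hval n hn k hk, hYn k hk n hn]
  refine ⟨Y, isFun_lam fun k hk => ?_, fun k hk => ?_⟩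
  · have := hYf k hk
    rw [hYk k hk] at this
    exact mem_BB.mpr this
  · have h1 : IsFun (repI (ap s k) (ap Y (suc k))) (omega M) (omega M) :=
      isFun_lam fun n hn => (hsk k hk).ap_mem (restr_mem_fseq (hYf _ (suc_mem_omega hk)) hn)
    refine (hYf k hk).ext h1 fun n hn => ?_
    have h2 : ap (repI (ap s k) (ap Y (suc k))) n = ap (ap s k) (restr (ap Y (suc k)) n) :=
      ap_lam' hn
    rw [h2, hres n hn _ (suc_mem_omega hk), hYn k hk n hn]

end Pool.Agent.Lib.MP_3b60c8_lc
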