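import Pool.Agent.Lib.MP_3b60c8_lc.FLem
import Pool.Agent.Lib.MP_3b60c8_lc.FRec

/-! ROW fcl-MAIN. The empty sequence has an infinitely good code. -/

set_option synthInstance.maxSize 2000

namespace Pool.Agent.Lib.MP_3b60c8_lc

open Pool.Agent.Lib.MP_f5c99b_lc

universe u

variable {M : Type u} [Membership M M] [hZF : Fact (IsModelOfZF M)]

/-- `s` is a winning strategy of player I in the game which compares `q` and `q'` -/
def Cmp (e g l T q q' s : M) : Prop := ∀ y, y ∈ BB M → ∃ n, n ∈ omega M ∧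
  NG e g l T q (repI s y) n ∧ ¬ NG e g l T q' y n

instance D_Cmp (t1 t2 t3 t4 t5 t6 t7 : (ℕ → M) → M) [DT t1] [DT t2] [DT t3] [DT t4] [DT t5]
    [DT t6] [DT t7] : D (fun v => Cmp (t1 v) (t2 v) (t3 v) (t4 v) (t5 v) (t6 v) (t7 v)) := by
  refine D7 (P := Cmp) ?_ t1 t2 t3 t4 t5 t6 t7
  unfold Cmp
  infer_instance

/-- no code is infinitely good at `q` -/
def NoI (e g l T q : M) : Prop := ∀ c, c ∈ BB M → ¬ Inf e g l T q c

instance D_NoI (t1 t2 t3 t4 t5 : (ℕ → M) → M) [DT t1] [DT t2] [DT t3] [DT t4] [DT t5] :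
    D (fun v => NoI (t1 v) (t2 v) (t3 v) (t4 v) (t5 v)) := by
  refine D5 (P := NoI) ?_ t1 t2 t3 t4 t5
  unfold NoI
  infer_instance

/-- one step of the descent -/
theorem main_step (hAD : ADN M) {e g l T q : M} (h : Hy e g l) (hT : Sub T (fseq (BB M)))
    (hs : SpT g l T) (hq : q ∈ T) (hn : NoI e g l T q) :
    ∃ x s, x ∈ BB M ∧ s ∈ SS M ∧ snoc q x ∈ T ∧ Cmp e g l T q (snoc q x) s := by
  by_contra hno
  push Not at hno
  have hqf := hT q hq
  obtain ⟨c, hc, hc'⟩ := lem2 hAD h hqf (T := T) (by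
    intro α hα
    obtain ⟨x, hx, hgx, hqx⟩ := hs q hq α hα
    rcases hAD (sep (prod (BB M) (BB M)) (fun p => ∃ n, n ∈ omega M ∧
        NG e g l T q (fst p) n ∧ ¬ NG e g l T (snoc q x) (snd p) n)) with
      ⟨σ, hσ, hw⟩ | ⟨τ, hτ, hw⟩
    · exfalso
      refine hno x σ hx (mem_SS.mpr hσ) hqx fun y hy => ?_
      have h1 := hw (repI σ y) y (mem_BB.mp (repI_mem (mem_SS.mpr hσ) hy)) (mem_BB.mp hy)
        (fun n hn => by rw [repI, ap_lam' hn])
      have h2 := (mem_sep.mp h1).2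
      rwa [fst_pr, snd_pr] at h2
    · refine ⟨x, τ, hx, hgx, hqx, mem_SS.mpr hτ, fun c n hc hn hg => ?_⟩
      have h0 := rep_mem (mem_SS.mpr hτ) hc
      have h1 := hw c (rep τ c) (mem_BB.mp hc) (mem_BB.mp h0)
        (fun n hn => by rw [rep, ap_lam' hn])
      by_contra hng
      refine h1 (mem_sep.mpr ⟨pr_mem_prod.mpr ⟨hc, h0⟩, n, hn, ?_, ?_⟩)
      · rw [fst_pr]
        exact hg
      · rw [snd_pr]
        exact hng)
  exact hn c hc hc'

theorem exists_inf (hDC : DC M) (hAD : ADN M) {e g l T : M} (h : Hy e g l)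
    (hT : Sub T (fseq (BB M))) (hcl : ClT T) (hs : SpT g l T) (hne : ∃ q, q ∈ T) :
    ∃ c, c ∈ BB M ∧ Inf e g l T emp c := by
  by_contra hno
  push Not at hno
  obtain ⟨q0, hq0⟩ := hne
  have hem : (emp : M) ∈ T := hcl q0 hq0 emp (emp_mem_fseq _) (emp_sub _)
  obtain ⟨s0, hs0⟩ := exists_SS (M := M)
  -- the sequence of nodes and strategies
  obtain ⟨f, hf, hf0, hf1⟩ := dc_rel hDC
    (S := prod (sep T (fun q => NoI e g l T q)) (SS M)) (a := pr emp s0)
    (pr_mem_prod.mpr ⟨mem_sep.mpr ⟨hem, hno⟩, hs0⟩)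
    (fun a b => Cmp e g l T (fst a) (fst b) (snd b)) (by
      intro a ha
      have h1 := mem_sep.mp (fst_mem ha)
      obtain ⟨x, s, hx, hs1, hqx, hc⟩ := main_step hAD h hT hs h1.1 h1.2
      refine ⟨pr (snoc (fst a) x) s, pr_mem_prod.mpr ⟨mem_sep.mpr ⟨hqx, ?_⟩, hs1⟩, ?_⟩
      · intro y hy hi
        obtain ⟨n, hn, -, h3⟩ := hc y hy
        exact h3 (hi n hn)
      · rw [fst_pr, snd_pr]
        exact hc)
  have hq : ∀ k, k ∈ omega M → fst (ap f k) ∈ fseq (BB M) := fun k hk =>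
    hT _ (mem_sep.mp (fst_mem (hf.ap_mem hk))).1
  obtain ⟨Y, hY, hY1⟩ := chain_play (s := lam (omega M) (fun k => snd (ap f (suc k))))
    (isFun_lam fun k hk => snd_mem (hf.ap_mem (suc_mem_omega hk)))
  have hY2 : ∀ k, k ∈ omega M → ap Y k = repI (snd (ap f (suc k))) (ap Y (suc k)) := by
    intro k hk
    have h1 := hY1 k hk
    rwa [ap_lam' hk] at h1
  -- the comparison of the codes
  have hcmp : ∀ k, k ∈ omega M → ∃ n, n ∈ omega M ∧ NG e g l T (fst (ap f k)) (ap Y k) n ∧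
      ¬ NG e g l T (fst (ap f (suc k))) (ap Y (suc k)) n := by
    intro k hk
    have h1 := hf1 k hk (ap Y (suc k)) (hY.ap_mem (suc_mem_omega hk))
    rwa [← hY2 k hk] at h1
  -- the code `Y (k + 1)` is `n`-good for all `n`
  have key : ∀ n, n ∈ omega M → ∀ k, k ∈ omega M →
      NG e g l T (fst (ap f (suc k))) (ap Y (suc k)) n := by
    refine omega_strong _ fun n hn ih k hk => ?_
    have hk1 := suc_mem_omega hk
    obtain ⟨m, hm, h1, h2⟩ := hcmp (suc k) hk1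
    by_contra hng
    rcases omega_tri hm hn with h3 | h3 | h3
    · exact h2 (ih m h3 (suc k) hk1)
    · subst h3
      exact hng h1
    · exact hng (NG_mono h.inj (hq _ hk1) (hY.ap_mem hk1) hm h1 h3)
  obtain ⟨n, hn, -, h2⟩ := hcmp emp emp_mem_omega
  exact h2 (key n hn emp emp_mem_omega)

end Pool.Agent.Lib.MP_3b60c8_lc
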