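import Pool.Agent.Lib.MP_3b60c8_lc.FinA

/-! ROW lst-FIN2. The final theorem, from `tree_main`: the notions of `Stmt.lean` are translated by
`isOmega_iff`, `isPow_iff`, `isFinSeqs_iff`, `isOmega1_iff`, `dc_of` (`MP_7b07e0_lc/Final.lean`) and
`FinA.lean`; the definability by `proj_of` and `DH_CcH`, `DH_TsH`, `DHT_const`. -/

set_option synthInstance.maxSize 2000

namespace Pool.Agent.Lib.MP_3b60c8_lc

open Pool.Agent.Lib.MP_f5c99b_lc Pool.Agent.Lib.MP_7b07e0_lc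

universe u

section

variable {M : Type u} [Membership M M] [hZF : Fact (IsModelOfZF M)]

/-- the definition of the new tree is a definition over `(HC, ∈)` -/
theorem Fn_DH [hDC : Fact (DC M)] {c e τ s0 : M} (hc : HC c) (he : HC e) (hτ : HC τ)
    (hs0 : HC s0) : DH (fun v : ℕ → M => ∃ s, HC s ∧ CcH e τ s0 s ∧ TsH c s (v 0)) := by
  have : DHT (fun _ : ℕ → M => c) := DHT_const hc
  have : DHT (fun _ : ℕ → M => e) := DHT_const he
  have : DHT (fun _ : ℕ → M => τ) := DHT_const hτ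
  have : DHT (fun _ : ℕ → M => s0) := DHT_const hs0
  infer_instance

theorem Fn_main [hDC : Fact (DC M)] (hAD : ADN M) (g l T : M)
    (hl2 : ∃ ε : M, IsOnto ε (om1 M) l) (hg : IsOnto g (pow (omega M)) l)
    (hT : IsSplittingTree (omega M) (pow (omega M)) (fseq (pow (omega M))) g l T)
    (hne : ∃ q : M, q ∈ T) :
    ∃ T' : M, Incl T' T ∧ (∃ q : M, q ∈ T') ∧
      IsSplittingTree (omega M) (pow (omega M)) (fseq (pow (omega M))) g l T' ∧
      IsProjective (omega M) T' := by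
  obtain ⟨ε, hε, hε'⟩ := hl2
  have hεS : Surj ε (om1 M) l := by
    refine ⟨hε, fun y hy => ?_⟩
    obtain ⟨x, hx⟩ := hε' y hy
    exact ⟨x, (hε.app.mp hx).1, (hε.app.mp hx).2.symm⟩
  have hcl : Cld T := fun q hq p hp hpq => hT.closed q p hq hp hpq
  have hspl : Spl g l T := by
    intro q hq α hα
    obtain ⟨x, q', hx, hext, hq'⟩ := hT.split q α hq hα
    obtain ⟨hxR, rfl⟩ := (isExt_iff (hT.sub q hq)).mp hext
    exact ⟨x, hxR, (hg.1.app.mp hx).2.symm, hq'⟩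
  obtain ⟨T', c, e, τ, s0, hsub, hne', hcl', hspl', hc, he, hτ, hs0, hdef⟩ :=
    tree_main hAD hεS hT.sub hcl hspl hne
  refine ⟨T', hsub, hne', ⟨fun q hq => hT.sub q (hsub q hq),
    fun q p hq hp hpq => hcl' q hq p hp hpq, ?_⟩, ?_⟩
  · intro q α hq hα
    obtain ⟨x, hx, hgx, hq'⟩ := hspl' q hq α hα
    exact ⟨x, snoc q x, hg.1.app.mpr ⟨hx, hgx.symm⟩,
      (isExt_iff (hT.sub q (hsub q hq))).mpr ⟨hx, rfl⟩, hq'⟩
  · obtain ⟨φ, v, hv, hφ⟩ := proj_of (Fn_DH hc he hτ hs0)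
    refine ⟨φ, v, fun i => isHC_iff.mpr (hv i), fun x => ?_⟩
    rw [hdef x, isHC_iff, satHC_iff]
    exact and_congr_right fun hx => hφ x hx

end

/-- the coding theorem for `l`-splitting trees, `l < ω₂` -/
theorem main (M : Type u) [Membership M M] (hZF : IsModelOfZF M) (hDC : DependentChoice M)
    (hAD : AD M) (w R Q o g l T : M) (hw : IsOmega w) (hR : IsPow R w) (hQ : IsFinSeqs w Q R)
    (ho : IsOmega1 w o) (hl : IsOrdinal l) (hl2 : ∃ ε : M, IsOnto ε o l) (hg : IsOnto g R l)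
    (hT : IsSplittingTree w R Q g l T) (hne : ∃ q : M, q ∈ T) :
    ∃ T' : M, Incl T' T ∧ (∃ q : M, q ∈ T') ∧ IsSplittingTree w R Q g l T' ∧
      IsProjective w T' := by
  have : Fact (IsModelOfZF M) := ⟨hZF⟩
  have : Fact (DC M) := ⟨dc_of hDC⟩
  obtain rfl := isOmega_iff.mp hw
  obtain rfl := isPow_iff.mp hR
  obtain rfl := isFinSeqs_iff.mp hQ
  obtain rfl := isOmega1_iff.mp ho
  exact Fn_main (adn_of hAD) g l T hl2 hg hT hne

end Pool.Agent.Lib.MP_3b60c8_lc
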