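import Pool.Agent.Lib.MP_3b60c8_lc.Defs

/-! ROW lst-HC1. Hereditarily countable sets and their closure properties. `x` is hereditarily
countable if it is an element of a countable transitive set; `tcl x` is the smallest transitive set with
the element `x`. -/

set_option synthInstance.maxSize 2000

namespace Pool.Agent.Lib.MP_3b60c8_lc

open Pool.Agent.Lib.MP_f5c99b_lc

universe u

variable {M : Type u} [Membership M M] [hZF : Fact (IsModelOfZF M)]

/-- `x` is hereditarily countable -/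
def HC (x : M) : Prop := ∃ t : M, Tr t ∧ Ctbl t ∧ x ∈ t

instance D_HC (t1 : (ℕ → M) → M) [DT t1] : D (fun v => HC (t1 v)) := by
  refine D1 (P := HC) ?_ t1
  unfold HC
  infer_instance

theorem HC.of_mem {x y : M} (h : HC y) (hx : x ∈ y) : HC x := by
  obtain ⟨t, h1, h2, h3⟩ := h
  exact ⟨t, h1, h2, h1 y h3 x hx⟩

theorem HC.ctbl {x : M} (h : HC x) : Ctbl x := by
  obtain ⟨t, h1, h2, h3⟩ := h
  exact h2.sub (h1 x h3)

/-- a subset of a countable transitive set is hereditarily countable -/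
theorem hc_of_sub {x t : M} (ht : Tr t) (hc : Ctbl t) (hx : Sub x t) : HC x := by
  refine ⟨un t (upair x x), ?_, hc.un (ctbl_upair x x),
    mem_un.mpr (Or.inr (mem_upair.mpr (Or.inl rfl)))⟩
  intro y hy z hz
  rw [mem_un] at hy ⊢
  left
  rcases hy with hy | hy
  · exact ht y hy z hz
  · have e : y = x := by rcases mem_upair.mp hy with h | h <;> exact h
    subst e
    exact hx z hz

/-- subsets are hereditarily countable -/
theorem HC.sub {x y : M} (h : HC y) (hx : Sub x y) : HC x := by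
  obtain ⟨t, h1, h2, h3⟩ := h
  exact hc_of_sub h1 h2 (hx.trans (h1 y h3))

theorem hc_emp : HC (emp : M) :=
  hc_of_sub (t := emp) (fun y hy => (not_mem_emp y hy).elim) ctbl_emp (emp_sub _)

theorem hc_upair {x y : M} (h : HC x) (h' : HC y) : HC (upair x y) := by
  obtain ⟨t, h1, h2, h3⟩ := h
  obtain ⟨t', h1', h2', h3'⟩ := h'
  refine hc_of_sub (t := un t t') ?_ (h2.un h2') ?_
  · intro z hz w hw
    rw [mem_un] at hz ⊢
    rcases hz with hz | hz
    · exact Or.inl (h1 z hz w hw)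
    · exact Or.inr (h1' z hz w hw)
  · intro z hz
    rw [mem_un]
    rcases mem_upair.mp hz with rfl | rfl
    · exact Or.inl h3
    · exact Or.inr h3'

theorem hc_sU {x : M} (h : HC x) : HC (sU x) := by
  obtain ⟨t, h1, h2, h3⟩ := h
  refine hc_of_sub h1 h2 ?_
  intro z hz
  obtain ⟨y, hy, hzy⟩ := mem_sU.mp hz
  exact h1 y (h1 x h3 y hy) z hzy

theorem hc_un {x y : M} (h : HC x) (h' : HC y) : HC (un x y) := hc_sU (hc_upair h h')

theorem hc_pr {x y : M} (h : HC x) (h' : HC y) : HC (pr x y) := hc_upair (hc_upair h h) (hc_upair h h')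

theorem hc_of_pr {x y : M} (h : HC (pr x y : M)) : HC x ∧ HC y := by
  have h1 : HC (upair x y : M) := h.of_mem (mem_upair.mpr (Or.inr rfl))
  exact ⟨h1.of_mem (mem_upair.mpr (Or.inl rfl)), h1.of_mem (mem_upair.mpr (Or.inr rfl))⟩

theorem hc_suc {x : M} (h : HC x) : HC (suc x) := hc_un h (hc_upair h h)

theorem hc_omega : HC (omega M) := hc_of_sub ord_omega.1 ctbl_omega (Sub.refl _)

/-- countable ordinals -/
theorem hc_om1 {x : M} (h : x ∈ om1 M) : HC x :=
  hc_of_sub (mem_om1.mp h).1.1 (mem_om1.mp h).2 (Sub.refl _)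

/-- an ordinal is hereditarily countable iff it is countable -/
theorem hc_ord_iff {x : M} (h : Ord x) : HC x ↔ x ∈ om1 M :=
  ⟨fun h' => mem_om1.mpr ⟨h, h'.ctbl⟩, hc_om1⟩

/-- the smallest transitive set with the element `x` -/
noncomputable def tcl (x : M) : M := coll (fun y : M => ∀ t : M, Tr t → x ∈ t → y ∈ t)

instance DT_tcl (t1 : (ℕ → M) → M) [DT t1] : DT (fun v => tcl (t1 v)) := by
  refine DT1 (f := tcl) ?_ t1
  unfold tcl
  infer_instance

theorem mem_tcl {x y : M} (h : HC x) : y ∈ tcl x ↔ ∀ t : M, Tr t → x ∈ t → y ∈ t := by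
  obtain ⟨t, h1, h2, h3⟩ := h
  exact mem_coll_of (P := fun y : M => ∀ t : M, Tr t → x ∈ t → y ∈ t) (a := t)
    fun y hy => hy t h1 h3

theorem tr_tcl {x : M} (h : HC x) : Tr (tcl x) := by
  intro y hy z hz
  rw [mem_tcl h] at hy ⊢
  exact fun t ht hx => ht y (hy t ht hx) z hz

theorem mem_tcl_self {x : M} (h : HC x) : x ∈ tcl x := (mem_tcl h).mpr fun _ _ hx => hx

theorem ctbl_tcl {x : M} (h : HC x) : Ctbl (tcl x) := by
  obtain ⟨t, h1, h2, h3⟩ := id h
  exact h2.sub fun y hy => (mem_tcl h).mp hy t h1 h3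

/-- a countable set of hereditarily countable sets is hereditarily countable
(`⋃ {tcl x | x ∈ a} ∪ {a}`) -/
theorem hc_of_ctbl (hDC : DC M) {a : M} (ha : Ctbl a) (h : ∀ x, x ∈ a → HC x) : HC a := by
  refine hc_of_sub (t := sU (img a (fun x => tcl x))) ?_ ?_ ?_
  · intro y hy z hz
    obtain ⟨w, hw, hyw⟩ := mem_sU.mp hy
    obtain ⟨x, hx, rfl⟩ := mem_img.mp hw
    exact mem_sU.mpr ⟨tcl x, mem_img.mpr ⟨x, hx, rfl⟩, tr_tcl (h x hx) y hyw z hz⟩
  · refine (ha.img (fun x => tcl x)).sU hDC ?_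
    intro w hw
    obtain ⟨x, hx, rfl⟩ := mem_img.mp hw
    exact ctbl_tcl (h x hx)
  · intro x hx
    exact mem_sU.mpr ⟨tcl x, mem_img.mpr ⟨x, hx, rfl⟩, mem_tcl_self (h x hx)⟩

theorem hc_prod (hDC : DC M) {x y : M} (h : HC x) (h' : HC y) : HC (prod x y) := by
  refine hc_of_ctbl hDC (h.ctbl.prod h'.ctbl) ?_
  intro p hp
  obtain ⟨a, ha, b, hb, rfl⟩ := mem_prod.mp hp
  exact hc_pr (h.of_mem ha) (h'.of_mem hb)

theorem hc_img (hDC : DC M) {x : M} (h : HC x) (t : M → M) [DT (fun v => t (v 0))]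
    (ht : ∀ y, y ∈ x → HC (t y)) : HC (img x t) := by
  refine hc_of_ctbl hDC (h.ctbl.img t) ?_
  intro y hy
  obtain ⟨z, hz, rfl⟩ := mem_img.mp hy
  exact ht z hz

theorem hc_lam (hDC : DC M) {x : M} (h : HC x) (t : M → M) [DT (fun v => t (v 0))]
    (ht : ∀ y, y ∈ x → HC (t y)) : HC (lam x t) := by
  have e : lam x t = img x (fun y => pr y (t y)) := by
    refine ext fun p => ?_
    rw [mem_lam', mem_img]
  rw [e]
  exact hc_img hDC h (fun y => pr y (t y)) fun y hy => hc_pr (h.of_mem hy) (ht y hy)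

/-- a function on a hereditarily countable set with hereditarily countable values -/
theorem hc_of_fun (hDC : DC M) {f a b : M} (h : HC a) (hf : IsFun f a b)
    (ht : ∀ y, y ∈ a → HC (ap f y)) : HC f := by
  rw [hf.eq_lam]
  exact hc_lam hDC h (fun y => ap f y) ht

theorem hc_fseq (hDC : DC M) {x : M} (h : HC x) : HC (fseq x) := by
  refine hc_of_ctbl hDC h.ctbl.fseq ?_
  intro s hs
  obtain ⟨n, hn, hs⟩ := mem_fseq.mp hs
  exact hc_of_fun hDC (hc_om1 (omega_sub_om1 n hn)) hs fun i hi => h.of_mem (hs.ap_mem hi)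

theorem hc_ap {f a b x : M} (h : HC f) (hf : IsFun f a b) (hx : x ∈ a) : HC (ap f x) :=
  (hc_of_pr (h.of_mem (hf.mem_iff.mpr ⟨x, hx, rfl⟩))).2

end Pool.Agent.Lib.MP_3b60c8_lc
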