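import Pool.Agent.Lib.MP_3b60c8_lc.HCa

/-! ROW lst-HC2. Definability over the structure `(HC, ∈)` with parameters. The calculus is the
same as that of `D`, `DT` in `MP_f5c99b_lc/Core.lean` and `MP_7b07e0_lc/Dn.lean`; all valuations have
hereditarily countable values. -/

set_option synthInstance.maxSize 2000

namespace Pool.Agent.Lib.MP_3b60c8_lc

open Pool.Agent.Lib.MP_f5c99b_lc

universe u

variable {M : Type u} [Membership M M] [hZF : Fact (IsModelOfZF M)]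

/-- truth in the structure `(HC, ∈)` -/
def SatH : Fml → (ℕ → M) → Prop
  | .mem i j, v => v i ∈ v j
  | .eq i j, v => v i = v j
  | .neg φ, v => ¬ SatH φ v
  | .conj φ ψ, v => SatH φ v ∧ SatH ψ v
  | .all φ, v => ∀ x : M, HC x → SatH φ (push x v)

theorem satH_ren (φ : Fml) : ∀ (ρ : ℕ → ℕ) (v : ℕ → M),
    SatH (ren ρ φ) v ↔ SatH φ (fun i => v (ρ i)) := by
  induction φ with
  | mem i j => intro ρ v; rfl
  | eq i j => intro ρ v; rfl
  | neg φ ih => intro ρ v; exact not_congr (ih ρ v)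
  | conj φ ψ ih ih' => intro ρ v; exact and_congr (ih ρ v) (ih' ρ v)
  | all φ ih =>
    intro ρ v
    refine forall_congr' fun x => imp_congr Iff.rfl ?_
    have h := ih (up ρ) (push x v)
    rwa [push_up] at h

/-- value of a variable or a hereditarily countable parameter -/
def vpH (v : ℕ → M) (k : ℕ ⊕ {c : M // HC c}) : M := Sum.elim v Subtype.val k

theorem hcb_vpH {v : ℕ → M} (hv : ∀ i, HC (v i)) (k : ℕ ⊕ {c : M // HC c}) : HC (vpH v k) := by
  rcases k with j | c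
  · exact hv j
  · exact c.2

theorem hcb_push {x : M} (hx : HC x) {v : ℕ → M} (hv : ∀ i, HC (v i)) (i : ℕ) :
    HC (push x v i) := by
  cases i with
  | zero => exact hx
  | succ n => exact hv n

theorem hcb_getD {l : List M} {d : M} (hl : ∀ x ∈ l, HC x) (hd : HC d) (i : ℕ) :
    HC (l.getD i d) := by
  by_cases h : i < l.length
  · rw [List.getD_eq_getElem l d h]
    exact hl _ (List.getElem_mem h)
  · rw [List.getD_eq_default l d (not_lt.1 h)]
    exact hd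

/-- `P` is first-order definable over `(HC, ∈)` with parameters -/
class DH (P : (ℕ → M) → Prop) : Prop where
  out : ∃ (φ : Fml) (k : ℕ → ℕ ⊕ {c : M // HC c}), ∀ v, (∀ i, HC (v i)) →
    (P v ↔ SatH φ (fun i => vpH v (k i)))

/-- `t` is a term which is definable over `(HC, ∈)` with parameters -/
class DHT (t : (ℕ → M) → M) : Prop where
  hc : ∀ v, (∀ i, HC (v i)) → HC (t v)
  out : DH (fun v => v 0 = t (fun i => v (i + 1)))

theorem DH.congr {P Q : (ℕ → M) → Prop} (h : DH P)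
    (e : ∀ v, (∀ i, HC (v i)) → (Q v ↔ P v)) : DH Q := by
  obtain ⟨φ, k, h⟩ := h.out
  exact ⟨φ, k, fun v hv => (e v hv).trans (h v hv)⟩

/-- substitution of variables and parameters for variables -/
theorem DH.subs {P : (ℕ → M) → Prop} (h : DH P) (s : ℕ → ℕ ⊕ {c : M // HC c}) :
    DH (fun v => P (fun i => vpH v (s i))) := by
  obtain ⟨φ, k, h⟩ := h.out
  refine ⟨φ, fun i => Sum.elim s Sum.inr (k i), fun v hv => (h _ (fun i => hcb_vpH hv (s i))).trans ?_⟩
  have : (fun i => vpH (fun i => vpH v (s i)) (k i)) = fun i => vpH v (Sum.elim s Sum.inr (k i)) := by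
    funext i
    rcases k i with j | c <;> rfl
  rw [this]

theorem DH.perm {P : (ℕ → M) → Prop} (h : DH P) (ρ : ℕ → ℕ) :
    DH (fun v => P (fun i => v (ρ i))) :=
  h.subs (fun i => Sum.inl (ρ i))

instance DH_mem_var (i j : ℕ) : DH (fun v : ℕ → M => v i ∈ v j) :=
  ⟨.mem i j, Sum.inl, fun _ _ => Iff.rfl⟩

instance DH_eq_var (i j : ℕ) : DH (fun v : ℕ → M => v i = v j) :=
  ⟨.eq i j, Sum.inl, fun _ _ => Iff.rfl⟩

instance DH_not {P : (ℕ → M) → Prop} [h : DH P] : DH (fun v => ¬ P v) := by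
  obtain ⟨φ, k, h⟩ := h.out
  exact ⟨.neg φ, k, fun v hv => not_congr (h v hv)⟩

instance DH_and {P Q : (ℕ → M) → Prop} [h : DH P] [h' : DH Q] : DH (fun v => P v ∧ Q v) := by
  obtain ⟨φ, k, h⟩ := h.out
  obtain ⟨ψ, l, h'⟩ := h'.out
  refine ⟨.conj (ren (fun i => 2 * i) φ) (ren (fun i => 2 * i + 1) ψ),
    fun i => if i % 2 = 0 then k (i / 2) else l (i / 2), fun v hv => and_congr ?_ ?_⟩
  · rw [h v hv, satH_ren]
    have : ∀ i, (2 * i) % 2 = 0 := by intro i; omega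
    have h2 : ∀ i, (2 * i) / 2 = i := by intro i; omega
    simp only [this, h2, if_true]
  · rw [h' v hv, satH_ren]
    have : ∀ i, (2 * i + 1) % 2 = 1 := by intro i; omega
    have h2 : ∀ i, (2 * i + 1) / 2 = i := by intro i; omega
    simp only [this, h2, one_ne_zero, if_false]

instance DH_all {P : (ℕ → M) → M → Prop} [h : DH (fun v => P (fun i => v (i + 1)) (v 0))] :
    DH (fun v => ∀ x, HC x → P v x) := by
  obtain ⟨φ, k, h⟩ := h.out
  refine ⟨.all (ren (fun i => Sum.elim (fun j => if j = 0 then 0 else i + 1) (fun _ => i + 1) (k i)) φ),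
    fun i => Sum.elim (fun j => Sum.inl (j - 1)) Sum.inr (k i), fun v hv => ?_⟩
  refine forall_congr' fun x => forall_congr' fun hx => ?_
  have h1 : P v x ↔ _ := h (push x v) (hcb_push hx hv)
  rw [h1, satH_ren]
  have : (fun i => vpH (push x v) (k i)) = fun i => push x (fun i => vpH v (Sum.elim (fun j => Sum.inl (j - 1)) Sum.inr (k i)))
      (Sum.elim (fun j => if j = 0 then 0 else i + 1) (fun _ => i + 1) (k i)) := by
    funext i
    rcases hk : k i with j | c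
    · rcases j with _ | j
      · rfl
      · simp [vpH, push, hk]
    · simp [vpH, push, hk]
  rw [this]

instance DH_const (p : Prop) : DH (fun _ : ℕ → M => p) := by
  by_cases hp : p
  · exact ⟨.eq 0 0, Sum.inl, fun v _ => iff_of_true hp rfl⟩
  · exact ⟨.neg (.eq 0 0), Sum.inl, fun v _ => iff_of_false hp (fun h => h rfl)⟩

instance DH_or {P Q : (ℕ → M) → Prop} [h : DH P] [h' : DH Q] : DH (fun v => P v ∨ Q v) :=
  (inferInstance : DH (fun v => ¬ (¬ P v ∧ ¬ Q v))).congr fun v _ => by tauto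

instance DH_imp {P Q : (ℕ → M) → Prop} [h : DH P] [h' : DH Q] : DH (fun v => P v → Q v) :=
  (inferInstance : DH (fun v => ¬ (P v ∧ ¬ Q v))).congr fun v _ => by tauto

instance DH_iff {P Q : (ℕ → M) → Prop} [h : DH P] [h' : DH Q] : DH (fun v => P v ↔ Q v) :=
  (inferInstance : DH (fun v => (P v → Q v) ∧ (Q v → P v))).congr fun v _ => by tauto

instance DH_ex {P : (ℕ → M) → M → Prop} [h : DH (fun v => P (fun i => v (i + 1)) (v 0))] :
    DH (fun v => ∃ x, HC x ∧ P v x) := by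
  have : DH (fun v : ℕ → M => ∀ x, HC x → ¬ P v x) := inferInstance
  exact (inferInstance : DH (fun v => ¬ ∀ x, HC x → ¬ P v x)).congr fun v _ => by
    push Not
    rfl

theorem DHT.hcb_var2 {s : (ℕ → M) → M} (h : DHT s) (a k : ℕ) :
    DH (fun v => v a = s (fun i => v (i + k))) := by
  have := h.out.subs (fun n => Nat.casesOn n (Sum.inl a) (fun i => Sum.inl (i + k)))
  exact this

instance DHT_var (i : ℕ) : DHT (fun v : ℕ → M => v i) := ⟨fun _ h => h i, DH_eq_var 0 (i + 1)⟩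

theorem DHT_const {c : M} (hc : HC c) : DHT (fun _ : ℕ → M => c) :=
  ⟨fun _ _ => hc, (DH_eq_var 0 1).subs (fun n => if n = 0 then Sum.inl 0 else Sum.inr ⟨c, hc⟩)⟩

theorem DHT.shift {t : (ℕ → M) → M} (h : DHT t) (k : ℕ) : DHT (fun v => t (fun i => v (i + k))) := by
  have := h.out.subs (fun n => Nat.casesOn n (Sum.inl 0) (fun i => Sum.inl (i + (k + 1))))
  exact ⟨fun v hv => h.hc _ (fun i => hv (i + k)), this⟩

theorem DHT.perm {t : (ℕ → M) → M} (h : DHT t) (ρ : ℕ → ℕ) :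
    DHT (fun v => t (fun i => v (ρ i))) := by
  have := h.out.subs (fun n => Nat.casesOn n (Sum.inl 0) (fun i => Sum.inl (ρ i + 1)))
  exact ⟨fun v hv => h.hc _ (fun i => hv (ρ i)), this⟩

theorem DH.subst {Q : (ℕ → M) → M → Prop} (h : DH (fun v => Q (fun i => v (i + 1)) (v 0)))
    {t : (ℕ → M) → M} (ht : DHT t) : DH (fun v => Q v (t v)) := by
  have h1 := ht.hcb_var2 0 1
  have : DH (fun v : ℕ → M => ∃ x, HC x ∧ (x = t v ∧ Q v x)) := inferInstance
  exact this.congr fun v hv =>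
    ⟨fun hQ => ⟨t v, ht.hc v hv, rfl, hQ⟩, fun ⟨_, _, hx, hQ⟩ => hx ▸ hQ⟩

/-- definable functions -/
theorem DHT_of {t : (ℕ → M) → M} {P : (ℕ → M) → M → Prop}
    (h : DH (fun v => P (fun i => v (i + 1)) (v 0))) (hc : ∀ v, (∀ i, HC (v i)) → HC (t v))
    (e : ∀ v x, (∀ i, HC (v i)) → HC x → (x = t v ↔ P v x)) : DHT t :=
  ⟨hc, h.congr fun v hv => e _ _ (fun i => hv (i + 1)) (hv 0)⟩


theorem DH1 {P : M → Prop}
    (h : DH (fun v => P (v 0)))
    (t1 : (ℕ → M) → M) [h1 : DHT t1] :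
    DH (fun v => P (t1 v)) := by
  exact DH.subst (Q := fun _ x => P x) h h1


theorem DH2 {P : M → M → Prop}
    (h : DH (fun v => P (v 0) (v 1)))
    (t1 t2 : (ℕ → M) → M) [h1 : DHT t1] [h2 : DHT t2] :
    DH (fun v => P (t1 v) (t2 v)) := by
  have k0 : DH (fun v => P (v 1) (v 0)) := h.perm (fun i => 1 - i)
  have k1 : DH (fun v => P (v 0) (t2 (fun i => v (i + 1)))) :=
    DH.subst (Q := fun v x => P (v 0) x ) k0 (h2.shift 1)
  exact DH.subst (Q := fun v x => P x (t2 v)) k1 h1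


theorem DH3 {P : M → M → M → Prop}
    (h : DH (fun v => P (v 0) (v 1) (v 2)))
    (t1 t2 t3 : (ℕ → M) → M) [h1 : DHT t1] [h2 : DHT t2] [h3 : DHT t3] :
    DH (fun v => P (t1 v) (t2 v) (t3 v)) := by
  have k0 : DH (fun v => P (v 2) (v 1) (v 0)) := h.perm (fun i => 2 - i)
  have k1 : DH (fun v => P (v 1) (v 0) (t3 (fun i => v (i + 2)))) :=
    DH.subst (Q := fun v x => P (v 1) (v 0) x ) k0 (h3.shift 2)
  have k2 : DH (fun v => P (v 0) (t2 (fun i => v (i + 1))) (t3 (fun i => v (i + 1)))) :=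
    DH.subst (Q := fun v x => P (v 0) x (t3 (fun i => v (i + 1)))) k1 (h2.shift 1)
  exact DH.subst (Q := fun v x => P x (t2 v) (t3 v)) k2 h1


theorem DH4 {P : M → M → M → M → Prop}
    (h : DH (fun v => P (v 0) (v 1) (v 2) (v 3)))
    (t1 t2 t3 t4 : (ℕ → M) → M) [h1 : DHT t1] [h2 : DHT t2] [h3 : DHT t3] [h4 : DHT t4] :
    DH (fun v => P (t1 v) (t2 v) (t3 v) (t4 v)) := by
  have k0 : DH (fun v => P (v 3) (v 2) (v 1) (v 0)) := h.perm (fun i => 3 - i)
  have k1 : DH (fun v => P (v 2) (v 1) (v 0) (t4 (fun i => v (i + 3)))) :=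
    DH.subst (Q := fun v x => P (v 2) (v 1) (v 0) x ) k0 (h4.shift 3)
  have k2 : DH (fun v => P (v 1) (v 0) (t3 (fun i => v (i + 2))) (t4 (fun i => v (i + 2)))) :=
    DH.subst (Q := fun v x => P (v 1) (v 0) x (t4 (fun i => v (i + 2)))) k1 (h3.shift 2)
  have k3 : DH (fun v => P (v 0) (t2 (fun i => v (i + 1))) (t3 (fun i => v (i + 1))) (t4 (fun i => v (i + 1)))) :=
    DH.subst (Q := fun v x => P (v 0) x (t3 (fun i => v (i + 1))) (t4 (fun i => v (i + 1)))) k2 (h2.shift 1)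
  exact DH.subst (Q := fun v x => P x (t2 v) (t3 v) (t4 v)) k3 h1


theorem DH5 {P : M → M → M → M → M → Prop}
    (h : DH (fun v => P (v 0) (v 1) (v 2) (v 3) (v 4)))
    (t1 t2 t3 t4 t5 : (ℕ → M) → M) [h1 : DHT t1] [h2 : DHT t2] [h3 : DHT t3] [h4 : DHT t4] [h5 : DHT t5] :
    DH (fun v => P (t1 v) (t2 v) (t3 v) (t4 v) (t5 v)) := by
  have k0 : DH (fun v => P (v 4) (v 3) (v 2) (v 1) (v 0)) := h.perm (fun i => 4 - i)
  have k1 : DH (fun v => P (v 3) (v 2) (v 1) (v 0) (t5 (fun i => v (i + 4)))) :=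
    DH.subst (Q := fun v x => P (v 3) (v 2) (v 1) (v 0) x ) k0 (h5.shift 4)
  have k2 : DH (fun v => P (v 2) (v 1) (v 0) (t4 (fun i => v (i + 3))) (t5 (fun i => v (i + 3)))) :=
    DH.subst (Q := fun v x => P (v 2) (v 1) (v 0) x (t5 (fun i => v (i + 3)))) k1 (h4.shift 3)
  have k3 : DH (fun v => P (v 1) (v 0) (t3 (fun i => v (i + 2))) (t4 (fun i => v (i + 2))) (t5 (fun i => v (i + 2)))) :=
    DH.subst (Q := fun v x => P (v 1) (v 0) x (t4 (fun i => v (i + 2))) (t5 (fun i => v (i + 2)))) k2 (h3.shift 2)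
  have k4 : DH (fun v => P (v 0) (t2 (fun i => v (i + 1))) (t3 (fun i => v (i + 1))) (t4 (fun i => v (i + 1))) (t5 (fun i => v (i + 1)))) :=
    DH.subst (Q := fun v x => P (v 0) x (t3 (fun i => v (i + 1))) (t4 (fun i => v (i + 1))) (t5 (fun i => v (i + 1)))) k3 (h2.shift 1)
  exact DH.subst (Q := fun v x => P x (t2 v) (t3 v) (t4 v) (t5 v)) k4 h1


theorem DH6 {P : M → M → M → M → M → M → Prop}
    (h : DH (fun v => P (v 0) (v 1) (v 2) (v 3) (v 4) (v 5)))
    (t1 t2 t3 t4 t5 t6 : (ℕ → M) → M) [h1 : DHT t1] [h2 : DHT t2] [h3 : DHT t3] [h4 : DHT t4] [h5 : DHT t5] [h6 : DHT t6] :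
    DH (fun v => P (t1 v) (t2 v) (t3 v) (t4 v) (t5 v) (t6 v)) := by
  have k0 : DH (fun v => P (v 5) (v 4) (v 3) (v 2) (v 1) (v 0)) := h.perm (fun i => 5 - i)
  have k1 : DH (fun v => P (v 4) (v 3) (v 2) (v 1) (v 0) (t6 (fun i => v (i + 5)))) :=
    DH.subst (Q := fun v x => P (v 4) (v 3) (v 2) (v 1) (v 0) x ) k0 (h6.shift 5)
  have k2 : DH (fun v => P (v 3) (v 2) (v 1) (v 0) (t5 (fun i => v (i + 4))) (t6 (fun i => v (i + 4)))) :=
    DH.subst (Q := fun v x => P (v 3) (v 2) (v 1) (v 0) x (t6 (fun i => v (i + 4)))) k1 (h5.shift 4)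
  have k3 : DH (fun v => P (v 2) (v 1) (v 0) (t4 (fun i => v (i + 3))) (t5 (fun i => v (i + 3))) (t6 (fun i => v (i + 3)))) :=
    DH.subst (Q := fun v x => P (v 2) (v 1) (v 0) x (t5 (fun i => v (i + 3))) (t6 (fun i => v (i + 3)))) k2 (h4.shift 3)
  have k4 : DH (fun v => P (v 1) (v 0) (t3 (fun i => v (i + 2))) (t4 (fun i => v (i + 2))) (t5 (fun i => v (i + 2))) (t6 (fun i => v (i + 2)))) :=
    DH.subst (Q := fun v x => P (v 1) (v 0) x (t4 (fun i => v (i + 2))) (t5 (fun i => v (i + 2))) (t6 (fun i => v (i + 2)))) k3 (h3.shift 2)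
  have k5 : DH (fun v => P (v 0) (t2 (fun i => v (i + 1))) (t3 (fun i => v (i + 1))) (t4 (fun i => v (i + 1))) (t5 (fun i => v (i + 1))) (t6 (fun i => v (i + 1)))) :=
    DH.subst (Q := fun v x => P (v 0) x (t3 (fun i => v (i + 1))) (t4 (fun i => v (i + 1))) (t5 (fun i => v (i + 1))) (t6 (fun i => v (i + 1)))) k4 (h2.shift 1)
  exact DH.subst (Q := fun v x => P x (t2 v) (t3 v) (t4 v) (t5 v) (t6 v)) k5 h1


theorem DHT1 {f : M → M}
    (h : DHT (fun v => f (v 0)))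
    (t1 : (ℕ → M) → M) [h1 : DHT t1] :
    DHT (fun v => f (t1 v)) := by
  have k0 : DH (fun v : ℕ → M => v 0 = f (v 1)) := h.out
  refine ⟨fun v hv => ?_, DH2 (P := fun x y1 => x = f y1) k0 (fun v => v 0)
    (fun v => t1 (fun i => v (i + 1)))
    (h2 := h1.shift 1)⟩
  exact h.hc (fun i => [t1 v].getD i (t1 v)) (hcb_getD (by
    simp only [List.mem_cons, List.not_mem_nil, or_false, forall_eq_or_imp, forall_eq]
    exact h1.hc v hv) (h1.hc v hv))


theorem DHT2 {f : M → M → M}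
    (h : DHT (fun v => f (v 0) (v 1)))
    (t1 t2 : (ℕ → M) → M) [h1 : DHT t1] [h2 : DHT t2] :
    DHT (fun v => f (t1 v) (t2 v)) := by
  have k0 : DH (fun v : ℕ → M => v 0 = f (v 1) (v 2)) := h.out
  refine ⟨fun v hv => ?_, DH3 (P := fun x y1 y2 => x = f y1 y2) k0 (fun v => v 0)
    (fun v => t1 (fun i => v (i + 1))) (fun v => t2 (fun i => v (i + 1)))
    (h2 := h1.shift 1) (h3 := h2.shift 1)⟩
  exact h.hc (fun i => [t1 v, t2 v].getD i (t1 v)) (hcb_getD (by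
    simp only [List.mem_cons, List.not_mem_nil, or_false, forall_eq_or_imp, forall_eq]
    exact ⟨h1.hc v hv, h2.hc v hv⟩) (h1.hc v hv))


theorem DHT3 {f : M → M → M → M}
    (h : DHT (fun v => f (v 0) (v 1) (v 2)))
    (t1 t2 t3 : (ℕ → M) → M) [h1 : DHT t1] [h2 : DHT t2] [h3 : DHT t3] :
    DHT (fun v => f (t1 v) (t2 v) (t3 v)) := by
  have k0 : DH (fun v : ℕ → M => v 0 = f (v 1) (v 2) (v 3)) := h.out
  refine ⟨fun v hv => ?_, DH4 (P := fun x y1 y2 y3 => x = f y1 y2 y3) k0 (fun v => v 0)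
    (fun v => t1 (fun i => v (i + 1))) (fun v => t2 (fun i => v (i + 1))) (fun v => t3 (fun i => v (i + 1)))
    (h2 := h1.shift 1) (h3 := h2.shift 1) (h4 := h3.shift 1)⟩
  exact h.hc (fun i => [t1 v, t2 v, t3 v].getD i (t1 v)) (hcb_getD (by
    simp only [List.mem_cons, List.not_mem_nil, or_false, forall_eq_or_imp, forall_eq]
    exact ⟨h1.hc v hv, h2.hc v hv, h3.hc v hv⟩) (h1.hc v hv))


theorem DHT4 {f : M → M → M → M → M}
    (h : DHT (fun v => f (v 0) (v 1) (v 2) (v 3)))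
    (t1 t2 t3 t4 : (ℕ → M) → M) [h1 : DHT t1] [h2 : DHT t2] [h3 : DHT t3] [h4 : DHT t4] :
    DHT (fun v => f (t1 v) (t2 v) (t3 v) (t4 v)) := by
  have k0 : DH (fun v : ℕ → M => v 0 = f (v 1) (v 2) (v 3) (v 4)) := h.out
  refine ⟨fun v hv => ?_, DH5 (P := fun x y1 y2 y3 y4 => x = f y1 y2 y3 y4) k0 (fun v => v 0)
    (fun v => t1 (fun i => v (i + 1))) (fun v => t2 (fun i => v (i + 1))) (fun v => t3 (fun i => v (i + 1))) (fun v => t4 (fun i => v (i + 1)))
    (h2 := h1.shift 1) (h3 := h2.shift 1) (h4 := h3.shift 1) (h5 := h4.shift 1)⟩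
  exact h.hc (fun i => [t1 v, t2 v, t3 v, t4 v].getD i (t1 v)) (hcb_getD (by
    simp only [List.mem_cons, List.not_mem_nil, or_false, forall_eq_or_imp, forall_eq]
    exact ⟨h1.hc v hv, h2.hc v hv, h3.hc v hv, h4.hc v hv⟩) (h1.hc v hv))


theorem DHT5 {f : M → M → M → M → M → M}
    (h : DHT (fun v => f (v 0) (v 1) (v 2) (v 3) (v 4)))
    (t1 t2 t3 t4 t5 : (ℕ → M) → M) [h1 : DHT t1] [h2 : DHT t2] [h3 : DHT t3] [h4 : DHT t4] [h5 : DHT t5] :
    DHT (fun v => f (t1 v) (t2 v) (t3 v) (t4 v) (t5 v)) := by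
  have k0 : DH (fun v : ℕ → M => v 0 = f (v 1) (v 2) (v 3) (v 4) (v 5)) := h.out
  refine ⟨fun v hv => ?_, DH6 (P := fun x y1 y2 y3 y4 y5 => x = f y1 y2 y3 y4 y5) k0 (fun v => v 0)
    (fun v => t1 (fun i => v (i + 1))) (fun v => t2 (fun i => v (i + 1))) (fun v => t3 (fun i => v (i + 1))) (fun v => t4 (fun i => v (i + 1))) (fun v => t5 (fun i => v (i + 1)))
    (h2 := h1.shift 1) (h3 := h2.shift 1) (h4 := h3.shift 1) (h5 := h4.shift 1) (h6 := h5.shift 1)⟩
  exact h.hc (fun i => [t1 v, t2 v, t3 v, t4 v, t5 v].getD i (t1 v)) (hcb_getD (by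
    simp only [List.mem_cons, List.not_mem_nil, or_false, forall_eq_or_imp, forall_eq]
    exact ⟨h1.hc v hv, h2.hc v hv, h3.hc v hv, h4.hc v hv, h5.hc v hv⟩) (h1.hc v hv))


instance DH_mem (s t : (ℕ → M) → M) [DHT s] [DHT t] : DH (fun v => s v ∈ t v) :=
  DH2 (P := fun x y => x ∈ y) inferInstance s t

instance DH_eq (s t : (ℕ → M) → M) [DHT s] [DHT t] : DH (fun v => s v = t v) :=
  DH2 (P := fun x y => x = y) inferInstance s t

/-- bounded quantifiers -/
instance DH_bex {t : (ℕ → M) → M} {P : (ℕ → M) → M → Prop} [ht : DHT t]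
    [h : DH (fun v => P (fun i => v (i + 1)) (v 0))] : DH (fun v => ∃ x, x ∈ t v ∧ P v x) := by
  have h1 : DHT (fun v => t (fun i => v (i + 1))) := ht.shift 1
  have h2 : DH (fun v : ℕ → M => ∃ x, HC x ∧ (x ∈ t v ∧ P v x)) := inferInstance
  exact h2.congr fun v hv =>
    ⟨fun ⟨x, hx, hp⟩ => ⟨x, (ht.hc v hv).of_mem hx, hx, hp⟩, fun ⟨x, _, hx, hp⟩ => ⟨x, hx, hp⟩⟩

instance DH_ball {t : (ℕ → M) → M} {P : (ℕ → M) → M → Prop} [ht : DHT t]
    [h : DH (fun v => P (fun i => v (i + 1)) (v 0))] : DH (fun v => ∀ x, x ∈ t v → P v x) := by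
  have h1 : DHT (fun v => t (fun i => v (i + 1))) := ht.shift 1
  have h2 : DH (fun v : ℕ → M => ∀ x, HC x → (x ∈ t v → P v x)) := inferInstance
  exact h2.congr fun v hv =>
    ⟨fun H x _ hx => H x hx, fun H x hx => H x ((ht.hc v hv).of_mem hx) hx⟩

end Pool.Agent.Lib.MP_3b60c8_lc
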