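import Pool.Agent.Lib.MP_3b60c8_lc.HCb

/-! ROW lst-HC3. Terms which are definable over `(HC, ∈)`. Method: `DHT_of` with the obvious
characterization of `x = t v` for `x ∈ HC` (all elements of hereditarily countable sets are
hereditarily countable), `hc` by the closure properties of `HC` in `HCa.lean`. Substitution of terms by
`DHT1`, `DHT2` …, `DH1`, `DH2` …. -/

set_option synthInstance.maxSize 2000

namespace Pool.Agent.Lib.MP_3b60c8_lc

open Pool.Agent.Lib.MP_f5c99b_lc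

universe u

variable {M : Type u} [Membership M M] [hZF : Fact (IsModelOfZF M)]

/-- hereditarily countable sets with the same hereditarily countable elements are equal -/
theorem C3_ext {a b : M} (ha : HC a) (hb : HC b) (h : ∀ x, HC x → (x ∈ a ↔ x ∈ b)) : a = b :=
  ext fun x => ⟨fun hx => (h x (ha.of_mem hx)).mp hx, fun hx => (h x (hb.of_mem hx)).mpr hx⟩

theorem C3_push {x : M} {v : ℕ → M} (hx : HC x) (hv : ∀ i, HC (v i)) : ∀ i, HC (push x v i)
  | 0 => hx
  | i + 1 => hv i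

theorem C3_of_mem {t : (ℕ → M) → M} {P : (ℕ → M) → M → Prop}
    (h : DH (fun v => P (fun i => v (i + 1)) (v 0))) (hc : ∀ v, (∀ i, HC (v i)) → HC (t v))
    (e : ∀ v x, (∀ i, HC (v i)) → HC x → (x ∈ t v ↔ P v x)) : DHT t := by
  refine DHT_of (P := fun v y => ∀ x, HC x → (x ∈ y ↔ P v x)) ?_ hc ?_
  · have h2 : DH (fun v => P (fun i => v (i + 2)) (v 0)) :=
      h.perm (fun i => if i = 0 then 0 else i + 1)
    infer_instance
  · intro v y hv hy
    constructor
    · intro h1 x hx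
      rw [h1]
      exact e v x hv hx
    · intro h1
      exact C3_ext hy (hc v hv) fun x hx => (h1 x hx).trans (e v x hv hx).symm

omit hZF in
theorem C3_fix {t : (ℕ → M) → M → M} (h : DT (fun v => t (fun i => v (i + 1)) (v 0)))
    (v : ℕ → M) : DT (fun w : ℕ → M => t v (w 0)) := by
  have h1 := h.out.sub (fun n => Nat.casesOn n (Sum.inl 0)
    (fun i => Nat.casesOn i (Sum.inl 1) (fun j => Sum.inr (v j))))
  exact ⟨h1⟩

instance DHT_emp : DHT (fun _ : ℕ → M => (emp : M)) := DHT_const hc_emp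

instance DHT_omega : DHT (fun _ : ℕ → M => omega M) := DHT_const hc_omega

instance DHT_upair (s t : (ℕ → M) → M) [DHT s] [DHT t] : DHT (fun v => upair (s v) (t v)) := by
  refine DHT2 (f := upair) ?_ s t
  refine C3_of_mem (P := fun v x => x = v 0 ∨ x = v 1) inferInstance
    (fun v hv => hc_upair (hv 0) (hv 1)) fun v x _ _ => mem_upair

instance DHT_sU (s : (ℕ → M) → M) [DHT s] : DHT (fun v => sU (s v)) := by
  refine DHT1 (f := sU) ?_ s
  refine C3_of_mem (P := fun v x => ∃ y, y ∈ v 0 ∧ x ∈ y) inferInstance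
    (fun v hv => hc_sU (hv 0)) fun v x _ _ => mem_sU

instance DHT_un (s t : (ℕ → M) → M) [DHT s] [DHT t] : DHT (fun v => un (s v) (t v)) := by
  unfold un
  infer_instance

instance DHT_suc (s : (ℕ → M) → M) [DHT s] : DHT (fun v => suc (s v)) := by
  unfold suc
  infer_instance

instance DHT_pr (s t : (ℕ → M) → M) [DHT s] [DHT t] : DHT (fun v => pr (s v) (t v)) := by
  unfold pr
  infer_instance

instance DH_Sub (s t : (ℕ → M) → M) [DHT s] [DHT t] : DH (fun v => Sub (s v) (t v)) := by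
  refine DH2 (P := Sub) ?_ s t
  unfold Pool.Agent.Lib.MP_f5c99b_lc.Sub
  infer_instance

instance DH_App (r s t : (ℕ → M) → M) [DHT r] [DHT s] [DHT t] :
    DH (fun v => App (r v) (s v) (t v)) := by
  simp only [app_iff]
  infer_instance

instance DH_IsFun (r s t : (ℕ → M) → M) [DHT r] [DHT s] [DHT t] :
    DH (fun v => IsFun (r v) (s v) (t v)) := by
  refine DH3 (P := IsFun) ?_ r s t
  have h : DH (fun v : ℕ → M => (∀ p, p ∈ v 0 → ∃ x, x ∈ v 1 ∧ ∃ y, y ∈ v 2 ∧ p = pr x y) ∧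
      ∀ x, x ∈ v 1 → ∃ y, y ∈ v 2 ∧ App (v 0) x y ∧ ∀ z, z ∈ v 2 → App (v 0) x z → z = y) :=
    inferInstance
  refine h.congr fun v hv => ?_
  simp only [IsFun, isPair_iff]
  constructor
  · rintro ⟨h1, h2⟩
    refine ⟨fun p hp => ?_, fun x hx => ?_⟩
    · obtain ⟨x, y, hx, hy, e⟩ := h1 p hp
      exact ⟨x, hx, y, hy, e⟩
    · obtain ⟨y, hy, hu⟩ := h2 x hx
      obtain ⟨x', y', hx', hy', e⟩ := h1 _ (app_iff.mp hy)
      obtain ⟨rfl, rfl⟩ := pr_inj e
      exact ⟨y, hy', hy, fun z _ hz => hu z hz⟩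
  · rintro ⟨h1, h2⟩
    refine ⟨fun p hp => ?_, fun x hx => ?_⟩
    · obtain ⟨x, hx, y, hy, e⟩ := h1 p hp
      exact ⟨x, y, hx, hy, e⟩
    · obtain ⟨y, hy, hyx, hu⟩ := h2 x hx
      refine ⟨y, hyx, fun z hz => ?_⟩
      obtain ⟨x', hx', z', hz', e⟩ := h1 _ (app_iff.mp hz)
      obtain ⟨rfl, rfl⟩ := pr_inj e
      exact hu z hz' hz

instance DH_Tr (s : (ℕ → M) → M) [DHT s] : DH (fun v => Tr (s v)) := by
  refine DH1 (P := Tr) ?_ s
  unfold Tr
  infer_instance

instance DH_Ord (s : (ℕ → M) → M) [DHT s] : DH (fun v => Ord (s v)) := by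
  refine DH1 (P := Ord) ?_ s
  unfold Pool.Agent.Lib.MP_f5c99b_lc.Ord
  infer_instance

instance DHT_sep {a : (ℕ → M) → M} {P : (ℕ → M) → M → Prop} [hdt : DT a]
    [hd : D (fun v => P (fun i => v (i + 1)) (v 0))] [ha : DHT a]
    [h : DH (fun v => P (fun i => v (i + 1)) (v 0))] : DHT (fun v => sep (a v) (P v)) := by
  have h1 := ha.shift 1
  refine C3_of_mem (P := fun v x => x ∈ a v ∧ P v x) inferInstance (fun v hv => ?_)
    fun v x _ _ => ?_
  · have h2 : D (fun w : ℕ → M => P v (w 0)) := hd.fix v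
    exact (ha.hc v hv).sub sep_sub
  · have h2 : D (fun w : ℕ → M => P v (w 0)) := hd.fix v
    exact mem_sep

instance DHT_diff (s t : (ℕ → M) → M) [DHT s] [DHT t] : DHT (fun v => diff (s v) (t v)) := by
  refine DHT2 (f := diff) ?_ s t
  unfold diff
  infer_instance

instance DHT_chiV (s t : (ℕ → M) → M) [DHT s] [DHT t] : DHT (fun v => chiV (s v) (t v)) := by
  refine DHT2 (f := chiV) ?_ s t
  have h : DH (fun v : ℕ → M => (v 2 ∈ v 1 ∧ v 0 = suc emp) ∨ (v 2 ∉ v 1 ∧ v 0 = emp)) :=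
    inferInstance
  refine DHT_of (P := fun v y => (v 1 ∈ v 0 ∧ y = suc emp) ∨ (v 1 ∉ v 0 ∧ y = emp)) h
    (fun v hv => ?_) fun v x _ _ => ?_
  · by_cases hx : v 1 ∈ v 0
    · rw [chiV_in hx]
      exact hc_suc hc_emp
    · rw [chiV_out hx]
      exact hc_emp
  · by_cases hx : v 1 ∈ v 0
    · rw [chiV_in hx]
      tauto
    · rw [chiV_out hx]
      tauto

section

variable [hDC : Fact (DC M)]

instance DHT_prod (s t : (ℕ → M) → M) [DHT s] [DHT t] : DHT (fun v => prod (s v) (t v)) := by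
  refine DHT2 (f := prod) ?_ s t
  refine C3_of_mem (P := fun v p => ∃ x, x ∈ v 0 ∧ ∃ y, y ∈ v 1 ∧ p = pr x y) inferInstance
    (fun v hv => hc_prod hDC.out (hv 0) (hv 1)) fun v x _ _ => mem_prod

instance DHT_fseq (s : (ℕ → M) → M) [DHT s] : DHT (fun v => fseq (s v)) := by
  refine DHT1 (f := fseq) ?_ s
  refine C3_of_mem (P := fun v x => ∃ n, n ∈ omega M ∧ IsFun x n (v 0)) inferInstance
    (fun v hv => hc_fseq hDC.out (hv 0)) fun v x _ _ => mem_fseq

instance DHT_img {a : (ℕ → M) → M} {t : (ℕ → M) → M → M} [hdt : DT a]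
    [hd : DT (fun v => t (fun i => v (i + 1)) (v 0))] [ha : DHT a]
    [h : DHT (fun v => t (fun i => v (i + 1)) (v 0))] : DHT (fun v => img (a v) (t v)) := by
  have h1 := ha.shift 1
  have h2 : DHT (fun v => t (fun i => v (i + 2)) (v 0)) :=
    h.perm (fun i => if i = 0 then 0 else i + 1)
  refine C3_of_mem (P := fun v y => ∃ x, x ∈ a v ∧ y = t v x) inferInstance (fun v hv => ?_)
    fun v y _ _ => ?_
  · have h3 : DT (fun w : ℕ → M => t v (w 0)) := C3_fix hd v
    exact hc_img hDC.out (ha.hc v hv) (t v)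
      fun y hy => h.hc (push y v) (C3_push ((ha.hc v hv).of_mem hy) hv)
  · have h3 : DT (fun w : ℕ → M => t v (w 0)) := C3_fix hd v
    exact mem_img

instance DHT_lam {a : (ℕ → M) → M} {t : (ℕ → M) → M → M} [hdt : DT a]
    [hd : DT (fun v => t (fun i => v (i + 1)) (v 0))] [ha : DHT a]
    [h : DHT (fun v => t (fun i => v (i + 1)) (v 0))] : DHT (fun v => lam (a v) (t v)) := by
  have h1 := ha.shift 1
  have h2 : DHT (fun v => t (fun i => v (i + 2)) (v 0)) :=
    h.perm (fun i => if i = 0 then 0 else i + 1)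
  refine C3_of_mem (P := fun v y => ∃ x, x ∈ a v ∧ y = pr x (t v x)) inferInstance (fun v hv => ?_)
    fun v y _ _ => ?_
  · have h3 : DT (fun w : ℕ → M => t v (w 0)) := C3_fix hd v
    exact hc_lam hDC.out (ha.hc v hv) (t v)
      fun y hy => h.hc (push y v) (C3_push ((ha.hc v hv).of_mem hy) hv)
  · have h3 : DT (fun w : ℕ → M => t v (w 0)) := C3_fix hd v
    exact mem_lam'

end

/-- the unique hereditarily countable `x` with `P x`, `emp` if there is no such `x` -/
noncomputable def iotaH (P : M → Prop) : M :=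
  iota (fun y => (HC y ∧ P y ∧ ∀ z, HC z → P z → z = y) ∨
    ((¬ ∃ z, HC z ∧ P z ∧ ∀ w, HC w → P w → w = z) ∧ y = emp))

/-- the value of `iotaH` -/
theorem C3_spec (P : M → Prop) (x : M) : x = iotaH P ↔
    (HC x ∧ P x ∧ ∀ z, HC z → P z → z = x) ∨
    ((¬ ∃ z, HC z ∧ P z ∧ ∀ w, HC w → P w → w = z) ∧ x = emp) := by
  have hu : ∃! y : M, (HC y ∧ P y ∧ ∀ z, HC z → P z → z = y) ∨
      ((¬ ∃ z, HC z ∧ P z ∧ ∀ w, HC w → P w → w = z) ∧ y = emp) := by
    by_cases he : ∃ z, HC z ∧ P z ∧ ∀ w, HC w → P w → w = z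
    · obtain ⟨z, hz, hPz, hu⟩ := he
      refine ⟨z, Or.inl ⟨hz, hPz, hu⟩, ?_⟩
      rintro y (⟨h1, h2, _⟩ | ⟨h1, _⟩)
      · exact hu y h1 h2
      · exact absurd ⟨z, hz, hPz, hu⟩ h1
    · refine ⟨emp, Or.inr ⟨he, rfl⟩, ?_⟩
      rintro y (h1 | ⟨_, h1⟩)
      · exact absurd ⟨y, h1⟩ he
      · exact h1
  constructor
  · rintro rfl
    exact iota_spec hu
  · intro h
    exact hu.unique h (iota_spec hu)

instance DT_iotaH {P : (ℕ → M) → M → Prop} [h : D (fun v => P (fun i => v (i + 1)) (v 0))] :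
    DT (fun v => iotaH (P v)) := by
  have h2 : D (fun v => P (fun i => v (i + 2)) (v 0)) :=
    h.perm (fun i => if i = 0 then 0 else i + 1)
  have h3 : D (fun v => P (fun i => v (i + 3)) (v 0)) :=
    h.perm (fun i => if i = 0 then 0 else i + 2)
  unfold iotaH
  infer_instance

theorem C3_hc (P : M → Prop) : HC (iotaH P) := by
  rcases (C3_spec P (iotaH P)).mp rfl with h | ⟨_, h⟩
  · exact h.1
  · rw [h]
    exact hc_emp

instance DHT_iotaH {P : (ℕ → M) → M → Prop} [h : DH (fun v => P (fun i => v (i + 1)) (v 0))] :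
    DHT (fun v => iotaH (P v)) := by
  have h2 : DH (fun v => P (fun i => v (i + 2)) (v 0)) :=
    h.perm (fun i => if i = 0 then 0 else i + 1)
  have h3 : DH (fun v => P (fun i => v (i + 3)) (v 0)) :=
    h.perm (fun i => if i = 0 then 0 else i + 2)
  refine DHT_of (P := fun v y => (P v y ∧ ∀ z, HC z → P v z → z = y) ∨
    ((¬ ∃ z, HC z ∧ P v z ∧ ∀ w, HC w → P v w → w = z) ∧ y = emp)) inferInstance
    (fun v _ => C3_hc _) fun v x _ hx => ?_
  rw [C3_spec]
  simp only [hx, true_and]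

theorem hc_iotaH (P : M → Prop) : HC (iotaH P) := C3_hc P

theorem iotaH_eq {P : M → Prop} {x : M} (hx : HC x) (h : P x)
    (h' : ∀ y, HC y → P y → y = x) : iotaH P = x :=
  ((C3_spec P x).mpr (Or.inl ⟨hx, h, h'⟩)).symm

end Pool.Agent.Lib.MP_3b60c8_lc
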