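import Pool.Agent.Lib.MP_3b60c8_lc.HCc

/-! Copies of the definitions of `Defs.lean` which are definable over `(HC, ∈)`: the values are the
same for hereditarily countable arguments of the right type (`HEq1.lean` …), and hereditarily countable
for all hereditarily countable arguments. -/

set_option synthInstance.maxSize 2000

namespace Pool.Agent.Lib.MP_3b60c8_lc

open Pool.Agent.Lib.MP_f5c99b_lc

universe u

variable {M : Type u} [Membership M M] [hZF : Fact (IsModelOfZF M)] [hDC : Fact (DC M)]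

/-- value of a function -/
noncomputable def apH (f x : M) : M :=
  iotaH (fun y => pr x y ∈ f)

omit hDC in
instance DT_apH (t1 t2 : (ℕ → M) → M) [DT t1] [DT t2] :
    DT (fun v => apH (t1 v) (t2 v)) := by
  refine DT2 (f := apH) ?_ t1 t2
  unfold apH
  infer_instance

instance DHT_apH (t1 t2 : (ℕ → M) → M) [DHT t1] [DHT t2] :
    DHT (fun v => apH (t1 v) (t2 v)) := by
  refine DHT2 (f := apH) ?_ t1 t2
  unfold apH
  infer_instance

/-- first component -/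
noncomputable def fstH (p : M) : M :=
  iotaH (fun x => ∃ y, HC y ∧ p = pr x y)

omit hDC in
instance DT_fstH (t1 : (ℕ → M) → M) [DT t1] :
    DT (fun v => fstH (t1 v)) := by
  refine DT1 (f := fstH) ?_ t1
  unfold fstH
  infer_instance

instance DHT_fstH (t1 : (ℕ → M) → M) [DHT t1] :
    DHT (fun v => fstH (t1 v)) := by
  refine DHT1 (f := fstH) ?_ t1
  unfold fstH
  infer_instance

/-- second component -/
noncomputable def sndH (p : M) : M :=
  iotaH (fun y => ∃ x, HC x ∧ p = pr x y)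

omit hDC in
instance DT_sndH (t1 : (ℕ → M) → M) [DT t1] :
    DT (fun v => sndH (t1 v)) := by
  refine DT1 (f := sndH) ?_ t1
  unfold sndH
  infer_instance

instance DHT_sndH (t1 : (ℕ → M) → M) [DHT t1] :
    DHT (fun v => sndH (t1 v)) := by
  refine DHT1 (f := sndH) ?_ t1
  unfold sndH
  infer_instance

/-- domain -/
noncomputable def domH (f : M) : M :=
  sep (sU (sU f)) (fun x => ∃ y, HC y ∧ pr x y ∈ f)

omit hDC in
instance DT_domH (t1 : (ℕ → M) → M) [DT t1] :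
    DT (fun v => domH (t1 v)) := by
  refine DT1 (f := domH) ?_ t1
  unfold domH
  infer_instance

instance DHT_domH (t1 : (ℕ → M) → M) [DHT t1] :
    DHT (fun v => domH (t1 v)) := by
  refine DHT1 (f := domH) ?_ t1
  unfold domH
  infer_instance

/-- restriction -/
noncomputable def restrH (f a : M) : M :=
  sep f (fun p => fstH p ∈ a)

omit hDC in
instance DT_restrH (t1 t2 : (ℕ → M) → M) [DT t1] [DT t2] :
    DT (fun v => restrH (t1 v) (t2 v)) := by
  refine DT2 (f := restrH) ?_ t1 t2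
  unfold restrH
  infer_instance

instance DHT_restrH (t1 t2 : (ℕ → M) → M) [DHT t1] [DHT t2] :
    DHT (fun v => restrH (t1 v) (t2 v)) := by
  refine DHT2 (f := restrH) ?_ t1 t2
  unfold restrH
  infer_instance

/-- composition -/
noncomputable def cmpH (a f g : M) : M :=
  lam a (fun x => apH g (apH f x))

omit hDC in
instance DT_cmpH (t1 t2 t3 : (ℕ → M) → M) [DT t1] [DT t2] [DT t3] :
    DT (fun v => cmpH (t1 v) (t2 v) (t3 v)) := by
  refine DT3 (f := cmpH) ?_ t1 t2 t3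
  unfold cmpH
  infer_instance

instance DHT_cmpH (t1 t2 t3 : (ℕ → M) → M) [DHT t1] [DHT t2] [DHT t3] :
    DHT (fun v => cmpH (t1 v) (t2 v) (t3 v)) := by
  refine DHT3 (f := cmpH) ?_ t1 t2 t3
  unfold cmpH
  infer_instance

/-- one more term -/
noncomputable def snocH (s x : M) : M :=
  un s (upair (pr (domH s) x) (pr (domH s) x))

omit hDC in
instance DT_snocH (t1 t2 : (ℕ → M) → M) [DT t1] [DT t2] :
    DT (fun v => snocH (t1 v) (t2 v)) := by
  refine DT2 (f := snocH) ?_ t1 t2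
  unfold snocH
  infer_instance

instance DHT_snocH (t1 t2 : (ℕ → M) → M) [DHT t1] [DHT t2] :
    DHT (fun v => snocH (t1 v) (t2 v)) := by
  refine DHT2 (f := snocH) ?_ t1 t2
  unfold snocH
  infer_instance

/-- `f` is a function with domain `a` -/
def FnH (f a : M) : Prop :=
  (∀ p, p ∈ f → ∃ x, x ∈ a ∧ ∃ y, HC y ∧ p = pr x y) ∧
    ∀ x, x ∈ a → ∃ y, HC y ∧ pr x y ∈ f ∧ ∀ z, HC z → pr x z ∈ f → z = y

omit hDC in
instance D_FnH (t1 t2 : (ℕ → M) → M) [DT t1] [DT t2] :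
    D (fun v => FnH (t1 v) (t2 v)) := by
  refine D2 (P := FnH) ?_ t1 t2
  unfold FnH
  infer_instance

instance DH_FnH (t1 t2 : (ℕ → M) → M) [DHT t1] [DHT t2] :
    DH (fun v => FnH (t1 v) (t2 v)) := by
  refine DH2 (P := FnH) ?_ t1 t2
  unfold FnH
  infer_instance

/-- `f` is a function from `a` onto `b` -/
def SurjH (f a b : M) : Prop :=
  IsFun f a b ∧ ∀ y, y ∈ b → ∃ x, x ∈ a ∧ apH f x = y

omit hDC in
instance D_SurjH (t1 t2 t3 : (ℕ → M) → M) [DT t1] [DT t2] [DT t3] :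
    D (fun v => SurjH (t1 v) (t2 v) (t3 v)) := by
  refine D3 (P := SurjH) ?_ t1 t2 t3
  unfold SurjH
  infer_instance

instance DH_SurjH (t1 t2 t3 : (ℕ → M) → M) [DHT t1] [DHT t2] [DHT t3] :
    DH (fun v => SurjH (t1 v) (t2 v) (t3 v)) := by
  refine DH3 (P := SurjH) ?_ t1 t2 t3
  unfold SurjH
  infer_instance

/-- see `Nt` -/
noncomputable def NtH (N x : M) : M :=
  sep (fseq (omega M)) (fun s => ∃ p, HC p ∧ ∃ d, HC d ∧ pr s (pr p d) ∈ N ∧ Sub p x)

omit hDC in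
instance DT_NtH (t1 t2 : (ℕ → M) → M) [DT t1] [DT t2] :
    DT (fun v => NtH (t1 v) (t2 v)) := by
  refine DT2 (f := NtH) ?_ t1 t2
  unfold NtH
  infer_instance

instance DHT_NtH (t1 t2 : (ℕ → M) → M) [DHT t1] [DHT t2] :
    DHT (fun v => NtH (t1 v) (t2 v)) := by
  refine DHT2 (f := NtH) ?_ t1 t2
  unfold NtH
  infer_instance

/-- see `Gr` -/
def GrH (N x y : M) : Prop :=
  IsFun y (omega M) (omega M) ∧ ∀ n, n ∈ omega M →
    restrH y (suc n) ∈ NtH N x ∧ ∀ m, m ∈ apH y n → snocH (restrH y n) m ∉ NtH N x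

omit hDC in
instance D_GrH (t1 t2 t3 : (ℕ → M) → M) [DT t1] [DT t2] [DT t3] :
    D (fun v => GrH (t1 v) (t2 v) (t3 v)) := by
  refine D3 (P := GrH) ?_ t1 t2 t3
  unfold GrH
  infer_instance

instance DH_GrH (t1 t2 t3 : (ℕ → M) → M) [DHT t1] [DHT t2] [DHT t3] :
    DH (fun v => GrH (t1 v) (t2 v) (t3 v)) := by
  refine DH3 (P := GrH) ?_ t1 t2 t3
  unfold GrH
  infer_instance

/-- see `Meets` -/
def MeetsH (N x : M) : Prop :=
  ∃ y, HC y ∧ GrH N x y

omit hDC in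
instance D_MeetsH (t1 t2 : (ℕ → M) → M) [DT t1] [DT t2] :
    D (fun v => MeetsH (t1 v) (t2 v)) := by
  refine D2 (P := MeetsH) ?_ t1 t2
  unfold MeetsH
  infer_instance

instance DH_MeetsH (t1 t2 : (ℕ → M) → M) [DHT t1] [DHT t2] :
    DH (fun v => MeetsH (t1 v) (t2 v)) := by
  refine DH2 (P := MeetsH) ?_ t1 t2
  unfold MeetsH
  infer_instance

/-- see `Fv` -/
noncomputable def FvH (N x : M) : M :=
  sep (omega M) (fun k => ∃ y, HC y ∧ ∃ p, HC p ∧ GrH N x y ∧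
    pr (restrH y (suc k)) (pr p emp) ∈ N ∧ Sub p x)

omit hDC in
instance DT_FvH (t1 t2 : (ℕ → M) → M) [DT t1] [DT t2] :
    DT (fun v => FvH (t1 v) (t2 v)) := by
  refine DT2 (f := FvH) ?_ t1 t2
  unfold FvH
  infer_instance

instance DHT_FvH (t1 t2 : (ℕ → M) → M) [DHT t1] [DHT t2] :
    DHT (fun v => FvH (t1 v) (t2 v)) := by
  refine DHT2 (f := FvH) ?_ t1 t2
  unfold FvH
  infer_instance

/-- see `Bs` -/
def BsH (n b : M) : Prop :=
  FnH b n ∧ (∀ j, j ∈ n → Ord (apH b j) ∧ emp ∈ apH b j) ∧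
    ∀ i, i ∈ n → ∀ j, j ∈ n → i ∈ j → apH b i ∈ apH b j

omit hDC in
instance D_BsH (t1 t2 : (ℕ → M) → M) [DT t1] [DT t2] :
    D (fun v => BsH (t1 v) (t2 v)) := by
  refine D2 (P := BsH) ?_ t1 t2
  unfold BsH
  infer_instance

instance DH_BsH (t1 t2 : (ℕ → M) → M) [DHT t1] [DHT t2] :
    DH (fun v => BsH (t1 v) (t2 v)) := by
  refine DH2 (P := BsH) ?_ t1 t2
  unfold BsH
  infer_instance

/-- see `Al` -/
noncomputable def AlH (b m n : M) : M :=
  iotaH (fun A => ∀ s, HC s → (s ∈ A ↔ FnH s (diff n m) ∧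
    ∀ j, j ∈ diff n m → apH s j ∈ apH b j))

omit hDC in
instance DT_AlH (t1 t2 t3 : (ℕ → M) → M) [DT t1] [DT t2] [DT t3] :
    DT (fun v => AlH (t1 v) (t2 v) (t3 v)) := by
  refine DT3 (f := AlH) ?_ t1 t2 t3
  unfold AlH
  infer_instance

instance DHT_AlH (t1 t2 t3 : (ℕ → M) → M) [DHT t1] [DHT t2] [DHT t3] :
    DHT (fun v => AlH (t1 v) (t2 v) (t3 v)) := by
  refine DHT3 (f := AlH) ?_ t1 t2 t3
  unfold AlH
  infer_instance

/-- see `cpt` -/
noncomputable def cptH (h j : M) : M :=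
  lam (omega M) (fun k => apH (apH h k) j)

omit hDC in
instance DT_cptH (t1 t2 : (ℕ → M) → M) [DT t1] [DT t2] :
    DT (fun v => cptH (t1 v) (t2 v)) := by
  refine DT2 (f := cptH) ?_ t1 t2
  unfold cptH
  infer_instance

instance DHT_cptH (t1 t2 : (ℕ → M) → M) [DHT t1] [DHT t2] :
    DHT (fun v => cptH (t1 v) (t2 v)) := by
  refine DHT2 (f := cptH) ?_ t1 t2
  unfold cptH
  infer_instance

/-- see `rh` -/
noncomputable def rhH (h j : M) : M :=
  lam (omega M) (fun k => restrH (apH h k) j)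

omit hDC in
instance DT_rhH (t1 t2 : (ℕ → M) → M) [DT t1] [DT t2] :
    DT (fun v => rhH (t1 v) (t2 v)) := by
  refine DT2 (f := rhH) ?_ t1 t2
  unfold rhH
  infer_instance

instance DHT_rhH (t1 t2 : (ℕ → M) → M) [DHT t1] [DHT t2] :
    DHT (fun v => rhH (t1 v) (t2 v)) := by
  refine DHT2 (f := rhH) ?_ t1 t2
  unfold rhH
  infer_instance

/-- see `jn` -/
noncomputable def jnH (h g : M) : M :=
  lam (omega M) (fun k => un (apH h k) (apH g k))

omit hDC in
instance DT_jnH (t1 t2 : (ℕ → M) → M) [DT t1] [DT t2] :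
    DT (fun v => jnH (t1 v) (t2 v)) := by
  refine DT2 (f := jnH) ?_ t1 t2
  unfold jnH
  infer_instance

instance DHT_jnH (t1 t2 : (ℕ → M) → M) [DHT t1] [DHT t2] :
    DHT (fun v => jnH (t1 v) (t2 v)) := by
  refine DHT2 (f := jnH) ?_ t1 t2
  unfold jnH
  infer_instance

/-- see `oc` -/
noncomputable def ocH (f : M) : M :=
  sep (prod (omega M) (omega M)) (fun p => apH f (fstH p) ∈ apH f (sndH p))

omit hDC in
instance DT_ocH (t1 : (ℕ → M) → M) [DT t1] :
    DT (fun v => ocH (t1 v)) := by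
  refine DT1 (f := ocH) ?_ t1
  unfold ocH
  infer_instance

instance DHT_ocH (t1 : (ℕ → M) → M) [DHT t1] :
    DHT (fun v => ocH (t1 v)) := by
  refine DHT1 (f := ocH) ?_ t1
  unfold ocH
  infer_instance

theorem hc_Xi : HC (Xi M) := by
  unfold Xi
  exact hc_prod hDC.out (hc_fseq hDC.out hc_omega) (hc_prod hDC.out (hc_fseq hDC.out hc_omega)
    (hc_prod hDC.out (hc_fseq hDC.out (hc_fseq hDC.out hc_omega)) hc_omega))

instance DHT_Xi : DHT (fun _ : ℕ → M => Xi M) := DHT_const hc_Xi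

/-- see `dO` -/
noncomputable def dOH (e x : M) : M :=
  sep (prod (omega M) (omega M)) (fun u => apH x (apH e (pr emp u)) = emp)

omit hDC in
instance DT_dOH (t1 t2 : (ℕ → M) → M) [DT t1] [DT t2] :
    DT (fun v => dOH (t1 v) (t2 v)) := by
  refine DT2 (f := dOH) ?_ t1 t2
  unfold dOH
  infer_instance

instance DHT_dOH (t1 t2 : (ℕ → M) → M) [DHT t1] [DHT t2] :
    DHT (fun v => dOH (t1 v) (t2 v)) := by
  refine DHT2 (f := dOH) ?_ t1 t2
  unfold dOH
  infer_instance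

/-- see `dA` -/
noncomputable def dAH (e x : M) : M :=
  sep (Xi M) (fun t => apH x (apH e (pr (suc emp) t)) = emp)

omit hDC in
instance DT_dAH (t1 t2 : (ℕ → M) → M) [DT t1] [DT t2] :
    DT (fun v => dAH (t1 v) (t2 v)) := by
  refine DT2 (f := dAH) ?_ t1 t2
  unfold dAH
  infer_instance

instance DHT_dAH (t1 t2 : (ℕ → M) → M) [DHT t1] [DHT t2] :
    DHT (fun v => dAH (t1 v) (t2 v)) := by
  refine DHT2 (f := dAH) ?_ t1 t2
  unfold dAH
  infer_instance

/-- see `cdI` -/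
noncomputable def cdIH (e O A : M) : M :=
  sep (omega M) (fun i => (∃ u, u ∈ O ∧ apH e (pr emp u) = i) ∨
    ∃ t, t ∈ A ∧ apH e (pr (suc emp) t) = i)

omit hDC in
instance DT_cdIH (t1 t2 t3 : (ℕ → M) → M) [DT t1] [DT t2] [DT t3] :
    DT (fun v => cdIH (t1 v) (t2 v) (t3 v)) := by
  refine DT3 (f := cdIH) ?_ t1 t2 t3
  unfold cdIH
  infer_instance

instance DHT_cdIH (t1 t2 t3 : (ℕ → M) → M) [DHT t1] [DHT t2] [DHT t3] :
    DHT (fun v => cdIH (t1 v) (t2 v) (t3 v)) := by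
  refine DHT3 (f := cdIH) ?_ t1 t2 t3
  unfold cdIH
  infer_instance

/-- see `cd` -/
noncomputable def cdH (e O A : M) : M :=
  lam (omega M) (fun i => chiV (diff (omega M) (cdIH e O A)) i)

omit hDC in
instance DT_cdH (t1 t2 t3 : (ℕ → M) → M) [DT t1] [DT t2] [DT t3] :
    DT (fun v => cdH (t1 v) (t2 v) (t3 v)) := by
  refine DT3 (f := cdH) ?_ t1 t2 t3
  unfold cdH
  infer_instance

instance DHT_cdH (t1 t2 t3 : (ℕ → M) → M) [DHT t1] [DHT t2] [DHT t3] :
    DHT (fun v => cdH (t1 v) (t2 v) (t3 v)) := by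
  refine DHT3 (f := cdH) ?_ t1 t2 t3
  unfold cdH
  infer_instance

/-- see `rep` -/
noncomputable def repH (τ x : M) : M :=
  lam (omega M) (fun n => apH τ (restrH x (suc n)))

omit hDC in
instance DT_repH (t1 t2 : (ℕ → M) → M) [DT t1] [DT t2] :
    DT (fun v => repH (t1 v) (t2 v)) := by
  refine DT2 (f := repH) ?_ t1 t2
  unfold repH
  infer_instance

instance DHT_repH (t1 t2 : (ℕ → M) → M) [DHT t1] [DHT t2] :
    DHT (fun v => repH (t1 v) (t2 v)) := by
  refine DHT2 (f := repH) ?_ t1 t2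
  unfold repH
  infer_instance

/-- see `rb` -/
noncomputable def rbH (r b : M) : M :=
  cmpH (domH b) b r

omit hDC in
instance DT_rbH (t1 t2 : (ℕ → M) → M) [DT t1] [DT t2] :
    DT (fun v => rbH (t1 v) (t2 v)) := by
  refine DT2 (f := rbH) ?_ t1 t2
  unfold rbH
  infer_instance

instance DHT_rbH (t1 t2 : (ℕ → M) → M) [DHT t1] [DHT t2] :
    DHT (fun v => rbH (t1 v) (t2 v)) := by
  refine DHT2 (f := rbH) ?_ t1 t2
  unfold rbH
  infer_instance

/-- see `rp` -/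
noncomputable def rpH (r p : M) : M :=
  lam (domH p) (fun l => rbH r (apH p l))

omit hDC in
instance DT_rpH (t1 t2 : (ℕ → M) → M) [DT t1] [DT t2] :
    DT (fun v => rpH (t1 v) (t2 v)) := by
  refine DT2 (f := rpH) ?_ t1 t2
  unfold rpH
  infer_instance

instance DHT_rpH (t1 t2 : (ℕ → M) → M) [DHT t1] [DHT t2] :
    DHT (fun v => rpH (t1 v) (t2 v)) := by
  refine DHT2 (f := rpH) ?_ t1 t2
  unfold rpH
  infer_instance

/-- see `Nm` -/
noncomputable def NmH (r A b : M) : M :=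
  img (sep A (fun t => rbH r (fstH t) = b))
    (fun t => pr (fstH (sndH t)) (pr (rpH r (fstH (sndH (sndH t)))) (sndH (sndH (sndH t)))))

omit hDC in
instance DT_NmH (t1 t2 t3 : (ℕ → M) → M) [DT t1] [DT t2] [DT t3] :
    DT (fun v => NmH (t1 v) (t2 v) (t3 v)) := by
  refine DT3 (f := NmH) ?_ t1 t2 t3
  unfold NmH
  infer_instance

instance DHT_NmH (t1 t2 t3 : (ℕ → M) → M) [DHT t1] [DHT t2] [DHT t3] :
    DHT (fun v => NmH (t1 v) (t2 v) (t3 v)) := by
  refine DHT3 (f := NmH) ?_ t1 t2 t3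
  unfold NmH
  infer_instance

/-- see `dr` -/
noncomputable def drH (O : M) : M :=
  iotaH (fun r => ∃ δ, HC δ ∧ Ord δ ∧ SurjH r (omega M) δ ∧ ocH r = O)

omit hDC in
instance DT_drH (t1 : (ℕ → M) → M) [DT t1] :
    DT (fun v => drH (t1 v)) := by
  refine DT1 (f := drH) ?_ t1
  unfold drH
  infer_instance

instance DHT_drH (t1 : (ℕ → M) → M) [DHT t1] :
    DHT (fun v => drH (t1 v)) := by
  refine DHT1 (f := drH) ?_ t1
  unfold drH
  infer_instance

/-- see `yy` -/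
noncomputable def yyH (e τ j h : M) : M :=
  repH (apH τ j) (cdH e (ocH (cptH h j)) emp)

omit hDC in
instance DT_yyH (t1 t2 t3 t4 : (ℕ → M) → M) [DT t1] [DT t2] [DT t3] [DT t4] :
    DT (fun v => yyH (t1 v) (t2 v) (t3 v) (t4 v)) := by
  refine DT4 (f := yyH) ?_ t1 t2 t3 t4
  unfold yyH
  infer_instance

instance DHT_yyH (t1 t2 t3 t4 : (ℕ → M) → M) [DHT t1] [DHT t2] [DHT t3] [DHT t4] :
    DHT (fun v => yyH (t1 v) (t2 v) (t3 v) (t4 v)) := by
  refine DHT4 (f := yyH) ?_ t1 t2 t3 t4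
  unfold yyH
  infer_instance

/-- see `NN` -/
noncomputable def NNH (e τ j b h : M) : M :=
  NmH (drH (dOH e (yyH e τ j h))) (dAH e (yyH e τ j h)) (restrH b j)

omit hDC in
instance DT_NNH (t1 t2 t3 t4 t5 : (ℕ → M) → M) [DT t1] [DT t2] [DT t3] [DT t4] [DT t5] :
    DT (fun v => NNH (t1 v) (t2 v) (t3 v) (t4 v) (t5 v)) := by
  refine DT5 (f := NNH) ?_ t1 t2 t3 t4 t5
  unfold NNH
  infer_instance

instance DHT_NNH (t1 t2 t3 t4 t5 : (ℕ → M) → M) [DHT t1] [DHT t2] [DHT t3] [DHT t4] [DHT t5] :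
    DHT (fun v => NNH (t1 v) (t2 v) (t3 v) (t4 v) (t5 v)) := by
  refine DHT5 (f := NNH) ?_ t1 t2 t3 t4 t5
  unfold NNH
  infer_instance

/-- see `Dm` -/
def DmH (e τ n b h : M) : Prop :=
  ∀ j, j ∈ n → SurjH (cptH h j) (omega M) (apH b j) ∧ MeetsH (NNH e τ j b h) (rhH h j)

omit hDC in
instance D_DmH (t1 t2 t3 t4 t5 : (ℕ → M) → M) [DT t1] [DT t2] [DT t3] [DT t4] [DT t5] :
    D (fun v => DmH (t1 v) (t2 v) (t3 v) (t4 v) (t5 v)) := by
  refine D5 (P := DmH) ?_ t1 t2 t3 t4 t5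
  unfold DmH
  infer_instance

instance DH_DmH (t1 t2 t3 t4 t5 : (ℕ → M) → M) [DHT t1] [DHT t2] [DHT t3] [DHT t4] [DHT t5] :
    DH (fun v => DmH (t1 v) (t2 v) (t3 v) (t4 v) (t5 v)) := by
  refine DH5 (P := DmH) ?_ t1 t2 t3 t4 t5
  unfold DmH
  infer_instance

/-- `D` is a sequence of dense sets of finite sequences in `A` -/
def DnsH (A D : M) : Prop := FnH D (omega M) ∧ ∀ i, i ∈ omega M → ∀ p, p ∈ fseq A →
  ∃ q, q ∈ fseq A ∧ q ∈ apH D i ∧ Sub p q

omit hDC in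
instance D_DnsH (t1 t2 : (ℕ → M) → M) [DT t1] [DT t2] :
    D (fun v => DnsH (t1 v) (t2 v)) := by
  refine D2 (P := DnsH) ?_ t1 t2
  unfold DnsH
  infer_instance

instance DH_DnsH (t1 t2 : (ℕ → M) → M) [DHT t1] [DHT t2] :
    DH (fun v => DnsH (t1 v) (t2 v)) := by
  refine DH2 (P := DnsH) ?_ t1 t2
  unfold DnsH
  infer_instance

/-- `g` meets all sets of the sequence `D` -/
def MtH (D g : M) : Prop := ∀ i, i ∈ omega M → ∃ q, q ∈ apH D i ∧ Sub q g

omit hDC in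
instance D_MtH (t1 t2 : (ℕ → M) → M) [DT t1] [DT t2] :
    D (fun v => MtH (t1 v) (t2 v)) := by
  refine D2 (P := MtH) ?_ t1 t2
  unfold MtH
  infer_instance

instance DH_MtH (t1 t2 : (ℕ → M) → M) [DHT t1] [DHT t2] :
    DH (fun v => MtH (t1 v) (t2 v)) := by
  refine DH2 (P := MtH) ?_ t1 t2
  unfold MtH
  infer_instance

/-- see `Am` -/
def AmH (A : M) (P : M → Prop) : Prop := ∃ D, HC D ∧ DnsH A D ∧
  ∀ g, HC g → IsFun g (omega M) A → MtH D g → P g

omit hDC in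
instance D_AmH {A : (ℕ → M) → M} {P : (ℕ → M) → M → Prop} [hA : DT A]
    [h : D (fun v => P (fun i => v (i + 1)) (v 0))] : D (fun v => AmH (A v) (P v)) := by
  have h1 := hA.shift 1
  have h2 := hA.shift 2
  have h3 : D (fun v => P (fun i => v (i + 2)) (v 0)) :=
    h.perm (fun i => if i = 0 then 0 else i + 1)
  unfold AmH
  infer_instance

instance DH_AmH {A : (ℕ → M) → M} {P : (ℕ → M) → M → Prop} [hA : DHT A]
    [h : DH (fun v => P (fun i => v (i + 1)) (v 0))] : DH (fun v => AmH (A v) (P v)) := by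
  have h1 := hA.shift 1
  have h2 := hA.shift 2
  have h3 : DH (fun v => P (fun i => v (i + 2)) (v 0)) :=
    h.perm (fun i => if i = 0 then 0 else i + 1)
  unfold AmH
  infer_instance

/-- see `Gd` -/
def GdH (e τ n b h : M) : Prop :=
  n ∈ omega M ∧ BsH n b ∧ IsFun h (omega M) (AlH b emp n) ∧
    ∀ n', n' ∈ omega M → ∀ b', HC b' → Sub n n' → BsH n' b' → restrH b' n = b →
      AmH (AlH b' n n') (fun g => DmH e τ n' b' (jnH h g))

omit hDC in
instance D_GdH (t1 t2 t3 t4 t5 : (ℕ → M) → M) [DT t1] [DT t2] [DT t3] [DT t4] [DT t5] :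
    D (fun v => GdH (t1 v) (t2 v) (t3 v) (t4 v) (t5 v)) := by
  refine D5 (P := GdH) ?_ t1 t2 t3 t4 t5
  unfold GdH
  infer_instance

instance DH_GdH (t1 t2 t3 t4 t5 : (ℕ → M) → M) [DHT t1] [DHT t2] [DHT t3] [DHT t4] [DHT t5] :
    DH (fun v => GdH (t1 v) (t2 v) (t3 v) (t4 v) (t5 v)) := by
  refine DH5 (P := GdH) ?_ t1 t2 t3 t4 t5
  unfold GdH
  infer_instance

/-- see `Cc` -/
def CcH (e τ s0 s : M) : Prop :=
  ∃ n, n ∈ omega M ∧ ∃ b, HC b ∧ ∃ h, HC h ∧ GdH e τ n b h ∧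
    ((n = emp ∧ s = s0) ∨ (n ≠ emp ∧ s = FvH (NNH e τ (sU n) b h) (rhH h (sU n))))

omit hDC in
instance D_CcH (t1 t2 t3 t4 : (ℕ → M) → M) [DT t1] [DT t2] [DT t3] [DT t4] :
    D (fun v => CcH (t1 v) (t2 v) (t3 v) (t4 v)) := by
  refine D4 (P := CcH) ?_ t1 t2 t3 t4
  unfold CcH
  infer_instance

instance DH_CcH (t1 t2 t3 t4 : (ℕ → M) → M) [DHT t1] [DHT t2] [DHT t3] [DHT t4] :
    DH (fun v => CcH (t1 v) (t2 v) (t3 v) (t4 v)) := by
  refine DH4 (P := CcH) ?_ t1 t2 t3 t4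
  unfold CcH
  infer_instance

end Pool.Agent.Lib.MP_3b60c8_lc
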