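import Pool.Agent.Lib.MP_3b60c8_lc.HDef
import Pool.Agent.Lib.MP_3b60c8_lc.Alp

/-! ROW lst-HQ1. The copies of the definitions agree with the definitions, part 1: functions,
names, alphabets. Use `iotaH_eq` and: elements of hereditarily countable sets are hereditarily
countable. -/

set_option synthInstance.maxSize 2000
set_option linter.unusedSectionVars false

namespace Pool.Agent.Lib.MP_3b60c8_lc

open Pool.Agent.Lib.MP_f5c99b_lc

universe u

variable {M : Type u} [Membership M M] [hZF : Fact (IsModelOfZF M)] [hDC : Fact (DC M)]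

theorem apH_eq {f a b x : M} (h : IsFun f a b) (hf : HC f) (hx : x ∈ a) : apH f x = ap f x :=
  iotaH_eq (hc_ap hf h hx) (h.pr_mem.mpr ⟨hx, rfl⟩) fun _ _ hy => (h.pr_mem.mp hy).2

theorem fstH_pr {x y : M} (h : HC x) (h' : HC y) : fstH (pr x y) = x :=
  iotaH_eq h ⟨y, h', rfl⟩ fun _ _ ⟨_, _, e⟩ => (pr_inj e).1.symm

theorem sndH_pr {x y : M} (h : HC x) (h' : HC y) : sndH (pr x y) = y :=
  iotaH_eq h' ⟨x, h, rfl⟩ fun _ _ ⟨_, _, e⟩ => (pr_inj e).2.symm

/-- components of elements of hereditarily countable relations -/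
theorem HQ_of_pr {f x y : M} (hf : HC f) (h : pr x y ∈ f) : HC x ∧ HC y := hc_of_pr (hf.of_mem h)

theorem HQ_mem_sU {f x y : M} (h : pr x y ∈ f) : x ∈ sU (sU f) ∧ y ∈ sU (sU f) := by
  refine ⟨mem_sU.mpr ⟨upair x y, mem_sU.mpr ⟨_, h, mem_upair.mpr (Or.inr rfl)⟩,
    mem_upair.mpr (Or.inl rfl)⟩, mem_sU.mpr ⟨upair x y, mem_sU.mpr ⟨_, h,
    mem_upair.mpr (Or.inr rfl)⟩, mem_upair.mpr (Or.inr rfl)⟩⟩

theorem domH_eq {f a b : M} (h : IsFun f a b) (hf : HC f) : domH f = a := by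
  refine ext fun x => ?_
  rw [domH, mem_sep]
  constructor
  · rintro ⟨_, y, _, h1⟩
    exact (h.pr_mem.mp h1).1
  · intro hx
    have h1 : pr x (ap f x) ∈ f := h.pr_mem.mpr ⟨hx, rfl⟩
    exact ⟨(HQ_mem_sU h1).1, _, (HQ_of_pr hf h1).2, h1⟩

theorem restrH_eq {f a b c : M} (h : IsFun f a b) (hf : HC f) : restrH f c = restr f c := by
  refine ext fun p => ?_
  rw [restrH, restr, mem_sep, mem_sep]
  refine and_congr_right fun hp => ?_
  obtain ⟨x, hx, rfl⟩ := h.mem_iff.mp hp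
  obtain ⟨h1, h2⟩ := HQ_of_pr hf hp
  rw [fstH_pr h1 h2, fst_pr]

theorem HQ_lam_congr {a : M} {t t' : M → M} [DT (fun v => t (v 0))] [DT (fun v => t' (v 0))]
    (h : ∀ x, x ∈ a → t x = t' x) : lam a t = lam a t' := by
  refine ext fun p => ?_
  rw [mem_lam', mem_lam']
  constructor
  · rintro ⟨x, hx, rfl⟩
    exact ⟨x, hx, by rw [h x hx]⟩
  · rintro ⟨x, hx, rfl⟩
    exact ⟨x, hx, by rw [h x hx]⟩

theorem cmpH_eq {a b c f g : M} (h : IsFun f a b) (h' : IsFun g b c) (hf : HC f) (hg : HC g) :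
    cmpH a f g = cmp a f g := by
  unfold cmpH Pool.Agent.Lib.MP_f5c99b_lc.cmp
  refine HQ_lam_congr fun x hx => ?_
  rw [apH_eq h hf hx, apH_eq h' hg (h.ap_mem hx)]

theorem snocH_eq {n S s x : M} (h : IsFun s n S) (hs : HC s) : snocH s x = snoc s x := by
  rw [snocH, snoc, domH_eq h hs, h.dom]

theorem FnH_iff {f a : M} (hf : HC f) : FnH f a ↔ ∃ b, IsFun f a b := by
  constructor
  · rintro ⟨h1, h2⟩
    refine ⟨sU (sU f), fun p hp => ?_, fun x hx => ?_⟩
    · obtain ⟨x, hx, y, _, rfl⟩ := h1 p hp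
      exact ⟨x, y, hx, (HQ_mem_sU hp).2, isPair_iff.mpr rfl⟩
    · obtain ⟨y, _, h3, h4⟩ := h2 x hx
      refine ⟨y, app_iff.mpr h3, fun z hz => ?_⟩
      have h5 := app_iff.mp hz
      exact h4 z (HQ_of_pr hf h5).2 h5
  · rintro ⟨b, h⟩
    refine ⟨fun p hp => ?_, fun x hx => ?_⟩
    · obtain ⟨x, hx, rfl⟩ := h.mem_iff.mp hp
      exact ⟨x, hx, _, (HQ_of_pr hf hp).2, rfl⟩
    · have h1 : pr x (ap f x) ∈ f := h.pr_mem.mpr ⟨hx, rfl⟩
      exact ⟨_, (HQ_of_pr hf h1).2, h1, fun z _ hz => (h.pr_mem.mp hz).2⟩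

theorem SurjH_iff {f a b : M} (hf : HC f) : SurjH f a b ↔ Surj f a b := by
  refine and_congr_right fun h => forall_congr' fun y => imp_congr_right fun _ =>
    exists_congr fun x => and_congr_right fun hx => ?_
  rw [apH_eq h hf hx]

theorem NtH_eq {N x : M} (hN : HC N) : NtH N x = Nt N x := by
  refine ext fun s => ?_
  rw [NtH, Nt, mem_sep, mem_sep]
  refine and_congr_right fun _ => ?_
  constructor
  · rintro ⟨p, _, d, _, h⟩
    exact ⟨p, d, h⟩
  · rintro ⟨p, d, h⟩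
    obtain ⟨_, h2⟩ := HQ_of_pr hN h.1
    obtain ⟨h3, h4⟩ := hc_of_pr h2
    exact ⟨p, h3, d, h4, h⟩

theorem HQ_hc_real {y : M} (h : IsFun y (omega M) (omega M)) : HC y :=
  hc_of_fun hDC.out hc_omega h fun _ hi => hc_omega.of_mem (h.ap_mem hi)

theorem GrH_iff {N x y : M} (hN : HC N) : GrH N x y ↔ Gr N x y := by
  refine and_congr_right fun h => forall_congr' fun n => imp_congr_right fun hn => ?_
  have hy := HQ_hc_real h
  have hr := isFun_restr_omega h hn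
  rw [restrH_eq h hy, NtH_eq hN, apH_eq h hy hn, restrH_eq h hy]
  refine and_congr_right fun _ => forall_congr' fun m => imp_congr_right fun _ => ?_
  rw [snocH_eq hr (hy.sub sep_sub)]

theorem MeetsH_iff {N x : M} (hN : HC N) : MeetsH N x ↔ Meets N x := by
  constructor
  · rintro ⟨y, _, h⟩
    exact ⟨y, (GrH_iff hN).mp h⟩
  · rintro ⟨y, h⟩
    exact ⟨y, HQ_hc_real h.1, (GrH_iff hN).mpr h⟩

theorem FvH_eq {N x : M} (hN : HC N) : FvH N x = Fv N x := by
  refine ext fun k => ?_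
  rw [FvH, Fv, mem_sep, mem_sep]
  refine and_congr_right fun hk => ?_
  constructor
  · rintro ⟨y, hy, p, _, h1, h2, h3⟩
    have h4 := (GrH_iff hN).mp h1
    rw [restrH_eq h4.1 hy] at h2
    exact ⟨y, p, h4, h2, h3⟩
  · rintro ⟨y, p, h1, h2, h3⟩
    have hy := HQ_hc_real h1.1
    refine ⟨y, hy, p, (hc_of_pr (HQ_of_pr hN h2).2).1, (GrH_iff hN).mpr h1, ?_, h3⟩
    rw [restrH_eq h1.1 hy]
    exact h2

theorem hc_Bs {n b : M} (hn : n ∈ omega M) (h : Bs n b) : HC b :=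
  hc_of_fun hDC.out (hc_omega.of_mem hn) h.1 fun _ hi => hc_om1 (h.1.ap_mem hi)

theorem BsH_iff {n b : M} (hn : n ∈ omega M) (hb : HC b) : BsH n b ↔ Bs n b := by
  constructor
  · rintro ⟨h1, h2, h3⟩
    obtain ⟨b', h⟩ := (FnH_iff hb).mp h1
    refine ⟨h.mono fun j hj => ?_, fun j hj => ?_, fun i j hj hij => ?_⟩
    · have h4 := (h2 j hj).1
      rw [apH_eq h hb hj] at h4
      exact (hc_ord_iff h4).mp (hc_ap hb h hj)
    · have h4 := (h2 j hj).2
      rwa [apH_eq h hb hj] at h4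
    · have hi := omega_mem_trans hn hij hj
      have h4 := h3 i hi j hj hij
      rwa [apH_eq h hb hi, apH_eq h hb hj] at h4
  · rintro ⟨h, h2, h3⟩
    refine ⟨(FnH_iff hb).mpr ⟨_, h⟩, fun j hj => ?_, fun i hi j hj hij => ?_⟩
    · rw [apH_eq h hb hj]
      exact ⟨(mem_om1.mp (h.ap_mem hj)).1, h2 j hj⟩
    · rw [apH_eq h hb hi, apH_eq h hb hj]
      exact h3 i j hj hij

theorem HQ_hc_diff {n m : M} (hn : n ∈ omega M) : HC (diff n m) :=
  (hc_omega.of_mem hn).sub diff_sub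

theorem HQ_hc_mem_Al {n m b s : M} (hn : n ∈ omega M) (h : s ∈ Al b m n) : HC s := by
  have h1 := (mem_Al.mp h).1
  exact hc_of_fun hDC.out (HQ_hc_diff hn) h1 fun _ hi => hc_om1 (h1.ap_mem hi)

theorem hc_Al {n m b : M} (hn : n ∈ omega M) (h : Bs n b) : HC (Al b m n) :=
  hc_of_ctbl hDC.out (Al_ctbl hDC.out hn h) fun _ hs => HQ_hc_mem_Al hn hs

theorem AlH_eq {n m b : M} (hn : n ∈ omega M) (h : Bs n b) : AlH b m n = Al b m n := by
  have hb := hc_Bs hn h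
  have key : ∀ s, HC s → (s ∈ Al b m n ↔ FnH s (diff n m) ∧
      ∀ j, j ∈ diff n m → apH s j ∈ apH b j) := by
    intro s hs
    rw [mem_Al, FnH_iff hs]
    constructor
    · rintro ⟨h1, h2⟩
      refine ⟨⟨_, h1⟩, fun j hj => ?_⟩
      rw [apH_eq h1 hs hj, apH_eq h.1 hb (diff_sub j hj)]
      exact h2 j hj
    · rintro ⟨⟨c, h1⟩, h2⟩
      have h3 : ∀ j, j ∈ diff n m → ap s j ∈ ap b j := by
        intro j hj
        have h4 := h2 j hj
        rwa [apH_eq h1 hs hj, apH_eq h.1 hb (diff_sub j hj)] at h4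
      exact ⟨h1.mono fun j hj => om1_trans (h.1.ap_mem (diff_sub j hj)) (h3 j hj), h3⟩
  refine iotaH_eq (hc_Al hn h) key fun A hA hA' => ext fun s => ?_
  constructor
  · intro hs
    have h1 := hA.of_mem hs
    exact (key s h1).mpr ((hA' s h1).mp hs)
  · intro hs
    have h1 := HQ_hc_mem_Al hn hs
    exact (hA' s h1).mpr ((key s h1).mp hs)

/-- histories are hereditarily countable -/
theorem hc_his {n m b h : M} (hn : n ∈ omega M) (hb : Bs n b)
    (hh : IsFun h (omega M) (Al b m n)) : HC h :=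
  hc_of_fun hDC.out hc_omega hh fun _ hi => (hc_Al hn hb).of_mem (hh.ap_mem hi)

end Pool.Agent.Lib.MP_3b60c8_lc
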