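import Pool.Agent.Lib.MP_3b60c8_lc.Alp

/-! ROW lst-HIS. Restrictions and extensions of histories. Everything is computed pointwise
(`mem_Al`, `IsFun.ext`, `isFun_lam'`, `ap_lam'`). -/

set_option synthInstance.maxSize 2000

namespace Pool.Agent.Lib.MP_3b60c8_lc

open Pool.Agent.Lib.MP_f5c99b_lc

universe u

variable {M : Type u} [Membership M M] [hZF : Fact (IsModelOfZF M)]

/-! ### auxiliary facts -/

theorem H_lam_congr {a : M} {t t' : M → M} [DT (fun v => t (v 0))] [DT (fun v => t' (v 0))]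
    (h : ∀ x, x ∈ a → t x = t' x) : lam a t = lam a t' := by
  refine Pool.Agent.Lib.MP_f5c99b_lc.ext fun p => ?_
  rw [mem_lam', mem_lam']
  constructor
  · rintro ⟨x, hx, rfl⟩
    exact ⟨x, hx, by rw [h x hx]⟩
  · rintro ⟨x, hx, rfl⟩
    exact ⟨x, hx, by rw [h x hx]⟩

theorem H_diff_emp (n : M) : diff n emp = n :=
  ext fun x => ⟨fun h => (mem_diff.mp h).1, fun h => mem_diff.mpr ⟨h, not_mem_emp x⟩⟩

theorem H_restr_restr {x k j : M} (h : Sub j k) : restr (restr x k) j = restr x j := by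
  refine Pool.Agent.Lib.MP_f5c99b_lc.ext fun p => ?_
  rw [restr, mem_sep, restr, mem_sep, restr, mem_sep]
  exact ⟨fun hp => ⟨hp.1.1, hp.2⟩, fun hp => ⟨⟨hp.1, h _ hp.2⟩, hp.2⟩⟩

theorem H_restr_self {x n b : M} (h : IsFun x n b) : restr x n = x := by
  rw [h.restr_eq (Sub.refl n)]
  exact h.eq_lam.symm

theorem H_al {b h n i : M} (hh : IsFun h (omega M) (Al b emp n)) (hi : i ∈ omega M) :
    IsFun (ap h i) n (om1 M) ∧ ∀ j, j ∈ n → ap (ap h i) j ∈ ap b j := by
  have h1 := mem_Al.mp (hh.ap_mem hi)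
  rwa [H_diff_emp] at h1

theorem H_sU_suc {n : M} (hn : n ∈ omega M) : sU (suc n) = n := by
  refine Pool.Agent.Lib.MP_f5c99b_lc.ext fun x => ?_
  rw [mem_sU]
  constructor
  · rintro ⟨y, hy, hx⟩
    rcases mem_suc.mp hy with hy | rfl
    · exact omega_mem_trans hn hx hy
    · exact hx
  · intro hx
    exact ⟨n, mem_suc_self n, hx⟩

theorem H_sub {j k : M} (hk : k ∈ omega M) (hj : j ∈ k) : Sub j k :=
  (omega_sub_iff (omega_trans hk hj) hk).mpr (Or.inl hj)

theorem H_rh_lam {h k : M} {i : M} (hi : i ∈ omega M) : ap (rh h k) i = restr (ap h i) k := by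
  rw [rh, ap_lam' hi]

theorem H_jn_lam {h g : M} {i : M} (hi : i ∈ omega M) : ap (jn h g) i = un (ap h i) (ap g i) := by
  rw [jn, ap_lam' hi]

theorem H_ap_un {x y m b c j a : M} (hx : IsFun x m b) (_hy : IsFun y a c) (hj : j ∉ m) :
    ap (un x y) j = ap y j := by
  have h1 : (fun z => App (un x y) j z) = fun z => App y j z := by
    funext z
    rw [app_iff, app_iff, mem_un]
    refine propext ⟨fun h => ?_, fun h => Or.inr h⟩
    rcases h with h | h
    · exact absurd (hx.pr_mem.mp h).1 hj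
    · exact h
  unfold ap
  rw [h1]

/-- restriction of a history -/
theorem rh_fun {b h n k : M} (hh : IsFun h (omega M) (Al b emp n)) (hk : Sub k n) :
    IsFun (rh h k) (omega M) (Al b emp k) := by
  unfold rh
  refine isFun_lam' fun i hi => ?_
  obtain ⟨h1, h2⟩ := H_al hh hi
  rw [mem_Al, H_diff_emp]
  refine ⟨h1.restr hk, fun j hj => ?_⟩
  rw [h1.ap_restr hk hj]
  exact h2 j (hk j hj)

theorem rh_self {b h n : M} (hh : IsFun h (omega M) (Al b emp n)) : rh h n = h := by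
  rw [hh.eq_lam]
  conv_lhs => rw [← hh.eq_lam]
  unfold rh
  exact H_lam_congr fun i hi => H_restr_self (H_al hh hi).1

theorem rh_rh {h k j : M} (hj : Sub j k) : rh (rh h k) j = rh h j := by
  unfold rh
  refine H_lam_congr fun i hi => ?_
  rw [ap_lam' hi, H_restr_restr hj]

theorem cpt_rh {b h n k j : M} (hh : IsFun h (omega M) (Al b emp n)) (hk : Sub k n)
    (hj : j ∈ k) : cpt (rh h k) j = cpt h j := by
  unfold cpt
  refine H_lam_congr fun i hi => ?_
  rw [H_rh_lam hi, (H_al hh hi).1.ap_restr hk hj]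

theorem yy_rh {e τ b h n k j : M} (hh : IsFun h (omega M) (Al b emp n)) (hk : Sub k n)
    (hj : j ∈ k) : yy e τ j (rh h k) = yy e τ j h := by
  unfold yy
  rw [cpt_rh hh hk hj]

theorem NN_rh {e τ b h n k j : M} (hh : IsFun h (omega M) (Al b emp n)) (hk : Sub k n)
    (hj : j ∈ k) (hjk : Sub j k) : NN e τ j (restr b k) (rh h k) = NN e τ j b h := by
  unfold NN
  rw [yy_rh hh hk hj, H_restr_restr hjk]

theorem Dm_rh {e τ b h n k : M} (hn : n ∈ omega M) (hk' : k ∈ omega M)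
    (hb : Bs n b) (hh : IsFun h (omega M) (Al b emp n)) (hk : Sub k n) :
    Dm e τ k (restr b k) (rh h k) ↔ Dm e τ k b h := by
  unfold Dm
  refine forall₂_congr fun j hj => ?_
  rw [cpt_rh hh hk hj, NN_rh hh hk hj (H_sub hk' hj), rh_rh (H_sub hk' hj), hb.1.ap_restr hk hj]

theorem Sta_emp {e τ s0 b h : M} : Sta e τ s0 emp b h = s0 := by
  unfold Sta
  refine iota_eq (Or.inl ⟨rfl, rfl⟩) ?_
  rintro y (⟨_, h⟩ | ⟨h, _⟩)
  · exact h
  · exact absurd rfl h

theorem Sta_suc {e τ s0 b h n : M} (hn : n ∈ omega M) :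
    Sta e τ s0 (suc n) b h = Fv (NN e τ n b h) (rh h n) := by
  unfold Sta
  refine iota_eq (Or.inr ⟨suc_ne_emp n, by rw [H_sU_suc hn]⟩) ?_
  rintro y (⟨h, _⟩ | ⟨_, h⟩)
  · exact absurd h (suc_ne_emp n)
  · rw [h, H_sU_suc hn]

theorem Sta_rh {e τ s0 b h n k : M} (hn : n ∈ omega M) (hk' : k ∈ omega M)
    (hb : Bs n b) (hh : IsFun h (omega M) (Al b emp n)) (hk : Sub k n) :
    Sta e τ s0 k (restr b k) (rh h k) = Sta e τ s0 k b h := by
  rcases omega_cases hk' with rfl | ⟨m, hm, rfl⟩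
  · rw [Sta_emp, Sta_emp]
  · rw [Sta_suc hm, Sta_suc hm, NN_rh hh hk (mem_suc_self m) (H_sub hk' (mem_suc_self m)),
      rh_rh (H_sub hk' (mem_suc_self m))]

theorem Dm_mono {e τ b h n k : M} (hk : Sub k n) (h1 : Dm e τ n b h) : Dm e τ k b h :=
  fun j hj => h1 j (hk j hj)

theorem Dm_suc {e τ b h n : M} : Dm e τ (suc n) b h ↔ Dm e τ n b h ∧
    Surj (cpt h n) (omega M) (ap b n) ∧ Meets (NN e τ n b h) (rh h n) := by
  unfold Dm
  constructor
  · intro h
    exact ⟨fun j hj => h j (mem_suc.mpr (Or.inl hj)), h n (mem_suc_self n)⟩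
  · rintro ⟨h1, h2⟩ j hj
    rcases mem_suc.mp hj with hj | rfl
    · exact h1 j hj
    · exact h2

/-- only the values of `b` below `n` matter -/
theorem Dm_congr {e τ b b' h n : M} (hn : n ∈ omega M) (h1 : restr b n = restr b' n)
    (h2 : ∀ j, j ∈ n → ap b j = ap b' j) : Dm e τ n b h ↔ Dm e τ n b' h := by
  unfold Dm
  refine forall₂_congr fun j hj => ?_
  have h3 : restr b j = restr b' j := by
    rw [← H_restr_restr (H_sub hn hj), h1, H_restr_restr (H_sub hn hj)]
  unfold NN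
  rw [h2 j hj, h3]

/-- extension of a history by further components -/
theorem rh_jn {b m n h g : M} (hm : m ∈ omega M) (hn : n ∈ omega M) (hmn : Sub m n)
    (hh : IsFun h (omega M) (Al b emp m)) (hg : IsFun g (omega M) (Al b m n)) :
    rh (jn h g) m = h := by
  rw [hh.eq_lam]
  conv_lhs => rw [← hh.eq_lam]
  unfold rh
  refine H_lam_congr fun i hi => ?_
  rw [H_jn_lam hi]
  have h1 := (H_al hh hi).1
  have h2 := (mem_Al.mp (hg.ap_mem hi)).1
  refine Pool.Agent.Lib.MP_f5c99b_lc.ext fun p => ?_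
  rw [restr, mem_sep, mem_un]
  constructor
  · rintro ⟨h3 | h3, h4⟩
    · exact h3
    · obtain ⟨x, hx, rfl⟩ := h2.mem_iff.mp h3
      rw [fst_pr] at h4
      exact absurd h4 (mem_diff.mp hx).2
  · intro h3
    refine ⟨Or.inl h3, ?_⟩
    obtain ⟨x, hx, rfl⟩ := h1.mem_iff.mp h3
    rwa [fst_pr]

theorem cpt_jn {b m n h g j : M} (hm : m ∈ omega M) (hn : n ∈ omega M) (hmn : Sub m n)
    (hh : IsFun h (omega M) (Al b emp m)) (hg : IsFun g (omega M) (Al b m n))
    (hj : j ∈ diff n m) : cpt (jn h g) j = cpt g j := by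
  unfold cpt
  refine H_lam_congr fun i hi => ?_
  rw [H_jn_lam hi, H_ap_un (H_al hh hi).1 (mem_Al.mp (hg.ap_mem hi)).1 (mem_diff.mp hj).2]

theorem jn_assoc {h f g : M} : jn (jn h f) g = jn h (jn f g) := by
  unfold jn
  refine H_lam_congr fun i hi => ?_
  rw [ap_lam' hi, ap_lam' hi]
  refine Pool.Agent.Lib.MP_f5c99b_lc.ext fun p => ?_
  rw [mem_un, mem_un, mem_un, mem_un]
  tauto

/-- the component of index `n` of almost all `g` is onto -/
theorem Am_cpt_surj (hDC : DC M) (hAD : ADN M) {n b : M} (hn : n ∈ omega M)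
    (hb : Bs (suc n) b) :
    Am (Al b n (suc n)) (fun g => Surj (cpt g n) (omega M) (ap b n)) := by
  have hn' : n ∈ suc n := mem_suc_self n
  have h1 : ap b n ∈ om1 M := hb.1.ap_mem hn'
  have h2 : Ctbl (ap b n) := (mem_om1.mp h1).2
  have h3 : ∃ x, x ∈ ap b n := ⟨emp, hb.2.1 n hn'⟩
  rw [Am_single hDC hAD hn hb]
  refine Am.mono _ _ (Am_surj hDC h2 h3) fun x hx hs => ?_
  have h4 : cpt (lam (omega M) (fun k => upair (pr n (ap x k)) (pr n (ap x k)))) n = x := by
    rw [hx.eq_lam]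
    conv_lhs => rw [← hx.eq_lam]
    unfold cpt
    refine H_lam_congr fun i hi => ?_
    rw [ap_lam' hi]
    unfold ap
    refine iota_eq ?_ ?_
    · rw [app_iff, mem_upair]
      exact Or.inl rfl
    · intro y hy
      rw [app_iff, mem_upair, or_self] at hy
      exact (pr_inj hy).2
  rw [h4]
  exact hs

end Pool.Agent.Lib.MP_3b60c8_lc
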