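import Pool.Agent.Lib.MP_3b60c8_lc.Cod
import Pool.Agent.Lib.MP_3b60c8_lc.His

/-! ROW lst-LEVL. `reply`: a play of the winning strategy `ap τ n` against the code of `f`.
`Sta_mem`: by `reply` and the second part of `Vd` (for `restr b k`). `lemma_L`: trivial for
`n = 0`; for `suc n` use `Am_Al` (`m = 0`, `k = n`, second equivalence), `Am_cpt_surj` and
for `g` with `cpt g n` onto `ap b n` the reply: its first part gives `Meets` for almost all
`f`, its second part `Dm e τ n (restr b n) f`. -/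

set_option synthInstance.maxSize 2000

namespace Pool.Agent.Lib.MP_3b60c8_lc

open Pool.Agent.Lib.MP_f5c99b_lc

universe u

variable {M : Type u} [Membership M M] [hZF : Fact (IsModelOfZF M)]

theorem reply {e τ s0 W E n β f : M} (hH : Hyp e s0 W E)
    (hw : WinII (omega M) (Pay e τ s0 W E n) (ap τ n)) (hβ : β ∈ om1 M) (h0 : emp ∈ β)
    (hf : Surj f (omega M) β) :
    ∃ δ r, δ ∈ om1 M ∧ β ∈ suc δ ∧ Surj r (omega M) δ ∧
      dO e (rep (ap τ n) (cd e (oc f) emp)) = oc r ∧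
        Vd e τ s0 W E n δ r (dA e (rep (ap τ n) (cd e (oc f) emp))) := by
  obtain ⟨hτ, hw⟩ := hw
  have hx : IsFun (cd e (oc f) emp) (omega M) (omega M) := cd_fun
  have hy : IsFun (rep (ap τ n) (cd e (oc f) emp)) (omega M) (omega M) := rep_fun hτ hx
  have h1 := hw _ _ hx hy (fun m hm => by rw [rep, ap_lam' hm])
  by_contra hc
  apply h1
  unfold Pay
  refine mem_sep.mpr ⟨pr_mem_prod.mpr ⟨mem_funs.mpr hx, mem_funs.mpr hy⟩, ?_⟩
  rw [fst_pr, snd_pr]
  exact ⟨β, f, hβ, h0, hf, dO_cd hH.inj (oc_sub f) (emp_sub _), hc⟩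

theorem LVL_restr_restr {b n k : M} (hk : Sub k n) : restr (restr b n) k = restr b k := by
  refine ext fun p => ?_
  unfold restr
  rw [mem_sep, mem_sep, mem_sep]
  exact ⟨fun h => ⟨h.1.1, h.2⟩, fun h => ⟨⟨h.1, hk _ h.2⟩, h.2⟩⟩

theorem LVL_Sta {e τ s0 n b f : M} (hn : n ∈ omega M) :
    Sta e τ s0 n (restr b n) f = Sta e τ s0 n b f := by
  rcases omega_cases hn with rfl | ⟨m, hm, rfl⟩
  · rw [Sta_emp, Sta_emp]
  · rw [Sta_suc hm, Sta_suc hm]
    unfold NN
    rw [LVL_restr_restr (fun x hx => mem_suc.mpr (Or.inl hx))]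

/-- the name at level `n` is good -/
theorem level {e τ s0 W E n b h : M} (hH : Hyp e s0 W E)
    (hw : WinII (omega M) (Pay e τ s0 W E n) (ap τ n)) (hn : n ∈ omega M) (hb : Bs (suc n) b)
    (hh : Surj (cpt h n) (omega M) (ap b n)) :
    Am (Al b emp n) (fun f => Meets (NN e τ n b h) f) ∧
      ∀ f, IsFun f (omega M) (Al b emp n) → Meets (NN e τ n b h) f →
        Dm e τ n b f ∧ Fv (NN e τ n b h) f ∈ W ∧
          ∃ δ, δ ∈ om1 M ∧ ap b n ∈ suc δ ∧
            pr δ (pr (Sta e τ s0 n b f) (Fv (NN e τ n b h) f)) ∈ E := by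
  have hnn : n ∈ suc n := mem_suc_self n
  have hβ : ap b n ∈ om1 M := hb.1.ap_mem hnn
  obtain ⟨δ, r, hδ, hβδ, hr, hO, hV⟩ := reply hH hw hβ (hb.2.1 n hnn) hh
  have hN : NN e τ n b h = Nm r (dA e (yy e τ n h)) (restr b n) := by
    unfold NN
    have : dO e (yy e τ n h) = oc r := hO
    rw [this, dr_oc hδ hr]
  have hsub : Sub n (suc n) := fun x hx => mem_suc.mpr (Or.inl hx)
  have hbr : Bs n (restr b n) := Bs_restr (suc_mem_omega hn) hb hsub hn
  have hle : ∀ j, j ∈ n → ap (restr b n) j ∈ δ := by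
    intro j hj
    rw [hb.1.ap_restr hsub hj]
    have h1 : ap b j ∈ ap b n := hb.2.2 j n hnn hj
    rcases mem_suc.mp hβδ with h2 | h2
    · exact (mem_om1.mp hδ).1.trans h2 h1
    · rwa [← h2]
  obtain ⟨hV1, hV2⟩ := hV (restr b n) hbr hle
  rw [Al_restr hb hsub] at hV1 hV2
  have hN' : Nm r (dA e (rep (ap τ n) (cd e (oc (cpt h n)) emp))) (restr b n) =
      NN e τ n b h := hN.symm
  rw [hN'] at hV1 hV2
  refine ⟨hV1, fun f hf hm => ?_⟩
  obtain ⟨h1, h2, h3⟩ := hV2 f hf hm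
  refine ⟨(Dm_congr hn (LVL_restr_restr (Sub.refl n)).symm
    (fun j hj => (hb.1.ap_restr hsub hj).symm)).mpr h1, h2, δ, hδ, hβδ, ?_⟩
  rwa [LVL_Sta hn] at h3

theorem Sta_mem {e τ s0 W E n b h : M} (hH : Hyp e s0 W E) (hn : n ∈ omega M)
    (hw : ∀ j, j ∈ n → WinII (omega M) (Pay e τ s0 W E j) (ap τ j)) (hb : Bs n b)
    (hh : IsFun h (omega M) (Al b emp n)) (hd : Dm e τ n b h) : Sta e τ s0 n b h ∈ W := by
  rcases omega_cases hn with rfl | ⟨m, hm, rfl⟩
  · rw [Sta_emp]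
    exact hH.mem
  · rw [Sta_suc hm]
    have hmm := mem_suc_self m
    obtain ⟨h1, h2⟩ := hd m hmm
    exact ((level hH (hw m hmm) hm hb h1).2 (rh h m)
      (rh_fun hh fun x hx => mem_suc.mpr (Or.inl hx)) h2).2.1

theorem lemma_L (hDC : DC M) (hAD : ADN M) {e τ s0 W E n b : M} (hH : Hyp e s0 W E)
    (hn : n ∈ omega M) (hw : ∀ j, j ∈ n → WinII (omega M) (Pay e τ s0 W E j) (ap τ j))
    (hb : Bs n b) : Am (Al b emp n) (fun h => Dm e τ n b h) := by
  rcases omega_cases hn with rfl | ⟨m, hm, rfl⟩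
  · exact Am.of_all (Al_ctbl hDC hn hb) (Al_ne hn hb) _
      (fun x _ j hj => absurd hj (not_mem_emp j))
  · have hmm := mem_suc_self m
    have hsub : Sub m (suc m) := fun x hx => mem_suc.mpr (Or.inl hx)
    have hmd : m ∈ diff (suc m) m := mem_diff.mpr ⟨hmm, not_mem_self m⟩
    refine (Am_Al hDC hAD hn emp_mem_omega hm (emp_sub m) hsub hb _).2.mpr ?_
    refine Am.mono (fun g => Surj (cpt g m) (omega M) (ap b m)) _
      (Am_cpt_surj hDC hAD hm hb) ?_
    intro g hg hs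
    obtain ⟨h1, h2⟩ := level hH (hw m hmm) hm hb hs
    refine Am.mono (fun f => Meets (NN e τ m b g) f) _ h1 ?_
    intro f hf hf'
    have hc : cpt (jn f g) m = cpt g m := cpt_jn hm hn hsub hf hg hmd
    have hr : rh (jn f g) m = f := rh_jn hm hn hsub hf hg
    have hN : NN e τ m b (jn f g) = NN e τ m b g := by
      unfold NN yy
      rw [hc]
    have hj : IsFun (jn f g) (omega M) (Al b emp (suc m)) := jn_mem (k := m) hn hm hsub hb hf hg
    refine Dm_suc.mpr ⟨?_, ?_, ?_⟩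
    · rw [← Dm_rh hn hm hb hj hsub, hr]
      exact (Dm_congr hm (LVL_restr_restr (Sub.refl m)).symm
        (fun j hj => (hb.1.ap_restr hsub hj).symm)).mp ((h2 f hf hf').1)
    · rwa [hc]
    · rwa [hN, hr]

end Pool.Agent.Lib.MP_3b60c8_lc
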