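import Pool.Agent.Lib.MP_3b60c8_lc.HEqB
import Pool.Agent.Lib.MP_3b60c8_lc.LevL

/-! ROW lst-HQ3. The copies of the definitions agree with the definitions, part 3: replies,
names, domain. `NNH_eq`: by `reply` the relation coded by `yy e τ j h` is `oc r` for a surjection
`r` onto a countable ordinal, then `drH_eq`, `dr_oc`, `NmH_eq`. -/

set_option synthInstance.maxSize 2000

namespace Pool.Agent.Lib.MP_3b60c8_lc

open Pool.Agent.Lib.MP_f5c99b_lc

universe u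

variable {M : Type u} [Membership M M] [hZF : Fact (IsModelOfZF M)] [hDC : Fact (DC M)]

theorem hc_tau {τ : M} (hτ : IsFun τ (omega M) (funs (fseq (omega M)) (omega M))) : HC τ :=
  hc_of_fun hDC.out hc_omega hτ (fun _ hy => hc_str (mem_funs.mp (hτ.ap_mem hy)))

omit hDC in
theorem HEqC_cpt_fun {b h n j : M} (hh : IsFun h (omega M) (Al b emp n)) (hj : j ∈ n) :
    IsFun (cpt h j) (omega M) (ap b j) := by
  unfold cpt
  refine isFun_lam' fun k hk => ?_
  exact (mem_Al.mp (hh.ap_mem hk)).2 j (mem_diff.mpr ⟨hj, not_mem_emp j⟩)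

theorem HEqC_hc_cpt {b h n j : M} (hb : Bs n b) (hh : IsFun h (omega M) (Al b emp n))
    (hj : j ∈ n) : HC (cpt h j) :=
  hc_of_fun hDC.out hc_omega (HEqC_cpt_fun hh hj)
    (fun _ hy => (hc_om1 (hb.1.ap_mem hj)).of_mem ((HEqC_cpt_fun hh hj).ap_mem hy))

theorem yyH_eq {e s0 W E τ n b h j : M} (hH : Hyp e s0 W E)
    (hτ : IsFun τ (omega M) (funs (fseq (omega M)) (omega M))) (hn : n ∈ omega M)
    (hb : Bs n b) (hh : IsFun h (omega M) (Al b emp n)) (hj : j ∈ n)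
    (hs : Surj (cpt h j) (omega M) (ap b j)) : yyH e τ j h = yy e τ j h := by
  have hjo : j ∈ omega M := omega_trans hn hj
  have hst : IsFun (ap τ j) (fseq (omega M)) (omega M) := mem_funs.mp (hτ.ap_mem hjo)
  unfold yyH yy
  rw [cptH_eq hn hb hh (mem_diff.mpr ⟨hj, not_mem_emp j⟩), ocH_eq hs.1 (HEqC_hc_cpt hb hh hj),
    cdH_eq hH.inj (oc_sub _) (emp_sub _), apH_eq hτ (hc_tau hτ) hjo, repH_eq hst cd_fun]

theorem NNH_eq {e s0 W E τ n b h j : M} (hH : Hyp e s0 W E)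
    (hτ : IsFun τ (omega M) (funs (fseq (omega M)) (omega M)))
    (hw : ∀ n, n ∈ omega M → WinII (omega M) (Pay e τ s0 W E n) (ap τ n)) (hn : n ∈ omega M)
    (hb : Bs n b) (hh : IsFun h (omega M) (Al b emp n)) (hj : j ∈ n)
    (hs : Surj (cpt h j) (omega M) (ap b j)) :
    NNH e τ j b h = NN e τ j b h ∧ HC (NN e τ j b h) := by
  have hjo : j ∈ omega M := omega_trans hn hj
  have hst : IsFun (ap τ j) (fseq (omega M)) (omega M) := mem_funs.mp (hτ.ap_mem hjo)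
  have hy : IsFun (yy e τ j h) (omega M) (omega M) := rep_fun hst cd_fun
  obtain ⟨δ, r, hδ, -, hr, hO, -⟩ := reply hH (hw j hjo) (hb.1.ap_mem hj) (hb.2.1 j hj) hs
  have hO' : dO e (yy e τ j h) = oc r := hO
  have hA : Sub (dA e (yy e τ j h)) (Xi M) := fun x hx => (mem_sep.mp hx).1
  have hN : NN e τ j b h = Nm r (dA e (yy e τ j h)) (restr b j) := by
    unfold NN
    rw [hO', dr_oc hδ hr]
  refine ⟨?_, ?_⟩
  · rw [hN]
    unfold NNH
    rw [yyH_eq hH hτ hn hb hh hj hs, dOH_eq hH.inj hy, dAH_eq hH.inj hy, hO', drH_eq hδ hr,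
      dr_oc hδ hr, restrH_eq hb.1 (hc_Bs hn hb), NmH_eq hδ hr.1 hA]
  · rw [hN]
    exact hc_Nm hδ hr.1 hA

theorem DmH_iff {e s0 W E τ n b h : M} (hH : Hyp e s0 W E)
    (hτ : IsFun τ (omega M) (funs (fseq (omega M)) (omega M)))
    (hw : ∀ n, n ∈ omega M → WinII (omega M) (Pay e τ s0 W E n) (ap τ n)) (hn : n ∈ omega M)
    (hb : Bs n b) (hh : IsFun h (omega M) (Al b emp n)) :
    DmH e τ n b h ↔ Dm e τ n b h := by
  unfold DmH Dm
  refine forall_congr' fun j => forall_congr' fun hj => ?_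
  have e1 : SurjH (cptH h j) (omega M) (apH b j) ↔ Surj (cpt h j) (omega M) (ap b j) := by
    rw [cptH_eq hn hb hh (mem_diff.mpr ⟨hj, not_mem_emp j⟩), apH_eq hb.1 (hc_Bs hn hb) hj]
    exact SurjH_iff (HEqC_hc_cpt hb hh hj)
  rw [e1]
  refine and_congr_right fun hs => ?_
  obtain ⟨h1, h2⟩ := NNH_eq hH hτ hw hn hb hh hj hs
  rw [h1, rhH_eq hn hb hh]
  exact MeetsH_iff h2

end Pool.Agent.Lib.MP_3b60c8_lc
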