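import Pool.Agent.Lib.MP_3b60c8_lc.HEqA
import Pool.Agent.Lib.MP_3b60c8_lc.Am

/-! ROW lst-HQ4. `AmH` is the same as `Am`: dense open subsets `O` of `A ^ ω` correspond to
dense sets of finite sequences (`{q ∈ fseq A | cone A q ⊆ O}`, and conversely
`{x | ∃ q ∈ D, q ⊆ x}`). -/

set_option synthInstance.maxSize 2000

namespace Pool.Agent.Lib.MP_3b60c8_lc

open Pool.Agent.Lib.MP_f5c99b_lc

universe u

variable {M : Type u} [Membership M M] [hZF : Fact (IsModelOfZF M)] [hDC : Fact (DC M)]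

omit hDC in
theorem HQ4_sub_restr {A p x n N : M} (_hn : n ∈ omega M) (hp : IsFun p n A) (hx : x ∈ cone A p)
    (hN : N ∈ omega M) (hnN : Sub n N) : Sub p (restr x N) := by
  obtain ⟨hx1, hx2⟩ := mem_cone.mp hx
  refine S_sub_of hp (isFun_restr_omega hx1 hN) hnN fun i hi => ?_
  rw [hx1.ap_restr (S_omega_sub hN) (hnN i hi), S_ap_eq hp hx1 hx2 hi]

omit hDC in
/-- a common extension -/
theorem HQ4_ext {A p q : M} (hne : ∃ x, x ∈ A) (hp : p ∈ fseq A) (hq : q ∈ fseq A)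
    (h : Sub (cone A q) (cone A p)) :
    ∃ r, r ∈ fseq A ∧ Sub p r ∧ Sub (cone A r) (cone A q) := by
  obtain ⟨x, hxq⟩ := S_cone_ne hne hq
  have hxp := h x hxq
  obtain ⟨n, hn, hp'⟩ := mem_fseq.mp hp
  obtain ⟨m, hm, hq'⟩ := mem_fseq.mp hq
  obtain ⟨hx, hpx⟩ := mem_cone.mp hxp
  have key : Sub n m ∨ Sub m n := by
    rcases omega_tri hn hm with h | h | h
    · exact Or.inl ((omega_sub_iff hn hm).mpr (Or.inl h))
    · exact Or.inl ((omega_sub_iff hn hm).mpr (Or.inr h))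
    · exact Or.inr ((omega_sub_iff hm hn).mpr (Or.inl h))
  rcases key with h | h
  · exact ⟨restr x m, restr_mem_fseq hx hm, HQ4_sub_restr hn hp' hxp hm h,
      S_cone_restr hm hq' hxq hm (Sub.refl m)⟩
  · exact ⟨restr x n, restr_mem_fseq hx hn, HQ4_sub_restr hn hp' hxp hn (Sub.refl n),
      S_cone_restr hm hq' hxq hn h⟩

theorem AmH_iff {A : M} (hc : HC A) (hne : ∃ x, x ∈ A) (P : M → Prop) [D (fun v => P (v 0))] :
    AmH A P ↔ Am A P := by
  have hom : HC (omega M) := hc_omega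
  constructor
  · rintro ⟨E, hE, ⟨hE1, hE2⟩, hE3⟩
    obtain ⟨b, hEb⟩ := (FnH_iff hE).mp hE1
    refine ⟨sep_sub, lam (omega M)
      (fun i => sep (funs (omega M) A) (fun x => ∃ q, q ∈ apH E i ∧ Sub q x)), ?_, ?_, ?_⟩
    · exact isFun_lam' fun i _ => mem_pow'.mpr sep_sub
    · intro n hn u hu
      obtain ⟨p, hp, rfl⟩ := mem_coneB.mp hu
      obtain ⟨q, hq, hqE, hpq⟩ := hE2 n hn p hp
      refine ⟨cone A q, mem_coneB.mpr ⟨q, hq, rfl⟩, S_cone_mono hpq, fun x hx => ?_⟩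
      rw [ap_lam' hn]
      obtain ⟨hx1, hx2⟩ := mem_cone.mp hx
      exact mem_sep.mpr ⟨mem_funs.mpr hx1, q, hqE, hx2⟩
    · intro x hx
      obtain ⟨hx1, hx2⟩ := mem_sep.mp hx
      have hxf := mem_funs.mp hx1
      by_contra hcon
      push Not at hcon
      refine hx2 (hE3 x ?_ hxf ?_)
      · exact hc_of_fun hDC.out hom hxf fun y hy => hc.of_mem (hxf.ap_mem hy)
      · intro i hi
        have h1 := hcon i hi
        rw [ap_lam' hi] at h1
        exact (mem_sep.mp h1).2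
  · rintro ⟨_, O, hO, hOD, hx⟩
    have hE : HC (lam (omega M) (fun i => sep (fseq A) (fun q => Sub (cone A q) (ap O i)))) :=
      hc_lam hDC.out hom _ fun i _ => (hc_fseq hDC.out hc).sub sep_sub
    have hEf : IsFun (lam (omega M) (fun i => sep (fseq A) (fun q => Sub (cone A q) (ap O i))))
        (omega M) (pow (fseq A)) := isFun_lam' fun i _ => mem_pow'.mpr sep_sub
    have hap : ∀ i, i ∈ omega M → apH (lam (omega M)
        (fun i => sep (fseq A) (fun q => Sub (cone A q) (ap O i)))) i =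
        sep (fseq A) (fun q => Sub (cone A q) (ap O i)) := by
      intro i hi
      rw [apH_eq hEf hE hi, ap_lam' hi]
    refine ⟨_, hE, ⟨(FnH_iff hE).mpr ⟨_, hEf⟩, ?_⟩, ?_⟩
    · intro i hi p hp
      obtain ⟨v, hv, hvp, hvO⟩ := hOD i hi (cone A p) (mem_coneB.mpr ⟨p, hp, rfl⟩)
      obtain ⟨q, hq, rfl⟩ := mem_coneB.mp hv
      obtain ⟨r, hr, hpr, hrq⟩ := HQ4_ext hne hp hq hvp
      refine ⟨r, hr, ?_, hpr⟩
      rw [hap i hi]
      exact mem_sep.mpr ⟨hr, hrq.trans hvO⟩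
    · intro g _ hg hM
      by_contra hP
      obtain ⟨n, hn, hgn⟩ := hx g (mem_sep.mpr ⟨mem_funs.mpr hg, hP⟩)
      obtain ⟨q, hq, hqg⟩ := hM n hn
      rw [hap n hn] at hq
      exact hgn ((mem_sep.mp hq).2 g (mem_cone.mpr ⟨hg, hqg⟩))

omit hDC in
theorem AmH_congr {A : M} (P Q : M → Prop)
    (h : ∀ g, IsFun g (omega M) A → (P g ↔ Q g)) : AmH A P ↔ AmH A Q := by
  constructor
  · rintro ⟨E, h1, h2, h3⟩
    exact ⟨E, h1, h2, fun g hg hgA hM => (h g hgA).mp (h3 g hg hgA hM)⟩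
  · rintro ⟨E, h1, h2, h3⟩
    exact ⟨E, h1, h2, fun g hg hgA hM => (h g hgA).mpr (h3 g hg hgA hM)⟩

end Pool.Agent.Lib.MP_3b60c8_lc
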