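import Pool.Agent.Lib.MP_3b60c8_lc.HEqC
import Pool.Agent.Lib.MP_3b60c8_lc.HEqD
import Pool.Agent.Lib.MP_3b60c8_lc.Clo

/-! ROW lst-HQ5. The set `Cc` is definable over `(HC, ∈)`. -/

set_option synthInstance.maxSize 2000

namespace Pool.Agent.Lib.MP_3b60c8_lc

open Pool.Agent.Lib.MP_f5c99b_lc

universe u

variable {M : Type u} [Membership M M] [hZF : Fact (IsModelOfZF M)] [hDC : Fact (DC M)]

omit hDC in
theorem Q5_sU_suc {n : M} (hn : n ∈ omega M) : sU (suc n) = n := by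
  refine Pool.Agent.Lib.MP_f5c99b_lc.ext fun x => ?_
  rw [mem_sU]
  constructor
  · rintro ⟨y, hy, hx⟩
    rcases mem_suc.mp hy with hy | rfl
    · exact omega_mem_trans hn hx hy
    · exact hx
  · intro hx
    exact ⟨n, mem_suc_self n, hx⟩

theorem GdH_iff {e s0 W E τ n b h : M} (hH : Hyp e s0 W E)
    (hτ : IsFun τ (omega M) (funs (fseq (omega M)) (omega M)))
    (hw : ∀ n, n ∈ omega M → WinII (omega M) (Pay e τ s0 W E n) (ap τ n)) (hb : HC b) :
    GdH e τ n b h ↔ Gd e τ n b h := by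
  unfold GdH Gd
  refine and_congr_right fun hn => ?_
  rw [BsH_iff hn hb]
  refine and_congr_right fun hbs => ?_
  rw [AlH_eq hn hbs]
  refine and_congr_right fun hh => ?_
  have key : ∀ n', n' ∈ omega M → ∀ b', Sub n n' → Bs n' b' → restr b' n = b →
      (AmH (AlH b' n n') (fun g => DmH e τ n' b' (jnH h g)) ↔
        Am (Al b' n n') (fun g => Dm e τ n' b' (jn h g))) := by
    intro n' hn' b' hnn hb' hr
    have hh' : IsFun h (omega M) (Al b' emp n) := by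
      rw [← Al_restr hb' hnn, hr]
      exact hh
    rw [AlH_eq hn' hb', AmH_congr (A := Al b' n n') (fun g => DmH e τ n' b' (jnH h g))
      (fun g => Dm e τ n' b' (jn h g)) ?_]
    · exact AmH_iff (hc_Al hn' hb') (Al_ne hn' hb') (fun g => Dm e τ n' b' (jn h g))
    · intro g hg
      show DmH e τ n' b' (jnH h g) ↔ Dm e τ n' b' (jn h g)
      rw [jnH_eq hn' hn hnn hb' hh' hg]
      exact DmH_iff hH hτ hw hn' hb' (jn_mem (k := emp) hn' hn hnn hb' hh' hg)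
  constructor
  · intro h1 n' b' hn' hnn hb' hr
    have hc := hc_Bs hn' hb'
    refine (key n' hn' b' hnn hb' hr).mp (h1 n' hn' b' hc hnn ((BsH_iff hn' hc).mpr hb') ?_)
    rw [restrH_eq hb'.1 hc]
    exact hr
  · intro h1 n' hn' b' hc hnn hb' hr
    have hb'' := (BsH_iff hn' hc).mp hb'
    rw [restrH_eq hb''.1 hc] at hr
    exact (key n' hn' b' hnn hb'' hr).mpr (h1 n' b' hn' hnn hb'' hr)

/-- uses `Gd.dm`, `Sta_suc`, `NNH_eq`, `rhH_eq`, `FvH_eq` -/
theorem CcH_iff {e s0 W E τ s : M} (hH : Hyp e s0 W E)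
    (hτ : IsFun τ (omega M) (funs (fseq (omega M)) (omega M)))
    (hw : ∀ n, n ∈ omega M → WinII (omega M) (Pay e τ s0 W E n) (ap τ n)) :
    CcH e τ s0 s ↔ s ∈ Cc e τ s0 := by
  have key : ∀ m b h, m ∈ omega M → Gd e τ (suc m) b h →
      FvH (NNH e τ (sU (suc m)) b h) (rhH h (sU (suc m))) = Sta e τ s0 (suc m) b h := by
    intro m b h hm hg
    have hj : m ∈ suc m := mem_suc_self m
    obtain ⟨h1, h2⟩ := NNH_eq hH hτ hw hg.1 hg.2.1 hg.2.2.1 hj (hg.dm hDC.out m hj).1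
    rw [Q5_sU_suc hm, Sta_suc hm, h1, rhH_eq hg.1 hg.2.1 hg.2.2.1, FvH_eq h2]
  unfold CcH Cc
  rw [mem_sep]
  constructor
  · rintro ⟨n, hn, b, hb, h, hh, hg, h1⟩
    have hg' := (GdH_iff hH hτ hw hb).mp hg
    rcases h1 with ⟨rfl, rfl⟩ | ⟨hne, rfl⟩
    · exact ⟨hH.sub _ hH.mem, emp, b, h, hg', Sta_emp.symm⟩
    · rcases omega_cases hn with rfl | ⟨m, hm, rfl⟩
      · exact absurd rfl hne
      · refine ⟨?_, suc m, b, h, hg', key m b h hm hg'⟩
        rw [key m b h hm hg', Sta_suc hm]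
        exact sep_mem_pow
  · rintro ⟨-, n, b, h, hg, h1⟩
    have hb := hc_Bs hg.1 hg.2.1
    refine ⟨n, hg.1, b, hb, h, hc_his hg.1 hg.2.1 hg.2.2.1, (GdH_iff hH hτ hw hb).mpr hg, ?_⟩
    rcases omega_cases hg.1 with rfl | ⟨m, hm, rfl⟩
    · exact Or.inl ⟨rfl, by rw [h1, Sta_emp]⟩
    · exact Or.inr ⟨suc_ne_emp m, by rw [h1, key m b h hm hg]⟩

end Pool.Agent.Lib.MP_3b60c8_lc
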