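import Pool.Agent.Lib.MP_3b60c8_lc.Am

/-! ROW lst-UNIF. Uniformization on a comeager set by a name. Unfolded Banach-Mazur game: the
moves are elements `(u, d)` of the countable set `prod (coneB A) (omega M)`, as in `B3LI`,
`B3LII` (the second components of the moves of player I do not matter), player I wins iff player II
makes the first illegal move or all moves are legal and `¬ R p s` for the point `p` of the
intersection and `s = {k | the second component of the k-th move of II is 0}`. If player I has a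
winning strategy `σ` then almost all `x` in his first move satisfy `¬ ∃ s, R x s` (as in
`B3_core`, `B3_caseI`: off the meager set of all `x` for which there are a position `t`
and a digit `d` with `x ∈ σ t` but `x ∉ σ (t ⌢ (v, d))` for all `v`, every sequence of digits
can be played), contrary to `hR` and the theorem of Baire. So player II has a winning strategy
`τ`. Let `ε : ω → coneB A` be onto, `N` the set of all `(s, (p, d))` where `s` is a finite
sequence in `ω` of length `≥ 1`, the sequence of moves `ε ∘ s` of player I is legal, and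
`(cone p, d)` is the answer of `τ` (all such `p`). Off a meager set of `x` no position is a dead
end, so the greedy path exists, and if it exists it is a play won by player II, so
`R x (Fv N x)`. -/

set_option synthInstance.maxSize 2000

namespace Pool.Agent.Lib.MP_3b60c8_lc

open Pool.Agent.Lib.MP_f5c99b_lc

universe u

variable {M : Type u} [Membership M M] [hZF : Fact (IsModelOfZF M)]

/-- the `n`-th move of player I is legal -/
def U_LI (S x y n : M) : Prop := fst (ap x n) ∈ ap S n ∧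
  ∀ k, k ∈ omega M → n = suc k → Sub (fst (ap x n)) (fst (ap y k))

instance D_U_LI (t1 t2 t3 t4 : (ℕ → M) → M) [DT t1] [DT t2] [DT t3] [DT t4] :
    D (fun v => U_LI (t1 v) (t2 v) (t3 v) (t4 v)) := by
  refine D4 (P := U_LI) ?_ t1 t2 t3 t4
  unfold U_LI
  infer_instance

/-- the `n`-th move of player II is legal -/
def U_LII (S x y n : M) : Prop := fst (ap y n) ∈ ap S n ∧ Sub (fst (ap y n)) (fst (ap x n))

instance D_U_LII (t1 t2 t3 t4 : (ℕ → M) → M) [DT t1] [DT t2] [DT t3] [DT t4] :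
    D (fun v => U_LII (t1 v) (t2 v) (t3 v) (t4 v)) := by
  refine D4 (P := U_LII) ?_ t1 t2 t3 t4
  unfold U_LII
  infer_instance

/-- the set given by the digits of player II -/
noncomputable def U_val (y : M) : M := sep (omega M) (fun k => snd (ap y k) = emp)

instance DT_U_val (t1 : (ℕ → M) → M) [DT t1] : DT (fun v => U_val (t1 v)) := by
  refine DT1 (f := U_val) ?_ t1
  unfold U_val
  infer_instance

/-- player I wins -/
def U_W (S Q x y : M) : Prop :=
  (∃ n, n ∈ omega M ∧ ¬ U_LII S x y n ∧ ∀ k, k ∈ suc n → U_LI S x y k) ∨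
  ((∀ n, n ∈ omega M → U_LI S x y n ∧ U_LII S x y n) ∧
    ∃ p, (∀ n, n ∈ omega M → p ∈ fst (ap x n)) ∧ pr p (U_val y) ∉ Q)

instance D_U_W (t1 t2 t3 t4 : (ℕ → M) → M) [DT t1] [DT t2] [DT t3] [DT t4] :
    D (fun v => U_W (t1 v) (t2 v) (t3 v) (t4 v)) := by
  refine D4 (P := U_W) ?_ t1 t2 t3 t4
  unfold U_W
  infer_instance

/-- the payoff set -/
noncomputable def U_pay (C S Q : M) : M :=
  sep (prod (funs (omega M) C) (funs (omega M) C)) (fun p => U_W S Q (fst p) (snd p))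

theorem U_mem_pay {C S Q x y : M} (hx : IsFun x (omega M) C) (hy : IsFun y (omega M) C) :
    pr x y ∈ U_pay C S Q ↔ U_W S Q x y := by
  rw [U_pay, mem_sep, fst_pr, snd_pr, pr_mem_prod, mem_funs, mem_funs]
  exact ⟨fun h => h.2, fun h => ⟨⟨hx, hy⟩, h⟩⟩

/-- dead ends are meager -/
theorem U_dead (hDC : DC M) {P B T ρ E I : M} (hb : Base P B) (hT : Ctbl T) (hI : Ctbl I)
    (h : ∀ d, d ∈ I → ∀ s, s ∈ T → ap ρ s ∈ B ∧ ∀ w, w ∈ B → Sub w (ap ρ s) →
      ∃ t, t ∈ T ∧ pr d (pr s t) ∈ E ∧ ap ρ t ∈ B ∧ Sub (ap ρ t) w) :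
    Mgr B P (sep P (fun x => ∃ d, d ∈ I ∧ ∃ s, s ∈ T ∧ x ∈ ap ρ s ∧
      ∀ t, t ∈ T → pr d (pr s t) ∈ E → x ∉ ap ρ t)) := by
  have h1 : Mgr B P (sU (img (prod I T) (fun q => sep P (fun x => x ∈ ap ρ (snd q) ∧
      ∀ t, t ∈ T → pr (fst q) (pr (snd q) t) ∈ E → x ∉ ap ρ t)))) := by
    refine Mgr.iUnion' hDC hb (hI.prod hT) _ ?_
    intro q hq
    have hd := fst_mem hq
    have hs := snd_mem hq
    obtain ⟨h2, h3⟩ := h _ hd _ hs
    refine mgr_of_od hb sep_sub ?_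
    intro w hw
    by_cases hz : ∃ z, z ∈ w ∧ z ∈ ap ρ (snd q)
    · obtain ⟨z, hz1, hz2⟩ := hz
      obtain ⟨w', hw', hz', h4, h5⟩ := hb.base w _ z hw h2 hz1 hz2
      obtain ⟨t, ht, hE, htB, htw⟩ := h3 w' hw' h5
      refine ⟨ap ρ t, htB, fun x hx => h4 x (htw x hx), fun x hx => ?_⟩
      refine mem_diff.mpr ⟨hb.sub _ htB x hx, fun h6 => ?_⟩
      exact (mem_sep.mp h6).2.2 t ht hE hx
    · refine ⟨w, hw, Sub.refl w, fun x hx => mem_diff.mpr ⟨hb.sub w hw x hx, fun h6 => ?_⟩⟩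
      exact hz ⟨x, hx, (mem_sep.mp h6).2.1⟩
  refine h1.sub fun x hx => ?_
  obtain ⟨hxP, d, hd, s, hs, hxs, h2⟩ := mem_sep.mp hx
  refine mem_sU.mpr ⟨_, mem_img.mpr ⟨pr d s, pr_mem_prod.mpr ⟨hd, hs⟩, rfl⟩, ?_⟩
  rw [mem_sep, fst_pr, snd_pr]
  exact ⟨hxP, hxs, h2⟩

/-- infinite branches -/
theorem U_branch (hDC : DC M) {C T E : M} (h0 : (emp : M) ∈ T)
    (hT : ∀ s, s ∈ T → ∃ t, t ∈ T ∧ pr s t ∈ E)
    (hE : ∀ s t, pr s t ∈ E → ∃ c, c ∈ C ∧ t = snoc s c) :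
    ∃ y, IsFun y (omega M) C ∧ ∀ n, n ∈ omega M → restr y n ∈ T ∧
      pr (restr y n) (restr y (suc n)) ∈ E := by
  obtain ⟨f, hf, hf0, hfs⟩ := dc_rel hDC h0 (fun s t => pr s t ∈ E) hT
  have hfn : ∀ n, n ∈ omega M → IsFun (ap f n) n C := by
    refine omega_induction (fun n => IsFun (ap f n) n C) ?_ ?_
    · rw [hf0]; exact isFun_emp C
    · intro n hn ih
      obtain ⟨m, hm, e⟩ := hE _ _ (hfs n hn)
      rw [e]
      exact isFun_snoc hn ih hm
  obtain ⟨y, hy, hyr⟩ := exists_limit (S := C) hfn (by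
    intro n hn i hi
    obtain ⟨m, hm, e⟩ := hE _ _ (hfs n hn)
    rw [e]
    exact ap_snoc hn (hfn n hn) hm hi)
  refine ⟨y, hy, fun n hn => ?_⟩
  rw [hyr n hn, hyr _ (suc_mem_omega hn)]
  exact ⟨hf.ap_mem hn, hfs n hn⟩

/-- legal sequences of moves of the opponent of the answering function `ρ` -/
noncomputable def U_G (C S φ ρ : M) : M :=
  sep (fseq C) (fun s => ∀ k, k ∈ dom s → ap φ (ap s k) ∈ ap S k ∧
    Sub (ap φ (ap s k)) (ap ρ (restr s k)))

theorem U_mem_G {C S φ ρ s : M} : s ∈ U_G C S φ ρ ↔ s ∈ fseq C ∧ ∀ k, k ∈ dom s →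
    ap φ (ap s k) ∈ ap S k ∧ Sub (ap φ (ap s k)) (ap ρ (restr s k)) := mem_sep

theorem U_emp_G {C S φ ρ : M} : (emp : M) ∈ U_G C S φ ρ := by
  refine U_mem_G.mpr ⟨emp_mem_fseq C, fun k hk => ?_⟩
  rw [(isFun_emp C).dom] at hk
  exact absurd hk (not_mem_emp k)

/-- initial segments of `snoc s c` -/
theorem U_restr_snoc {C s n c k : M} (hn : n ∈ omega M) (hf : IsFun s n C) (hc : c ∈ C)
    (hk : k ∈ suc n) : restr (snoc s c) k = restr s k := by
  have hf' := isFun_snoc hn hf hc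
  have hkω : k ∈ omega M := omega_trans (suc_mem_omega hn) hk
  have hres : Sub k n := (omega_sub_iff hkω hn).mpr (mem_suc.mp hk)
  have hres' : Sub k (suc n) := fun z hz => mem_suc.mpr (Or.inl (hres z hz))
  refine (hf'.restr hres').ext (hf.restr hres) fun i hi => ?_
  rw [hf'.ap_restr hres' hi, hf.ap_restr hres hi]
  exact ap_snoc hn hf hc (hres i hi)

theorem U_restr_self {C s n : M} (hf : IsFun s n C) : restr s n = s := by
  refine (hf.restr (Sub.refl n)).ext hf fun i hi => ?_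
  rw [hf.ap_restr (Sub.refl n) hi]

theorem U_snoc_G {C S φ ρ s c : M} (hs : s ∈ U_G C S φ ρ) (hc : c ∈ C)
    (hm : ap φ c ∈ ap S (dom s)) (hr : Sub (ap φ c) (ap ρ s)) : snoc s c ∈ U_G C S φ ρ := by
  obtain ⟨h1, h2⟩ := U_mem_G.mp hs
  obtain ⟨n, hn, hf⟩ := mem_fseq.mp h1
  rw [hf.dom] at hm h2
  have hf' := isFun_snoc hn hf hc
  refine U_mem_G.mpr ⟨snoc_mem h1 hc, fun k hk => ?_⟩
  rw [hf'.dom] at hk
  rw [U_restr_snoc hn hf hc hk]
  rcases mem_suc.mp hk with hk' | rfl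
  · rw [ap_snoc hn hf hc hk']
    exact h2 k hk'
  · rw [ap_snoc_last hn hf hc, U_restr_self hf]
    exact ⟨hm, hr⟩

/-- the moves of an infinite sequence all of whose initial segments are legal -/
theorem U_G_all {C S φ ρ y n : M} (hy : IsFun y (omega M) C) (hn : n ∈ omega M)
    (h : restr y n ∈ U_G C S φ ρ) (k : M) (hk : k ∈ n) :
    ap φ (ap y k) ∈ ap S k ∧ Sub (ap φ (ap y k)) (ap ρ (restr y k)) := by
  have h1 := (U_mem_G.mp h).2
  rw [(isFun_restr_omega hy hn).dom] at h1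
  obtain ⟨h2, h3⟩ := h1 k hk
  have hsub : Sub n (omega M) := fun z hz => omega_trans hn hz
  rw [hy.ap_restr hsub hk] at h2 h3
  refine ⟨h2, ?_⟩
  rwa [B3_restr ((omega_sub_iff (omega_trans hn hk) hn).mpr (Or.inl hk))] at h3

/-- the dead ends of a game in which the answers `ρ` are contained in the last move -/
theorem U_dead' (hDC : DC M) {P B C S φ ρ I E : M}
    (hb : Base P B) (hC : Ctbl C) (hI : Ctbl I) (hS : Shrink P B S)
    (hρ : ∀ s, s ∈ fseq C → ap ρ s ∈ B)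
    (hE : ∀ d s m, d ∈ I → s ∈ fseq C → m ∈ B → ∃ c, c ∈ C ∧ ap φ c = m ∧
      pr d (pr s (snoc s c)) ∈ E)
    (hstep : ∀ s c, s ∈ fseq C → c ∈ C → snoc s c ∈ U_G C S φ ρ →
      Sub (ap ρ (snoc s c)) (ap φ c)) :
    Mgr B P (sep P (fun x => ∃ d, d ∈ I ∧ ∃ s, s ∈ U_G C S φ ρ ∧ x ∈ ap ρ s ∧
      ∀ t, t ∈ U_G C S φ ρ → pr d (pr s t) ∈ E → x ∉ ap ρ t)) := by
  refine U_dead hDC hb ((Ctbl.fseq hC).sub sep_sub) hI ?_
  intro d hd s hs
  have hsf : s ∈ fseq C := (U_mem_G.mp hs).1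
  refine ⟨hρ s hsf, fun w hw hws => ?_⟩
  obtain ⟨n, hn, hf⟩ := mem_fseq.mp hsf
  obtain ⟨z, hz⟩ := hb.ne w hw
  obtain ⟨m, hm, _, hmw⟩ := hS.small n w z hn hw hz
  have hmB : m ∈ B := mem_pow.mp (hS.fn.ap_mem hn) m hm
  obtain ⟨c, hc, e, hE'⟩ := hE d s m hd hsf hmB
  have ht : snoc s c ∈ U_G C S φ ρ := by
    refine U_snoc_G hs hc ?_ ?_
    · rw [e, hf.dom]; exact hm
    · rw [e]; exact hmw.trans hws
  have h1 := hstep s _ hsf hc ht
  rw [e] at h1
  exact ⟨_, ht, hE', hρ _ (U_mem_G.mp ht).1, h1.trans hmw⟩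

/-- player I has no winning strategy -/
theorem U_caseI (hDC : DC M) {P B S Q σ : M} (hc : CSp P B) (hS : Shrink P B S)
    (hR : Mgr B P (sep P (fun x => ¬ ∃ s, s ∈ pow (omega M) ∧ pr x s ∈ Q)))
    (hσ : WinI (prod B (omega M)) (U_pay (prod B (omega M)) S Q) σ) : False := by
  have hb := hc.toBase
  obtain ⟨hσf, hσw⟩ := hσ
  obtain ⟨C, hC⟩ : ∃ C, C = prod B (omega M) := ⟨_, rfl⟩
  rw [← hC] at hσf hσw
  have hCc : Ctbl C := by rw [hC]; exact hb.ctbl.prod ctbl_omega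
  obtain ⟨ρ, hρ⟩ : ∃ ρ, ρ = lam (fseq C) (fun s => fst (ap σ s)) := ⟨_, rfl⟩
  obtain ⟨φ, hφ⟩ : ∃ φ, φ = lam C (fun c => fst c) := ⟨_, rfl⟩
  have hφ1 : ∀ c, c ∈ C → ap φ c = fst c := fun c hc => by rw [hφ, ap_lam' hc]
  have hρ1 : ∀ s, s ∈ fseq C → ap ρ s = fst (ap σ s) := fun s hs => by rw [hρ, ap_lam' hs]
  have hfstB : ∀ c, c ∈ C → fst c ∈ B := fun c hc => by rw [hC] at hc; exact fst_mem hc
  have hρB : ∀ s, s ∈ fseq C → ap ρ s ∈ B := fun s hs => by
    rw [hρ1 s hs]; exact hfstB _ (hσf.ap_mem hs)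
  have hprC : ∀ m d, m ∈ B → d ∈ omega M → pr m d ∈ C := fun m d hm hd => by
    rw [hC]; exact pr_mem_prod.mpr ⟨hm, hd⟩
  have hplay : ∀ y, IsFun y (omega M) C → ∃ x, IsFun x (omega M) C ∧
      (∀ n, n ∈ omega M → ap x n = ap σ (restr y n)) ∧ U_W S Q x y := by
    intro y hy
    have hx : IsFun (lam (omega M) (fun n => ap σ (restr y n))) (omega M) C :=
      isFun_lam fun n hn => hσf.ap_mem (restr_mem_fseq hy hn)
    have h2 : ∀ n, n ∈ omega M → ap (lam (omega M) (fun n => ap σ (restr y n))) n =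
        ap σ (restr y n) := fun n hn => ap_lam' hn
    exact ⟨_, hx, h2, (U_mem_pay hx hy).mp (hσw _ y hx hy h2)⟩
  have hleg : ∀ x y, U_W S Q x y →
      ∀ n, n ∈ omega M → (∀ k, k ∈ n → U_LII S x y k) → U_LI S x y n := by
    intro x y hW n hn hII
    rcases hW with ⟨j, hj, h1, h2⟩ | ⟨h1, _⟩
    · refine h2 n ?_
      rw [mem_suc]
      rcases omega_tri hn hj with h | h | h
      · exact Or.inl h
      · exact Or.inr h
      · exact absurd (hII j h) h1
    · exact (h1 n hn).1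
  have hLII : ∀ y x, IsFun y (omega M) C → (∀ n, n ∈ omega M → ap x n = ap σ (restr y n)) →
      ∀ n, n ∈ omega M → restr y n ∈ U_G C S φ ρ → ∀ k, k ∈ n → U_LII S x y k := by
    intro y x hy hxy n hn hr k hk
    have hkω := omega_trans hn hk
    obtain ⟨h1, h2⟩ := U_G_all hy hn hr k hk
    rw [hφ1 _ (hy.ap_mem hkω)] at h1 h2
    rw [hρ1 _ (restr_mem_fseq hy hkω), ← hxy k hkω] at h2
    exact ⟨h1, h2⟩
  have hstep : ∀ s c, s ∈ fseq C → c ∈ C → snoc s c ∈ U_G C S φ ρ →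
      Sub (ap ρ (snoc s c)) (ap φ c) := by
    intro s c hs hc hsc
    obtain ⟨n, hn, hf⟩ := mem_fseq.mp hs
    have hf' := isFun_snoc hn hf hc
    have h1 := (U_mem_G.mp hsc).1
    obtain ⟨y, hy, e⟩ := B3_ext h1 hc
    rw [hf'.dom] at e
    obtain ⟨x, hx, hxy, hW⟩ := hplay y hy
    have h3 := hleg x y hW (suc n) (suc_mem_omega hn)
      (hLII y x hy hxy _ (suc_mem_omega hn) (by rw [e]; exact hsc))
    have h8 := h3.2 n hn rfl
    have hyn : ap y n = c := by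
      have hsub : Sub (suc n) (omega M) := fun z hz => omega_trans (suc_mem_omega hn) hz
      rw [← hy.ap_restr hsub (mem_suc_self n), e, ap_snoc_last hn hf hc]
    rw [hxy (suc n) (suc_mem_omega hn), e, hyn] at h8
    rw [hρ1 _ h1, hφ1 _ hc]
    exact h8
  obtain ⟨E0, hE0⟩ : ∃ E, E = sep (prod (omega M) (prod (fseq C) (fseq C)))
      (fun q => ∃ m, m ∈ B ∧ snd (snd q) = snoc (fst (snd q)) (pr m (fst q))) := ⟨_, rfl⟩
  have hD := U_dead' hDC (C := C) (φ := φ) (ρ := ρ) (I := omega M) (E := E0) hb hCc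
    ctbl_omega hS hρB (by
      intro d s m hd hs hm
      refine ⟨pr m d, hprC m d hm hd, by rw [hφ1 _ (hprC m d hm hd), fst_pr], ?_⟩
      rw [hE0]
      refine mem_sep.mpr ⟨pr_mem_prod.mpr ⟨hd, pr_mem_prod.mpr ⟨hs,
        snoc_mem hs (hprC m d hm hd)⟩⟩, m, hm, ?_⟩
      rw [snd_pr, snd_pr, fst_pr, fst_pr]) hstep
  refine hc.baire hDC (hρB emp (emp_mem_fseq C)) ((Mgr.un hb hD hR).sub ?_)
  intro x hx
  have hxP : x ∈ P := hb.sub _ (hρB emp (emp_mem_fseq C)) x hx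
  rw [mem_un]
  by_contra hcon
  obtain ⟨h1, h2⟩ := not_or.mp hcon
  have h3 : ∃ s, s ∈ pow (omega M) ∧ pr x s ∈ Q := by
    by_contra h3
    exact h2 (mem_sep.mpr ⟨hxP, h3⟩)
  obtain ⟨s, hs, hsQ⟩ := h3
  -- the digits
  have hem : ∀ k, chiV (diff (omega M) s) k = emp ↔ (k ∈ omega M → k ∈ s) := by
    intro k
    constructor
    · intro h hk
      by_contra h'
      rw [chiV_in (mem_diff.mpr ⟨hk, h'⟩)] at h
      exact suc_ne_emp _ h
    · intro h
      exact chiV_out fun h' => (mem_diff.mp h').2 (h (mem_diff.mp h').1)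
  obtain ⟨T, hT⟩ : ∃ T, T = sep (U_G C S φ ρ) (fun t => x ∈ ap ρ t) := ⟨_, rfl⟩
  obtain ⟨E, hE⟩ : ∃ E, E = sep (prod (fseq C) (fseq C)) (fun q => ∃ m, m ∈ B ∧
      snd q = snoc (fst q) (pr m (chiV (diff (omega M) s) (dom (fst q))))) := ⟨_, rfl⟩
  obtain ⟨y, hy, hyT⟩ := U_branch hDC (C := C) (T := T) (E := E)
    (by rw [hT]; exact mem_sep.mpr ⟨U_emp_G, hx⟩)
    (by
      intro t ht
      rw [hT] at ht
      obtain ⟨ht1, ht2⟩ := mem_sep.mp ht
      have ht3 := (U_mem_G.mp ht1).1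
      by_contra hcon
      push Not at hcon
      refine h1 (mem_sep.mpr ⟨hxP, chiV (diff (omega M) s) (dom t), chiV_mem, t, ht1, ht2, ?_⟩)
      intro t' ht' hE' hx'
      refine hcon t' (by rw [hT]; exact mem_sep.mpr ⟨ht', hx'⟩) ?_
      rw [hE0] at hE'
      obtain ⟨_, m, hm, h4⟩ := mem_sep.mp hE'
      rw [snd_pr, snd_pr, fst_pr, fst_pr] at h4
      rw [hE]
      refine mem_sep.mpr ⟨pr_mem_prod.mpr ⟨ht3, (U_mem_G.mp ht').1⟩, m, hm, ?_⟩
      rw [snd_pr, fst_pr]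
      exact h4)
    (by
      intro t t' h
      rw [hE] at h
      obtain ⟨_, m, hm, h4⟩ := mem_sep.mp h
      rw [snd_pr, fst_pr] at h4
      exact ⟨_, hprC m _ hm chiV_mem, h4⟩)
  have hyG : ∀ n, n ∈ omega M → restr y n ∈ U_G C S φ ρ ∧ x ∈ ap ρ (restr y n) := by
    intro n hn
    have := (hyT n hn).1
    rw [hT] at this
    exact mem_sep.mp this
  have hyd : ∀ n, n ∈ omega M → snd (ap y n) = chiV (diff (omega M) s) n := by
    intro n hn
    have := (hyT n hn).2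
    rw [hE] at this
    obtain ⟨_, m, hm, h4⟩ := mem_sep.mp this
    have hr := isFun_restr_omega hy hn
    rw [snd_pr, fst_pr, hr.dom] at h4
    have hsub : Sub (suc n) (omega M) := fun z hz => omega_trans (suc_mem_omega hn) hz
    rw [← hy.ap_restr hsub (mem_suc_self n), h4,
      ap_snoc_last hn hr (hprC m _ hm chiV_mem), snd_pr]
  obtain ⟨xx, hxx, hxy, hW⟩ := hplay y hy
  have hII : ∀ n, n ∈ omega M → U_LII S xx y n := fun n hn =>
    hLII y xx hy hxy (suc n) (suc_mem_omega hn) (hyG _ (suc_mem_omega hn)).1 n (mem_suc_self n)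
  rcases hW with ⟨j, hj, h5, _⟩ | ⟨h5, p, hp, hpQ⟩
  · exact h5 (hII j hj)
  · have hf : IsFun (lam (omega M) (fun n => fst (ap xx n))) (omega M) B :=
      isFun_lam fun n hn => hfstB _ (hxx.ap_mem hn)
    have hfa : ∀ n, n ∈ omega M → ap (lam (omega M) (fun n => fst (ap xx n))) n =
      fst (ap xx n) := fun n hn => ap_lam' hn
    have e1 : x = p := hS.sep _ x p hf (fun n hn => by rw [hfa n hn]; exact (h5 n hn).1.1)
      (fun n hn => by
        rw [hfa n hn]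
        refine ⟨?_, hp n hn⟩
        have := (hyG n hn).2
        rwa [hρ1 _ (restr_mem_fseq hy hn), ← hxy n hn] at this)
    have e2 : U_val y = s := by
      refine ext fun k => ?_
      rw [U_val, mem_sep]
      constructor
      · rintro ⟨hk, h6⟩
        rw [hyd k hk] at h6
        exact (hem k).mp h6 hk
      · intro hk
        have hkω := mem_pow.mp hs k hk
        refine ⟨hkω, ?_⟩
        rw [hyd k hkω]
        exact (hem k).mpr fun _ => hk
    rw [← e1, e2] at hpQ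
    exact hpQ hsQ

/-- the greedy path is unique -/
theorem U_Gr_unique {N x y y' : M} (h : Gr N x y) (h' : Gr N x y') : y = y' := by
  obtain ⟨hy, h1⟩ := h
  obtain ⟨hy', h1'⟩ := h'
  have key : ∀ n, n ∈ omega M → restr y n = restr y' n := by
    refine omega_induction (fun n => restr y n = restr y' n) ?_ ?_
    · rw [C2_eq_emp (isFun_restr_omega hy emp_mem_omega),
        C2_eq_emp (isFun_restr_omega hy' emp_mem_omega)]
    · intro n hn ih
      rw [restr_suc hy hn, restr_suc hy' hn, ih]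
      have e : ap y n = ap y' n := by
        rcases omega_tri (hy.ap_mem hn) (hy'.ap_mem hn) with h2 | h2 | h2
        · refine absurd ?_ ((h1' n hn).2 _ h2)
          rw [← ih, ← restr_suc hy hn]
          exact (h1 n hn).1
        · exact h2
        · refine absurd ?_ ((h1 n hn).2 _ h2)
          rw [ih, ← restr_suc hy' hn]
          exact (h1' n hn).1
      rw [e]
  refine hy.ext hy' fun n hn => ?_
  have hsub : Sub (suc n) (omega M) := fun z hz => omega_trans (suc_mem_omega hn) hz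
  rw [← hy.ap_restr hsub (mem_suc_self n), key _ (suc_mem_omega hn),
    hy'.ap_restr hsub (mem_suc_self n)]

/-- player II has a winning strategy -/
theorem U_caseII (hDC : DC M) {A S Q τ : M} (hA : Ctbl A) (hne : ∃ x, x ∈ A)
    (hS : Shrink (funs (omega M) A) (coneB A) S)
    (hτ : WinII (prod (coneB A) (omega M)) (U_pay (prod (coneB A) (omega M)) S Q) τ) :
    ∃ N, Sub N (prod (fseq (omega M)) (prod (fseq A) (omega M))) ∧
      Am A (fun x => Meets N x) ∧ ∀ x, IsFun x (omega M) A → Meets N x → pr x (Fv N x) ∈ Q := by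
  have hb := S_base hA hne
  obtain ⟨hτf, hτw⟩ := hτ
  obtain ⟨P, hP⟩ : ∃ P, P = funs (omega M) A := ⟨_, rfl⟩
  obtain ⟨B, hB⟩ : ∃ B, B = coneB A := ⟨_, rfl⟩
  obtain ⟨C, hC⟩ : ∃ C, C = prod B (omega M) := ⟨_, rfl⟩
  obtain ⟨W, hW⟩ : ∃ W : M, W = omega M := ⟨_, rfl⟩
  rw [← hB, ← hP] at hS hb
  rw [← hB, ← hC] at hτf hτw
  have hfstB : ∀ c, c ∈ C → fst c ∈ B := fun c hc => by rw [hC] at hc; exact fst_mem hc
  have hsndω : ∀ c, c ∈ C → snd c ∈ omega M := fun c hc => by rw [hC] at hc; exact snd_mem hc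
  have hcB : cone A emp ∈ B := by rw [hB]; exact mem_coneB.mpr ⟨emp, emp_mem_fseq A, rfl⟩
  obtain ⟨ε, hε, hε'⟩ := hb.ctbl.surj ⟨_, hcB⟩
  obtain ⟨γ, hγ⟩ : ∃ γ, γ = lam (omega M) (fun i => pr (ap ε i) emp) := ⟨_, rfl⟩
  have hγf : IsFun γ (omega M) C := by
    rw [hγ, hC]
    exact isFun_lam fun i hi => pr_mem_prod.mpr ⟨hε.ap_mem hi, emp_mem_omega⟩
  have hγ1 : ∀ i, i ∈ omega M → ap γ i = pr (ap ε i) emp := fun i hi => by rw [hγ, ap_lam' hi]
  obtain ⟨V, hV⟩ : ∃ V, V = lam (fseq (omega M)) (fun s => ap τ (cmp (dom s) s γ)) := ⟨_, rfl⟩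
  have hVf : IsFun V (fseq (omega M)) C := by
    rw [hV]
    exact isFun_lam fun s hs => hτf.ap_mem (AU_cmp_mem_fseq hγf hs)
  have hV1 : ∀ s, s ∈ fseq (omega M) → ap V s = ap τ (cmp (dom s) s γ) := fun s hs => by
    rw [hV, ap_lam' hs]
  -- the answering function
  obtain ⟨ρ, hρ⟩ : ∃ ρ, ρ = lam (fseq (omega M)) (fun s => iota (fun z => (s = emp ∧
      z = cone A emp) ∨ (s ≠ emp ∧ z = fst (ap V s)))) := ⟨_, rfl⟩
  have hρ0 : ap ρ emp = cone A emp := by
    rw [hρ, ap_lam' (emp_mem_fseq (omega M))]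
    refine iota_eq (Or.inl ⟨rfl, rfl⟩) ?_
    rintro z (⟨_, h'⟩ | ⟨h', _⟩)
    · exact h'
    · exact absurd rfl h'
  have hρ1 : ∀ s, s ∈ fseq (omega M) → s ≠ emp → ap ρ s = fst (ap V s) := by
    intro s hs h
    rw [hρ, ap_lam' hs]
    refine iota_eq (Or.inr ⟨h, rfl⟩) ?_
    rintro z (⟨h', _⟩ | ⟨_, h'⟩)
    · exact absurd h' h
    · exact h'
  have hρB : ∀ s, s ∈ fseq (omega M) → ap ρ s ∈ B := by
    intro s hs
    by_cases h : s = emp
    · rw [h, hρ0]; exact hcB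
    · rw [hρ1 s hs h]; exact hfstB _ (hVf.ap_mem hs)
  have hrne : ∀ y k, IsFun y (omega M) (omega M) → k ∈ omega M → restr y (suc k) ≠ emp := by
    intro y k hy hk h
    have h1 := (isFun_restr_omega hy (suc_mem_omega hk)).dom
    rw [h, (isFun_emp (omega M)).dom] at h1
    exact suc_ne_emp k h1.symm
  -- plays
  have hplay : ∀ y, IsFun y (omega M) (omega M) → ∃ x z,
      (∀ n, n ∈ omega M → ap x n = pr (ap ε (ap y n)) emp) ∧
      (∀ n, n ∈ omega M → ap z n = ap V (restr y (suc n))) ∧ ¬ U_W S Q x z := by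
    intro y hy
    have hx : IsFun (cmp (omega M) y γ) (omega M) C := AU_isFun_cmp hy hγf
    have hz : IsFun (lam (omega M) (fun n => ap τ (restr (cmp (omega M) y γ) (suc n))))
        (omega M) C := isFun_lam fun n hn => hτf.ap_mem (restr_mem_fseq hx (suc_mem_omega hn))
    have h2 : ∀ n, n ∈ omega M → ap (lam (omega M) (fun n => ap τ (restr (cmp (omega M) y γ)
        (suc n)))) n = ap τ (restr (cmp (omega M) y γ) (suc n)) := fun n hn => ap_lam' hn
    refine ⟨_, _, ?_, ?_, fun h => hτw _ _ hx hz h2 ((U_mem_pay hx hz).mpr h)⟩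
    · intro n hn
      rw [AU_ap_cmp hn, hγ1 _ (hy.ap_mem hn)]
    · intro n hn
      have hn' := suc_mem_omega hn
      rw [h2 n hn, hV1 _ (restr_mem_fseq hy hn'), (isFun_restr_omega hy hn').dom,
        AU_cmp_restr hy hγf (S_omega_sub hn')]
  obtain ⟨L, hL⟩ : ∃ L, L = U_G (omega M) S ε ρ := ⟨_, rfl⟩
  have hLI : ∀ y x z, IsFun y (omega M) (omega M) →
      (∀ n, n ∈ omega M → ap x n = pr (ap ε (ap y n)) emp) →
      (∀ n, n ∈ omega M → ap z n = ap V (restr y (suc n))) →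
      ∀ n, n ∈ omega M → restr y n ∈ L → ∀ k, k ∈ n → U_LI S x z k := by
    intro y x z hy hx hz n hn hr k hk
    have hkω := omega_trans hn hk
    rw [hL] at hr
    obtain ⟨h1, h2⟩ := U_G_all hy hn hr k hk
    refine ⟨by rw [hx k hkω, fst_pr]; exact h1, ?_⟩
    rintro j hj rfl
    rw [hx _ hkω, fst_pr, hz j hj, ← hρ1 _ (restr_mem_fseq hy hkω) (hrne y j hy hj)]
    exact h2
  have hstep : ∀ s c, s ∈ fseq (omega M) → c ∈ omega M → snoc s c ∈ U_G (omega M) S ε ρ →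
      Sub (ap ρ (snoc s c)) (ap ε c) := by
    intro s c hs hc hsc
    obtain ⟨n, hn, hf⟩ := mem_fseq.mp hs
    have hf' := isFun_snoc hn hf hc
    have h1 := (U_mem_G.mp hsc).1
    obtain ⟨y, hy, e⟩ := B3_ext h1 hc
    rw [hf'.dom] at e
    obtain ⟨x, z, hx, hz, hW⟩ := hplay y hy
    have hyn : ap y n = c := by
      rw [← hy.ap_restr (S_omega_sub (suc_mem_omega hn)) (mem_suc_self n), e,
        ap_snoc_last hn hf hc]
    by_contra hcon
    refine hW (Or.inl ⟨n, hn, ?_, hLI y x z hy hx hz _ (suc_mem_omega hn)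
      (by rw [e, hL]; exact hsc)⟩)
    intro h3
    apply hcon
    have h4 := h3.2
    have hne' := hrne y n hy hn
    rw [e] at hne'
    rw [hz n hn, hx n hn, fst_pr, hyn, e, ← hρ1 _ h1 hne'] at h4
    exact h4
  -- the name
  obtain ⟨N, hN⟩ : ∃ N, N = sep (prod (fseq (omega M)) (prod (fseq A) (omega M)))
      (fun q => fst q ∈ L ∧ fst q ≠ emp ∧ cone A (fst (snd q)) = fst (ap V (fst q)) ∧
        snd (snd q) = snd (ap V (fst q))) := ⟨_, rfl⟩
  have hLs : ∀ s, s ∈ L → s ∈ fseq (omega M) := fun s hs => by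
    rw [hL] at hs; exact (U_mem_G.mp hs).1
  have hN1 : ∀ s p d, pr s (pr p d) ∈ N ↔ p ∈ fseq A ∧ s ∈ L ∧ s ≠ emp ∧
      cone A p = fst (ap V s) ∧ d = snd (ap V s) := by
    intro s p d
    rw [hN, mem_sep, fst_pr, snd_pr, fst_pr, snd_pr, pr_mem_prod, pr_mem_prod]
    constructor
    · rintro ⟨⟨h1, h2, h3⟩, h4, h5, h6, h7⟩
      exact ⟨h2, h4, h5, h6, h7⟩
    · rintro ⟨h2, h4, h5, h6, h7⟩
      refine ⟨⟨hLs s h4, h2, ?_⟩, h4, h5, h6, h7⟩
      rw [h7]
      exact hsndω _ (hVf.ap_mem (hLs s h4))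
  have hNt : ∀ x, IsFun x (omega M) A → ∀ s, s ∈ Nt N x ↔ s ∈ L ∧ s ≠ emp ∧ x ∈ ap ρ s := by
    intro x hx s
    rw [Nt, mem_sep]
    constructor
    · rintro ⟨hs, p, d, h1, h2⟩
      obtain ⟨h3, h4, h5, h6, h7⟩ := (hN1 s p d).mp h1
      refine ⟨h4, h5, ?_⟩
      rw [hρ1 s hs h5, ← h6]
      exact mem_cone.mpr ⟨hx, h2⟩
    · rintro ⟨h4, h5, h6⟩
      have hs := hLs s h4
      rw [hρ1 s hs h5] at h6
      have h7 := hfstB _ (hVf.ap_mem hs)
      rw [hB] at h7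
      obtain ⟨p, hp, e⟩ := mem_coneB.mp h7
      rw [e] at h6
      exact ⟨hs, p, snd (ap V s), (hN1 s p _).mpr ⟨hp, h4, h5, e.symm, rfl⟩, (mem_cone.mp h6).2⟩
  refine ⟨N, by rw [hN]; exact sep_sub, ?_, ?_⟩
  · -- almost all `x` have a greedy path
    obtain ⟨E0, hE0⟩ : ∃ E, E = sep (prod (omega M) (prod (fseq (omega M)) (fseq (omega M))))
        (fun q => ∃ m, m ∈ omega M ∧ snd (snd q) = snoc (fst (snd q)) m) := ⟨_, rfl⟩
    have hD := U_dead' hDC (C := omega M) (φ := ε) (ρ := ρ) (I := omega M) (E := E0) hb ctbl_omega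
      ctbl_omega hS hρB (by
        intro d s m hd hs hm
        obtain ⟨i, hi, e⟩ := hε' m hm
        refine ⟨i, hi, e, ?_⟩
        rw [hE0]
        refine mem_sep.mpr ⟨pr_mem_prod.mpr ⟨hd, pr_mem_prod.mpr ⟨hs, snoc_mem hs hi⟩⟩, i, hi, ?_⟩
        rw [snd_pr, snd_pr, fst_pr]) hstep
    rw [← hL] at hD
    show Mgr (coneB A) (funs (omega M) A) (sep (funs (omega M) A) (fun h => ¬ Meets N h))
    rw [← hB, ← hP]
    refine hD.sub fun x hx => ?_
    obtain ⟨hxP, hxM⟩ := mem_sep.mp hx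
    by_contra hcon
    apply hxM
    have hxf : IsFun x (omega M) A := by rw [hP] at hxP; exact mem_funs.mp hxP
    have hnext : ∀ s, s ∈ L → x ∈ ap ρ s → ∃ i, i ∈ omega M ∧ snoc s i ∈ L ∧
        x ∈ ap ρ (snoc s i) := by
      intro s hs hxs
      by_contra h1
      refine hcon (mem_sep.mpr ⟨hxP, emp, emp_mem_omega, s, hs, hxs, ?_⟩)
      intro t ht hE' hxt
      rw [hE0] at hE'
      obtain ⟨_, m, hm, h4⟩ := mem_sep.mp hE'
      rw [snd_pr, snd_pr, fst_pr] at h4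
      rw [h4] at ht hxt
      exact h1 ⟨m, hm, ht, hxt⟩
    obtain ⟨T, hT⟩ : ∃ T, T = sep L (fun t => x ∈ ap ρ t) := ⟨_, rfl⟩
    obtain ⟨E, hE⟩ : ∃ E, E = sep (prod (fseq (omega M)) (fseq (omega M)))
        (fun q => ∃ m, m ∈ omega M ∧ snd q = snoc (fst q) m ∧
          ∀ k, k ∈ m → snoc (fst q) k ∉ T) := ⟨_, rfl⟩
    have hmT : ∀ t, t ∈ T ↔ t ∈ L ∧ x ∈ ap ρ t := fun t => by rw [hT]; exact mem_sep
    obtain ⟨y, hy, hyT⟩ := U_branch hDC (C := omega M) (T := T) (E := E)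
      (by
        rw [hmT, hρ0, hL]
        exact ⟨U_emp_G, mem_cone.mpr ⟨hxf, emp_sub x⟩⟩)
      (by
        intro t ht
        obtain ⟨ht1, ht2⟩ := (hmT t).mp ht
        obtain ⟨i, hi, h1, h2⟩ := hnext t ht1 ht2
        obtain ⟨m, hm, h3, h4⟩ := exists_min (a := omega M) (fun i => snoc t i ∈ T)
          ⟨i, hi, (hmT _).mpr ⟨h1, h2⟩⟩
        refine ⟨snoc t m, h3, ?_⟩
        rw [hE]
        refine mem_sep.mpr ⟨pr_mem_prod.mpr ⟨hLs t ht1, snoc_mem (hLs t ht1) hm⟩, m, hm, ?_, ?_⟩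
        · rw [snd_pr, fst_pr]
        · intro k hk
          rw [fst_pr]
          exact h4 k hk (omega_trans hm hk))
      (by
        intro t t' h
        rw [hE] at h
        obtain ⟨_, m, hm, h4, _⟩ := mem_sep.mp h
        rw [snd_pr, fst_pr] at h4
        exact ⟨m, hm, h4⟩)
    refine ⟨y, hy, fun n hn => ⟨?_, ?_⟩⟩
    · rw [hNt x hxf]
      obtain ⟨h1, h2⟩ := (hmT _).mp (hyT _ (suc_mem_omega hn)).1
      exact ⟨h1, hrne y n hy hn, h2⟩
    · intro m hm h1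
      rw [hNt x hxf] at h1
      have h2 := (hyT n hn).2
      rw [hE] at h2
      obtain ⟨_, m', hm', h4, h5⟩ := mem_sep.mp h2
      rw [snd_pr, fst_pr] at h4
      have hr := isFun_restr_omega hy hn
      have e : ap y n = m' := by
        rw [← hy.ap_restr (S_omega_sub (suc_mem_omega hn)) (mem_suc_self n), h4,
          ap_snoc_last hn hr hm']
      rw [e] at hm
      have h6 := h5 m hm
      rw [fst_pr] at h6
      exact h6 ((hmT _).mpr ⟨h1.1, h1.2.2⟩)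
  · -- the greedy path is a play won by player II
    rintro x hxf ⟨y, hG⟩
    obtain ⟨hy, hGy⟩ := hG
    obtain ⟨xx, z, hxx, hz, hW⟩ := hplay y hy
    have h1 : ∀ n, n ∈ omega M → restr y (suc n) ∈ L ∧ x ∈ ap ρ (restr y (suc n)) := by
      intro n hn
      have := (hGy n hn).1
      rw [hNt x hxf] at this
      exact ⟨this.1, this.2.2⟩
    have hI : ∀ n, n ∈ omega M → U_LI S xx z n := fun n hn =>
      hLI y xx z hy hxx hz _ (suc_mem_omega hn) (h1 n hn).1 n (mem_suc_self n)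
    have hII : ∀ n, n ∈ omega M → U_LII S xx z n := by
      intro n hn
      by_contra hcon
      exact hW (Or.inl ⟨n, hn, hcon, fun k hk => hI k (omega_trans (suc_mem_omega hn) hk)⟩)
    have hxz : ∀ n, n ∈ omega M → x ∈ fst (ap z n) := by
      intro n hn
      have := (h1 n hn).2
      rwa [hρ1 _ (hLs _ (h1 n hn).1) (hrne y n hy hn), ← hz n hn] at this
    have e : Fv N x = U_val z := by
      refine ext fun k => ?_
      rw [Fv, mem_sep, U_val, mem_sep]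
      refine and_congr_right fun hk => ?_
      rw [hz k hk]
      constructor
      · rintro ⟨y', p, h2, h3, h4⟩
        rw [← U_Gr_unique ⟨hy, hGy⟩ h2] at h3
        exact ((hN1 _ _ _).mp h3).2.2.2.2.symm
      · intro h2
        have hs := hLs _ (h1 k hk).1
        have h7 := hfstB _ (hVf.ap_mem hs)
        rw [hB] at h7
        obtain ⟨p, hp, e⟩ := mem_coneB.mp h7
        refine ⟨y, p, ⟨hy, hGy⟩, (hN1 _ _ _).mpr ⟨hp, (h1 k hk).1, hrne y k hy hk, e.symm,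
          h2.symm⟩, ?_⟩
        have h8 := hxz k hk
        rw [hz k hk, e] at h8
        exact (mem_cone.mp h8).2
    rw [e]
    by_contra hcon
    exact hW (Or.inr ⟨fun n hn => ⟨hI n hn, hII n hn⟩, x, fun n hn => (hII n hn).2 x (hxz n hn),
      hcon⟩)

theorem unif_cat (hDC : DC M) (hAD : ADN M) {A : M} (hA : Ctbl A) (hne : ∃ x, x ∈ A)
    (R : M → M → Prop) [D (fun v => R (v 0) (v 1))]
    (hR : Am A (fun x => ∃ s, s ∈ pow (omega M) ∧ R x s)) :
    ∃ N, Sub N (prod (fseq (omega M)) (prod (fseq A) (omega M))) ∧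
      Am A (fun x => Meets N x) ∧ ∀ x, IsFun x (omega M) A → Meets N x → R x (Fv N x) := by
  rename_i hRD
  have hD1 : D (fun v : ℕ → M => R (fst (v 0)) (snd (v 0))) := D2 hRD _ _
  have hD2 : D (fun v : ℕ → M => R (v 1) (v 0)) := D2 hRD _ _
  obtain ⟨Q, hQ⟩ : ∃ Q, Q = sep (prod (funs (omega M) A) (pow (omega M)))
      (fun q => R (fst q) (snd q)) := ⟨_, rfl⟩
  have hQ1 : ∀ x s, pr x s ∈ Q ↔ (IsFun x (omega M) A ∧ s ∈ pow (omega M)) ∧ R x s := by
    intro x s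
    rw [hQ, mem_sep, fst_pr, snd_pr, pr_mem_prod, mem_funs]
  have hc := csp_seq hA hne
  obtain ⟨S, hS, _⟩ := hc.shrink
  obtain ⟨b, hb⟩ : ∃ b, b ∈ coneB A := ⟨cone A emp, mem_coneB.mpr ⟨emp, emp_mem_fseq A, rfl⟩⟩
  rcases det_ctbl hAD (hc.toBase.ctbl.prod ctbl_omega) ⟨pr b emp, pr_mem_prod.mpr
    ⟨hb, emp_mem_omega⟩⟩ (U_pay (prod (coneB A) (omega M)) S Q) with ⟨σ, hσ⟩ | ⟨τ, hτ⟩
  · refine (U_caseI hDC hc hS (Mgr.sub hR ?_) hσ).elim
    intro x hx
    obtain ⟨h1, h2⟩ := mem_sep.mp hx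
    refine mem_sep.mpr ⟨h1, fun h3 => h2 ?_⟩
    obtain ⟨s, hs, h4⟩ := h3
    exact ⟨s, hs, (hQ1 x s).mpr ⟨⟨mem_funs.mp h1, hs⟩, h4⟩⟩
  · obtain ⟨N, h1, h2, h3⟩ := U_caseII hDC hA hne hS hτ
    exact ⟨N, h1, h2, fun x hx hM => ((hQ1 _ _).mp (h3 x hx hM)).2⟩

end Pool.Agent.Lib.MP_3b60c8_lc
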