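import Pool.Agent.Lib.MP_3b60c8_lc.Bdd
import Pool.Agent.Lib.MP_3b60c8_lc.Unif
import Pool.Agent.Lib.MP_3b60c8_lc.LevL

/-! ROW lst-LEVG. Player I has no winning strategy `σ` in the game of level `n`. By `bdd`
(applied to `σ`; `pr (repI σ y) y ∈ Pay` gives `β`, `f`) there is `δ < ω₁` which is larger than
all ordinals played by `σ`; `emp ∈ δ`. For every `b` with values in `δ` apply `unif_cat` with
`A = Al b emp n`, `R h s := Dm e τ n b h ∧ s ∈ W ∧ pr δ (pr (Sta e τ s0 n b h) s) ∈ E`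
(`lemma_L`, `Sta_mem`, `Hyp.tot`). Choose the names (`Ctbl.choice`; the set of these `b` is a subset
of `fseq δ`), a surjection `r` of `ω` onto `δ`, `A` from `exists_code`, `y = cd e (oc r) A`:
player II wins the play `(repI σ y, y)`. -/

set_option synthInstance.maxSize 2000

namespace Pool.Agent.Lib.MP_3b60c8_lc

open Pool.Agent.Lib.MP_f5c99b_lc

universe u

variable {M : Type u} [Membership M M] [hZF : Fact (IsModelOfZF M)]

theorem LVG_fseq_mono {a b : M} (h : Sub a b) : Sub (fseq a) (fseq b) := by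
  intro s hs
  obtain ⟨n, hn, hs⟩ := mem_fseq.mp hs
  exact mem_fseq.mpr ⟨n, hn, hs.mono fun x hx => h _ (hs.ap_mem hx)⟩

/-- the uniformizing name for one `b` -/
theorem LVG_name (hDC : DC M) (hAD : ADN M) {e τ s0 W E n b δ : M} (hH : Hyp e s0 W E)
    (hn : n ∈ omega M) (hw : ∀ j, j ∈ n → WinII (omega M) (Pay e τ s0 W E j) (ap τ j))
    (hδ : δ ∈ om1 M) (hb : Bs n b) :
    ∃ N, Sub N (prod (fseq (omega M)) (prod (fseq (Al b emp n)) (omega M))) ∧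
      Am (Al b emp n) (fun h => Meets N h) ∧
      ∀ h, IsFun h (omega M) (Al b emp n) → Meets N h → Dm e τ n b h ∧ Fv N h ∈ W ∧
        pr δ (pr (Sta e τ s0 n b h) (Fv N h)) ∈ E := by
  refine unif_cat hDC hAD (Al_ctbl hDC hn hb) (Al_ne hn hb)
    (fun h s => Dm e τ n b h ∧ s ∈ W ∧ pr δ (pr (Sta e τ s0 n b h) s) ∈ E) ?_
  refine Am.mono (fun h => Dm e τ n b h) _ (lemma_L hDC hAD hH hn hw hb) ?_
  intro h hh hd
  obtain ⟨s, hs, hE⟩ := hH.tot δ (Sta e τ s0 n b h) hδ (Sta_mem hH hn hw hb hh hd)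
  exact ⟨s, hH.sub s hs, hd, hs, hE⟩

/-- `N` is good for `b` -/
def LVG_ok (e τ s0 W E n δ b N : M) : Prop :=
  Sub N (prod (fseq (omega M)) (prod (fseq (Al b emp n)) (omega M))) ∧
    Am (Al b emp n) (fun h => Meets N h) ∧
    ∀ h, IsFun h (omega M) (Al b emp n) → Meets N h → Dm e τ n b h ∧ Fv N h ∈ W ∧
      pr δ (pr (Sta e τ s0 n b h) (Fv N h)) ∈ E

theorem LVG_D (e τ s0 W E n δ : M) : D (fun v : ℕ → M => LVG_ok e τ s0 W E n δ (v 0) (v 1)) := by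
  unfold LVG_ok
  infer_instance

theorem lemma_G (hDC : DC M) (hAD : ADN M) {e τ s0 W E n σ : M} (hH : Hyp e s0 W E)
    (hn : n ∈ omega M) (hw : ∀ j, j ∈ n → WinII (omega M) (Pay e τ s0 W E j) (ap τ j)) :
    ¬ WinI (omega M) (Pay e τ s0 W E n) σ := by
  rintro ⟨hσ, hI⟩
  have hI' : ∀ y, IsFun y (omega M) (omega M) → IWin e τ s0 W E n (repI σ y) y := by
    intro y hy
    have h1 := hI (repI σ y) y (repI_fun hσ hy) hy (fun m hm => by rw [repI, ap_lam' hm])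
    unfold Pay at h1
    have h2 := (mem_sep.mp h1).2
    rwa [fst_pr, snd_pr] at h2
  obtain ⟨δ, hδ, hbd⟩ := bdd hDC hH.inj hσ (fun y hy => by
    obtain ⟨β, f, h1, _, h3, h4, _⟩ := hI' y hy
    exact ⟨β, f, h1, h3, h4⟩)
  have h0 : emp ∈ δ := by
    have hy : IsFun (cd e emp emp : M) (omega M) (omega M) := cd_fun
    obtain ⟨β, f, h1, h2, h3, h4, _⟩ := hI' _ hy
    exact (mem_om1.mp hδ).1.trans (hbd _ β f hy h1 h3 h4) h2
  obtain ⟨r, hr⟩ := (mem_om1.mp hδ).2.surj ⟨emp, h0⟩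
  -- the names
  haveI := LVG_D e τ s0 W E n δ
  let I : M := sep (fseq δ) (fun b => Bs n b ∧ ∀ j, j ∈ n → ap b j ∈ δ)
  have hIc : Ctbl I := (Ctbl.fseq (mem_om1.mp hδ).2).sub sep_sub
  let S : M := pow (prod (fseq (omega M)) (prod (fseq (funs (diff n emp) (om1 M))) (omega M)))
  have hAlS : ∀ b : M, Sub (prod (fseq (omega M)) (prod (fseq (Al b emp n)) (omega M)))
      (prod (fseq (omega M)) (prod (fseq (funs (diff n emp) (om1 M))) (omega M))) := fun b =>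
    prod_mono (Sub.refl _) (prod_mono (LVG_fseq_mono sep_sub) (Sub.refl _))
  obtain ⟨G, hG, hG'⟩ := Ctbl.choice hDC (S := S) hIc
    (fun b N => LVG_ok e τ s0 W E n δ b N) (by
    intro b hb
    obtain ⟨_, hb, _⟩ := mem_sep.mp hb
    obtain ⟨N, h1, h2⟩ := LVG_name hDC hAD hH hn hw hδ hb
    exact ⟨N, mem_pow'.mpr (h1.trans (hAlS b)), h1, h2⟩)
  have hbI : ∀ b, Bs n b → (∀ j, j ∈ n → ap b j ∈ δ) → b ∈ I := by
    intro b hb hb'
    exact mem_sep.mpr ⟨mem_fseq.mpr ⟨n, hn, hb.1.mono hb'⟩, hb, hb'⟩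
  obtain ⟨A, hA, hA'⟩ := exists_code (G := G) hn hδ hr
    (fun b hb hb' => (hG' b (hbI b hb hb')).1)
  have hy : IsFun (cd e (oc r) A) (omega M) (omega M) := cd_fun
  obtain ⟨β, f, h1, _, h3, h4, h5⟩ := hI' _ hy
  apply h5
  refine ⟨δ, r, hδ, mem_suc.mpr (Or.inl (hbd _ β f hy h1 h3 h4)), hr,
    dO_cd hH.inj (oc_sub r) hA, ?_⟩
  rw [dA_cd hH.inj (oc_sub r) hA]
  intro b hb hb'
  rw [hA' b hb hb']
  exact (hG' b (hbI b hb hb')).2

end Pool.Agent.Lib.MP_3b60c8_lc
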