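import Pool.Agent.Lib.MP_3b60c8_lc.Defs

/-! ROW lst-RNK. A wellfounded relation on a countable set has a rank function into `ω₁`.
Proof (as `R1_exists` in `MP_7b07e0_lc/Rank.lean`): call `X ⊆ W` closed if it contains all
`y` with `App R y x`, `x ∈ X`; `g` on a closed set `X` is good if `g x = ⋃ {suc (g y) : App R y x}`;
two good functions agree on the intersection (minimal counterexample); the union of all good functions is
good, and its domain is `W` (a minimal `x` outside the domain could be added). -/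

set_option synthInstance.maxSize 2000

namespace Pool.Agent.Lib.MP_3b60c8_lc

open Pool.Agent.Lib.MP_f5c99b_lc

universe u

variable {M : Type u} [Membership M M] [hZF : Fact (IsModelOfZF M)]

/-- the supremum of the successors of the values of `g` below `x` -/
noncomputable def Rk_F (W R g x : M) : M := sU (img (R1_seg W R x) (fun y => suc (ap g y)))

instance DT_Rk_F (t1 t2 t3 t4 : (ℕ → M) → M) [DT t1] [DT t2] [DT t3] [DT t4] :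
    DT (fun v => Rk_F (t1 v) (t2 v) (t3 v) (t4 v)) := by
  refine DT4 (f := Rk_F) ?_ t1 t2 t3 t4
  unfold Rk_F
  infer_instance

/-- `g` is a good rank function on the closed set `X` -/
def Rk_P (W R X g : M) : Prop := Sub X W ∧ (∀ x, x ∈ X → ∀ y, y ∈ R1_seg W R x → y ∈ X) ∧
  IsFun g X (om1 M) ∧ ∀ x, x ∈ X → ap g x = Rk_F W R g x

instance D_Rk_P (t1 t2 t3 t4 : (ℕ → M) → M) [DT t1] [DT t2] [DT t3] [DT t4] :
    D (fun v => Rk_P (t1 v) (t2 v) (t3 v) (t4 v)) := by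
  refine D4 (P := Rk_P) ?_ t1 t2 t3 t4
  unfold Rk_P
  infer_instance

/-- the value of the rank function at `x` -/
noncomputable def Rk_t (W R x : M) : M :=
  iota (fun α => ∃ X g, Rk_P W R X g ∧ x ∈ X ∧ α = ap g x)

instance DT_Rk_t (t1 t2 t3 : (ℕ → M) → M) [DT t1] [DT t2] [DT t3] :
    DT (fun v => Rk_t (t1 v) (t2 v) (t3 v)) := by
  refine DT3 (f := Rk_t) ?_ t1 t2 t3
  unfold Rk_t
  infer_instance

theorem Rk_F_congr {W R g g' x : M} (h : ∀ y, y ∈ R1_seg W R x → ap g y = ap g' y) :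
    Rk_F W R g x = Rk_F W R g' x := by
  unfold Rk_F
  rw [R1_img_congr (s := fun y => suc (ap g y)) (t := fun y => suc (ap g' y))
    fun y hy => by simp only [h y hy]]

theorem Rk_agree {W R : M}
    (hR : ∀ X, Sub X W → (∃ x, x ∈ X) → ∃ x, x ∈ X ∧ ∀ y, y ∈ X → ¬ App R y x)
    {X g X' g' : M} (hg : Rk_P W R X g) (hg' : Rk_P W R X' g') :
    ∀ y, y ∈ X → y ∈ X' → ap g y = ap g' y := by
  by_contra hcon
  push Not at hcon
  obtain ⟨y0, h1, h2, h3⟩ := hcon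
  obtain ⟨y, hy, hmin⟩ := hR (sep X (fun y => y ∈ X' ∧ ¬ ap g y = ap g' y))
    (fun y hy => hg.1 y (mem_sep.mp hy).1) ⟨y0, mem_sep.mpr ⟨h1, h2, h3⟩⟩
  obtain ⟨hy1, hy2, hne⟩ := mem_sep.mp hy
  refine hne ?_
  rw [hg.2.2.2 y hy1, hg'.2.2.2 y hy2]
  refine Rk_F_congr fun z hz => ?_
  by_contra hz'
  exact hmin z (mem_sep.mpr ⟨hg.2.1 y hy1 z hz, hg'.2.1 y hy2 z hz, hz'⟩) (R1_mem_seg.mp hz).2

theorem Rk_t_eq {W R : M}
    (hR : ∀ X, Sub X W → (∃ x, x ∈ X) → ∃ x, x ∈ X ∧ ∀ y, y ∈ X → ¬ App R y x)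
    {X g x : M} (hg : Rk_P W R X g) (hx : x ∈ X) : Rk_t W R x = ap g x := by
  refine iota_eq ⟨X, g, hg, hx, rfl⟩ ?_
  rintro α ⟨X', g', hg', hx', rfl⟩
  exact Rk_agree hR hg' hg x hx' hx

/-- the function given by the values `Rk_t` on `X` -/
noncomputable def Rk_g (W R X : M) : M := lam X (fun x => Rk_t W R x)

theorem Rk_exists (hDC : DC M) {W R : M} (hW : Ctbl W)
    (hR : ∀ X, Sub X W → (∃ x, x ∈ X) → ∃ x, x ∈ X ∧ ∀ y, y ∈ X → ¬ App R y x) :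
    ∀ x, x ∈ W → ∃ X g, Rk_P W R X g ∧ x ∈ X := by
  by_contra hcon
  push Not at hcon
  obtain ⟨x0, h1, h2⟩ := hcon
  obtain ⟨x, hx, hmin⟩ := hR (sep W (fun x => ¬ ∃ X g, Rk_P W R X g ∧ x ∈ X)) sep_sub
    ⟨x0, mem_sep.mpr ⟨h1, fun ⟨X, g, hg, hX⟩ => h2 X g hg hX⟩⟩
  obtain ⟨hxW, hxn⟩ := mem_sep.mp hx
  -- the good part
  obtain ⟨Dm, hDm⟩ : ∃ Dm, Dm = sep W (fun x => ∃ X g, Rk_P W R X g ∧ x ∈ X) := ⟨_, rfl⟩
  have hD : ∀ z, z ∈ Dm ↔ z ∈ W ∧ ∃ X g, Rk_P W R X g ∧ z ∈ X := fun z => by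
    rw [hDm]; exact mem_sep
  have hDcl : ∀ z, z ∈ Dm → ∀ y, y ∈ R1_seg W R z → y ∈ Dm := by
    intro z hz y hy
    obtain ⟨_, X, g, hg, hzX⟩ := (hD z).mp hz
    exact (hD y).mpr ⟨(R1_mem_seg.mp hy).1, X, g, hg, hg.2.1 z hzX y hy⟩
  have hxcl : ∀ y, y ∈ R1_seg W R x → y ∈ Dm := by
    intro y hy
    by_contra hy'
    exact hmin y (mem_sep.mpr ⟨(R1_mem_seg.mp hy).1, fun h =>
      hy' ((hD y).mpr ⟨(R1_mem_seg.mp hy).1, h⟩)⟩) (R1_mem_seg.mp hy).2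
  have htm : ∀ z, z ∈ Dm → Rk_t W R z ∈ om1 M := by
    intro z hz
    obtain ⟨_, X, g, hg, hzX⟩ := (hD z).mp hz
    rw [Rk_t_eq hR hg hzX]
    exact hg.2.2.1.ap_mem hzX
  have hGap : ∀ z, z ∈ Dm → ap (Rk_g W R Dm) z = Rk_t W R z := fun z hz => ap_lam' hz
  -- equation for the values
  have hteq : ∀ z, z ∈ Dm → Rk_t W R z = Rk_F W R (Rk_g W R Dm) z := by
    intro z hz
    obtain ⟨_, X, g, hg, hzX⟩ := (hD z).mp hz
    rw [Rk_t_eq hR hg hzX, hg.2.2.2 z hzX]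
    refine Rk_F_congr fun y hy => ?_
    rw [hGap y (hDcl z hz y hy), Rk_t_eq hR hg (hg.2.1 z hzX y hy)]
  -- the extension
  obtain ⟨G, hG⟩ : ∃ G, G = Rk_g W R Dm := ⟨_, rfl⟩
  rw [← hG] at hGap hteq
  obtain ⟨X', hX'⟩ : ∃ X', X' = sep W (fun z => z ∈ Dm ∨ z = x) := ⟨_, rfl⟩
  have hX : ∀ z, z ∈ X' ↔ z ∈ W ∧ (z ∈ Dm ∨ z = x) := fun z => by rw [hX']; exact mem_sep
  have hcl' : ∀ z, z ∈ X' → ∀ y, y ∈ R1_seg W R z → y ∈ Dm := by
    intro z hz y hy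
    obtain ⟨_, hz | rfl⟩ := (hX z).mp hz
    · exact hDcl z hz y hy
    · exact hxcl y hy
  have hDX : ∀ z, z ∈ Dm → z ∈ X' := fun z hz => (hX z).mpr ⟨((hD z).mp hz).1, Or.inl hz⟩
  have hxX : x ∈ X' := (hX x).mpr ⟨hxW, Or.inr rfl⟩
  have hFm : ∀ z, z ∈ X' → Rk_F W R G z ∈ om1 M := by
    intro z hz
    unfold Rk_F
    refine om1_sup hDC ?_ ((hW.sub sep_sub).img (fun y => suc (ap G y)))
    intro u hu
    obtain ⟨y, hy, rfl⟩ := mem_img.mp hu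
    refine suc_mem_om1 ?_
    rw [hGap y (hcl' z hz y hy)]
    exact htm y (hcl' z hz y hy)
  refine hxn ⟨X', lam X' (fun z => Rk_F W R G z), ⟨fun z hz => ((hX z).mp hz).1,
    fun z hz y hy => hDX y (hcl' z hz y hy), isFun_lam' hFm, fun z hz => ?_⟩, hxX⟩
  rw [ap_lam' hz]
  refine Rk_F_congr fun y hy => ?_
  have hyD := hcl' z hz y hy
  rw [ap_lam' (hDX y hyD), hGap y hyD, hteq y hyD]

theorem exists_rank (hDC : DC M) {W R : M} (hW : Ctbl W)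
    (hR : ∀ X, Sub X W → (∃ x, x ∈ X) → ∃ x, x ∈ X ∧ ∀ y, y ∈ X → ¬ App R y x) :
    ∃ ρ, IsFun ρ W (om1 M) ∧ ∀ x y, x ∈ W → y ∈ W → App R y x → ap ρ y ∈ ap ρ x := by
  refine ⟨lam W (fun x => Rk_t W R x), isFun_lam' fun x hx => ?_, fun x y hx hy hyx => ?_⟩
  · obtain ⟨X, g, hg, hxX⟩ := Rk_exists hDC hW hR x hx
    rw [Rk_t_eq hR hg hxX]
    exact hg.2.2.1.ap_mem hxX
  · obtain ⟨X, g, hg, hxX⟩ := Rk_exists hDC hW hR x hx
    have hys : y ∈ R1_seg W R x := R1_mem_seg.mpr ⟨hy, hyx⟩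
    have hyX := hg.2.1 x hxX y hys
    rw [ap_lam' hx, ap_lam' hy, Rk_t_eq hR hg hxX, Rk_t_eq hR hg hyX, hg.2.2.2 x hxX]
    unfold Rk_F
    exact mem_sU.mpr ⟨suc (ap g y), mem_img.mpr ⟨y, hys, rfl⟩, mem_suc_self _⟩

end Pool.Agent.Lib.MP_3b60c8_lc
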