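import Pool.Agent.Lib.MP_3b60c8_lc.LevG

/-! The payoff set of level `n` depends only on `ap τ j`, `j ∈ n`; so the winning strategies can be
chosen by `DC`. -/

set_option synthInstance.maxSize 2000

namespace Pool.Agent.Lib.MP_3b60c8_lc

open Pool.Agent.Lib.MP_f5c99b_lc

universe u

variable {M : Type u} [Membership M M] [hZF : Fact (IsModelOfZF M)]

theorem TAU_NN {e τ τ' j b h : M} (hj : ap τ j = ap τ' j) : NN e τ j b h = NN e τ' j b h := by
  unfold NN yy
  rw [hj]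

theorem TAU_Dm {e τ τ' n b h : M} (hj : ∀ j, j ∈ n → ap τ j = ap τ' j) :
    Dm e τ n b h ↔ Dm e τ' n b h := by
  unfold Dm
  constructor
  · intro h1 j hjn
    have h2 := h1 j hjn
    rw [TAU_NN (hj j hjn)] at h2
    exact h2
  · intro h1 j hjn
    have h2 := h1 j hjn
    rw [← TAU_NN (hj j hjn)] at h2
    exact h2

theorem TAU_Sta {e τ τ' s0 n b h : M} (hn : n ∈ omega M) (hj : ∀ j, j ∈ n → ap τ j = ap τ' j) :
    Sta e τ s0 n b h = Sta e τ' s0 n b h := by
  rcases omega_cases hn with rfl | ⟨m, hm, rfl⟩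
  · rw [Sta_emp, Sta_emp]
  · rw [Sta_suc hm, Sta_suc hm, TAU_NN (hj m (mem_suc_self m))]

theorem TAU_Vd {e τ τ' s0 W E n δ r A : M} (hn : n ∈ omega M)
    (hj : ∀ j, j ∈ n → ap τ j = ap τ' j) :
    Vd e τ s0 W E n δ r A ↔ Vd e τ' s0 W E n δ r A := by
  unfold Vd
  refine forall_congr' fun b => imp_congr_right fun _ => imp_congr_right fun _ =>
    and_congr_right fun _ => forall_congr' fun h => imp_congr_right fun _ =>
      imp_congr_right fun _ => ?_
  rw [TAU_Dm hj, TAU_Sta hn hj]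

theorem Pay_congr {e τ τ' s0 W E n : M} (hn : n ∈ omega M)
    (h : ∀ j, j ∈ n → ap τ j = ap τ' j) : Pay e τ s0 W E n = Pay e τ' s0 W E n := by
  refine ext fun p => ?_
  unfold Pay
  rw [mem_sep, mem_sep]
  refine and_congr_right fun _ => ?_
  unfold IWin
  simp only [TAU_Vd hn h]

/-- the finite sequences of strategies -/
noncomputable def TAU_S (e s0 W E : M) : M :=
  sep (fseq (funs (fseq (omega M)) (omega M)))
    (fun t => ∀ j, j ∈ dom t → WinII (omega M) (Pay e t s0 W E j) (ap t j))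

theorem TAU_mem {e s0 W E t : M} : t ∈ TAU_S e s0 W E ↔
    t ∈ fseq (funs (fseq (omega M)) (omega M)) ∧
      ∀ j, j ∈ dom t → WinII (omega M) (Pay e t s0 W E j) (ap t j) := mem_sep

theorem TAU_step (hDC : DC M) (hAD : ADN M) {e s0 W E t : M} (hH : Hyp e s0 W E)
    (ht : t ∈ TAU_S e s0 W E) :
    ∃ t', t' ∈ TAU_S e s0 W E ∧ ∃ σ, σ ∈ funs (fseq (omega M)) (omega M) ∧ t' = snoc t σ := by
  obtain ⟨ht1, ht2⟩ := TAU_mem.mp ht
  obtain ⟨n, hn, htf⟩ := mem_fseq.mp ht1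
  rw [htf.dom] at ht2
  rcases hAD (Pay e t s0 W E n) with ⟨σ, hσ⟩ | ⟨σ, hσ⟩
  · exact absurd hσ (lemma_G hDC hAD hH hn ht2)
  · have hσS : σ ∈ funs (fseq (omega M)) (omega M) := mem_funs.mpr hσ.1
    refine ⟨snoc t σ, TAU_mem.mpr ⟨snoc_mem ht1 hσS, ?_⟩, σ, hσS, rfl⟩
    have hf := isFun_snoc hn htf hσS
    rw [hf.dom]
    intro j hj
    rcases mem_suc.mp hj with hj | rfl
    · have h1 : Pay e (snoc t σ) s0 W E j = Pay e t s0 W E j :=
        Pay_congr (omega_trans hn hj) fun i hi =>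
          ap_snoc hn htf hσS (omega_mem_trans hn hi hj)
      rw [h1, ap_snoc hn htf hσS hj]
      exact ht2 j hj
    · have h1 : Pay e (snoc t σ) s0 W E j = Pay e t s0 W E j :=
        Pay_congr hn fun i hi => ap_snoc hn htf hσS hi
      rw [h1, ap_snoc_last hn htf hσS]
      exact hσ

theorem exists_tau (hDC : DC M) (hAD : ADN M) {e s0 W E : M} (hH : Hyp e s0 W E) :
    ∃ τ, IsFun τ (omega M) (funs (fseq (omega M)) (omega M)) ∧
      ∀ n, n ∈ omega M → WinII (omega M) (Pay e τ s0 W E n) (ap τ n) := by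
  have h0 : (emp : M) ∈ TAU_S e s0 W E := by
    refine TAU_mem.mpr ⟨emp_mem_fseq _, ?_⟩
    rw [(isFun_emp (emp : M)).dom]
    intro j hj
    exact (not_mem_emp j hj).elim
  obtain ⟨f, hf, hf0, hf1⟩ := dc_rel hDC h0
    (fun t t' => ∃ σ, σ ∈ funs (fseq (omega M)) (omega M) ∧ t' = snoc t σ)
    (fun t ht => TAU_step hDC hAD hH ht)
  have hlen : ∀ n, n ∈ omega M → IsFun (ap f n) n (funs (fseq (omega M)) (omega M)) := by
    refine omega_induction (fun n => IsFun (ap f n) n (funs (fseq (omega M)) (omega M))) ?_ ?_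
    · rw [hf0]
      exact isFun_emp _
    · intro n hn ih
      obtain ⟨σ, hσ, h1⟩ := hf1 n hn
      rw [h1]
      exact isFun_snoc hn ih hσ
  have hext : ∀ n, n ∈ omega M → ∀ i, i ∈ n → ap (ap f (suc n)) i = ap (ap f n) i := by
    intro n hn i hi
    obtain ⟨σ, hσ, h1⟩ := hf1 n hn
    rw [h1]
    exact ap_snoc hn (hlen n hn) hσ hi
  obtain ⟨x, hx, hx'⟩ := exists_limit hlen hext
  refine ⟨x, hx, fun n hn => ?_⟩
  have hsn := suc_mem_omega hn
  have h1 := (TAU_mem.mp (hf.ap_mem hsn)).2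
  rw [(hlen _ hsn).dom] at h1
  have h2 := h1 n (mem_suc_self n)
  have h3 : ∀ j, j ∈ suc n → ap x j = ap (ap f (suc n)) j := by
    intro j hj
    rw [← hx' _ hsn, hx.ap_restr (C2_sub_omega hsn) hj]
  rw [h3 n (mem_suc_self n), Pay_congr hn fun j hj => h3 j (mem_suc.mpr (Or.inl hj))]
  exact h2

end Pool.Agent.Lib.MP_3b60c8_lc
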