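import Pool.Agent.Lib.MP_3b60c8_lc.Ts
import Pool.Agent.Lib.MP_3b60c8_lc.HEqE

/-! ROW lst-TREE. The coding theorem for splitting trees. `TW` = the set of the reals which
code nonempty countable subsets of `T` closed under initial segments, `TE` = the relation: for all
`q ∈ Ts c s` and `ξ ∈ δ` there is `x` with `g x = ε ξ` and `q ⌢ x ∈ Ts c s'`. `TE_tot`: the set
`Ts c s × δ` is countable, choose an `x` for every element (`Ctbl.choice`) and add all the sequences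
`q ⌢ x` to `Ts c s` (`exists_Ts`). `tree_main`: `main_P`, `exists_tau`, `exists_e`; the new tree is
`⋃ {Ts c s | s ∈ Cc e τ s0}`; given `q ∈ Ts c s` and `α = ε ξ ∈ l` apply `main_P` with
`δ = suc ξ`. -/

set_option synthInstance.maxSize 2000

namespace Pool.Agent.Lib.MP_3b60c8_lc

open Pool.Agent.Lib.MP_f5c99b_lc

universe u

variable {M : Type u} [Membership M M] [hZF : Fact (IsModelOfZF M)]

/-- `T` is closed under initial segments -/
def Cld (T : M) : Prop := ∀ q, q ∈ T → ∀ p, p ∈ fseq (pow (omega M)) → Sub p q → p ∈ T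

instance D_Cld (t1 : (ℕ → M) → M) [DT t1] : D (fun v => Cld (t1 v)) := by
  refine D1 (P := Cld) ?_ t1
  unfold Cld
  infer_instance

/-- every element of `T` has for every `α ∈ l` an extension by some `x` with `g x = α` -/
def Spl (g l T : M) : Prop := ∀ q, q ∈ T → ∀ α, α ∈ l →
  ∃ x, x ∈ pow (omega M) ∧ ap g x = α ∧ snoc q x ∈ T

instance D_Spl (t1 t2 t3 : (ℕ → M) → M) [DT t1] [DT t2] [DT t3] :
    D (fun v => Spl (t1 v) (t2 v) (t3 v)) := by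
  refine D3 (P := Spl) ?_ t1 t2 t3
  unfold Spl
  infer_instance

/-- the reals which code nonempty countable subsets of `T` closed under initial segments -/
noncomputable def TW (c T : M) : M :=
  sep (pow (omega M)) (fun s => Sub (Ts c s) T ∧ (∃ q, q ∈ Ts c s) ∧ Cld (Ts c s))

instance DT_TW (t1 t2 : (ℕ → M) → M) [DT t1] [DT t2] : DT (fun v => TW (t1 v) (t2 v)) := by
  refine DT2 (f := TW) ?_ t1 t2
  unfold TW
  infer_instance

/-- the relation between the states -/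
noncomputable def TE (c g ε T : M) : M :=
  sep (prod (om1 M) (prod (TW c T) (TW c T))) (fun z => ∀ q, q ∈ Ts c (fst (snd z)) →
    ∀ ξ, ξ ∈ fst z → ∃ x, x ∈ pow (omega M) ∧ ap g x = ap ε ξ ∧ snoc q x ∈ Ts c (snd (snd z)))

instance DT_TE (t1 t2 t3 t4 : (ℕ → M) → M) [DT t1] [DT t2] [DT t3] [DT t4] :
    DT (fun v => TE (t1 v) (t2 v) (t3 v) (t4 v)) := by
  refine DT4 (f := TE) ?_ t1 t2 t3 t4
  unfold TE
  infer_instance

theorem mem_TE {c g ε T δ s s' : M} : pr δ (pr s s') ∈ TE c g ε T ↔ δ ∈ om1 M ∧ s ∈ TW c T ∧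
    s' ∈ TW c T ∧ ∀ q, q ∈ Ts c s → ∀ ξ, ξ ∈ δ →
      ∃ x, x ∈ pow (omega M) ∧ ap g x = ap ε ξ ∧ snoc q x ∈ Ts c s' := by
  unfold TE
  rw [mem_sep, fst_pr, snd_pr, fst_pr, snd_pr, pr_mem_prod, pr_mem_prod]
  constructor
  · rintro ⟨⟨h1, h2, h3⟩, h4⟩
    exact ⟨h1, h2, h3, h4⟩
  · rintro ⟨h1, h2, h3, h4⟩
    exact ⟨⟨h1, h2, h3⟩, h4⟩

/-- an initial segment of `q ⌢ x` is `q ⌢ x` or an initial segment of `q` -/
theorem TR_sub_snoc {S q x p : M} (hq : q ∈ fseq S) (hx : x ∈ S) (hp : p ∈ fseq S)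
    (h : Sub p (snoc q x)) : p = snoc q x ∨ Sub p q := by
  obtain ⟨n, hn, hqf⟩ := mem_fseq.mp hq
  obtain ⟨m, hm, hpf⟩ := mem_fseq.mp hp
  by_cases hc : pr n x ∈ p
  · left
    have hnm : n ∈ m := (hpf.pr_mem.mp hc).1
    have hsub : Sub m (suc n) := by
      intro i hi
      have h1 : pr i (ap p i) ∈ p := hpf.mem_iff.mpr ⟨i, hi, rfl⟩
      have h2 := h _ h1
      exact ((isFun_snoc hn hqf hx).pr_mem.mp h2).1
    have hmn : m = suc n := by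
      refine ext fun i => ⟨fun hi => hsub i hi, fun hi => ?_⟩
      rcases mem_suc.mp hi with hi | hi
      · exact (ord_of_omega hm).trans hnm hi
      · rw [hi]; exact hnm
    subst hmn
    refine hpf.ext (isFun_snoc hn hqf hx) fun i hi => ?_
    have h1 : pr i (ap p i) ∈ p := hpf.mem_iff.mpr ⟨i, hi, rfl⟩
    exact ((isFun_snoc hn hqf hx).pr_mem.mp (h _ h1)).2
  · right
    intro z hz
    have h1 := h z hz
    rw [snoc, hqf.dom, mem_un] at h1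
    rcases h1 with h1 | h1
    · exact h1
    · rcases mem_upair.mp h1 with h1 | h1 <;> exact absurd (h1 ▸ hz) hc

theorem TE_tot (hDC : DC M) {c g l ε T δ s : M}
    (hc : Inj c (prod (omega M) (prod (omega M) (omega M))) (omega M))
    (hε : Surj ε (om1 M) l) (hT : Sub T (fseq (pow (omega M)))) (hcl : Cld T)
    (hs : Spl g l T) (hδ : δ ∈ om1 M) (hsW : s ∈ TW c T) :
    ∃ s', s' ∈ TW c T ∧ pr δ (pr s s') ∈ TE c g ε T := by
  have hsW' := hsW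
  unfold TW at hsW'
  obtain ⟨h1, h2, h3, h4⟩ := mem_sep.mp hsW'
  have hI : Ctbl (prod (Ts c s) δ) := (Ts_ctbl hDC).prod (mem_om1.mp hδ).2
  obtain ⟨G, hG, hG'⟩ := Ctbl.choice hDC (S := pow (omega M)) hI
    (fun i x => ap g x = ap ε (snd i) ∧ snoc (fst i) x ∈ T) (by
    intro i hi
    obtain ⟨q, hq, ξ, hξ, rfl⟩ := mem_prod.mp hi
    obtain ⟨x, hx, hgx, hxT⟩ := hs q (h2 q hq) (ap ε ξ) (hε.1.ap_mem (om1_trans hδ hξ))
    refine ⟨x, hx, ?_⟩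
    rw [fst_pr, snd_pr]
    exact ⟨hgx, hxT⟩)
  have hTs : Sub (Ts c s) (fseq (pow (omega M))) := sep_sub
  let X : M := un (Ts c s) (img (prod (Ts c s) δ) (fun i => snoc (fst i) (ap G i)))
  have hXc : Ctbl X := (Ts_ctbl hDC).un (hI.img _)
  have hXT : Sub X T := by
    intro z hz
    rcases mem_un.mp hz with hz | hz
    · exact h2 z hz
    · obtain ⟨i, hi, rfl⟩ := mem_img.mp hz
      exact (hG' i hi).2
  have hXne : ∃ q, q ∈ X := by
    obtain ⟨q, hq⟩ := h3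
    exact ⟨q, mem_un.mpr (Or.inl hq)⟩
  obtain ⟨s', hs', hs'X⟩ := exists_Ts hc hXc hXne (hXT.trans hT)
  have hXcl : Cld X := by
    intro q hq p hp hpq
    rcases mem_un.mp hq with hq | hq
    · exact mem_un.mpr (Or.inl (h4 q hq p hp hpq))
    · obtain ⟨i, hi, rfl⟩ := mem_img.mp hq
      obtain ⟨q0, hq0, ξ, hξ, rfl⟩ := mem_prod.mp hi
      rw [fst_pr] at hpq hq
      rcases TR_sub_snoc (hTs _ hq0) (hG.ap_mem hi) hp hpq with h5 | h5
      · rw [h5]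
        exact mem_un.mpr (Or.inr hq)
      · exact mem_un.mpr (Or.inl (h4 q0 hq0 p hp h5))
  have hs'W : s' ∈ TW c T := by
    unfold TW
    refine mem_sep.mpr ⟨hs', ?_⟩
    rw [hs'X]
    exact ⟨hXT, hXne, hXcl⟩
  refine ⟨s', hs'W, mem_TE.mpr ⟨hδ, hsW, hs'W, ?_⟩⟩
  intro q hq ξ hξ
  have hi : pr q ξ ∈ prod (Ts c s) δ := pr_mem_prod.mpr ⟨hq, hξ⟩
  have h5 := hG' _ hi
  rw [fst_pr, snd_pr] at h5
  refine ⟨ap G (pr q ξ), hG.ap_mem hi, h5.1, ?_⟩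
  rw [hs'X]
  refine mem_un.mpr (Or.inr (mem_img.mpr ⟨pr q ξ, hi, ?_⟩))
  rw [fst_pr]

theorem exists_TW (hDC : DC M) {c T : M}
    (hc : Inj c (prod (omega M) (prod (omega M) (omega M))) (omega M))
    (hT : Sub T (fseq (pow (omega M)))) (hcl : Cld T) (hne : ∃ q, q ∈ T) :
    ∃ s, s ∈ TW c T := by
  have _ := hDC
  obtain ⟨q, hq⟩ := hne
  have he : (emp : M) ∈ T := hcl q hq emp (emp_mem_fseq _) (emp_sub _)
  have hX : Ctbl (upair (emp : M) emp) := ctbl_upair _ _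
  have hXT : Sub (upair (emp : M) emp) T := by
    intro z hz
    rcases mem_upair.mp hz with rfl | rfl <;> exact he
  have hXne : ∃ q, q ∈ (upair (emp : M) emp) := ⟨emp, mem_upair.mpr (Or.inl rfl)⟩
  obtain ⟨s, hs, hsX⟩ := exists_Ts hc hX hXne (hXT.trans hT)
  refine ⟨s, ?_⟩
  unfold TW
  refine mem_sep.mpr ⟨hs, ?_⟩
  rw [hsX]
  refine ⟨hXT, hXne, ?_⟩
  intro q hq p _ hpq
  have hqe : q = emp := by rcases mem_upair.mp hq with h | h <;> exact h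
  subst hqe
  have : p = emp := eq_emp fun x hx => not_mem_emp x (hpq x hx)
  rw [this]
  exact hq

theorem tree_main [hDC : Fact (DC M)] (hAD : ADN M) {g l ε T : M}
    (hε : Surj ε (om1 M) l) (hT : Sub T (fseq (pow (omega M)))) (hcl : Cld T)
    (hs : Spl g l T) (hne : ∃ q, q ∈ T) :
    ∃ T' c e τ s0, Sub T' T ∧ (∃ q, q ∈ T') ∧ Cld T' ∧ Spl g l T' ∧
      HC c ∧ HC e ∧ HC τ ∧ HC s0 ∧
        ∀ q, q ∈ T' ↔ HC q ∧ ∃ s, HC s ∧ CcH e τ s0 s ∧ TsH c s q := by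
  obtain ⟨c, hc⟩ := exists_c (M := M)
  obtain ⟨e, he⟩ := exists_e (M := M)
  obtain ⟨s0, hs0⟩ := exists_TW hDC.out hc hT hcl hne
  have hH : Hyp e s0 (TW c T) (TE c g ε T) := by
    refine ⟨he, hs0, ?_, ?_, ?_⟩
    · unfold TW
      exact sep_sub
    · intro δ δ' s s' hδ' hδ h
      obtain ⟨_, h2, h3, h4⟩ := mem_TE.mp h
      exact mem_TE.mpr ⟨om1_trans hδ' hδ, h2, h3, fun q hq ξ hξ =>
        h4 q hq ξ ((mem_om1.mp hδ').1.trans hδ hξ)⟩
    · intro δ s hδ hs'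
      exact TE_tot hDC.out hc hε hT hcl hs hδ hs'
  obtain ⟨τ, hτ, hw⟩ := exists_tau hDC.out hAD hH
  obtain ⟨hC1, hC2, hC3⟩ := main_P hDC.out hAD hH hw
  have hW : ∀ s, s ∈ Cc e τ s0 → s ∈ pow (omega M) ∧ Sub (Ts c s) T ∧ (∃ q, q ∈ Ts c s) ∧
      Cld (Ts c s) := by
    intro s hs
    have := hC1 s hs
    unfold TW at this
    exact mem_sep.mp this
  let T' : M := sep (fseq (pow (omega M))) (fun q => ∃ s, s ∈ Cc e τ s0 ∧ q ∈ Ts c s)
  have hT' : ∀ q, q ∈ T' ↔ ∃ s, s ∈ Cc e τ s0 ∧ q ∈ Ts c s := by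
    intro q
    refine ⟨fun h => (mem_sep.mp h).2, fun h => mem_sep.mpr ⟨?_, h⟩⟩
    obtain ⟨s, hs, hq⟩ := h
    exact hT q ((hW s hs).2.1 q hq)
  have hcc : HC c := hc_of_fun hDC.out (hc_prod hDC.out hc_omega (hc_prod hDC.out hc_omega
    hc_omega)) hc.1 fun _ hi => hc_omega.of_mem (hc.1.ap_mem hi)
  have hττ : HC τ := hc_of_fun hDC.out hc_omega hτ fun n hn => by
    have h1 := mem_funs.mp (hτ.ap_mem hn)
    exact hc_of_fun hDC.out (hc_fseq hDC.out hc_omega) h1 fun _ hi =>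
      hc_omega.of_mem (h1.ap_mem hi)
  have hreal : ∀ s, s ∈ pow (omega M) → HC s := fun s hs => hc_omega.sub (mem_pow'.mp hs)
  refine ⟨T', c, e, τ, s0, ?_, ?_, ?_, ?_, hcc, hc_e he, hττ, hreal s0 (hH.sub _ hs0), ?_⟩
  · intro q hq
    obtain ⟨s, hs, hqs⟩ := (hT' q).mp hq
    exact (hW s hs).2.1 q hqs
  · obtain ⟨s, hs⟩ := hC2
    obtain ⟨q, hq⟩ := (hW s hs).2.2.1
    exact ⟨q, (hT' q).mpr ⟨s, hs, hq⟩⟩
  · intro q hq p hp hpq
    obtain ⟨s, hs, hqs⟩ := (hT' q).mp hq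
    exact (hT' p).mpr ⟨s, hs, (hW s hs).2.2.2 q hqs p hp hpq⟩
  · intro q hq α hα
    obtain ⟨s, hs, hqs⟩ := (hT' q).mp hq
    obtain ⟨ξ, hξ, hξα⟩ := hε.2 α hα
    obtain ⟨s', hs', hE⟩ := hC3 s (suc ξ) hs (suc_mem_om1 hξ)
    obtain ⟨_, _, _, h4⟩ := mem_TE.mp hE
    obtain ⟨x, hx, hgx, hxs⟩ := h4 q hqs ξ (mem_suc_self ξ)
    exact ⟨x, hx, hgx.trans hξα, (hT' _).mpr ⟨s', hs', hxs⟩⟩
  · intro q
    rw [hT' q]
    constructor
    · rintro ⟨s, hs, hqs⟩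
      have hq : HC q := hc_seq (hT q ((hW s hs).2.1 q hqs))
      exact ⟨hq, s, hreal s (hW s hs).1, (CcH_iff hH hτ hw).mpr hs,
        (TsH_iff hc.1 hq).mpr hqs⟩
    · rintro ⟨hq, s, _, h1, h2⟩
      exact ⟨s, (CcH_iff hH hτ hw).mp h1, (TsH_iff hc.1 hq).mp h2⟩

end Pool.Agent.Lib.MP_3b60c8_lc
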