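import Pool.Agent.Lib.MP_3b60c8_lc.HEqA

/-! ROW lst-TS. Countable sets of finite sequences of reals coded by reals, where `c` is an
injection of `ω × (ω × ω)` into `ω`. `exists_Ts`: with an enumeration `f : ω → X` of `X` take
`s = {c (i, (0, dom (f i)))} ∪ {c (i, (j + 1, k)) | j ∈ dom (f i), k ∈ (f i) j}`. -/

set_option synthInstance.maxSize 2000

namespace Pool.Agent.Lib.MP_3b60c8_lc

open Pool.Agent.Lib.MP_f5c99b_lc

universe u

variable {M : Type u} [Membership M M] [hZF : Fact (IsModelOfZF M)]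

/-- the set of finite sequences of reals coded by `s` -/
noncomputable def Ts (c s : M) : M :=
  sep (fseq (pow (omega M))) (fun q => ∃ i, i ∈ omega M ∧ ap c (pr i (pr emp (dom q))) ∈ s ∧
    ∀ j, j ∈ dom q → ∀ k, k ∈ omega M → (k ∈ ap q j ↔ ap c (pr i (pr (suc j) k)) ∈ s))

instance DT_Ts (t1 t2 : (ℕ → M) → M) [DT t1] [DT t2] : DT (fun v => Ts (t1 v) (t2 v)) := by
  refine DT2 (f := Ts) ?_ t1 t2
  unfold Ts
  infer_instance

/-- the predicate `q ∈ Ts c s` over `(HC, ∈)` -/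
def TsH (c s q : M) : Prop := (∃ n, n ∈ omega M ∧ FnH q n) ∧
  (∀ j, j ∈ domH q → Sub (apH q j) (omega M)) ∧
    ∃ i, i ∈ omega M ∧ apH c (pr i (pr emp (domH q))) ∈ s ∧
      ∀ j, j ∈ domH q → ∀ k, k ∈ omega M → (k ∈ apH q j ↔ apH c (pr i (pr (suc j) k)) ∈ s)

section

variable [hDC : Fact (DC M)]

instance DH_TsH (t1 t2 t3 : (ℕ → M) → M) [DHT t1] [DHT t2] [DHT t3] :
    DH (fun v => TsH (t1 v) (t2 v) (t3 v)) := by
  refine DH3 (P := TsH) ?_ t1 t2 t3
  unfold TsH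
  infer_instance

/-- finite sequences of reals are hereditarily countable -/
theorem hc_seq {q : M} (hq : q ∈ fseq (pow (omega M))) : HC q := by
  obtain ⟨n, hn, hf⟩ := mem_fseq.mp hq
  exact hc_of_fun hDC.out (hc_omega.of_mem hn) hf fun _ hi =>
    hc_omega.sub (mem_pow'.mp (hf.ap_mem hi))

theorem TsH_iff {c s q : M} (hc : IsFun c (prod (omega M) (prod (omega M) (omega M))) (omega M))
    (hq : HC q) : TsH c s q ↔ q ∈ Ts c s := by
  have hcc : HC c := hc_of_fun hDC.out (hc_prod hDC.out hc_omega (hc_prod hDC.out hc_omega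
    hc_omega)) hc fun _ hi => hc_omega.of_mem (hc.ap_mem hi)
  have hap : ∀ i a b, i ∈ omega M → a ∈ omega M → b ∈ omega M →
      apH c (pr i (pr a b)) = ap c (pr i (pr a b)) := fun i a b hi ha hb =>
    apH_eq hc hcc (pr_mem_prod.mpr ⟨hi, pr_mem_prod.mpr ⟨ha, hb⟩⟩)
  constructor
  · rintro ⟨⟨n, hn, h1⟩, h2, i, hi, h3, h4⟩
    obtain ⟨b, hf⟩ := (FnH_iff hq).mp h1
    rw [domH_eq hf hq] at h2 h3 h4
    have hf' : IsFun q n (pow (omega M)) := hf.mono fun j hj => by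
      have := h2 j hj
      rw [apH_eq hf hq hj] at this
      exact mem_pow'.mpr this
    refine mem_sep.mpr ⟨mem_fseq.mpr ⟨n, hn, hf'⟩, i, hi, ?_, ?_⟩
    · rw [hf.dom, ← hap i emp n hi emp_mem_omega hn]
      exact h3
    · rw [hf.dom]
      intro j hj k hk
      rw [← hap i (suc j) k hi (suc_mem_omega (omega_trans hn hj)) hk, ← h4 j hj k hk,
        apH_eq hf hq hj]
  · intro h
    obtain ⟨h1, i, hi, h3, h4⟩ := mem_sep.mp h
    obtain ⟨n, hn, hf⟩ := mem_fseq.mp h1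
    rw [hf.dom] at h3 h4
    refine ⟨⟨n, hn, (FnH_iff hq).mpr ⟨_, hf⟩⟩, ?_, i, hi, ?_, ?_⟩
    · rw [domH_eq hf hq]
      intro j hj
      rw [apH_eq hf hq hj]
      exact mem_pow'.mp (hf.ap_mem hj)
    · rw [domH_eq hf hq, hap i emp n hi emp_mem_omega hn]
      exact h3
    · rw [domH_eq hf hq]
      intro j hj k hk
      rw [hap i (suc j) k hi (suc_mem_omega (omega_trans hn hj)) hk, apH_eq hf hq hj]
      exact h4 j hj k hk

end

theorem exists_c : ∃ c : M, Inj c (prod (omega M) (prod (omega M) (omega M))) (omega M) :=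
  ctbl_omega.prod (ctbl_omega.prod ctbl_omega)

/-- the sequence of length `n` with index `i` -/
noncomputable def TS_g (c s i n : M) : M :=
  lam n (fun j => sep (omega M) (fun k => ap c (pr i (pr (suc j) k)) ∈ s))

instance DT_TS_g (t1 t2 t3 t4 : (ℕ → M) → M) [DT t1] [DT t2] [DT t3] [DT t4] :
    DT (fun v => TS_g (t1 v) (t2 v) (t3 v) (t4 v)) := by
  refine DT4 (f := TS_g) ?_ t1 t2 t3 t4
  unfold TS_g
  infer_instance

theorem TS_ap {q : M} {j n : M} (hf : IsFun q n (pow (omega M))) {P : M → Prop}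
    [D (fun v => P (v 0))] (hj : j ∈ n) (h : ∀ k, k ∈ omega M → (k ∈ ap q j ↔ P k)) :
    ap q j = sep (omega M) P := by
  refine ext fun k => ?_
  rw [mem_sep]
  constructor
  · intro hk
    have hk' := mem_pow'.mp (hf.ap_mem hj) k hk
    exact ⟨hk', (h k hk').mp hk⟩
  · rintro ⟨hk, h1⟩
    exact (h k hk).mpr h1

/-- `q` is determined by `i` and the length of `q` -/
theorem Ts_ctbl (hDC : DC M) {c s : M} : Ctbl (Ts c s) := by
  have h0 : Ctbl (img (prod (omega M) (omega M)) (fun p : M => TS_g c s (fst p) (snd p))) :=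
    Ctbl.img (ctbl_omega.prod ctbl_omega) _
  refine h0.sub ?_
  intro q hq
  obtain ⟨h1, i, hi, h3, h4⟩ := mem_sep.mp hq
  obtain ⟨n, hn, hf⟩ := mem_fseq.mp h1
  rw [hf.dom] at h3 h4
  refine mem_img.mpr ⟨pr i n, pr_mem_prod.mpr ⟨hi, hn⟩, ?_⟩
  rw [fst_pr, snd_pr, TS_g]
  refine hf.ext (b' := pow (omega M)) (isFun_lam' fun j hj => sep_mem_pow) fun j hj => ?_
  rw [ap_lam' hj]
  exact TS_ap hf hj (h4 j hj)

theorem exists_Ts {c X : M} (hc : Inj c (prod (omega M) (prod (omega M) (omega M))) (omega M))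
    (hX : Ctbl X) (hne : ∃ q, q ∈ X) (hs : Sub X (fseq (pow (omega M)))) :
    ∃ s, s ∈ pow (omega M) ∧ Ts c s = X := by
  obtain ⟨f, hf, hf'⟩ := hX.surj hne
  obtain ⟨hcf, hci⟩ := hc
  have hfi : ∀ i, i ∈ omega M → ∃ n, n ∈ omega M ∧ IsFun (ap f i) n (pow (omega M)) :=
    fun i hi => mem_fseq.mp (hs _ (hf.ap_mem hi))
  have inj : ∀ i a b i' a' b', i ∈ omega M → a ∈ omega M → b ∈ omega M → i' ∈ omega M →
      a' ∈ omega M → b' ∈ omega M → ap c (pr i (pr a b)) = ap c (pr i' (pr a' b')) →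
      i = i' ∧ a = a' ∧ b = b' := by
    intro i a b i' a' b' hi ha hb hi' ha' hb' h
    have h1 := hci _ (pr_mem_prod.mpr ⟨hi, pr_mem_prod.mpr ⟨ha, hb⟩⟩) _
      (pr_mem_prod.mpr ⟨hi', pr_mem_prod.mpr ⟨ha', hb'⟩⟩) h
    obtain ⟨h2, h3⟩ := pr_inj h1
    obtain ⟨h4, h5⟩ := pr_inj h3
    exact ⟨h2, h4, h5⟩
  have hmem : ∀ i a b, i ∈ omega M → a ∈ omega M → b ∈ omega M →
      ap c (pr i (pr a b)) ∈ omega M := fun i a b hi ha hb =>
    hcf.ap_mem (pr_mem_prod.mpr ⟨hi, pr_mem_prod.mpr ⟨ha, hb⟩⟩)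
  obtain ⟨s, hsd⟩ : ∃ s, s = sep (omega M) (fun m => ∃ i, i ∈ omega M ∧
      (m = ap c (pr i (pr emp (dom (ap f i)))) ∨ ∃ j, j ∈ dom (ap f i) ∧
        ∃ k, k ∈ ap (ap f i) j ∧ m = ap c (pr i (pr (suc j) k)))) := ⟨_, rfl⟩
  have k1 : ∀ i n, i ∈ omega M → n ∈ omega M →
      (ap c (pr i (pr emp n)) ∈ s ↔ n = dom (ap f i)) := by
    intro i n hi hn
    rw [hsd, mem_sep]
    constructor
    · rintro ⟨_, i', hi', h | ⟨j, hj, k, hk, h⟩⟩
      · obtain ⟨m, hm, hg⟩ := hfi i' hi'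
        rw [hg.dom] at h
        obtain ⟨rfl, _, rfl⟩ := inj _ _ _ _ _ _ hi emp_mem_omega hn hi' emp_mem_omega hm h
        exact hg.dom.symm
      · obtain ⟨m, hm, hg⟩ := hfi i' hi'
        rw [hg.dom] at hj
        have hk' := mem_pow'.mp (hg.ap_mem hj) k hk
        obtain ⟨_, h2, _⟩ := inj _ _ _ _ _ _ hi emp_mem_omega hn hi'
          (suc_mem_omega (omega_trans hm hj)) hk' h
        exact absurd h2.symm (suc_ne_emp j)
    · intro h
      exact ⟨hmem _ _ _ hi emp_mem_omega hn, i, hi, Or.inl (by rw [h])⟩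
  have k2 : ∀ i j k, i ∈ omega M → j ∈ omega M → k ∈ omega M →
      (ap c (pr i (pr (suc j) k)) ∈ s ↔ j ∈ dom (ap f i) ∧ k ∈ ap (ap f i) j) := by
    intro i j k hi hj hk
    rw [hsd, mem_sep]
    constructor
    · rintro ⟨_, i', hi', h | ⟨j', hj', k', hk', h⟩⟩
      · obtain ⟨m, hm, hg⟩ := hfi i' hi'
        rw [hg.dom] at h
        obtain ⟨_, h2, _⟩ := inj _ _ _ _ _ _ hi (suc_mem_omega hj) hk hi' emp_mem_omega hm h
        exact absurd h2 (suc_ne_emp j)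
      · obtain ⟨m, hm, hg⟩ := hfi i' hi'
        have hj1 := hj'
        rw [hg.dom] at hj1
        have hk1 := mem_pow'.mp (hg.ap_mem hj1) k' hk'
        obtain ⟨h1, h2, h3⟩ := inj _ _ _ _ _ _ hi (suc_mem_omega hj) hk hi'
          (suc_mem_omega (omega_trans hm hj1)) hk1 h
        have h4 := C2_suc_inj h2
        subst h1 h3 h4
        exact ⟨hj', hk'⟩
    · rintro ⟨h1, h2⟩
      exact ⟨hmem _ _ _ hi (suc_mem_omega hj) hk, i, hi, Or.inr ⟨j, h1, k, h2, rfl⟩⟩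
  refine ⟨s, by rw [hsd]; exact sep_mem_pow, ?_⟩
  refine ext fun q => ?_
  rw [Ts, mem_sep]
  constructor
  · rintro ⟨h1, i, hi, h3, h4⟩
    obtain ⟨n, hn, hq⟩ := mem_fseq.mp h1
    rw [hq.dom] at h3 h4
    obtain ⟨m, hm, hg⟩ := hfi i hi
    have e := (k1 i n hi hn).mp h3
    rw [hg.dom] at e
    subst e
    have : q = ap f i := hq.ext hg fun j hj => ext fun k => by
      have hjω := omega_trans hn hj
      constructor
      · intro hk
        have hk' := mem_pow'.mp (hq.ap_mem hj) k hk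
        exact ((k2 i j k hi hjω hk').mp ((h4 j hj k hk').mp hk)).2
      · intro hk
        have hk' := mem_pow'.mp (hg.ap_mem hj) k hk
        exact (h4 j hj k hk').mpr ((k2 i j k hi hjω hk').mpr ⟨by rw [hg.dom]; exact hj, hk⟩)
    rw [this]
    exact hf.ap_mem hi
  · intro hq
    obtain ⟨i, hi, e⟩ := hf' q hq
    refine ⟨hs q hq, i, hi, ?_, ?_⟩
    · obtain ⟨m, hm, hg⟩ := hfi i hi
      rw [← e, hg.dom]
      exact (k1 i m hi hm).mpr hg.dom.symm
    · intro j hj k hk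
      obtain ⟨m, hm, hg⟩ := hfi i hi
      rw [← e] at hj ⊢
      have hj' := hj
      rw [hg.dom] at hj'
      rw [k2 i j k hi (omega_trans hm hj') hk]
      exact ⟨fun h => ⟨hj, h⟩, fun h => h.2⟩

end Pool.Agent.Lib.MP_3b60c8_lc
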