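import Pool.Agent.Lib.MP_3b60c8_lc.Am

/-! ROW lst-ZIP. If `c ↦ (fa c, fb c)` is a bijection of `C` onto `A × B` then
`C ^ ω ≅ A ^ ω × B ^ ω`; with Kuratowski-Ulam (`Mgr.sections`, `of_sections`). First show a
general lemma: a bijection `φ : P → P'` such that every `v ∈ B'` contains the image of some
`u ∈ B` and the image of every `u ∈ B` contains some `v ∈ B'` maps meager sets to meager sets
and back. The image of `cone C p` is `cone A (fa ∘ p) × cone B (fb ∘ p)`. -/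

set_option synthInstance.maxSize 2000

namespace Pool.Agent.Lib.MP_3b60c8_lc

open Pool.Agent.Lib.MP_f5c99b_lc

universe u

variable {M : Type u} [Membership M M] [hZF : Fact (IsModelOfZF M)]

/-- transfer of meagerness along a relation -/
theorem zip_mgr {P B P' B' X X' : M} (R : M → M → Prop) [hR : D (fun v => R (v 0) (v 1))]
    (hB' : ∀ w, w ∈ B' → Sub w P') (hX' : Sub X' P')
    (ha : ∀ v, v ∈ B' → ∃ u, u ∈ B ∧ ∀ w, w ∈ B → Sub w u → ∃ w', w' ∈ B' ∧ Sub w' v ∧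
      ∀ x', x' ∈ w' → ∃ x, x ∈ w ∧ R x x')
    (hb : ∀ x', x' ∈ X' → ∃ x, x ∈ X ∧ R x x' ∧ ∀ y, y ∈ P → R y x' → y = x)
    (h : Mgr B P X) : Mgr B' P' X' := by
  obtain ⟨hX, O, hO, hOD, hx⟩ := h
  have hR' : ∀ t1 t2 : (ℕ → M) → M, DT t1 → DT t2 → D (fun v => R (t1 v) (t2 v)) :=
    fun t1 t2 _ _ => D2 hR t1 t2
  have hD : D (fun v : ℕ → M => ∃ x, x ∈ ap O (v 1) ∧ R x (v 0)) := by
    have := hR' (fun v => v 0) (fun v => v 1) inferInstance inferInstance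
    have h2 : D (fun v : ℕ → M => R (v 0) (v 1)) := this
    have h3 := hR' (fun v => v 0) (fun v => v 2) inferInstance inferInstance
    infer_instance
  have hDT : DT (fun v : ℕ → M => sep P' (fun x' => ∃ x, x ∈ ap O (v 0) ∧ R x x')) := by
    infer_instance
  have hmem : ∀ n x', x' ∈ sep P' (fun x' => ∃ x, x ∈ ap O n ∧ R x x') ↔
      x' ∈ P' ∧ ∃ x, x ∈ ap O n ∧ R x x' := by
    intro n x'
    have h3 : D (fun v : ℕ → M => ∃ x, x ∈ ap O n ∧ R x (v 0)) := by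
      have h2 := hR' (fun v => v 0) (fun v => v 1) inferInstance inferInstance
      infer_instance
    exact mem_sep
  refine ⟨hX', lam (omega M) (fun n => sep P' (fun x' => ∃ x, x ∈ ap O n ∧ R x x')), ?_, ?_, ?_⟩
  · refine isFun_lam' fun n _ => mem_pow'.mpr fun x' hx' => ?_
    exact ((hmem n x').mp hx').1
  · intro n hn
    rw [ap_lam' hn]
    intro v hv
    obtain ⟨u, hu, hu'⟩ := ha v hv
    obtain ⟨w, hw, hwu, hwO⟩ := hOD n hn u hu
    obtain ⟨w', hw', h1, h2⟩ := hu' w hw hwu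
    refine ⟨w', hw', h1, fun x' hx' => ?_⟩
    obtain ⟨x, hxw, hxR⟩ := h2 x' hx'
    exact (hmem n x').mpr ⟨hB' w' hw' x' hx', x, hwO x hxw, hxR⟩
  · intro x' hx'
    obtain ⟨x, hxX, hxR, huniq⟩ := hb x' hx'
    obtain ⟨n, hn, hxn⟩ := hx x hxX
    refine ⟨n, hn, ?_⟩
    rw [ap_lam' hn]
    intro h3
    obtain ⟨_, y, hy, hyR⟩ := (hmem n x').mp h3
    have hyP : y ∈ P := mem_pow'.mp (hO.ap_mem hn) y hy
    rw [huniq y hyP hyR] at hy
    exact hxn hy

theorem zip_cmp_fun {A C fa h : M} (hfa : IsFun fa C A) (hh : IsFun h (omega M) C) :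
    IsFun (cmp (omega M) h fa) (omega M) A :=
  isFun_lam' fun _ hn => hfa.ap_mem (hh.ap_mem hn)

theorem zip_cmp_ap {fa h n : M} (hn : n ∈ omega M) :
    ap (cmp (omega M) h fa) n = ap fa (ap h n) := by
  unfold MP_f5c99b_lc.cmp
  exact ap_lam' hn

/-- the sequence in `C` given by sequences in `A`, `B` -/
theorem zip_exists {A B C fa fb f g : M} (hfa : IsFun fa C A) (hfb : IsFun fb C B)
    (hbij : ∀ x y, x ∈ A → y ∈ B → ∃ c, c ∈ C ∧ ap fa c = x ∧ ap fb c = y)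
    (hinj : ∀ c c', c ∈ C → c' ∈ C → ap fa c = ap fa c' → ap fb c = ap fb c' → c = c')
    (hf : IsFun f (omega M) A) (hg : IsFun g (omega M) B) :
    ∃ h, IsFun h (omega M) C ∧ cmp (omega M) h fa = f ∧ cmp (omega M) h fb = g := by
  have key : ∀ n, n ∈ omega M →
      iota (fun c => c ∈ C ∧ ap fa c = ap f n ∧ ap fb c = ap g n) ∈ C ∧
      ap fa (iota (fun c => c ∈ C ∧ ap fa c = ap f n ∧ ap fb c = ap g n)) = ap f n ∧
      ap fb (iota (fun c => c ∈ C ∧ ap fa c = ap f n ∧ ap fb c = ap g n)) = ap g n := by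
    intro n hn
    obtain ⟨c, hc, h1, h2⟩ := hbij _ _ (hf.ap_mem hn) (hg.ap_mem hn)
    have e : iota (fun c => c ∈ C ∧ ap fa c = ap f n ∧ ap fb c = ap g n) = c := by
      refine iota_eq ⟨hc, h1, h2⟩ ?_
      rintro c' ⟨h3, h4, h5⟩
      exact hinj _ _ h3 hc (h4.trans h1.symm) (h5.trans h2.symm)
    rw [e]
    exact ⟨hc, h1, h2⟩
  have hh : IsFun (lam (omega M) (fun n => iota (fun c => c ∈ C ∧ ap fa c = ap f n ∧
      ap fb c = ap g n))) (omega M) C := isFun_lam' fun n hn => (key n hn).1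
  refine ⟨_, hh, ?_, ?_⟩
  · refine (zip_cmp_fun hfa hh).ext hf fun n hn => ?_
    rw [zip_cmp_ap hn, ap_lam' hn]
    exact (key n hn).2.1
  · refine (zip_cmp_fun hfb hh).ext hg fun n hn => ?_
    rw [zip_cmp_ap hn, ap_lam' hn]
    exact (key n hn).2.2

theorem zip_inj {C fa fb h h' : M}
    (hinj : ∀ c c', c ∈ C → c' ∈ C → ap fa c = ap fa c' → ap fb c = ap fb c' → c = c')
    (hh : IsFun h (omega M) C) (hh' : IsFun h' (omega M) C)
    (h1 : cmp (omega M) h fa = cmp (omega M) h' fa)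
    (h2 : cmp (omega M) h fb = cmp (omega M) h' fb) : h = h' := by
  refine hh.ext hh' fun n hn => ?_
  refine hinj _ _ (hh.ap_mem hn) (hh'.ap_mem hn) ?_ ?_
  · rw [← zip_cmp_ap hn, ← zip_cmp_ap hn, h1]
  · rw [← zip_cmp_ap hn, ← zip_cmp_ap hn, h2]

/-- every box contains the image of a cone -/
theorem zip_box {A B C fa fb p q : M} (hA' : ∃ x, x ∈ A) (hB' : ∃ x, x ∈ B)
    (hfa : IsFun fa C A) (hfb : IsFun fb C B)
    (hbij : ∀ x y, x ∈ A → y ∈ B → ∃ c, c ∈ C ∧ ap fa c = x ∧ ap fb c = y)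
    (hinj : ∀ c c', c ∈ C → c' ∈ C → ap fa c = ap fa c' → ap fb c = ap fb c' → c = c')
    (hp : p ∈ fseq A) (hq : q ∈ fseq B) :
    ∃ r, r ∈ fseq C ∧ ∀ h, h ∈ cone C r →
      cmp (omega M) h fa ∈ cone A p ∧ cmp (omega M) h fb ∈ cone B q := by
  obtain ⟨x, hx⟩ := S_cone_ne hA' hp
  obtain ⟨y, hy⟩ := S_cone_ne hB' hq
  obtain ⟨hx1, hx2⟩ := mem_cone.mp hx
  obtain ⟨hy1, hy2⟩ := mem_cone.mp hy
  obtain ⟨h0, hh0, e1, e2⟩ := zip_exists hfa hfb hbij hinj hx1 hy1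
  obtain ⟨n, hn, hp'⟩ := mem_fseq.mp hp
  obtain ⟨m, hm, hq'⟩ := mem_fseq.mp hq
  have key : ∃ N, N ∈ omega M ∧ Sub n N ∧ Sub m N := by
    rcases omega_tri hn hm with h | h | h
    · exact ⟨m, hm, (omega_sub_iff hn hm).mpr (Or.inl h), Sub.refl m⟩
    · exact ⟨m, hm, (omega_sub_iff hn hm).mpr (Or.inr h), Sub.refl m⟩
    · exact ⟨n, hn, Sub.refl n, (omega_sub_iff hm hn).mpr (Or.inl h)⟩
  obtain ⟨N, hN, hnN, hmN⟩ := key
  refine ⟨restr h0 N, restr_mem_fseq hh0 hN, fun h hh => ?_⟩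
  obtain ⟨hh1, hh2⟩ := mem_cone.mp hh
  have hap : ∀ i, i ∈ N → ap h i = ap h0 i := by
    intro i hi
    rw [S_ap_eq (isFun_restr_omega hh0 hN) hh1 hh2 hi, hh0.ap_restr (S_omega_sub hN) hi]
  constructor
  · refine mem_cone.mpr ⟨zip_cmp_fun hfa hh1, S_sub_of hp' (zip_cmp_fun hfa hh1)
      (S_omega_sub hn) fun i hi => ?_⟩
    have hi' := S_omega_sub hn i hi
    rw [zip_cmp_ap hi', hap i (hnN i hi), ← zip_cmp_ap hi', e1, S_ap_eq hp' hx1 hx2 hi]
  · refine mem_cone.mpr ⟨zip_cmp_fun hfb hh1, S_sub_of hq' (zip_cmp_fun hfb hh1)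
      (S_omega_sub hm) fun i hi => ?_⟩
    have hi' := S_omega_sub hm i hi
    rw [zip_cmp_ap hi', hap i (hmN i hi), ← zip_cmp_ap hi', e2, S_ap_eq hq' hy1 hy2 hi]

/-- the image of a cone is a box -/
theorem zip_cone {A B C fa fb s h : M} (hfa : IsFun fa C A) (hfb : IsFun fb C B)
    (hinj : ∀ c c', c ∈ C → c' ∈ C → ap fa c = ap fa c' → ap fb c = ap fb c' → c = c')
    (hs : s ∈ fseq C) (hh : IsFun h (omega M) C)
    (h1 : cmp (omega M) h fa ∈ cone A (cmp (dom s) s fa))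
    (h2 : cmp (omega M) h fb ∈ cone B (cmp (dom s) s fb)) : h ∈ cone C s := by
  obtain ⟨n, hn, hs'⟩ := mem_fseq.mp hs
  have hna : IsFun (cmp (dom s) s fa) n A := by
    rw [hs'.dom]
    exact isFun_lam' fun i hi => hfa.ap_mem (hs'.ap_mem hi)
  have hnb : IsFun (cmp (dom s) s fb) n B := by
    rw [hs'.dom]
    exact isFun_lam' fun i hi => hfb.ap_mem (hs'.ap_mem hi)
  refine mem_cone.mpr ⟨hh, S_sub_of hs' hh (S_omega_sub hn) fun i hi => ?_⟩
  have hi' := S_omega_sub hn i hi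
  refine hinj _ _ (hh.ap_mem hi') (hs'.ap_mem hi) ?_ ?_
  · rw [← zip_cmp_ap hi', S_ap_eq hna (mem_cone.mp h1).1 (mem_cone.mp h1).2 hi, hs'.dom]
    unfold MP_f5c99b_lc.cmp
    rw [ap_lam' hi]
  · rw [← zip_cmp_ap hi', S_ap_eq hnb (mem_cone.mp h2).1 (mem_cone.mp h2).2 hi, hs'.dom]
    unfold MP_f5c99b_lc.cmp
    rw [ap_lam' hi]

theorem zip_cone' {A C fa s h : M} (hfa : IsFun fa C A)
    (hs : s ∈ fseq C) (hh : h ∈ cone C s) :
    cmp (omega M) h fa ∈ cone A (cmp (dom s) s fa) := by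
  obtain ⟨n, hn, hs'⟩ := mem_fseq.mp hs
  obtain ⟨h1, h2⟩ := mem_cone.mp hh
  have hna : IsFun (cmp (dom s) s fa) n A := by
    rw [hs'.dom]
    exact isFun_lam' fun i hi => hfa.ap_mem (hs'.ap_mem hi)
  refine mem_cone.mpr ⟨zip_cmp_fun hfa h1, S_sub_of hna (zip_cmp_fun hfa h1)
    (S_omega_sub hn) fun i hi => ?_⟩
  have hi' := S_omega_sub hn i hi
  rw [zip_cmp_ap hi', S_ap_eq hs' h1 h2 hi, hs'.dom]
  unfold MP_f5c99b_lc.cmp
  rw [ap_lam' hi]

theorem zip_seq {A C fa s : M} (hfa : IsFun fa C A) (hs : s ∈ fseq C) :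
    cmp (dom s) s fa ∈ fseq A := by
  obtain ⟨n, hn, hs'⟩ := mem_fseq.mp hs
  rw [hs'.dom]
  exact mem_fseq.mpr ⟨n, hn, isFun_lam' fun i hi => hfa.ap_mem (hs'.ap_mem hi)⟩

/-- the transfer between `C ^ ω` and `A ^ ω × B ^ ω` -/
theorem zip_transfer {A B C fa fb X X' : M} (hA' : ∃ x, x ∈ A)
    (hB' : ∃ x, x ∈ B) (hfa : IsFun fa C A) (hfb : IsFun fb C B)
    (hbij : ∀ x y, x ∈ A → y ∈ B → ∃ c, c ∈ C ∧ ap fa c = x ∧ ap fb c = y)
    (hinj : ∀ c c', c ∈ C → c' ∈ C → ap fa c = ap fa c' → ap fb c = ap fb c' → c = c')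
    (hX : Sub X (funs (omega M) C)) (hX' : Sub X' (prod (funs (omega M) A) (funs (omega M) B)))
    (hXX' : ∀ h, h ∈ funs (omega M) C →
      (h ∈ X ↔ pr (cmp (omega M) h fa) (cmp (omega M) h fb) ∈ X')) :
    Mgr (coneB C) (funs (omega M) C) X ↔
      Mgr (prodB (coneB A) (coneB B)) (prod (funs (omega M) A) (funs (omega M) B)) X' := by
  constructor
  · refine zip_mgr (fun h p => p = pr (cmp (omega M) h fa) (cmp (omega M) h fb)) ?_ hX' ?_ ?_
    · intro w hw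
      obtain ⟨u, v, hu, hv, rfl⟩ := mem_prodB.mp hw
      obtain ⟨p, _, rfl⟩ := mem_coneB.mp hu
      obtain ⟨q, _, rfl⟩ := mem_coneB.mp hv
      exact prod_mono sep_sub sep_sub
    · intro v hv
      obtain ⟨u1, u2, hu1, hu2, rfl⟩ := mem_prodB.mp hv
      obtain ⟨p, hp, rfl⟩ := mem_coneB.mp hu1
      obtain ⟨q, hq, rfl⟩ := mem_coneB.mp hu2
      obtain ⟨r, hr, hr'⟩ := zip_box hA' hB' hfa hfb hbij hinj hp hq
      refine ⟨cone C r, mem_coneB.mpr ⟨r, hr, rfl⟩, fun w hw hwr => ?_⟩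
      obtain ⟨s, hs, rfl⟩ := mem_coneB.mp hw
      have hex : ∀ x', x' ∈ prod (cone A (cmp (dom s) s fa)) (cone B (cmp (dom s) s fb)) →
          ∃ x, x ∈ cone C s ∧ x' = pr (cmp (omega M) x fa) (cmp (omega M) x fb) := by
        intro x' hx'
        obtain ⟨f, hf, g, hg, rfl⟩ := mem_prod.mp hx'
        obtain ⟨h, hh, e1, e2⟩ := zip_exists hfa hfb hbij hinj (mem_cone.mp hf).1
          (mem_cone.mp hg).1
        refine ⟨h, zip_cone hfa hfb hinj hs hh (e1 ▸ hf) (e2 ▸ hg), ?_⟩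
        rw [e1, e2]
      refine ⟨prod (cone A (cmp (dom s) s fa)) (cone B (cmp (dom s) s fb)),
        B2_prod_mem (mem_coneB.mpr ⟨_, zip_seq hfa hs, rfl⟩)
          (mem_coneB.mpr ⟨_, zip_seq hfb hs, rfl⟩), ?_, hex⟩
      intro x' hx'
      obtain ⟨x, hx, rfl⟩ := hex x' hx'
      obtain ⟨h1, h2⟩ := hr' x (hwr x hx)
      exact pr_mem_prod.mpr ⟨h1, h2⟩
    · intro x' hx'
      obtain ⟨f, hf, g, hg, rfl⟩ := mem_prod.mp (hX' x' hx')
      obtain ⟨h, hh, e1, e2⟩ := zip_exists hfa hfb hbij hinj (mem_funs.mp hf) (mem_funs.mp hg)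
      refine ⟨h, (hXX' h (mem_funs.mpr hh)).mpr (by rw [e1, e2]; exact hx'), by rw [e1, e2], ?_⟩
      intro y hy hyR
      obtain ⟨h1, h2⟩ := pr_inj hyR
      exact zip_inj hinj (mem_funs.mp hy) hh (h1.symm.trans e1.symm)
        (h2.symm.trans e2.symm)
  · refine zip_mgr (fun p h => p = pr (cmp (omega M) h fa) (cmp (omega M) h fb)) ?_ hX ?_ ?_
    · intro w hw
      obtain ⟨p, _, rfl⟩ := mem_coneB.mp hw
      exact sep_sub
    · intro v hv
      obtain ⟨s, hs, rfl⟩ := mem_coneB.mp hv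
      refine ⟨prod (cone A (cmp (dom s) s fa)) (cone B (cmp (dom s) s fb)),
        B2_prod_mem (mem_coneB.mpr ⟨_, zip_seq hfa hs, rfl⟩)
          (mem_coneB.mpr ⟨_, zip_seq hfb hs, rfl⟩), fun w hw hws => ?_⟩
      obtain ⟨u1, u2, hu1, hu2, rfl⟩ := mem_prodB.mp hw
      obtain ⟨p, hp, rfl⟩ := mem_coneB.mp hu1
      obtain ⟨q, hq, rfl⟩ := mem_coneB.mp hu2
      obtain ⟨r, hr, hr'⟩ := zip_box hA' hB' hfa hfb hbij hinj hp hq
      refine ⟨cone C r, mem_coneB.mpr ⟨r, hr, rfl⟩, ?_, ?_⟩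
      · intro x hx
        obtain ⟨h1, h2⟩ := hr' x hx
        obtain ⟨h3, h4⟩ := pr_mem_prod.mp (hws _ (pr_mem_prod.mpr ⟨h1, h2⟩))
        exact zip_cone hfa hfb hinj hs (mem_cone.mp hx).1 h3 h4
      · intro x hx
        obtain ⟨h1, h2⟩ := hr' x hx
        exact ⟨_, pr_mem_prod.mpr ⟨h1, h2⟩, rfl⟩
    · intro x hx
      exact ⟨_, (hXX' x (hX x hx)).mp hx, rfl, fun y _ hy => hy⟩

theorem Am_zip (hDC : DC M) (hAD : ADN M) {A B C fa fb : M} (hA : Ctbl A) (hA' : ∃ x, x ∈ A)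
    (hB : Ctbl B) (hB' : ∃ x, x ∈ B) (hC : Ctbl C) (hfa : IsFun fa C A) (hfb : IsFun fb C B)
    (hbij : ∀ x y, x ∈ A → y ∈ B → ∃ c, c ∈ C ∧ ap fa c = x ∧ ap fb c = y)
    (hinj : ∀ c c', c ∈ C → c' ∈ C → ap fa c = ap fa c' → ap fb c = ap fb c' → c = c')
    (Q : M → M → Prop) [D (fun v => Q (v 0) (v 1))] :
    Am C (fun h => Q (cmp (omega M) h fa) (cmp (omega M) h fb)) ↔
      Am A (fun f => Am B (fun g => Q f g)) := by
  rename_i hQ
  have hQ' : ∀ t1 t2 : (ℕ → M) → M, DT t1 → DT t2 → D (fun v => Q (t1 v) (t2 v)) :=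
    fun t1 t2 _ _ => D2 hQ t1 t2
  have d1 : D (fun v : ℕ → M => ¬ Q (cmp (omega M) (v 0) fa) (cmp (omega M) (v 0) fb)) := by
    have := hQ' (fun v => cmp (omega M) (v 0) fa) (fun v => cmp (omega M) (v 0) fb)
      inferInstance inferInstance
    infer_instance
  have d2 : D (fun v : ℕ → M => ¬ Q (fst (v 0)) (snd (v 0))) := by
    have := hQ' (fun v => fst (v 0)) (fun v => snd (v 0)) inferInstance inferInstance
    infer_instance
  have d3 : ∀ f, D (fun v : ℕ → M => ¬ Q f (v 0)) := by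
    intro f
    have := hQ' (fun _ => f) (fun v => v 0) inferInstance inferInstance
    infer_instance
  have hXs : Sub (sep (prod (funs (omega M) A) (funs (omega M) B))
      (fun p => ¬ Q (fst p) (snd p))) (prod (funs (omega M) A) (funs (omega M) B)) := sep_sub
  have hsec : ∀ f, f ∈ funs (omega M) A →
      sep (funs (omega M) B) (fun g => pr f g ∈ sep (prod (funs (omega M) A) (funs (omega M) B))
        (fun p => ¬ Q (fst p) (snd p))) = sep (funs (omega M) B) (fun g => ¬ Q f g) := by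
    intro f hf
    have := d3 f
    refine ext fun g => ?_
    rw [mem_sep, mem_sep, mem_sep, fst_pr, snd_pr, pr_mem_prod]
    exact ⟨fun h => ⟨h.1, h.2.2⟩, fun h => ⟨h.1, ⟨hf, h.1⟩, h.2⟩⟩
  have d4 : D (fun v : ℕ → M => ¬ Q (v 1) (v 0)) := by
    have := hQ' (fun v => v 1) (fun v => v 0) inferInstance inferInstance
    infer_instance
  have hsets : sep (funs (omega M) A) (fun f => ¬ Mgr (coneB B) (funs (omega M) B)
      (sep (funs (omega M) B) (fun g => pr f g ∈ sep (prod (funs (omega M) A)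
        (funs (omega M) B)) (fun p => ¬ Q (fst p) (snd p))))) =
      sep (funs (omega M) A) (fun f => ¬ Am B (fun g => Q f g)) := by
    have d5 : D (fun v : ℕ → M => ¬ Am B (fun g => Q (v 0) g)) := by
      unfold Am
      infer_instance
    refine ext fun f => ?_
    rw [mem_sep, mem_sep]
    constructor
    · rintro ⟨h1, h2⟩
      refine ⟨h1, ?_⟩
      rwa [hsec f h1] at h2
    · rintro ⟨h1, h2⟩
      refine ⟨h1, ?_⟩
      rwa [hsec f h1]
  have step : Am C (fun h => Q (cmp (omega M) h fa) (cmp (omega M) h fb)) ↔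
      Mgr (prodB (coneB A) (coneB B)) (prod (funs (omega M) A) (funs (omega M) B))
        (sep (prod (funs (omega M) A) (funs (omega M) B)) (fun p => ¬ Q (fst p) (snd p))) := by
    unfold Am
    refine zip_transfer hA' hB' hfa hfb hbij hinj sep_sub hXs ?_
    intro h hh
    rw [mem_sep, mem_sep, fst_pr, snd_pr, pr_mem_prod]
    exact ⟨fun h1 => ⟨⟨mem_funs.mpr (zip_cmp_fun hfa (mem_funs.mp hh)),
      mem_funs.mpr (zip_cmp_fun hfb (mem_funs.mp hh))⟩, h1.2⟩, fun h1 => ⟨hh, h1.2⟩⟩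
  rw [step]
  show _ ↔ Mgr (coneB A) (funs (omega M) A)
    (sep (funs (omega M) A) (fun f => ¬ Am B (fun g => Q f g)))
  rw [← hsets]
  exact ⟨fun h => Mgr.sections hDC (S_base hA hA') (S_base hB hB') h,
    fun h => of_sections hDC hAD (csp_seq hA hA') (csp_seq hB hB') hXs h⟩

end Pool.Agent.Lib.MP_3b60c8_lc
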